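import Pool.Agent.Lib_MP_a29272_q1.Apriori

/-! Unit speed geodesics leave the ball after a bounded time. -/

namespace Pool.Agent.Lib_MP_a29272_q1

open Set Metric
open scoped ContDiff RealInnerProductSpace

variable {E : Type} [NormedAddCommGroup E] [InnerProductSpace ℝ E] [FiniteDimensional ℝ E]

/-- PIECE NONTRAP: a unit speed solution in the ball has length at most `5`. -/
theorem nontrap_ham (A : ℝ) (hA : 1 ≤ A) : ∃ δ₀ : ℝ, 0 < δ₀ ∧ ∀ δ, 0 < δ → δ ≤ δ₀ →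
    ∀ Θ : E → E, Shift A δ Θ → ∀ (T : ℝ) (x v : ℝ → E), HamSol Θ T x v →
      gT Θ (x 0) (v 0) (v 0) = 1 → (∀ t ∈ Icc 0 T, ‖x t‖ ^ 2 ≤ 1 + δ) → T ≤ 5 := by
  obtain ⟨C, δ₁, hC, hδ₁, hap⟩ := apriori (E := E) A hA
  refine ⟨min δ₁ (min (1 / (4 * C)) (1 / (16 * A))), by positivity, ?_⟩
  intro δ hδ hle Θ hΘ T x v hs hunit hball
  have hle1 : δ ≤ δ₁ := hle.trans (min_le_left _ _)
  have hle2 : δ ≤ 1 / (4 * C) := hle.trans ((min_le_right _ _).trans (min_le_left _ _))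
  have hle3 : δ ≤ 1 / (16 * A) := hle.trans ((min_le_right _ _).trans (min_le_right _ _))
  have hCδ : C * δ ≤ 1 / 4 := by
    have h := mul_le_mul_of_nonneg_left hle2 (by positivity : (0 : ℝ) ≤ C)
    have h2 : C * (1 / (4 * C)) = 1 / 4 := by
      field_simp
    linarith
  have hAδ : A * δ ≤ 1 / 16 := by
    have h := mul_le_mul_of_nonneg_left hle3 (by positivity : (0 : ℝ) ≤ A)
    have h2 : A * (1 / (16 * A)) = 1 / 16 := by
      field_simp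
    linarith
  have hδ1 : δ ≤ 1 / 16 := by nlinarith
  rcases lt_or_ge T 0 with hT | hT
  · linarith
  have h0 : (0 : ℝ) ∈ Icc 0 T := ⟨le_rfl, hT⟩
  have h1 : T ∈ Icc 0 T := ⟨hT, le_rfl⟩
  -- the speed
  have hg := (hΘ.mom_sub_le hA hδ (by linarith) (x 0) (v 0)).2.1
  rw [hunit] at hg
  have hg1 := (abs_le.1 hg).2
  have hv2 : (4 / 5 : ℝ) ≤ ‖v 0‖ ^ 2 := by
    have h3 : 4 * A * δ * ‖v 0‖ ^ 2 ≤ (1 / 4) * ‖v 0‖ ^ 2 :=
      mul_le_mul_of_nonneg_right (by linarith) (sq_nonneg _)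
    linarith
  have hv : (4 / 5 : ℝ) ≤ ‖v 0‖ := by
    by_contra hlt
    push Not at hlt
    have : ‖v 0‖ ^ 2 < (4 / 5) ^ 2 := pow_lt_pow_left₀ hlt (norm_nonneg _) (by norm_num)
    linarith
  -- the a priori estimate
  have hest := (hap δ hδ hle1 Θ hΘ T x v hs (hball 0 h0) T h1).2
  have hx : ∀ t ∈ Icc 0 T, ‖x t‖ ≤ 11 / 10 := by
    intro t ht
    have h2 : ‖x t‖ ^ 2 ≤ (11 / 10) ^ 2 := by
      have := hball t ht
      norm_num
      linarith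
    exact (sq_le_sq₀ (norm_nonneg _) (by norm_num)).1 h2
  have hTv : ‖T • v 0‖ = T * ‖v 0‖ := by
    rw [norm_smul, Real.norm_eq_abs, abs_of_nonneg hT]
  have h3 : T * ‖v 0‖ ≤ ‖x T‖ + ‖x 0‖ + ‖x T - x 0 - T • v 0‖ := by
    rw [← hTv]
    have h4 : T • v 0 = x T - x 0 - (x T - x 0 - T • v 0) := by abel
    calc ‖T • v 0‖ = ‖x T - x 0 - (x T - x 0 - T • v 0)‖ := by rw [← h4]
      _ ≤ ‖x T - x 0‖ + ‖x T - x 0 - T • v 0‖ := norm_sub_le _ _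
      _ ≤ (‖x T‖ + ‖x 0‖) + ‖x T - x 0 - T • v 0‖ := by
          gcongr
          exact norm_sub_le _ _
  have h5 : C * δ * (T * ‖v 0‖) ≤ (1 / 4) * (T * ‖v 0‖) :=
    mul_le_mul_of_nonneg_right hCδ (by positivity)
  have h6 := hx 0 h0
  have h7 := hx T h1
  have h8 : T * (4 / 5) ≤ T * ‖v 0‖ := mul_le_mul_of_nonneg_left hv hT
  linarith

/-- The nontrapping bound for geodesics of `gT Θ` in the closed ball of radius `√(1 + δ)`. -/
theorem nontrap (A : ℝ) (hA : 1 ≤ A) : ∃ δ₀ : ℝ, 0 < δ₀ ∧ ∀ δ, 0 < δ → δ ≤ δ₀ →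
    ∀ Θ : E → E, Shift A δ Θ → ∀ (τ : ℝ) (γ γ' : ℝ → E), IsGeodesicOn (gT Θ) γ γ' (Icc 0 τ) →
      (∀ t ∈ Icc 0 τ, γ t ∈ closedBall (0 : E) (√(1 + δ))) →
        (∀ t ∈ Icc 0 τ, gT Θ (γ t) (γ' t) (γ' t) = 1) → τ ≤ 5 := by
  obtain ⟨δ₁, hδ₁, h⟩ := nontrap_ham (E := E) A hA
  refine ⟨min δ₁ (min 1 (1 / (4 * A))), by positivity, ?_⟩
  intro δ hδ hle Θ hΘ τ γ γ' hgeo hball hunit
  have hle1 : δ ≤ δ₁ := hle.trans (min_le_left _ _)
  have hle2 : δ ≤ 1 := hle.trans ((min_le_right _ _).trans (min_le_left _ _))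
  have hle3 : δ ≤ 1 / (4 * A) := hle.trans ((min_le_right _ _).trans (min_le_right _ _))
  have hAδ : A * δ ≤ 1 / 4 := by
    have h := mul_le_mul_of_nonneg_left hle3 (by positivity : (0 : ℝ) ≤ A)
    have h2 : A * (1 / (4 * A)) = 1 / 4 := by
      field_simp
    linarith
  rcases le_or_gt τ 0 with hτ | hτ
  · linarith
  have hadm : Adm Θ := hΘ.adm (by linarith) hδ.le hle2 (by linarith)
  refine h δ hδ hle1 Θ hΘ τ γ γ' (hgeo.hamSol hadm hτ) (hunit 0 ⟨le_rfl, hτ.le⟩) ?_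
  intro t ht
  have h1 := hball t ht
  rw [mem_closedBall_zero_iff] at h1
  calc ‖γ t‖ ^ 2 ≤ (√(1 + δ)) ^ 2 := pow_le_pow_left₀ (norm_nonneg _) h1 2
    _ = 1 + δ := Real.sq_sqrt (by linarith)

end Pool.Agent.Lib_MP_a29272_q1
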