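import Mathlib

/-!
# Simple Riemannian manifolds without strictly convex functions: definitions
-/

namespace Pool.Agent.Lib_MP_a29272_q1

open Set Metric
open scoped ContDiff RealInnerProductSpace

section Definitions

variable {E : Type} [NormedAddCommGroup E] [InnerProductSpace ℝ E]

/-- `g` is a smooth Riemannian metric on the closed ball `M` of radius `R` of `E`: a smooth field
of symmetric bilinear forms on `E`, positive definite at every point of `M`. -/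
def IsRiemannianMetric (R : ℝ) (g : E → E →L[ℝ] E →L[ℝ] ℝ) : Prop :=
  ContDiff ℝ ∞ g ∧ (∀ x v w, g x v w = g x w v) ∧
    ∀ x ∈ closedBall (0 : E) R, ∀ v, v ≠ 0 → 0 < g x v v

/-- The Christoffel symbols `Γ_x(v, w)` of the Levi-Civita connection of `g`: the vector with
`g_x(Γ_x(v, w), z) = (1/2) (∂_v g (w, z) + ∂_w g (v, z) - ∂_z g (v, w))` for all `z`. -/
noncomputable def christoffel (g : E → E →L[ℝ] E →L[ℝ] ℝ) (x v w : E) : E :=
  (g x).inverse ((1 / 2 : ℝ) •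
    (fderiv ℝ g x v w + fderiv ℝ g x w v - ((fderiv ℝ g x).flip v).flip w))

/-- The covariant Hessian `∇²f_x(v, w) = D²f_x(v, w) - Df_x(Γ_x(v, w))`. -/
noncomputable def hessian (g : E → E →L[ℝ] E →L[ℝ] ℝ) (f : E → ℝ) (x v w : E) : ℝ :=
  fderiv ℝ (fderiv ℝ f) x v w - fderiv ℝ f x (christoffel g x v w)

/-- `γ` is a geodesic of `g` on the time set `s`, with velocity `γ'`:
`γ'' + Γ_γ(γ', γ') = 0`. -/
def IsGeodesicOn (g : E → E →L[ℝ] E →L[ℝ] ℝ) (γ γ' : ℝ → E) (s : Set ℝ) : Prop :=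
  ∀ t ∈ s, HasDerivWithinAt γ (γ' t) s t ∧
    HasDerivWithinAt γ' (-(christoffel g (γ t) (γ' t) (γ' t))) s t

/-- The boundary of `M` (the sphere of radius `R`) is strictly convex for `g`: the second
fundamental form with respect to the inward normal is positive definite.  That is, for every smooth
curve `c` in the sphere with `c'(0) ≠ 0` and every inward `g`-normal vector `ν` at `c(0)`, the
covariant acceleration `c'' + Γ(c', c')` of `c` at time `0` has positive `g`-inner product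
with `ν`. -/
def StrictlyConvexBoundary (R : ℝ) (g : E → E →L[ℝ] E →L[ℝ] ℝ) : Prop :=
  ∀ c : ℝ → E, ContDiff ℝ ∞ c → (∀ t, ‖c t‖ = R) → deriv c 0 ≠ 0 →
    ∀ ν : E, (∀ w, ⟪c 0, w⟫ = 0 → g (c 0) ν w = 0) → ⟪c 0, ν⟫ < 0 →
      0 < g (c 0) ν (deriv (deriv c) 0 + christoffel g (c 0) (deriv c 0) (deriv c 0))

/-- `γ : [0, 1] → M` is a geodesic of `(M, g)` with `γ(0) = x` and `γ'(0) = v`, so that
`γ(1) = exp_x(v)`. -/
def IsGeodesicFrom (R : ℝ) (g : E → E →L[ℝ] E →L[ℝ] ℝ) (x v : E) (γ : ℝ → E) : Prop :=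
  ∃ γ' : ℝ → E, IsGeodesicOn g γ γ' (Icc 0 1) ∧ γ 0 = x ∧ γ' 0 = v ∧
    ∀ t ∈ Icc (0 : ℝ) 1, γ t ∈ closedBall (0 : E) R

/-- The maximal domain of definition of `exp_x` in `T_x M`. -/
def expDomain (R : ℝ) (g : E → E →L[ℝ] E →L[ℝ] ℝ) (x : E) : Set E :=
  {v | ∃ γ, IsGeodesicFrom R g x v γ}

/-- `(M, g)` is simple: its boundary is strictly convex and, for every `x ∈ M`, the exponential
map `exp_x` is a diffeomorphism from its maximal domain of definition onto `M`. In detail, there is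
a `C^∞` diffeomorphism `Φ` between open sets of `E`, the first of which contains the maximal domain
of definition, which agrees with `exp_x` there and maps this domain onto `M`. -/
def IsSimple (R : ℝ) (g : E → E →L[ℝ] E →L[ℝ] ℝ) : Prop :=
  StrictlyConvexBoundary R g ∧ ∀ x ∈ closedBall (0 : E) R, ∃ Φ : OpenPartialHomeomorph E E,
    ContDiffOn ℝ ∞ Φ Φ.source ∧ ContDiffOn ℝ ∞ Φ.symm Φ.target ∧
    expDomain R g x ⊆ Φ.source ∧ (∀ v γ, IsGeodesicFrom R g x v γ → Φ v = γ 1) ∧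
    Φ '' expDomain R g x = closedBall (0 : E) R

end Definitions

section Metric

variable {E : Type} [NormedAddCommGroup E] [InnerProductSpace ℝ E]

/-- the inner product as a continuous bilinear form -/
noncomputable def inn : E →L[ℝ] E →L[ℝ] ℝ := innerSL ℝ

theorem inn_apply (v w : E) : (inn : E →L[ℝ] E →L[ℝ] ℝ) v w = ⟪v, w⟫ := rfl

/-- the metric `g_x(u,v) = ⟪u,v⟫ + ⟪x,u⟫⟪Θ x,v⟫ + ⟪x,v⟫⟪Θ x,u⟫` -/
noncomputable def gT (Θ : E → E) (x : E) : E →L[ℝ] E →L[ℝ] ℝ :=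
  inn + (inn x).smulRight (inn (Θ x)) + (inn (Θ x)).smulRight (inn x)

theorem gT_apply (Θ : E → E) (x u v : E) :
    gT Θ x u v = ⟪u, v⟫ + ⟪x, u⟫ * ⟪Θ x, v⟫ + ⟪x, v⟫ * ⟪Θ x, u⟫ := by
  simp only [gT, add_apply, ContinuousLinearMap.smulRight_apply, smul_apply, smul_eq_mul,
    inn_apply]
  ring

/-- Admissible shift fields `Θ` at scale `δ`: tangential, supported in a thin shell. -/
structure Shift (A δ : ℝ) (Θ : E → E) : Prop where
  smooth : ContDiff ℝ ∞ Θ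
  orth : ∀ x, ⟪x, Θ x⟫ = 0
  supp : ∀ x, δ / 2 < |‖x‖ ^ 2 - 1| → Θ x = 0
  bd0 : ∀ x, ‖Θ x‖ ≤ A * δ
  bd1 : ∀ x, ‖fderiv ℝ Θ x‖ ≤ A
  bd2 : ∀ x, ‖fderiv ℝ (fderiv ℝ Θ) x‖ ≤ A / δ

/-- the unit sphere is nowhere definite -/
def Saddle (Θ : E → E) : Prop := ∀ x : E, ‖x‖ = 1 →
  (∃ e : E, ⟪x, e⟫ = 0 ∧ e ≠ 0 ∧ ⟪fderiv ℝ Θ x e, e⟫ < ‖e‖ ^ 2) ∧
    ∃ e : E, ⟪x, e⟫ = 0 ∧ e ≠ 0 ∧ ‖e‖ ^ 2 < ⟪fderiv ℝ Θ x e, e⟫

/-- the momentum of a velocity `v` at `x` -/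
noncomputable def mom (Θ : E → E) (x v : E) : E := v + ⟪x, v⟫ • Θ x + ⟪Θ x, v⟫ • x

/-- the velocity of a momentum (inverse of `mom`) -/
noncomputable def vel (Θ : E → E) (x p : E) : E :=
  p - ((⟪x, p⟫ - ‖x‖ ^ 2 * ⟪Θ x, p⟫) / (1 - ‖x‖ ^ 2 * ‖Θ x‖ ^ 2)) • Θ x -
    ((⟪Θ x, p⟫ - ‖Θ x‖ ^ 2 * ⟪x, p⟫) / (1 - ‖x‖ ^ 2 * ‖Θ x‖ ^ 2)) • x

end Metric

section Complete

variable {E : Type} [NormedAddCommGroup E] [InnerProductSpace ℝ E] [FiniteDimensional ℝ E]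

/-- the force: `⟪force, z⟫ = (1/2) D_z g (v, v)` -/
noncomputable def force (Θ : E → E) (x v : E) : E :=
  ⟪Θ x, v⟫ • v + ⟪x, v⟫ • (ContinuousLinearMap.adjoint (fderiv ℝ Θ x)) v

/-- solutions of the geodesic equation on `[0, T]`, in Hamiltonian form -/
structure HamSol (Θ : E → E) (T : ℝ) (x v : ℝ → E) : Prop where
  dx : ∀ t ∈ Icc 0 T, HasDerivWithinAt x (v t) (Icc 0 T) t
  dp : ∀ t ∈ Icc 0 T, HasDerivWithinAt (fun s => mom Θ (x s) (v s)) (force Θ (x t) (v t))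
    (Icc 0 T) t
  dv : ∀ t ∈ Icc 0 T, DifferentiableWithinAt ℝ v (Icc 0 T) t

end Complete

end Pool.Agent.Lib_MP_a29272_q1
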