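import Pool.Agent.Lib_MP_a29272_q1.Defs

/-! Admissible shift fields. -/

namespace Pool.Agent.Lib_MP_a29272_q1

open Set Metric
open scoped ContDiff RealInnerProductSpace

variable {E : Type} [NormedAddCommGroup E] [InnerProductSpace ℝ E]

structure Adm (Θ : E → E) : Prop where
  smooth : ContDiff ℝ ∞ Θ
  orth : ∀ x, ⟪x, Θ x⟫ = 0
  small : ∀ x, ‖x‖ * ‖Θ x‖ < 1

/-- PIECE ADM (easy). On the support `‖x‖² ≤ 1 + δ/2 ≤ 4`. -/
theorem Shift.norm_mul_le {A δ : ℝ} {Θ : E → E} (h : Shift A δ Θ) (hA : 0 ≤ A) (hδ : 0 ≤ δ)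
    (hδ1 : δ ≤ 1) (x : E) : ‖x‖ * ‖Θ x‖ ≤ 2 * A * δ := by
  rcases lt_or_ge (δ / 2) |‖x‖ ^ 2 - 1| with hx | hx
  · rw [h.supp x hx, norm_zero, mul_zero]
    positivity
  · have h1 : ‖x‖ ^ 2 ≤ 2 ^ 2 := by
      have := (abs_le.1 hx).2
      linarith
    have h2 : ‖x‖ ≤ 2 := (sq_le_sq₀ (norm_nonneg _) (by norm_num)).1 h1
    have h3 := h.bd0 x
    calc ‖x‖ * ‖Θ x‖ ≤ 2 * (A * δ) :=
          mul_le_mul h2 h3 (norm_nonneg _) (by norm_num)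
      _ = 2 * A * δ := by ring

theorem Shift.adm {A δ : ℝ} {Θ : E → E} (h : Shift A δ Θ) (hA : 0 ≤ A) (hδ : 0 ≤ δ)
    (hδ1 : δ ≤ 1) (hs : 2 * A * δ < 1) : Adm Θ :=
  ⟨h.smooth, h.orth, fun x => (h.norm_mul_le hA hδ hδ1 x).trans_lt hs⟩

/-- the derivative vanishes off the shell too (`Θ` vanishes near `x`) -/
theorem Shift.fderiv_eq_zero {A δ : ℝ} {Θ : E → E} (h : Shift A δ Θ) {x : E}
    (hx : δ / 2 < |‖x‖ ^ 2 - 1|) : fderiv ℝ Θ x = 0 := by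
  have ho : IsOpen {y : E | δ / 2 < |‖y‖ ^ 2 - 1|} := isOpen_lt continuous_const (by fun_prop)
  have h1 : Θ =ᶠ[nhds x] fun _ => 0 := by
    filter_upwards [ho.mem_nhds hx] with y hy using h.supp y hy
  rw [h1.fderiv_eq]
  simp

end Pool.Agent.Lib_MP_a29272_q1
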