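import Pool.Agent.Lib_MP_a29272_q1.Diff

/-! The exponential map is close to a translation. -/

namespace Pool.Agent.Lib_MP_a29272_q1

open Set Metric
open scoped ContDiff RealInnerProductSpace NNReal

variable {E : Type} [NormedAddCommGroup E] [InnerProductSpace ℝ E] [FiniteDimensional ℝ E]

/-- PIECE APPROX. For `v₁, v₂` in the ball: if `‖v₁ - v₂‖ ≥ 32 C δ`, use `apriori` (constant `C`).
Otherwise let `v₁` be the faster one (`gT Θ x v₁ v₁ = N² ≥ gT Θ x v₂ v₂`), scale the time by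
`1 / N` (`HamSol.scale`), and use `diff_est` on `[0, N]`, `N ≤ 4`, with a large `K`; the case
`v₁ = 0` is trivial. -/
theorem exp_approx (A K₁ : ℝ) (hA : 1 ≤ A) (hK : 0 ≤ K₁) : ∃ δ₀ : ℝ, 0 < δ₀ ∧
    ∀ δ, 0 < δ → δ ≤ δ₀ → ∀ Θ : E → E, Shift A δ Θ → ∀ x : E, ‖x‖ ^ 2 ≤ 1 + δ →
      ∀ e : E → E, (∀ v, ‖v‖ ≤ 3 → ∃ y w : ℝ → E, HamSol Θ 1 y w ∧ y 0 = x ∧ w 0 = v ∧
        y 1 = e v) →
      ApproximatesLinearOn e (ContinuousLinearEquiv.refl ℝ E : E →L[ℝ] E)
        (ball (-x) (1 + K₁ * δ)) (1 / 4 : ℝ≥0) := by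
  obtain ⟨C, δ₁, hC, hδ₁, hap⟩ := apriori (E := E) A hA
  set K : ℝ := 3 * (K₁ + 3 * C) + 38 * C with hKdef
  have hK1 : 1 ≤ K := by linarith
  obtain ⟨D, δ₂, hD, hδ₂, hdf⟩ := diff_est (E := E) A K hA hK1
  refine ⟨min (min δ₁ δ₂) (min (1 / (16 * D ^ 2)) (min (1 / (1 + K)) (1 / (8 * A)))),
    by positivity, ?_⟩
  intro δ hδ hδ0 Θ hΘ x hx e he
  have hδa : δ ≤ δ₁ := le_trans hδ0 (le_trans (min_le_left _ _) (min_le_left _ _))
  have hδb : δ ≤ δ₂ := le_trans hδ0 (le_trans (min_le_left _ _) (min_le_right _ _))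
  have hδc : δ ≤ 1 / (16 * D ^ 2) :=
    le_trans hδ0 (le_trans (min_le_right _ _) (min_le_left _ _))
  have hδd : δ ≤ 1 / (1 + K) :=
    le_trans hδ0 (le_trans (min_le_right _ _) (le_trans (min_le_right _ _) (min_le_left _ _)))
  have hδe : δ ≤ 1 / (8 * A) :=
    le_trans hδ0 (le_trans (min_le_right _ _) (le_trans (min_le_right _ _) (min_le_right _ _)))
  have hKδ : (1 + K) * δ ≤ 1 := by
    rw [le_div_iff₀ (by linarith)] at hδd
    linarith
  have hAδ : 8 * A * δ ≤ 1 := by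
    rw [le_div_iff₀ (by linarith)] at hδe
    linarith
  have hDδ : D * √δ ≤ 1 / 4 := by
    rw [le_div_iff₀ (by positivity)] at hδc
    have h1 : (D * √δ) ^ 2 ≤ (1 / 4) ^ 2 := by
      rw [mul_pow, Real.sq_sqrt hδ.le]
      linarith
    exact le_of_sq_le_sq h1 (by norm_num)
  have hKd0 : 1 * δ ≤ K * δ := mul_le_mul_of_nonneg_right hK1 hδ.le
  have hδ1 : δ ≤ 1 := by linarith
  have hKd : K * δ = 3 * ((K₁ + 3 * C) * δ) + 38 * C * δ := by rw [hKdef]; ring
  have hCδ : 0 < C * δ := by positivity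
  have hKδ' : (K₁ + 3 * C) * δ ≤ 1 / 3 := by linarith
  have hLδ : 0 ≤ (K₁ + 3 * C) * δ := by positivity
  have hLδ2 : (1 + (K₁ + 3 * C) * δ) ^ 2 ≤ 1 + K * δ := by
    have : ((K₁ + 3 * C) * δ) ^ 2 ≤ (K₁ + 3 * C) * δ := by
      rw [sq]
      exact mul_le_of_le_one_left hLδ (by linarith)
    linarith
  have hK1δ : K₁ * δ ≤ 1 / 3 := by
    have : K₁ * δ ≤ (K₁ + 3 * C) * δ := mul_le_mul_of_nonneg_right (by linarith) hδ.le
    linarith
  clear_value K
  have hadm : Adm Θ := hΘ.adm (by linarith) hδ.le hδ1 (by linarith)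
  have hx1 : ‖x‖ ≤ 1 + δ / 2 := by
    refine le_of_sq_le_sq ?_ (by linarith)
    have := sq_nonneg (δ / 2)
    linarith
  -- a priori bounds for the two solutions
  have hap' : ∀ v : E, ‖v‖ ≤ 3 → ∀ y w : ℝ → E, HamSol Θ 1 y w → y 0 = x → w 0 = v →
      ∀ s ∈ Icc (0 : ℝ) 1, ‖y s - x - s • v‖ ≤ 3 * C * δ := by
    intro v hv y w h h0 h0' s hs
    have h2 := (hap δ hδ hδa Θ hΘ 1 y w h (by rw [h0]; exact hx) s hs).2
    rw [h0, h0'] at h2
    refine le_trans h2 ?_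
    have h3 : s * ‖v‖ ≤ 1 * 3 := mul_le_mul hs.2 hv (norm_nonneg _) (by norm_num)
    have h4 := mul_le_mul_of_nonneg_left h3 hCδ.le
    linarith
  -- the case of two close vectors, the first being the faster one
  have key : ∀ v₁ v₂ : E, ‖v₁‖ ≤ 3 → ‖v₂‖ ≤ 3 → ‖x + v₁‖ ≤ 1 + K₁ * δ →
      ‖v₁ - v₂‖ ≤ 32 * C * δ → gT Θ x v₂ v₂ ≤ gT Θ x v₁ v₁ →
      ‖e v₁ - e v₂ - (v₁ - v₂)‖ ≤ 1 / 4 * ‖v₁ - v₂‖ := by
    intro v₁ v₂ hv₁ hv₂ hb hd hg
    by_cases h0 : v₁ = 0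
    · have h02 : v₂ = 0 := by
        by_contra hne
        have := gT_pos hadm x hne
        rw [h0] at hg
        simp only [map_zero] at hg
        linarith
      rw [h0, h02]
      simp
    · obtain ⟨y₁, w₁, hs₁, hy₁, hw₁, he₁⟩ := he v₁ hv₁
      obtain ⟨y₂, w₂, hs₂, hy₂, hw₂, he₂⟩ := he v₂ hv₂
      have hpos := gT_pos hadm x h0
      set N : ℝ := √(gT Θ x v₁ v₁) with hN
      have hN0 : 0 < N := Real.sqrt_pos.2 hpos
      have hNN : N ^ 2 = gT Θ x v₁ v₁ := Real.sq_sqrt hpos.le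
      have hN4 : N ≤ 4 := by
        have h1 := (hΘ.mom_sub_le hA hδ hδ1 x v₁).2.1
        have h2 := (abs_le.1 h1).2
        have h3 : ‖v₁‖ ^ 2 ≤ 3 ^ 2 := pow_le_pow_left₀ (norm_nonneg _) hv₁ 2
        have h5 : 4 * A * δ * ‖v₁‖ ^ 2 ≤ 1 / 2 * 3 ^ 2 :=
          mul_le_mul (by linarith) h3 (sq_nonneg _) (by norm_num)
        have h4 : N ^ 2 ≤ 4 ^ 2 := by
          rw [hNN]
          linarith
        exact le_of_sq_le_sq h4 (by norm_num)
      have hc : (0 : ℝ) < 1 / N := by positivity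
      have hT : (1 : ℝ) / (1 / N) = N := one_div_one_div N
      have hX := hs₁.scale hc
      have hY := hs₂.scale hc
      rw [hT] at hX hY
      have hgs : ∀ (c : ℝ) (v : E), gT Θ x (c • v) (c • v) = c ^ 2 * gT Θ x v v := by
        intro c v
        simp only [map_smul, smul_apply, smul_eq_mul]
        ring
      have hin : ∀ t ∈ Icc (0 : ℝ) N, 1 / N * t ∈ Icc (0 : ℝ) 1 := by
        intro t ht
        refine ⟨mul_nonneg hc.le ht.1, ?_⟩
        rw [one_div, inv_mul_le_iff₀ hN0, mul_one]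
        exact ht.2
      have h1N : 1 / N * N = 1 := by field_simp
      have hres := hdf δ hδ hδb Θ hΘ N hN0.le hN4 (fun t => y₁ (1 / N * t))
        (fun t => (1 / N) • w₁ (1 / N * t)) (fun t => y₂ (1 / N * t))
        (fun t => (1 / N) • w₂ (1 / N * t)) hX hY
        (by simp only [mul_zero]; rw [hy₁, hy₂])
        (by
          simp only [mul_zero]
          rw [hy₁, hw₁, hgs, ← hNN]
          field_simp)
        (by
          simp only [mul_zero]
          rw [hy₂, hw₂, hgs]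
          rw [one_div, inv_pow, inv_mul_le_iff₀ (by positivity), mul_one, hNN]
          exact hg)
        (by simp only [mul_zero]; rw [hy₁]; exact hx)
        (by
          simp only [h1N]
          have h1 := hap' v₁ hv₁ y₁ w₁ hs₁ hy₁ hw₁ 1 (right_mem_Icc.2 zero_le_one)
          rw [one_smul] at h1
          have h2 : ‖y₁ 1‖ ≤ 1 + (K₁ + 3 * C) * δ := by
            have h3 : y₁ 1 = (y₁ 1 - x - v₁) + (x + v₁) := by abel
            rw [h3]
            refine le_trans (norm_add_le _ _) ?_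
            linarith
          exact le_trans (pow_le_pow_left₀ (norm_nonneg _) h2 2) hLδ2)
        (by
          intro t ht
          have ht' := hin t ht
          have h1 := hap' v₁ hv₁ y₁ w₁ hs₁ hy₁ hw₁ _ ht'
          have h2 := hap' v₂ hv₂ y₂ w₂ hs₂ hy₂ hw₂ _ ht'
          have h3 : y₁ (1 / N * t) - y₂ (1 / N * t) =
              (y₁ (1 / N * t) - x - (1 / N * t) • v₁) -
              (y₂ (1 / N * t) - x - (1 / N * t) • v₂) + (1 / N * t) • (v₁ - v₂) := by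
            rw [smul_sub]
            abel
          have h4 : ‖(1 / N * t) • (v₁ - v₂)‖ ≤ 32 * C * δ := by
            rw [norm_smul, Real.norm_eq_abs, abs_of_nonneg ht'.1]
            calc 1 / N * t * ‖v₁ - v₂‖ ≤ 1 * ‖v₁ - v₂‖ :=
                  mul_le_mul_of_nonneg_right ht'.2 (norm_nonneg _)
              _ ≤ _ := by rw [one_mul]; exact hd
          show ‖y₁ (1 / N * t) - y₂ (1 / N * t)‖ ≤ K * δ
          rw [h3]
          refine le_trans (norm_add_le _ _) ?_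
          refine le_trans (add_le_add_left (norm_sub_le _ _) _) ?_
          linarith)
      simp only [mul_zero, h1N] at hres
      rw [hw₁, hw₂, he₁, he₂, ← smul_sub, smul_smul, norm_smul, Real.norm_eq_abs,
        abs_of_pos hc] at hres
      have hN1 : N * (1 / N) = 1 := by field_simp
      rw [hN1, one_smul, ← mul_assoc N, hN1, one_mul] at hres
      refine le_trans hres ?_
      exact mul_le_mul_of_nonneg_right hDδ (norm_nonneg _)
  -- membership in the ball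
  have hball : ∀ v ∈ ball (-x) (1 + K₁ * δ), ‖v‖ ≤ 3 ∧ ‖x + v‖ ≤ 1 + K₁ * δ := by
    intro v hv
    rw [mem_ball, dist_eq_norm, sub_neg_eq_add, add_comm] at hv
    refine ⟨?_, hv.le⟩
    have h1 : v = (x + v) - x := by abel
    have h2 : ‖v‖ ≤ ‖x + v‖ + ‖x‖ := by
      conv_lhs => rw [h1]
      exact norm_sub_le _ _
    linarith
  intro v₁ hv₁ v₂ hv₂
  obtain ⟨h1, h1'⟩ := hball v₁ hv₁
  obtain ⟨h2, h2'⟩ := hball v₂ hv₂
  have hgoal : ‖e v₁ - e v₂ - (v₁ - v₂)‖ ≤ 1 / 4 * ‖v₁ - v₂‖ := by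
    by_cases hd : ‖v₁ - v₂‖ ≤ 32 * C * δ
    · rcases le_total (gT Θ x v₂ v₂) (gT Θ x v₁ v₁) with hg | hg
      · exact key v₁ v₂ h1 h2 h1' hd hg
      · have := key v₂ v₁ h2 h1 h2' (by rw [norm_sub_rev]; exact hd) hg
        rw [norm_sub_rev v₂ v₁] at this
        have h3 : e v₁ - e v₂ - (v₁ - v₂) = -(e v₂ - e v₁ - (v₂ - v₁)) := by abel
        rw [h3, norm_neg]
        exact this
    · push Not at hd
      obtain ⟨y₁, w₁, hs₁, hy₁, hw₁, he₁⟩ := he v₁ h1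
      obtain ⟨y₂, w₂, hs₂, hy₂, hw₂, he₂⟩ := he v₂ h2
      have e1 := hap' v₁ h1 y₁ w₁ hs₁ hy₁ hw₁ 1 (right_mem_Icc.2 zero_le_one)
      have e2 := hap' v₂ h2 y₂ w₂ hs₂ hy₂ hw₂ 1 (right_mem_Icc.2 zero_le_one)
      rw [one_smul] at e1 e2
      rw [he₁] at e1
      rw [he₂] at e2
      have h3 : e v₁ - e v₂ - (v₁ - v₂) = (e v₁ - x - v₁) - (e v₂ - x - v₂) := by abel
      rw [h3]
      refine le_trans (norm_sub_le _ _) ?_
      linarith
  simpa using hgoal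

end Pool.Agent.Lib_MP_a29272_q1
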