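import Pool.Agent.Lib_MP_a29272_q1.DiffPoint

/-! Easy pointwise bounds for the momentum, the metric and the force. -/

namespace Pool.Agent.Lib_MP_a29272_q1

open Set Metric
open scoped ContDiff RealInnerProductSpace

variable {E : Type} [NormedAddCommGroup E] [InnerProductSpace ℝ E]

/-- on the support of `Θ` one has `‖x‖ ≤ 5/4` -/
theorem Shift.norm_le_of_ne {A δ : ℝ} {Θ : E → E} (h : Shift A δ Θ) (hδ1 : δ ≤ 1) {x : E}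
    (hx : Θ x ≠ 0) : ‖x‖ ≤ 5 / 4 := by
  have h1 : ¬ (δ / 2 < |‖x‖ ^ 2 - 1|) := fun h2 => hx (h.supp x h2)
  have h2 : ‖x‖ ^ 2 - 1 ≤ δ / 2 := (le_abs_self _).trans (not_lt.1 h1)
  nlinarith [norm_nonneg x]

theorem Shift.mul_norm_le {A δ : ℝ} {Θ : E → E} (h : Shift A δ Θ) (hδ : 0 < δ)
    (hδ1 : δ ≤ 1) (x : E) : ‖x‖ * ‖Θ x‖ ≤ 5 / 4 * (A * δ) := by
  have hA := h.A_nonneg
  by_cases hx : Θ x = 0
  · rw [hx, norm_zero, mul_zero]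
    positivity
  · have h1 := h.norm_le_of_ne hδ1 hx
    have h2 := h.bd0 x
    gcongr

/-- PIECE BASIC (easy bounds) -/
theorem Shift.mom_sub_le' {A δ : ℝ} {Θ : E → E} (h : Shift A δ Θ) (hδ : 0 < δ)
    (hδ1 : δ ≤ 1) (x v : E) : ‖mom Θ x v - v‖ ≤ 4 * A * δ * ‖v‖ ∧
      |gT Θ x v v - ‖v‖ ^ 2| ≤ 4 * A * δ * ‖v‖ ^ 2 ∧
      (δ < |‖x‖ ^ 2 - 1| → mom Θ x v = v) := by
  have hA := h.A_nonneg
  have hb := h.mul_norm_le hδ hδ1 x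
  have hv := norm_nonneg v
  have hAδ : 0 ≤ A * δ := by positivity
  have hxv : |⟪x, v⟫| ≤ ‖x‖ * ‖v‖ := abs_real_inner_le_norm x v
  have hΘv : |⟪Θ x, v⟫| ≤ ‖Θ x‖ * ‖v‖ := abs_real_inner_le_norm _ v
  refine ⟨?_, ?_, ?_⟩
  · have e : mom Θ x v - v = ⟪x, v⟫ • Θ x + ⟪Θ x, v⟫ • x := by
      simp only [mom]; abel
    rw [e]
    have n1 : ‖⟪x, v⟫ • Θ x‖ ≤ (‖x‖ * ‖v‖) * ‖Θ x‖ := by
      rw [norm_smul, Real.norm_eq_abs]; gcongr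
    have n2 : ‖⟪Θ x, v⟫ • x‖ ≤ (‖Θ x‖ * ‖v‖) * ‖x‖ := by
      rw [norm_smul, Real.norm_eq_abs]; gcongr
    have n3 := norm_add_le (⟪x, v⟫ • Θ x) (⟪Θ x, v⟫ • x)
    have n4 : ‖x‖ * ‖Θ x‖ * ‖v‖ ≤ 5 / 4 * (A * δ) * ‖v‖ := by gcongr
    nlinarith [mul_nonneg hAδ hv]
  · have e : gT Θ x v v - ‖v‖ ^ 2 = 2 * (⟪x, v⟫ * ⟪Θ x, v⟫) := by
      rw [gT_apply, real_inner_self_eq_norm_sq]; ring
    rw [e, abs_mul, abs_mul, abs_two]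
    have n1 : |⟪x, v⟫| * |⟪Θ x, v⟫| ≤ (‖x‖ * ‖v‖) * (‖Θ x‖ * ‖v‖) := by gcongr
    have n4 : ‖x‖ * ‖Θ x‖ * ‖v‖ ^ 2 ≤ 5 / 4 * (A * δ) * ‖v‖ ^ 2 := by gcongr
    nlinarith [mul_nonneg hAδ (sq_nonneg ‖v‖)]
  · intro h1
    exact mom_eq_of_off h (by linarith)

variable [FiniteDimensional ℝ E]

theorem Shift.force_le' {A δ : ℝ} {Θ : E → E} (h : Shift A δ Θ) (hδ : 0 < δ)
    (x v : E) : ‖force Θ x v‖ ≤ A * (δ * ‖v‖ + |⟪x, v⟫|) * ‖v‖ ∧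
      (δ < |‖x‖ ^ 2 - 1| → force Θ x v = 0) := by
  have hA := h.A_nonneg
  have hv := norm_nonneg v
  refine ⟨?_, ?_⟩
  · have hΘv : |⟪Θ x, v⟫| ≤ (A * δ) * ‖v‖ :=
      (abs_real_inner_le_norm _ v).trans (by gcongr; exact h.bd0 x)
    have n1 : ‖⟪Θ x, v⟫ • v‖ ≤ ((A * δ) * ‖v‖) * ‖v‖ := by
      rw [norm_smul, Real.norm_eq_abs]; gcongr
    have n2 : ‖⟪x, v⟫ • (ContinuousLinearMap.adjoint (fderiv ℝ Θ x)) v‖ ≤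
        |⟪x, v⟫| * (A * ‖v‖) := by
      rw [norm_smul, Real.norm_eq_abs]
      gcongr
      refine (ContinuousLinearMap.le_opNorm _ _).trans ?_
      gcongr
      simp only [LinearIsometryEquiv.norm_map]
      exact h.bd1 x
    have n3 := norm_add_le (⟪Θ x, v⟫ • v)
      (⟪x, v⟫ • (ContinuousLinearMap.adjoint (fderiv ℝ Θ x)) v)
    simp only [force]
    nlinarith
  · intro h1
    exact force_eq_zero_of_off h (by linarith)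

end Pool.Agent.Lib_MP_a29272_q1
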