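import Pool.Agent.Lib_MP_a29272_s2d.S2D

/-! The planar system of a unit speed geodesic. -/

namespace Pool.Agent.Lib_MP_a29272_q1

open Set

/-- `u = |x|²/2`, `w = u'`, `q = x·p` -/
structure Planar (A δ T : ℝ) (u q w : ℝ → ℝ) : Prop where
  hu : ∀ t ∈ Icc 0 T, HasDerivWithinAt u (w t) (Icc 0 T) t
  hq : ∀ t ∈ Icc 0 T, ∃ d, HasDerivWithinAt q d (Icc 0 T) t ∧ |d - 1| ≤ A * |w t| ∧
    (δ < |2 * u t - 1| → d = 1)
  hw : ∀ t ∈ Icc 0 T, |w t - q t| ≤ A * δ ∧ (δ < |2 * u t - 1| → w t = q t)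
  cw : ContinuousOn w (Icc 0 T)

namespace PlanarAux

open Pool.Agent.MPa29272

/-- off the inner shell `u` does not increase before the turning time -/
theorem left_level {δ K T t₀ : ℝ} {u w : ℝ → ℝ} (hK : 1 ≤ K) (hδ : 0 < δ) (ht₀ : t₀ ≤ T)
    (hu : ∀ t ∈ Icc 0 T, HasDerivWithinAt u (w t) (Icc 0 T) t)
    (hw : ∀ t ∈ Ico 0 t₀, δ < |2 * u t - 1| → w t ≤ 0)
    (h0 : 2 * u 0 ≤ 1 + K * δ) : ∀ t ∈ Icc 0 t₀, 2 * u t ≤ 1 + K * δ := by
  have hcont : ContinuousOn u (Icc 0 T) := fun t ht => (hu t ht).continuousWithinAt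
  intro t ht
  by_contra hcon
  push Not at hcon
  -- the last time before `t` at which `2 u ≤ 1 + K δ`
  have hne : {s ∈ Icc 0 t | 2 * u s ≤ 1 + K * δ}.Nonempty := ⟨0, ⟨le_rfl, ht.1⟩, h0⟩
  have hcl : IsClosed {s ∈ Icc 0 t | 2 * u s ≤ 1 + K * δ} :=
    ((continuousOn_const.mul (hcont.mono
      (Icc_subset_Icc_right (ht.2.trans ht₀)))).preimage_isClosed_of_isClosed isClosed_Icc
      isClosed_Iic)
  have hbd : BddAbove {s ∈ Icc 0 t | 2 * u s ≤ 1 + K * δ} := ⟨t, fun s hs => hs.1.2⟩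
  have hmem := hcl.csSup_mem hne hbd
  set s := sSup {s ∈ Icc 0 t | 2 * u s ≤ 1 + K * δ} with hs
  have hst : s < t := lt_of_le_of_ne hmem.1.2 (fun h => by
    have := hmem.2
    rw [h] at this
    exact absurd this (not_le.2 hcon))
  have hgt : ∀ r ∈ Ioc s t, 1 + K * δ < 2 * u r := by
    intro r hr
    by_contra hc
    push Not at hc
    have : r ≤ s := le_csSup hbd ⟨⟨hmem.1.1.trans hr.1.le, hr.2⟩, hc⟩
    exact absurd hr.1 (not_lt.2 this)
  have hsub : Icc s t ⊆ Icc 0 T := Icc_subset_Icc hmem.1.1 (ht.2.trans ht₀)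
  have hanti : AntitoneOn u (Icc s t) := by
    refine antitoneOn_of_deriv_nonpos (convex_Icc _ _) (hcont.mono hsub) ?_ ?_
    · intro r hr
      rw [interior_Icc] at hr
      exact ((hu r (hsub ⟨hr.1.le, hr.2.le⟩)).hasDerivAt (Icc_mem_nhds
        (lt_of_le_of_lt hmem.1.1 hr.1) (lt_of_lt_of_le hr.2 (ht.2.trans ht₀)))).differentiableAt.differentiableWithinAt
    · intro r hr
      rw [interior_Icc] at hr
      rw [((hu r (hsub ⟨hr.1.le, hr.2.le⟩)).hasDerivAt (Icc_mem_nhds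
        (lt_of_le_of_lt hmem.1.1 hr.1) (lt_of_lt_of_le hr.2 (ht.2.trans ht₀)))).deriv]
      refine hw r ⟨hmem.1.1.trans hr.1.le, lt_of_lt_of_le hr.2 ht.2⟩ ?_
      have h1 := hgt r ⟨hr.1, hr.2.le⟩
      have h2 : δ ≤ K * δ := by nlinarith
      exact lt_of_lt_of_le (by linarith) (le_abs_self _)
  have h1 := hanti (left_mem_Icc.2 hst.le) (right_mem_Icc.2 hst.le) hst.le
  have h2 := hmem.2
  linarith

/-- the time bound -/
theorem len_le {c η κ L : ℝ} (hc : 0 < c) (hκ : 0 ≤ κ) (hη : 0 ≤ η)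
    (h : min c (L / 4) * L / 2 ≤ κ + η * L) (hη1 : η ≤ c / 4) (hη2 : 16 * η ^ 2 ≤ κ)
    (hκ1 : κ ≤ c ^ 2 / 4) : L ≤ 8 * √κ := by
  by_contra hlt
  push Not at hlt
  have hs : 0 ≤ √κ := Real.sqrt_nonneg _
  have hLpos : 0 < L := lt_of_le_of_lt (by positivity) hlt
  have hsq : √κ * √κ = κ := Real.mul_self_sqrt hκ
  have hηs : 4 * η ≤ √κ := by
    apply Real.le_sqrt_of_sq_le
    nlinarith
  have hsc : √κ ≤ c / 2 := by
    rw [show c / 2 = √((c / 2) ^ 2) from (Real.sqrt_sq (by positivity)).symm]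
    exact Real.sqrt_le_sqrt (by nlinarith)
  rcases min_cases c (L / 4) with ⟨hm, -⟩ | ⟨hm, -⟩
  · rw [hm] at h
    -- `c L / 2 ≤ κ + c L / 4`
    have h1 : η * L ≤ c / 4 * L := by gcongr
    have h2 : c * L / 4 ≤ κ := by linarith
    have h3 : c * (8 * √κ) < c * L := by gcongr
    nlinarith
  · rw [hm] at h
    have h1 : η * L ≤ √κ / 4 * L := by
      have : η ≤ √κ / 4 := by linarith
      gcongr
    have h2 : √κ * L ≤ L * L / 8 := by nlinarith
    have h3 : L * L / 8 - L * L / 32 ≤ κ := by nlinarith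
    nlinarith

end PlanarAux

open Pool.Agent.MPa29272 in
/-- PIECE PLANAR: step (4) of note 2801 -/
theorem planar (A K : ℝ) (hA : 1 ≤ A) (hK : 1 ≤ K) : ∃ C δ₀ : ℝ, 0 < C ∧ 0 < δ₀ ∧
    ∀ δ T, 0 < δ → δ ≤ δ₀ → 0 ≤ T → ∀ u q w, Planar A δ T u q w →
      2 * u 0 ≤ 1 + K * δ → 2 * u T ≤ 1 + K * δ →
      ∃ a b, 0 ≤ a ∧ a ≤ b ∧ b ≤ T ∧ a ≤ C * √δ ∧ T - b ≤ C * √δ ∧
        (∀ t ∈ Ioo a b, K * δ < |2 * u t - 1|) ∧
        (∫ t in (0 : ℝ)..a, |w t|) ≤ C * δ ∧ (∫ t in b..T, |w t|) ≤ C * δ := by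
  -- `c = 1 / (4 A)`, `η = A δ`, `κ = K δ`
  refine ⟨24 * (A + 1) * K, 1 / (64 * A ^ 2 * K), by positivity, by positivity, ?_⟩
  intro δ T hδ hδ₀ hT u q w hP h0 hT'
  have hA0 : 0 < A := by linarith
  have hK0 : 0 < K := by linarith
  have hδK : δ * (64 * A ^ 2 * K) ≤ 1 := by
    rw [le_div_iff₀ (by positivity)] at hδ₀
    exact hδ₀
  set c : ℝ := 1 / (4 * A) with hc
  have hc0 : 0 < c := by positivity
  have hcA : c * A = 1 / 4 := by rw [hc]; field_simp
  choose! dq hdq1 hdq2 hdq3 using hP.hq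
  have hη0 : 0 ≤ A * δ := by positivity
  have hqu : ∀ t ∈ Icc 0 T, |q t - w t| ≤ A * δ := fun t ht => by
    rw [abs_sub_comm]
    exact (hP.hw t ht).1
  have hA2 : A ^ 2 * δ ≤ 1 / 64 := by nlinarith [mul_nonneg (sq_nonneg A) hδ.le]
  have hdq : ∀ t ∈ Icc 0 T, |q t| ≤ c → 1 / 2 ≤ dq t := by
    intro t ht hqt
    have h1 := hdq2 t ht
    have h2 : |w t| ≤ c + A * δ := by
      have := abs_sub_abs_le_abs_sub (w t) (q t)
      have := (hP.hw t ht).1
      linarith
    have h3 : A * |w t| ≤ A * (c + A * δ) := by gcongr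
    have h4 : A * (c + A * δ) = 1 / 4 + A ^ 2 * δ := by rw [mul_add, mul_comm A c, hcA]; ring
    have h5 := (abs_le.1 (h1.trans h3)).1
    linarith
  obtain ⟨t₀, ht₀, hR, hL⟩ := S2D.exists_turn hT hdq1 hc0 hdq
  have hcont : ContinuousOn u (Icc 0 T) := fun t ht => (hP.hu t ht).continuousWithinAt
  -- levels
  have hleft : ∀ t ∈ Icc 0 t₀, 2 * u t ≤ 1 + K * δ := by
    refine PlanarAux.left_level hK hδ ht₀.2 hP.hu ?_ h0
    intro t ht hsh
    have ht1 : 0 < t₀ := lt_of_le_of_lt ht.1 ht.2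
    rw [(hP.hw t ⟨ht.1, ht.2.le.trans ht₀.2⟩).2 hsh]
    have h1 := hL ht1 t ⟨ht.1, ht.2.le⟩
    have h2 : 0 ≤ min c ((t₀ - t) / 4) := le_min hc0.le (by linarith [ht.2])
    linarith
  have hmap : MapsTo (fun t => T - t) (Icc 0 T) (Icc 0 T) :=
    fun r hr => ⟨by linarith [hr.2], by linarith [hr.1]⟩
  have hright : ∀ t ∈ Icc t₀ T, 2 * u t ≤ 1 + K * δ := by
    have key := PlanarAux.left_level (T := T) (t₀ := T - t₀) (u := fun t => u (T - t))
      (w := fun t => -w (T - t)) hK hδ (by linarith [ht₀.1])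
      (fun t ht => by
        have h1 : HasDerivWithinAt (fun t : ℝ => T - t) (-1) (Icc 0 T) t := by
          simpa using (hasDerivWithinAt_id t (Icc 0 T)).const_sub T
        exact ((hP.hu _ (hmap ht)).scomp t h1 hmap).congr_deriv (by simp))
      (fun t ht hsh => by
        have ht1 : t₀ < T := by linarith [ht.1, ht.2]
        have htT : T - t ∈ Icc 0 T := ⟨by linarith [ht.2, ht₀.1], by linarith [ht.1]⟩
        have := (hP.hw (T - t) htT).2 hsh
        have h1 := hR ht1 (T - t) ⟨by linarith [ht.2], by linarith [ht.1]⟩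
        have h2 : 0 ≤ min c ((T - t - t₀) / 4) := le_min hc0.le (by linarith [ht.2])
        linarith)
      (by simpa using hT')
    intro t ht
    have := key (T - t) ⟨by linarith [ht.2], by linarith [ht.1]⟩
    simpa using this
  -- the end intervals
  obtain ⟨a, ha1, ha2, ha3, ha4⟩ : ∃ a, 0 ≤ a ∧ a ≤ t₀ ∧ (a = 0 ∨ u 0 - u a ≤ K * δ) ∧
      ∀ t ∈ Icc 0 t₀, 1 - K * δ ≤ 2 * u t → t ≤ a := by
    by_cases hne : {t ∈ Icc 0 t₀ | 1 - K * δ ≤ 2 * u t}.Nonempty
    · have hcl : IsClosed {t ∈ Icc 0 t₀ | 1 - K * δ ≤ 2 * u t} :=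
        ((continuousOn_const.mul (hcont.mono
          (Icc_subset_Icc_right ht₀.2))).preimage_isClosed_of_isClosed isClosed_Icc isClosed_Ici)
      have hbd : BddAbove {t ∈ Icc 0 t₀ | 1 - K * δ ≤ 2 * u t} := ⟨t₀, fun t ht => ht.1.2⟩
      have hmem := hcl.csSup_mem hne hbd
      refine ⟨_, hmem.1.1, hmem.1.2, Or.inr ?_, fun t ht hl => le_csSup hbd ⟨ht, hl⟩⟩
      have h2 := hmem.2
      linarith
    · refine ⟨0, le_rfl, ht₀.1, Or.inl rfl, ?_⟩
      intro t ht hl
      exact absurd ⟨t, ht, hl⟩ hne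
  obtain ⟨b, hb1, hb2, hb3, hb4⟩ : ∃ b, t₀ ≤ b ∧ b ≤ T ∧ (b = T ∨ u T - u b ≤ K * δ) ∧
      ∀ t ∈ Icc t₀ T, 1 - K * δ ≤ 2 * u t → b ≤ t := by
    by_cases hne : {t ∈ Icc t₀ T | 1 - K * δ ≤ 2 * u t}.Nonempty
    · have hcl : IsClosed {t ∈ Icc t₀ T | 1 - K * δ ≤ 2 * u t} :=
        ((continuousOn_const.mul (hcont.mono
          (Icc_subset_Icc_left ht₀.1))).preimage_isClosed_of_isClosed isClosed_Icc isClosed_Ici)
      have hbd : BddBelow {t ∈ Icc t₀ T | 1 - K * δ ≤ 2 * u t} := ⟨t₀, fun t ht => ht.1.1⟩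
      have hmem := hcl.csInf_mem hne hbd
      refine ⟨_, hmem.1.1, hmem.1.2, Or.inr ?_, fun t ht hl => csInf_le hbd ⟨ht, hl⟩⟩
      have h2 := hmem.2
      linarith
    · refine ⟨T, ht₀.2, le_rfl, Or.inl rfl, ?_⟩
      intro t ht hl
      exact absurd ⟨t, ht, hl⟩ hne
  -- constants
  have hκ0 : 0 ≤ K * δ := by positivity
  have hc2 : c ^ 2 = 1 / (16 * A ^ 2) := by rw [hc]; field_simp; norm_num
  have hη1 : A * δ ≤ c / 4 := by
    have : A * δ * A ≤ c / 4 * A := by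
      rw [show c / 4 * A = c * A / 4 by ring, hcA]
      nlinarith
    exact le_of_mul_le_mul_right this hA0
  have hη2 : 16 * (A * δ) ^ 2 ≤ K * δ := by
    have : 16 * (A * δ) ^ 2 = 16 * (A ^ 2 * δ) * δ := by ring
    rw [this]
    have h1 : 16 * (A ^ 2 * δ) ≤ K := by linarith
    gcongr
  have hκ1 : K * δ ≤ c ^ 2 / 4 := by
    rw [hc2, div_div, le_div_iff₀ (by positivity)]
    nlinarith
  have hsq : √(K * δ) ≤ K * √δ := by
    rw [Real.sqrt_mul hK0.le]
    have : √K ≤ K := by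
      rw [Real.sqrt_le_left hK0.le]
      nlinarith
    gcongr
  have hsd : 0 ≤ √δ := Real.sqrt_nonneg _
  have hA21 : 1 ≤ A ^ 2 := one_le_pow₀ hA
  have hδ1 : δ ≤ 1 := by
    have h1 : (1 : ℝ) ≤ 64 * A ^ 2 * K := by nlinarith
    calc δ = δ * 1 := (mul_one δ).symm
      _ ≤ δ * (64 * A ^ 2 * K) := by gcongr
      _ ≤ 1 := hδK
  have hsd1 : √δ ≤ 1 := by
    have := Real.sqrt_le_sqrt hδ1
    rwa [Real.sqrt_one] at this
  -- the length of the left interval
  have hlenA : a ≤ 8 * √(K * δ) := by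
    rcases ha3 with h | h
    · rw [h]; positivity
    · rcases ha1.eq_or_lt with h' | h'
      · rw [← h']; positivity
      · have ht1 : 0 < t₀ := lt_of_lt_of_le h' ha2
        have := S2D.left_time (T := T) hc0 hP.hu (hL ht1) hqu ht₀.2 le_rfl ha1 ha2 h
        rw [sub_zero] at this
        exact PlanarAux.len_le hc0 hκ0 hη0 this hη1 hη2 hκ1
  have hlenB : T - b ≤ 8 * √(K * δ) := by
    rcases hb3 with h | h
    · rw [h, sub_self]; positivity
    · rcases hb2.eq_or_lt with h' | h'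
      · rw [h', sub_self]; positivity
      · have ht1 : t₀ < T := lt_of_le_of_lt hb1 h'
        have := S2D.right_time (T := T) hc0 hP.hu (hR ht1) hqu ht₀.1 hb1 hb2 le_rfl h
        exact PlanarAux.len_le hc0 hκ0 hη0 this hη1 hη2 hκ1
  have hC1 : 8 * √(K * δ) ≤ 24 * (A + 1) * K * √δ := by
    have : 8 * (K * √δ) ≤ 24 * (A + 1) * K * √δ := by
      have : 8 * (K * √δ) = 8 * K * √δ := by ring
      rw [this]
      gcongr
      nlinarith
    linarith
  have hle1 : 8 * √(K * δ) ≤ 8 * K := by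
    have : K * √δ ≤ K * 1 := by gcongr
    linarith
  refine ⟨a, b, ha1, ha2.trans hb1, hb2, hlenA.trans hC1, hlenB.trans hC1, ?_, ?_, ?_⟩
  · intro t ht
    have hlt : 2 * u t < 1 - K * δ := by
      by_contra hcon
      push Not at hcon
      rcases le_total t t₀ with h | h
      · exact absurd (ha4 t ⟨ha1.trans ht.1.le, h⟩ hcon) (not_le.2 ht.1)
      · exact absurd (hb4 t ⟨h, ht.2.le.trans hb2⟩ hcon) (not_le.2 ht.2)
    have : K * δ < -(2 * u t - 1) := by linarith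
    exact lt_of_lt_of_le this (neg_le_abs _)
  · -- the left integral
    have hsub : Icc 0 a ⊆ Icc 0 T := Icc_subset_Icc_right (ha2.trans ht₀.2)
    have hwc : ContinuousOn w (uIcc 0 a) := by
      rw [uIcc_of_le ha1]
      exact hP.cw.mono hsub
    rcases ha1.eq_or_lt with h' | h'
    · rw [← h', intervalIntegral.integral_same]
      positivity
    · have ht1 : 0 < t₀ := lt_of_lt_of_le h' ha2
      have habs := S2D.left_abs_le (T := T) hc0 (hL ht1) hqu ht₀.2
      have h1 : (∫ t in (0 : ℝ)..a, |w t|) ≤ ∫ t in (0 : ℝ)..a, (-w t + 2 * (A * δ)) := by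
        refine intervalIntegral.integral_mono_on ha1 hwc.abs.intervalIntegrable
          (hwc.neg.add continuousOn_const).intervalIntegrable ?_
        intro t ht
        exact habs t ⟨ht.1, ht.2.trans ha2⟩
      have h2 : (∫ t in (0 : ℝ)..a, (-w t + 2 * (A * δ))) =
          (-u a + 2 * (A * δ) * a) - (-u 0 + 2 * (A * δ) * 0) := by
        refine intervalIntegral.integral_eq_sub_of_hasDerivAt_of_le ha1
          (f := fun t => -u t + 2 * (A * δ) * t) ?_ ?_
          (hwc.neg.add continuousOn_const).intervalIntegrable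
        · exact ((hcont.mono hsub).neg.add (by fun_prop))
        · intro t ht
          have e1 := ((hP.hu t (hsub ⟨ht.1.le, ht.2.le⟩)).hasDerivAt (Icc_mem_nhds ht.1
            (lt_of_lt_of_le ht.2 (ha2.trans ht₀.2)))).neg
          have e2 := (hasDerivAt_id t).const_mul (2 * (A * δ))
          exact (e1.add e2).congr_deriv (by simp)
      have h3 : u 0 - u a ≤ K * δ := by
        rcases ha3 with h | h
        · rw [h, sub_self]; exact hκ0
        · exact h
      have h4 : 2 * (A * δ) * a ≤ 2 * (A * δ) * (8 * K) := by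
        have := hlenA.trans hle1
        gcongr
      calc (∫ t in (0 : ℝ)..a, |w t|) ≤ K * δ + 2 * (A * δ) * (8 * K) := by linarith
        _ ≤ 24 * (A + 1) * K * δ := by nlinarith [mul_pos hK0 hδ, mul_pos (mul_pos hA0 hK0) hδ]
  · -- the right integral
    have hsub : Icc b T ⊆ Icc 0 T := Icc_subset_Icc_left (ht₀.1.trans hb1)
    have hwc : ContinuousOn w (uIcc b T) := by
      rw [uIcc_of_le hb2]
      exact hP.cw.mono hsub
    rcases hb2.eq_or_lt with h' | h'
    · rw [h', intervalIntegral.integral_same]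
      positivity
    · have ht1 : t₀ < T := lt_of_le_of_lt hb1 h'
      have habs := S2D.right_abs_le (T := T) hc0 (hR ht1) hqu ht₀.1
      have h1 : (∫ t in b..T, |w t|) ≤ ∫ t in b..T, (w t + 2 * (A * δ)) := by
        refine intervalIntegral.integral_mono_on hb2 hwc.abs.intervalIntegrable
          (hwc.add continuousOn_const).intervalIntegrable ?_
        intro t ht
        exact habs t ⟨hb1.trans ht.1, ht.2⟩
      have h2 : (∫ t in b..T, (w t + 2 * (A * δ))) =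
          (u T + 2 * (A * δ) * T) - (u b + 2 * (A * δ) * b) := by
        refine intervalIntegral.integral_eq_sub_of_hasDerivAt_of_le hb2
          (f := fun t => u t + 2 * (A * δ) * t) ?_ ?_
          (hwc.add continuousOn_const).intervalIntegrable
        · exact ((hcont.mono hsub).add (by fun_prop))
        · intro t ht
          have e1 := (hP.hu t (hsub ⟨ht.1.le, ht.2.le⟩)).hasDerivAt (Icc_mem_nhds
            (lt_of_le_of_lt (ht₀.1.trans hb1) ht.1) ht.2)
          have e2 := (hasDerivAt_id t).const_mul (2 * (A * δ))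
          exact (e1.add e2).congr_deriv (by simp)
      have h3 : u T - u b ≤ K * δ := by
        rcases hb3 with h | h
        · rw [h, sub_self]; exact hκ0
        · exact h
      have h4 : 2 * (A * δ) * (T - b) ≤ 2 * (A * δ) * (8 * K) := by
        have := hlenB.trans hle1
        gcongr
      calc (∫ t in b..T, |w t|) ≤ K * δ + 2 * (A * δ) * (8 * K) := by linarith
        _ ≤ 24 * (A + 1) * K * δ := by nlinarith [mul_pos hK0 hδ, mul_pos (mul_pos hA0 hK0) hδ]

end Pool.Agent.Lib_MP_a29272_q1
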