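import Pool.Agent.Lib_MP_a29272_q1.Ham
import Pool.Agent.Lib_MP_a29272_q1.Planar

/-!
# The planar system of a unit speed geodesic
-/

set_option linter.unusedSectionVars false

namespace Pool.Agent.Lib_MP_a29272_q1

open Set Metric
open scoped ContDiff RealInnerProductSpace

variable {E : Type} [NormedAddCommGroup E] [InnerProductSpace ℝ E] [FiniteDimensional ℝ E]

/-- a unit velocity has norm at most `√2` -/
theorem Shift.norm_sq_le_two {A δ : ℝ} {Θ : E → E} (hΘ : Shift A δ Θ) (hA : 1 ≤ A) (hδ : 0 < δ)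
    (hδ1 : 8 * A * δ ≤ 1) {x v : E} (h1 : gT Θ x v v = 1) : ‖v‖ ^ 2 ≤ 2 := by
  have hδ' : δ ≤ 1 := by nlinarith
  have h2 := gT_lower (hΘ.orth x) v
  have h3 := hΘ.norm_mul_le (by linarith) hδ.le hδ' x
  have h4 : 1 / 2 ≤ 1 - ‖x‖ * ‖Θ x‖ := by linarith
  have h5 : 1 / 2 * ‖v‖ ^ 2 ≤ (1 - ‖x‖ * ‖Θ x‖) * ‖v‖ ^ 2 :=
    mul_le_mul_of_nonneg_right h4 (sq_nonneg _)
  linarith

/-- a unit speed geodesic gives a planar system -/
theorem HamSol.planar_aux {A δ T : ℝ} {Θ : E → E} (hΘ : Shift A δ Θ) (hA : 1 ≤ A) (hδ : 0 < δ)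
    (hδ1 : 8 * A * δ ≤ 1) {x v : ℝ → E} (h : HamSol Θ T x v)
    (h1 : gT Θ (x 0) (v 0) (v 0) = 1) :
    Planar (4 * A) δ T (fun t => ‖x t‖ ^ 2 / 2) (fun t => ⟪x t, mom Θ (x t) (v t)⟫)
      (fun t => ⟪x t, v t⟫) := by
  have hδ' : δ ≤ 1 / 8 := by nlinarith
  have hadm : Adm Θ := hΘ.adm (by linarith) hδ.le (by linarith) (by nlinarith)
  have hen : ∀ t ∈ Icc 0 T, gT Θ (x t) (v t) (v t) = 1 := fun t ht => by
    rw [h.energy hadm t ht, h1]
  have hv2 : ∀ t ∈ Icc 0 T, ‖v t‖ ≤ 3 / 2 := fun t ht => by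
    have := hΘ.norm_sq_le_two hA hδ hδ1 (hen t ht)
    nlinarith [norm_nonneg (v t)]
  -- on the support
  have hx2 : ∀ t, |‖x t‖ ^ 2 - 1| ≤ δ / 2 → ‖x t‖ ^ 2 ≤ 17 / 16 := fun t ht => by
    have := (abs_le.1 ht).2
    linarith
  refine ⟨fun t ht => ?_, fun t ht => ?_, fun t ht => ⟨?_, fun hs => ?_⟩, ?_⟩
  · have h2 := (h.dx t ht).norm_sq.div_const 2
    refine h2.congr_deriv ?_
    ring
  · refine ⟨_, (h.dx t ht).inner ℝ (h.dp t ht), ?_, fun hs => ?_⟩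
    · have h3 : ⟪v t, mom Θ (x t) (v t)⟫ = 1 := by
        rw [real_inner_comm, inner_mom, hen t ht]
      have h4 : ⟪x t, force Θ (x t) (v t)⟫ =
          ⟪x t, v t⟫ * (⟪Θ (x t), v t⟫ + ⟪v t, fderiv ℝ Θ (x t) (x t)⟫) := by
        rw [real_inner_comm, inner_force, real_inner_comm (x t) (v t)]
        ring
      rw [h3, h4]
      have h5 : ⟪x t, v t⟫ * (⟪Θ (x t), v t⟫ + ⟪v t, fderiv ℝ Θ (x t) (x t)⟫) + 1 - 1 =
          ⟪x t, v t⟫ * (⟪Θ (x t), v t⟫ + ⟪v t, fderiv ℝ Θ (x t) (x t)⟫) := by ring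
      rw [h5, abs_mul, mul_comm]
      refine mul_le_mul_of_nonneg_right ?_ (abs_nonneg _)
      rcases lt_or_ge (δ / 2) |‖x t‖ ^ 2 - 1| with hx | hx
      · rw [hΘ.supp _ hx, hΘ.fderiv_eq_zero hx]
        simp only [inner_zero_left, zero_apply, inner_zero_right, add_zero, abs_zero]
        positivity
      · have hxn : ‖x t‖ ≤ 2 := by nlinarith [hx2 t hx, norm_nonneg (x t)]
        refine (abs_add_le _ _).trans ?_
        have h6 : |⟪Θ (x t), v t⟫| ≤ A * δ * (3 / 2) :=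
          (abs_real_inner_le_norm _ _).trans (mul_le_mul (hΘ.bd0 _) (hv2 t ht) (norm_nonneg _)
            (by positivity))
        have h7 : ‖fderiv ℝ Θ (x t) (x t)‖ ≤ A * (5 / 4) := by
          refine (ContinuousLinearMap.le_opNorm _ _).trans ?_
          refine mul_le_mul (hΘ.bd1 _) ?_ (norm_nonneg _) (by linarith)
          nlinarith [hx2 t hx, norm_nonneg (x t)]
        have h8 : |⟪v t, fderiv ℝ Θ (x t) (x t)⟫| ≤ (3 / 2) * (A * (5 / 4)) :=
          (abs_real_inner_le_norm _ _).trans (mul_le_mul (hv2 t ht) h7 (norm_nonneg _)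
            (by norm_num))
        have h9 : A * δ ≤ 1 / 8 := by linarith
        nlinarith
    · have hs' : δ / 2 < |‖x t‖ ^ 2 - 1| := by
        have : 2 * (‖x t‖ ^ 2 / 2) - 1 = ‖x t‖ ^ 2 - 1 := by ring
        simp only [this] at hs
        linarith
      have h3 : ⟪v t, mom Θ (x t) (v t)⟫ = 1 := by
        rw [real_inner_comm, inner_mom, hen t ht]
      have h4 : ⟪x t, force Θ (x t) (v t)⟫ = 0 := by
        rw [real_inner_comm, inner_force, hΘ.supp _ hs', hΘ.fderiv_eq_zero hs']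
        simp
      rw [h3, h4, zero_add]
  · have h3 : ⟪x t, v t⟫ - ⟪x t, mom Θ (x t) (v t)⟫ = -(‖x t‖ ^ 2 * ⟪Θ (x t), v t⟫) := by
      rw [inner_self_mom (hΘ.orth _)]
      ring
    simp only [h3, abs_neg, abs_mul]
    rcases lt_or_ge (δ / 2) |‖x t‖ ^ 2 - 1| with hx | hx
    · rw [hΘ.supp _ hx, inner_zero_left, abs_zero, mul_zero]
      positivity
    · have h6 : |⟪Θ (x t), v t⟫| ≤ A * δ * (3 / 2) :=
        (abs_real_inner_le_norm _ _).trans (mul_le_mul (hΘ.bd0 _) (hv2 t ht) (norm_nonneg _)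
          (by positivity))
      have h7 : |‖x t‖ ^ 2| ≤ 17 / 16 := by
        rw [abs_of_nonneg (sq_nonneg _)]
        exact hx2 t hx
      have h8 : |‖x t‖ ^ 2| * |⟪Θ (x t), v t⟫| ≤ 17 / 16 * (A * δ * (3 / 2)) :=
        mul_le_mul h7 h6 (abs_nonneg _) (by norm_num)
      have h9 : 0 < A * δ := by positivity
      linarith
  · have hs' : δ / 2 < |‖x t‖ ^ 2 - 1| := by
      have : 2 * (‖x t‖ ^ 2 / 2) - 1 = ‖x t‖ ^ 2 - 1 := by ring
      simp only [this] at hs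
      linarith
    simp only [inner_self_mom (hΘ.orth _), hΘ.supp _ hs', inner_zero_left, mul_zero, add_zero]
  · exact (HasDerivWithinAt.continuousOn fun t ht => h.dx t ht).inner
      (fun t ht => (h.dv t ht).continuousWithinAt)

end Pool.Agent.Lib_MP_a29272_q1
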