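import Pool.Agent.Lib_MP_a29272_q1.Ham
import Pool.Agent.Lib_MP_a29272_q1.Planar
import Pool.Agent.Lib_MP_a29272_q1.Easy
import Pool.Agent.Lib_MP_a29272_q1.Hpl

/-! A priori estimates for geodesics. -/

namespace Pool.Agent.Lib_MP_a29272_q1

open Set Metric
open scoped ContDiff RealInnerProductSpace

variable {E : Type} [NormedAddCommGroup E] [InnerProductSpace ℝ E]

/-- PIECE BASIC (easy bounds) -/
theorem Shift.mom_sub_le {A δ : ℝ} {Θ : E → E} (h : Shift A δ Θ) (hA : 1 ≤ A) (hδ : 0 < δ)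
    (hδ1 : δ ≤ 1) (x v : E) : ‖mom Θ x v - v‖ ≤ 4 * A * δ * ‖v‖ ∧
      |gT Θ x v v - ‖v‖ ^ 2| ≤ 4 * A * δ * ‖v‖ ^ 2 ∧
      (δ < |‖x‖ ^ 2 - 1| → mom Θ x v = v) :=
  h.mom_sub_le' hδ hδ1 x v

variable [FiniteDimensional ℝ E]

theorem Shift.force_le {A δ : ℝ} {Θ : E → E} (h : Shift A δ Θ) (hA : 1 ≤ A) (hδ : 0 < δ)
    (hδ1 : δ ≤ 1) (x v : E) : ‖force Θ x v‖ ≤ A * (δ * ‖v‖ + |⟪x, v⟫|) * ‖v‖ ∧
      (δ < |‖x‖ ^ 2 - 1| → force Θ x v = 0) :=
  h.force_le' hδ x v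

/-- PIECE HPL: a unit speed geodesic gives a planar system; `q' = g(v,v) + ⟪x, force⟫` and
`⟪x, force⟫ = ⟪x, v⟫ (⟪Θ x, v⟫ + ⟪DΘ_x x, v⟫)`, `‖v‖² ≤ 2`, `‖x‖² ≤ 2` on the support -/
theorem HamSol.planar {A δ T : ℝ} {Θ : E → E} (hΘ : Shift A δ Θ) (hA : 1 ≤ A) (hδ : 0 < δ)
    (hδ1 : 8 * A * δ ≤ 1) {x v : ℝ → E} (h : HamSol Θ T x v)
    (h1 : gT Θ (x 0) (v 0) (v 0) = 1) :
    Planar (4 * A) δ T (fun t => ‖x t‖ ^ 2 / 2) (fun t => ⟪x t, mom Θ (x t) (v t)⟫)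
      (fun t => ⟪x t, v t⟫) :=
  h.planar_aux hΘ hA hδ hδ1 h1

namespace Apr

open Set Metric MeasureTheory
open scoped ContDiff RealInnerProductSpace

variable {E : Type} [NormedAddCommGroup E] [InnerProductSpace ℝ E]

theorem mom_smul (Θ : E → E) (x v : E) (c : ℝ) : mom Θ x (c • v) = c • mom Θ x v := by
  simp only [mom, inner_smul_right, smul_add, smul_smul]

theorem gT_smul (Θ : E → E) (x v : E) (c : ℝ) :
    gT Θ x (c • v) (c • v) = c ^ 2 * gT Θ x v v := by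
  simp only [gT_apply, inner_smul_left, inner_smul_right, RCLike.conj_to_real]
  ring

variable [FiniteDimensional ℝ E]

theorem contOn_x {Θ : E → E} {T : ℝ} {x v : ℝ → E} (h : HamSol Θ T x v) :
    ContinuousOn x (Icc 0 T) := fun t ht => (h.dx t ht).continuousWithinAt

theorem contOn_v {Θ : E → E} {T : ℝ} {x v : ℝ → E} (h : HamSol Θ T x v) :
    ContinuousOn v (Icc 0 T) := fun t ht => (h.dv t ht).continuousWithinAt

theorem contOn_force {Θ : E → E} (hΘ : ContDiff ℝ ∞ Θ) {T : ℝ} {x v : ℝ → E}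
    (h : HamSol Θ T x v) : ContinuousOn (fun t => force Θ (x t) (v t)) (Icc 0 T) :=
  (contDiff_force hΘ).continuous.comp_continuousOn ((contOn_x h).prodMk (contOn_v h))

/-- the speed bound -/
theorem speed_le {A δ T : ℝ} {Θ : E → E} (hΘ : Shift A δ Θ) (hA : 1 ≤ A) (hδ : 0 < δ)
    (hδ1 : 8 * A * δ ≤ 1) {x v : ℝ → E} (h : HamSol Θ T x v)
    (h1 : gT Θ (x 0) (v 0) (v 0) = 1) : ∀ t ∈ Icc 0 T, ‖v t‖ ≤ 2 := by
  intro t ht
  have hδ2 : δ ≤ 1 := by nlinarith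
  have hadm : Adm Θ := hΘ.adm (by linarith) hδ.le hδ2 (by linarith)
  have he := h.energy hadm t ht
  have hm := (hΘ.mom_sub_le hA hδ hδ2 (x t) (v t)).2.1
  rw [he, h1] at hm
  have h2 := (abs_le.1 hm).1
  have h3 : 4 * A * δ * ‖v t‖ ^ 2 ≤ 1 / 2 * ‖v t‖ ^ 2 := by
    have : 4 * A * δ ≤ 1 / 2 := by linarith
    gcongr
  nlinarith [norm_nonneg (v t)]

/-- the momentum is constant while the geodesic is off the shell -/
theorem mom_eq {A δ T : ℝ} {Θ : E → E} (hΘ : Shift A δ Θ) (hA : 1 ≤ A) (hδ : 0 < δ)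
    (hδ1 : δ ≤ 1) {x v : ℝ → E} (h : HamSol Θ T x v) {s₁ s₂ : ℝ} (h0 : 0 ≤ s₁) (h12 : s₁ ≤ s₂)
    (h2 : s₂ ≤ T) (hoff : ∀ t ∈ Ioo s₁ s₂, δ < |‖x t‖ ^ 2 - 1|) :
    mom Θ (x s₂) (v s₂) = mom Θ (x s₁) (v s₁) :=
  Pool.Agent.MPa29272.S2D.eq_of_zero (T := T) (P := fun s => mom Θ (x s) (v s))
    (F := fun s => force Θ (x s) (v s)) h0 h2 h.dp
    (fun t ht => (hΘ.force_le hA hδ hδ1 (x t) (v t)).2 (hoff t ht)) h12

/-- variation of the momentum over a short interval -/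
theorem mom_var {A δ T : ℝ} {Θ : E → E} (hΘ : Shift A δ Θ) (hA : 1 ≤ A) (hδ : 0 < δ)
    (hδ1 : δ ≤ 1) {x v : ℝ → E} (h : HamSol Θ T x v) {s₁ s₂ I : ℝ} (h0 : 0 ≤ s₁) (h12 : s₁ ≤ s₂)
    (h2 : s₂ ≤ T) (hv : ∀ t ∈ Icc 0 T, ‖v t‖ ≤ 2)
    (hI : (∫ t in s₁..s₂, |⟪x t, v t⟫|) ≤ I) :
    ‖mom Θ (x s₂) (v s₂) - mom Θ (x s₁) (v s₁)‖ ≤ 4 * A * δ * (s₂ - s₁) + 2 * A * I := by
  have hsub : Icc s₁ s₂ ⊆ Icc 0 T := Icc_subset_Icc h0 h2
  have hF : ContinuousOn (fun t => force Θ (x t) (v t)) (Icc s₁ s₂) :=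
    (contOn_force hΘ.smooth h).mono hsub
  have hw : ContinuousOn (fun t => ⟪x t, v t⟫) (Icc s₁ s₂) :=
    ((contOn_x h).inner (contOn_v h)).mono hsub
  have hmomc : ContinuousOn (fun s => mom Θ (x s) (v s)) (Icc s₁ s₂) := fun t ht =>
    ((h.dp t (hsub ht)).continuousWithinAt).mono hsub
  have hint : (∫ t in s₁..s₂, force Θ (x t) (v t)) =
      mom Θ (x s₂) (v s₂) - mom Θ (x s₁) (v s₁) := by
    refine intervalIntegral.integral_eq_sub_of_hasDerivAt_of_le h12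
      (f := fun s => mom Θ (x s) (v s)) hmomc ?_ ?_
    · intro t ht
      exact (h.dp t (hsub ⟨ht.1.le, ht.2.le⟩)).hasDerivAt
        (Icc_mem_nhds (lt_of_le_of_lt h0 ht.1) (lt_of_lt_of_le ht.2 h2))
    · apply ContinuousOn.intervalIntegrable
      rw [uIcc_of_le h12]
      exact hF
  rw [← hint]
  refine (intervalIntegral.norm_integral_le_integral_norm h12).trans ?_
  have hb : (∫ t in s₁..s₂, ‖force Θ (x t) (v t)‖) ≤
      ∫ t in s₁..s₂, (4 * A * δ + 2 * A * |⟪x t, v t⟫|) := by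
    refine intervalIntegral.integral_mono_on h12 ?_ ?_ ?_
    · apply ContinuousOn.intervalIntegrable
      rw [uIcc_of_le h12]
      exact hF.norm
    · apply ContinuousOn.intervalIntegrable
      rw [uIcc_of_le h12]
      exact continuousOn_const.add (continuousOn_const.mul hw.abs)
    · intro t ht
      have h3 := (hΘ.force_le hA hδ hδ1 (x t) (v t)).1
      have h4 := hv t (hsub ht)
      refine h3.trans ?_
      have h5 : A * (δ * ‖v t‖ + |⟪x t, v t⟫|) * ‖v t‖ ≤ A * (δ * 2 + |⟪x t, v t⟫|) * 2 := by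
        gcongr
      linarith
  refine hb.trans ?_
  rw [intervalIntegral.integral_add intervalIntegrable_const (by
    apply ContinuousOn.intervalIntegrable
    rw [uIcc_of_le h12]
    exact continuousOn_const.mul hw.abs), intervalIntegral.integral_const,
    intervalIntegral.integral_const_mul, smul_eq_mul]
  have : 2 * A * (∫ t in s₁..s₂, |⟪x t, v t⟫|) ≤ 2 * A * I := by
    have : 0 ≤ 2 * A := by linarith
    gcongr
  linarith

/-- unit speed -/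
theorem apriori_unit (A : ℝ) (hA : 1 ≤ A) : ∃ C δ₀ : ℝ, 1 ≤ C ∧ 0 < δ₀ ∧ 8 * A * δ₀ ≤ 1 ∧
    ∀ δ, 0 < δ → δ ≤ δ₀ →
    ∀ Θ : E → E, Shift A δ Θ → ∀ (T : ℝ) (x v : ℝ → E), HamSol Θ T x v → ‖x 0‖ ^ 2 ≤ 1 + δ →
      gT Θ (x 0) (v 0) (v 0) = 1 →
      ∀ t ∈ Icc 0 T, ‖mom Θ (x t) (v t) - mom Θ (x 0) (v 0)‖ ≤ C * δ := by
  obtain ⟨C, δ₀, hC, hδ₀, hpl⟩ := planar (4 * A) 1 (by linarith) le_rfl
  refine ⟨1 + 8 * A * C + 4 * A * C, min δ₀ (1 / (8 * A)), by nlinarith [mul_pos (by linarith : 0 < A) hC],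
    lt_min hδ₀ (by positivity), ?_, ?_⟩
  · have h8 : (0 : ℝ) < 8 * A := by linarith
    calc 8 * A * min δ₀ (1 / (8 * A)) ≤ 8 * A * (1 / (8 * A)) := by
          gcongr
          exact min_le_right _ _
      _ = 1 := by field_simp
  intro δ hδ hδm Θ hΘ T x v h hx0 h1
  have hA0 : 0 < A := by linarith
  have hδ8 : 8 * A * δ ≤ 1 := by
    have : δ ≤ 1 / (8 * A) := hδm.trans (min_le_right _ _)
    rw [le_div_iff₀ (by positivity)] at this
    linarith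
  have hδ2 : δ ≤ 1 := by nlinarith
  have hv := speed_le hΘ hA hδ hδ8 h h1
  have hsd1 : √δ ≤ 1 := by
    have := Real.sqrt_le_sqrt hδ2
    rwa [Real.sqrt_one] at this
  -- times in the ball
  have key : ∀ t ∈ Icc 0 T, ‖x t‖ ^ 2 ≤ 1 + δ →
      ‖mom Θ (x t) (v t) - mom Θ (x 0) (v 0)‖ ≤ (1 + 8 * A * C + 4 * A * C) * δ := by
    intro t ht hxt
    have hr : HamSol Θ t x v := h.restrict ht.2
    have hP := hr.planar hΘ hA hδ hδ8 h1
    obtain ⟨a, b, ha0, hab, hbt, haC, hbC, hoff, hIa, hIb⟩ :=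
      hpl δ t hδ (hδm.trans (min_le_left _ _)) ht.1 _ _ _ hP (by linarith) (by linarith)
    have e1 := mom_var hΘ hA hδ hδ2 h le_rfl ha0 (hab.trans (hbt.trans ht.2)) hv hIa
    have e2 := mom_eq hΘ hA hδ hδ2 h ha0 hab (hbt.trans ht.2) (fun s hs => by
      have := hoff s hs
      rw [one_mul] at this
      convert this using 2
      ring)
    have e3 := mom_var hΘ hA hδ hδ2 h (ha0.trans hab) hbt ht.2 hv hIb
    have e4 : mom Θ (x t) (v t) - mom Θ (x 0) (v 0) =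
        (mom Θ (x t) (v t) - mom Θ (x b) (v b)) + (mom Θ (x a) (v a) - mom Θ (x 0) (v 0)) := by
      rw [e2]; abel
    rw [e4]
    refine (norm_add_le _ _).trans ?_
    have haC' : a ≤ C := haC.trans (by nlinarith)
    have hbC' : t - b ≤ C := hbC.trans (by nlinarith)
    have f1 : 4 * A * δ * (a - 0) ≤ 4 * A * δ * C := by
      rw [sub_zero]; gcongr
    have f2 : 4 * A * δ * (t - b) ≤ 4 * A * δ * C := by gcongr
    nlinarith
  intro t ht
  by_cases hxt : ‖x t‖ ^ 2 ≤ 1 + δ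
  · exact key t ht hxt
  · push Not at hxt
    -- last time in the ball
    have hcl : IsClosed {s ∈ Icc 0 t | ‖x s‖ ^ 2 ≤ 1 + δ} :=
      ((((contOn_x h).mono (Icc_subset_Icc_right ht.2)).norm.pow 2).preimage_isClosed_of_isClosed
        isClosed_Icc isClosed_Iic)
    have hne : {s ∈ Icc 0 t | ‖x s‖ ^ 2 ≤ 1 + δ}.Nonempty := ⟨0, ⟨le_rfl, ht.1⟩, hx0⟩
    have hbd : BddAbove {s ∈ Icc 0 t | ‖x s‖ ^ 2 ≤ 1 + δ} := ⟨t, fun s hs => hs.1.2⟩
    have hmem := hcl.csSup_mem hne hbd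
    have hoff : ∀ r ∈ Ioo (sSup {s ∈ Icc 0 t | ‖x s‖ ^ 2 ≤ 1 + δ}) t, δ < |‖x r‖ ^ 2 - 1| := by
      intro r hr
      have h3 : 1 + δ < ‖x r‖ ^ 2 := by
        by_contra hc
        push Not at hc
        exact absurd (le_csSup hbd ⟨⟨hmem.1.1.trans hr.1.le, hr.2.le⟩, hc⟩) (not_le.2 hr.1)
      exact lt_of_lt_of_le (by linarith) (le_abs_self _)
    rw [mom_eq hΘ hA hδ hδ2 h hmem.1.1 hmem.1.2 ht.2 hoff]
    exact key _ ⟨hmem.1.1, hmem.1.2.trans ht.2⟩ hmem.2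

end Apr

/-- PIECE APR: step (B). Unit speed first: if `‖x t‖² ≤ 1 + δ`, apply `planar` with `K = 1` on
`[0, t]` and integrate `‖force‖ ≤ A (2 δ + 2 |⟪x, v⟫|) 1_shell`; otherwise let `t'` be the last time
before `t` with `‖x‖² ≤ 1 + δ`: the momentum is constant on `[t', t]`. Then `HamSol.scale`. -/
theorem apriori (A : ℝ) (hA : 1 ≤ A) : ∃ C δ₀ : ℝ, 1 ≤ C ∧ 0 < δ₀ ∧ ∀ δ, 0 < δ → δ ≤ δ₀ →
    ∀ Θ : E → E, Shift A δ Θ → ∀ (T : ℝ) (x v : ℝ → E), HamSol Θ T x v → ‖x 0‖ ^ 2 ≤ 1 + δ →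
      ∀ t ∈ Icc 0 T, ‖mom Θ (x t) (v t) - mom Θ (x 0) (v 0)‖ ≤ C * δ * ‖v 0‖ ∧
        ‖x t - x 0 - t • v 0‖ ≤ C * δ * (t * ‖v 0‖) := by
  obtain ⟨C, δ₀, hC, hδ₀, hAδ₀, hunit⟩ := Apr.apriori_unit (E := E) A hA
  refine ⟨4 * (C + 24 * A), δ₀, by linarith, hδ₀, ?_⟩
  intro δ hδ hδm Θ hΘ T x v h hx0
  have hA0 : 0 < A := by linarith
  have hδ8 : 8 * A * δ ≤ 1 := by
    have : 8 * A * δ ≤ 8 * A * δ₀ := by gcongr
    linarith
  have hδ2 : δ ≤ 1 := by nlinarith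
  have hadm : Adm Θ := hΘ.adm (by linarith) hδ.le hδ2 (by linarith)
  -- momentum bound for all speeds, and the speed bound
  have hmom : ∀ t ∈ Icc 0 T, ‖mom Θ (x t) (v t) - mom Θ (x 0) (v 0)‖ ≤ 2 * C * δ * ‖v 0‖ ∧
      ‖v t‖ ≤ 4 * ‖v 0‖ := by
    intro t ht
    by_cases hv0 : v 0 = 0
    · have he := h.energy hadm t ht
      have hvt : v t = 0 := by
        by_contra hne
        have := gT_pos hadm (x t) hne
        rw [he, hv0] at this
        simp at this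
      rw [hvt, hv0]
      simp [mom]
    · have hpos := gT_pos hadm (x 0) hv0
      set N := √(gT Θ (x 0) (v 0) (v 0)) with hN
      have hN0 : 0 < N := Real.sqrt_pos.2 hpos
      have hN2 : N ^ 2 = gT Θ (x 0) (v 0) (v 0) := Real.sq_sqrt hpos.le
      have hNle : N ≤ 2 * ‖v 0‖ := by
        have hm := (hΘ.mom_sub_le hA hδ hδ2 (x 0) (v 0)).2.1
        rw [← hN2] at hm
        have h2 := (abs_le.1 hm).2
        have h3 : 4 * A * δ * ‖v 0‖ ^ 2 ≤ 1 / 2 * ‖v 0‖ ^ 2 := by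
          have : 4 * A * δ ≤ 1 / 2 := by linarith
          gcongr
        nlinarith [norm_nonneg (v 0)]
      have hs := h.scale (c := 1 / N) (by positivity)
      have hs1 : gT Θ (x (1 / N * 0)) ((1 / N) • v (1 / N * 0)) ((1 / N) • v (1 / N * 0)) = 1 := by
        rw [Apr.gT_smul, mul_zero, ← hN2]
        field_simp
      have hmem : t * N ∈ Icc 0 (T / (1 / N)) :=
        ⟨by have := ht.1; positivity, by rw [div_div_eq_mul_div, div_one]; have := ht.2; gcongr⟩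
      have h3 := hunit δ hδ hδm Θ hΘ _ _ _ hs (by simpa using hx0) hs1 (t * N) hmem
      have h4 := Apr.speed_le hΘ hA hδ hδ8 hs hs1 (t * N) hmem
      have e : 1 / N * (t * N) = t := by field_simp
      simp only [e, mul_zero, Apr.mom_smul, ← smul_sub] at h3 h4
      rw [norm_smul, Real.norm_of_nonneg (by positivity)] at h3 h4
      constructor
      · have : ‖mom Θ (x t) (v t) - mom Θ (x 0) (v 0)‖ ≤ C * δ * N := by
          rw [one_div, inv_mul_le_iff₀ hN0] at h3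
          linarith
        calc _ ≤ C * δ * N := this
          _ ≤ C * δ * (2 * ‖v 0‖) := by gcongr
          _ = _ := by ring
      · rw [one_div, inv_mul_le_iff₀ hN0] at h4
        linarith
  intro t ht
  have h0T : (0 : ℝ) ∈ Icc 0 T := ⟨le_rfl, ht.1.trans ht.2⟩
  refine ⟨(hmom t ht).1.trans ?_, ?_⟩
  · have : 2 * C ≤ 4 * (C + 24 * A) := by linarith
    gcongr
  · -- velocity
    have hvel : ∀ s ∈ Icc 0 T, ‖v s - v 0‖ ≤ 4 * (C + 24 * A) * δ * ‖v 0‖ := by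
      intro s hs
      have h1 := (hmom s hs).1
      have h2 := (hmom s hs).2
      have h3 := (hΘ.mom_sub_le hA hδ hδ2 (x s) (v s)).1
      have h4 := (hΘ.mom_sub_le hA hδ hδ2 (x 0) (v 0)).1
      have e : v s - v 0 = -(mom Θ (x s) (v s) - v s) + (mom Θ (x s) (v s) - mom Θ (x 0) (v 0)) +
          (mom Θ (x 0) (v 0) - v 0) := by abel
      rw [e]
      refine (norm_add_le _ _).trans ?_
      refine (add_le_add_left (norm_add_le _ _) _).trans ?_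
      rw [norm_neg]
      have h5 : 4 * A * δ * ‖v s‖ ≤ 4 * A * δ * (4 * ‖v 0‖) := by gcongr
      nlinarith [norm_nonneg (v 0), mul_nonneg (mul_nonneg hA0.le hδ.le) (norm_nonneg (v 0)),
        mul_nonneg (mul_nonneg (by linarith : 0 ≤ C) hδ.le) (norm_nonneg (v 0))]
    have key := (convex_Icc (0 : ℝ) T).norm_image_sub_le_of_norm_hasDerivWithin_le
      (f := fun s => x s - s • v 0) (f' := fun s => v s - v 0) (C := 4 * (C + 24 * A) * δ * ‖v 0‖)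
      (fun s hs => by
        have e2 : HasDerivWithinAt (fun s : ℝ => s • v 0) ((1 : ℝ) • v 0) (Icc 0 T) s :=
          (hasDerivWithinAt_id s (Icc 0 T)).smul_const (v 0)
        rw [one_smul] at e2
        exact (h.dx s hs).sub e2)
      hvel h0T ht
    simp only [zero_smul, sub_zero] at key
    have e3 : x t - t • v 0 - x 0 = x t - x 0 - t • v 0 := by abel
    rw [e3, Real.norm_of_nonneg ht.1] at key
    refine key.trans (le_of_eq ?_)
    ring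

end Pool.Agent.Lib_MP_a29272_q1
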