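import Pool.Agent.Lib_MP_a29272_q1.Ham

/-! Easy bounds (shadow of helper66's piece). -/

namespace Pool.Agent.Lib_MP_a29272_q1.SB

open Set Metric
open scoped ContDiff RealInnerProductSpace

variable {E : Type} [NormedAddCommGroup E] [InnerProductSpace ℝ E]

theorem mom_sub_norm_le (Θ : E → E) (x v : E) :
    ‖mom Θ x v - v‖ ≤ 2 * (‖x‖ * ‖Θ x‖) * ‖v‖ := by
  have h : mom Θ x v - v = ⟪x, v⟫ • Θ x + ⟪Θ x, v⟫ • x := by
    rw [mom]; module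
  rw [h]
  calc ‖⟪x, v⟫ • Θ x + ⟪Θ x, v⟫ • x‖ ≤ ‖⟪x, v⟫ • Θ x‖ + ‖⟪Θ x, v⟫ • x‖ := norm_add_le _ _
    _ = |⟪x, v⟫| * ‖Θ x‖ + |⟪Θ x, v⟫| * ‖x‖ := by
        rw [norm_smul, norm_smul, Real.norm_eq_abs, Real.norm_eq_abs]
    _ ≤ (‖x‖ * ‖v‖) * ‖Θ x‖ + (‖Θ x‖ * ‖v‖) * ‖x‖ := by
        gcongr
        · exact abs_real_inner_le_norm _ _
        · exact abs_real_inner_le_norm _ _
    _ = _ := by ring

theorem Shift.mom_sub_le {A δ : ℝ} {Θ : E → E} (h : Shift A δ Θ) (hA : 1 ≤ A) (hδ : 0 < δ)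
    (hδ1 : δ ≤ 1) (x v : E) : ‖mom Θ x v - v‖ ≤ 4 * A * δ * ‖v‖ ∧
      |gT Θ x v v - ‖v‖ ^ 2| ≤ 4 * A * δ * ‖v‖ ^ 2 ∧
      (δ < |‖x‖ ^ 2 - 1| → mom Θ x v = v) := by
  have hn := h.norm_mul_le (by linarith) hδ.le hδ1 x
  refine ⟨?_, ?_, ?_⟩
  · refine (mom_sub_norm_le Θ x v).trans ?_
    refine mul_le_mul_of_nonneg_right ?_ (norm_nonneg _)
    linarith
  · have h1 : |2 * (⟪x, v⟫ * ⟪Θ x, v⟫)| ≤ ‖x‖ * ‖Θ x‖ * ‖v‖ ^ 2 := two_mul_inner_le (h.orth x) v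
    have h2 : gT Θ x v v - ‖v‖ ^ 2 = 2 * (⟪x, v⟫ * ⟪Θ x, v⟫) := by
      rw [gT_apply, real_inner_self_eq_norm_sq]; ring
    rw [h2]
    refine h1.trans (mul_le_mul_of_nonneg_right ?_ (sq_nonneg _))
    have : 0 ≤ A * δ := by positivity
    nlinarith
  · intro hx
    have h0 : Θ x = 0 := h.supp x (by linarith)
    simp [mom, h0]

variable [FiniteDimensional ℝ E]

theorem Shift.force_le {A δ : ℝ} {Θ : E → E} (h : Shift A δ Θ) (hA : 1 ≤ A) (hδ : 0 < δ)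
    (hδ1 : δ ≤ 1) (x v : E) : ‖force Θ x v‖ ≤ A * (δ * ‖v‖ + |⟪x, v⟫|) * ‖v‖ ∧
      (δ < |‖x‖ ^ 2 - 1| → force Θ x v = 0) := by
  constructor
  · rw [force]
    calc ‖⟪Θ x, v⟫ • v + ⟪x, v⟫ • (ContinuousLinearMap.adjoint (fderiv ℝ Θ x)) v‖
        ≤ ‖⟪Θ x, v⟫ • v‖ + ‖⟪x, v⟫ • (ContinuousLinearMap.adjoint (fderiv ℝ Θ x)) v‖ :=
          norm_add_le _ _
      _ = |⟪Θ x, v⟫| * ‖v‖ + |⟪x, v⟫| * ‖(ContinuousLinearMap.adjoint (fderiv ℝ Θ x)) v‖ := by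
          rw [norm_smul, norm_smul, Real.norm_eq_abs, Real.norm_eq_abs]
      _ ≤ (A * δ * ‖v‖) * ‖v‖ + |⟪x, v⟫| * (A * ‖v‖) := by
          gcongr
          · exact (abs_real_inner_le_norm _ _).trans
              (mul_le_mul_of_nonneg_right (h.bd0 x) (norm_nonneg _))
          · refine (ContinuousLinearMap.le_opNorm _ _).trans
              (mul_le_mul_of_nonneg_right ?_ (norm_nonneg _))
            rw [LinearIsometryEquiv.norm_map]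
            exact h.bd1 x
      _ = _ := by ring
  · intro hx
    have hx' : δ / 2 < |‖x‖ ^ 2 - 1| := by linarith
    rw [force, h.supp x hx', h.fderiv_eq_zero hx']
    simp

end Pool.Agent.Lib_MP_a29272_q1.SB
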