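import Pool.Agent.Lib_MP_a29272_q1.Defs

/-!
# Outside the shell: straight lines, the convex boundary, geodesics stay in the ball
-/

set_option linter.unusedSectionVars false

namespace Pool.Agent.Lib_MP_a29272_q1

open Set Metric Filter Topology
open scoped ContDiff RealInnerProductSpace

section Outside

variable {E : Type} [NormedAddCommGroup E] [InnerProductSpace ℝ E]

theorem gT_of_zero {Θ : E → E} {x : E} (h : Θ x = 0) : gT Θ x = inn := by
  ext u v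
  rw [gT_apply, h, inn_apply]
  simp

theorem isOpen_outside (δ : ℝ) : IsOpen {y : E | δ / 2 < |‖y‖ ^ 2 - 1|} :=
  isOpen_lt continuous_const (by fun_prop)

theorem Shift.eventually_zero {A δ : ℝ} {Θ : E → E} (hΘ : Shift A δ Θ) {x : E}
    (hx : δ / 2 < |‖x‖ ^ 2 - 1|) : ∀ᶠ y in 𝓝 x, Θ y = 0 := by
  filter_upwards [(isOpen_outside δ).mem_nhds hx] with y hy using hΘ.supp y hy

theorem Shift.fderiv_zero {A δ : ℝ} {Θ : E → E} (hΘ : Shift A δ Θ) {x : E}
    (hx : δ / 2 < |‖x‖ ^ 2 - 1|) : fderiv ℝ Θ x = 0 := by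
  have h : Θ =ᶠ[𝓝 x] fun _ => 0 := hΘ.eventually_zero hx
  rw [h.fderiv_eq]
  simp

theorem christoffel_of_eventually_zero {Θ : E → E} {x : E} (h : ∀ᶠ y in 𝓝 x, Θ y = 0) (v w : E) :
    christoffel (gT Θ) x v w = 0 := by
  have h1 : gT Θ =ᶠ[𝓝 x] fun _ => inn := h.mono fun y hy => gT_of_zero hy
  have h2 : fderiv ℝ (gT Θ) x = 0 := by
    rw [h1.fderiv_eq]
    simp
  rw [christoffel, h2]
  have h3 : ((1 / 2 : ℝ) • ((0 : E →L[ℝ] E →L[ℝ] E →L[ℝ] ℝ) v w
      + (0 : E →L[ℝ] E →L[ℝ] E →L[ℝ] ℝ) w v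
      - ((0 : E →L[ℝ] E →L[ℝ] E →L[ℝ] ℝ).flip v).flip w)) = 0 := by
    ext z
    simp
  rw [h3, map_zero]

/-- The sphere of radius `R`, `R ^ 2 > 1 + δ / 2`, is strictly convex for `gT Θ`. -/
theorem strictlyConvexBoundary {A δ R : ℝ} {Θ : E → E} (hΘ : Shift A δ Θ)
    (hR : 1 + δ / 2 < R ^ 2) (hR0 : 0 < R) : StrictlyConvexBoundary R (gT Θ) := by
  intro c hc hcR hc0 ν hν hν0
  have hout : δ / 2 < |‖c 0‖ ^ 2 - 1| := by
    rw [hcR]
    exact lt_of_lt_of_le (by linarith) (le_abs_self _)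
  have hz : Θ (c 0) = 0 := hΘ.supp _ hout
  rw [christoffel_of_eventually_zero (hΘ.eventually_zero hout), add_zero, gT_of_zero hz,
    inn_apply]
  simp only [gT_of_zero hz, inn_apply] at hν
  -- derivatives of `‖c‖²`
  have hd : ∀ t, HasDerivAt c (deriv c t) t := fun t =>
    ((hc.differentiable (by simp)) t).hasDerivAt
  have hc' : ContDiff ℝ ∞ (deriv c) := by
    have := (contDiff_infty_iff_deriv (𝕜 := ℝ)).1 hc
    exact this.2
  have hd' : ∀ t, HasDerivAt (deriv c) (deriv (deriv c) t) t := fun t =>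
    ((hc'.differentiable (by simp)) t).hasDerivAt
  have h1 : ∀ t, ⟪c t, deriv c t⟫ = 0 := by
    intro t
    have h2 : HasDerivAt (fun s => ⟪c s, c s⟫) (⟪c t, deriv c t⟫ + ⟪deriv c t, c t⟫) t :=
      (hd t).inner ℝ (hd t)
    have h3 : (fun s => ⟪c s, c s⟫) = fun _ => R ^ 2 := by
      funext s
      rw [real_inner_self_eq_norm_sq, hcR]
    rw [h3] at h2
    have h4 := h2.unique (hasDerivAt_const t (R ^ 2))
    rw [real_inner_comm (c t) (deriv c t)] at h4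
    linarith
  have h2 : ⟪c 0, deriv (deriv c) 0⟫ = - ‖deriv c 0‖ ^ 2 := by
    have h3 : HasDerivAt (fun s => ⟪c s, deriv c s⟫)
        (⟪c 0, deriv (deriv c) 0⟫ + ⟪deriv c 0, deriv c 0⟫) 0 := (hd 0).inner ℝ (hd' 0)
    have h4 : (fun s => ⟪c s, deriv c s⟫) = fun _ => (0 : ℝ) := funext h1
    rw [h4] at h3
    have h5 := h3.unique (hasDerivAt_const 0 (0 : ℝ))
    rw [real_inner_self_eq_norm_sq] at h5
    linarith
  -- decompose `c''`
  have hcc : ⟪c 0, c 0⟫ = R ^ 2 := by rw [real_inner_self_eq_norm_sq, hcR]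
  have h3 := hν (deriv (deriv c) 0 - (⟪c 0, deriv (deriv c) 0⟫ / R ^ 2) • c 0) (by
    rw [inner_sub_right, inner_smul_right, hcc]
    field_simp
    ring)
  rw [inner_sub_right, inner_smul_right, h2, real_inner_comm (c 0) ν] at h3
  have h4 : ⟪ν, deriv (deriv c) 0⟫ = (‖deriv c 0‖ ^ 2 / R ^ 2) * (-⟪c 0, ν⟫) := by
    linear_combination h3
  rw [h4]
  have h5 : 0 < ‖deriv c 0‖ := norm_pos_iff.2 hc0
  exact mul_pos (by positivity) (by linarith)

end Outside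

section Flow

variable {E : Type} [NormedAddCommGroup E] [InnerProductSpace ℝ E] [FiniteDimensional ℝ E]

variable {A δ : ℝ} {Θ : E → E} {T : ℝ} {x v : ℝ → E}

theorem HamSol.continuousOn_x (h : HamSol Θ T x v) : ContinuousOn x (Icc 0 T) :=
  fun t ht => (h.dx t ht).continuousWithinAt

theorem HamSol.continuousOn_v (h : HamSol Θ T x v) : ContinuousOn v (Icc 0 T) :=
  fun t ht => (h.dv t ht).continuousWithinAt

/-- Outside the shell the velocity has derivative zero. -/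
theorem HamSol.dv_zero (hΘ : Shift A δ Θ) (h : HamSol Θ T x v) {t : ℝ} (ht : t ∈ Icc 0 T)
    (hx : δ / 2 < |‖x t‖ ^ 2 - 1|) : HasDerivWithinAt v 0 (Icc 0 T) t := by
  have h1 := h.dp t ht
  have h2 : force Θ (x t) (v t) = 0 := by
    rw [force, hΘ.supp _ hx, hΘ.fderiv_zero hx]
    simp
  rw [h2] at h1
  have h3 : ∀ᶠ s in 𝓝[Icc 0 T] t, Θ (x s) = 0 :=
    (h.continuousOn_x t ht).eventually (hΘ.eventually_zero hx)
  refine h1.congr_of_eventuallyEq ?_ ?_
  · filter_upwards [h3] with s hs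
    rw [mom, hs]
    simp
  · rw [mom, hΘ.supp _ hx]
    simp

/-- Outside the shell solutions are straight lines. -/
theorem HamSol.affine (hΘ : Shift A δ Θ) (h : HamSol Θ T x v) {a b : ℝ} (ha : 0 ≤ a)
    (hb : b ≤ T) (hout : ∀ t ∈ Icc a b, δ / 2 < |‖x t‖ ^ 2 - 1|) :
    ∀ t ∈ Icc a b, v t = v a ∧ x t = x a + (t - a) • v a := by
  have hsub : Icc a b ⊆ Icc 0 T := Icc_subset_Icc ha hb
  have hright : ∀ {f : ℝ → E} {f' : E} {t : ℝ}, t ∈ Ico a b →
      HasDerivWithinAt f f' (Icc 0 T) t → HasDerivWithinAt f f' (Ici t) t := by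
    intro f f' t ht hf
    have h1 : HasDerivWithinAt f f' (Icc t b) t :=
      hf.mono ((Icc_subset_Icc_left ht.1).trans hsub)
    exact h1.mono_of_mem_nhdsWithin (Icc_mem_nhdsGE ht.2)
  have hv : ∀ t ∈ Icc a b, v t = v a :=
    constant_of_has_deriv_right_zero (h.continuousOn_v.mono hsub) fun t ht =>
      hright ht (h.dv_zero hΘ (hsub (Ico_subset_Icc_self ht)) (hout t (Ico_subset_Icc_self ht)))
  intro t ht
  refine ⟨hv t ht, ?_⟩
  have hx : ∀ t ∈ Icc a b, x t - (t - a) • v a = x a - (a - a) • v a :=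
    constant_of_has_deriv_right_zero (f := fun t => x t - (t - a) • v a)
      ((h.continuousOn_x.mono hsub).sub (by fun_prop)) fun t ht => by
        have h1 := hright ht (h.dx t (hsub (Ico_subset_Icc_self ht)))
        have h2 : HasDerivWithinAt (fun t : ℝ => (t - a) • v a) ((1 : ℝ) • v a) (Ici t) t :=
          (((hasDerivAt_id t).sub_const a).smul_const (v a)).hasDerivWithinAt
        have h3 := h1.sub h2
        rw [hv t (Ico_subset_Icc_self ht), one_smul, sub_self] at h3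
        exact h3
  have := hx t ht
  rw [sub_self, zero_smul, sub_zero] at this
  rw [← this]
  abel

/-- A solution both of whose ends lie in the ball of radius `R`, `R ^ 2 > 1 + δ / 2`, stays in
this ball. -/
theorem HamSol.stays_in_ball (hΘ : Shift A δ Θ) (h : HamSol Θ T x v) (hT : 0 ≤ T) {R : ℝ}
    (hR : 1 + δ / 2 < R ^ 2) (hR0 : 0 ≤ R) (h0 : ‖x 0‖ ≤ R) (h1 : ‖x T‖ ≤ R) :
    ∀ t ∈ Icc 0 T, ‖x t‖ ≤ R := by
  have hcont : ContinuousOn (fun t => ‖x t‖ ^ 2) (Icc 0 T) := h.continuousOn_x.norm.pow 2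
  obtain ⟨t₀, ht₀, hmax⟩ := isCompact_Icc.exists_isMaxOn (nonempty_Icc.2 hT) hcont
  have hmax' : ∀ t ∈ Icc 0 T, ‖x t‖ ^ 2 ≤ ‖x t₀‖ ^ 2 := fun t ht => hmax ht
  suffices hs : ‖x t₀‖ ^ 2 ≤ R ^ 2 by
    intro t ht
    exact (sq_le_sq₀ (norm_nonneg _) hR0).1 ((hmax' t ht).trans hs)
  by_contra hlt
  rw [not_le] at hlt
  set S : Set ℝ := Icc 0 T ∩ (fun t => ‖x t‖ ^ 2) ⁻¹' {‖x t₀‖ ^ 2} with hS
  have hSc : IsClosed S := hcont.preimage_isClosed_of_isClosed isClosed_Icc isClosed_singleton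
  have hSk : IsCompact S := isCompact_Icc.of_isClosed_subset hSc inter_subset_left
  have hSn : S.Nonempty := ⟨t₀, ht₀, rfl⟩
  obtain ⟨⟨ht1a, ht1b⟩, hft⟩ := hSk.sInf_mem hSn
  set t₁ := sInf S with ht₁
  have hft' : ‖x t₁‖ ^ 2 = ‖x t₀‖ ^ 2 := hft
  have hne0 : t₁ ≠ 0 := by
    intro h'
    rw [h'] at hft'
    have := (sq_le_sq₀ (norm_nonneg _) hR0).2 h0
    linarith
  have hneT : t₁ ≠ T := by
    intro h'
    rw [h'] at hft'
    have := (sq_le_sq₀ (norm_nonneg _) hR0).2 h1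
    linarith
  have hpos : 0 < t₁ := lt_of_le_of_ne ht1a (Ne.symm hne0)
  have hltT : t₁ < T := lt_of_le_of_ne ht1b hneT
  -- near `t₁` the solution is outside the shell
  have hcontAt : ContinuousAt (fun t => ‖x t‖ ^ 2) t₁ :=
    hcont.continuousAt (Icc_mem_nhds hpos hltT)
  have hev : ∀ᶠ t in 𝓝 t₁, 1 + δ / 2 < ‖x t‖ ^ 2 :=
    hcontAt.eventually (lt_mem_nhds (by
      change 1 + δ / 2 < ‖x t₁‖ ^ 2
      linarith))
  obtain ⟨ε₀, hε₀, hball⟩ := Metric.eventually_nhds_iff.1 hev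
  obtain ⟨ε, hε, hε1, hε2, hε3⟩ : ∃ ε > 0, ε < ε₀ ∧ 0 ≤ t₁ - ε ∧ t₁ + ε ≤ T := by
    refine ⟨min (ε₀ / 2) (min t₁ (T - t₁)), by
      exact lt_min (by linarith) (lt_min hpos (by linarith)), ?_, ?_, ?_⟩
    · exact lt_of_le_of_lt (min_le_left _ _) (by linarith)
    · have := (min_le_right (ε₀ / 2) (min t₁ (T - t₁))).trans (min_le_left _ _)
      linarith
    · have := (min_le_right (ε₀ / 2) (min t₁ (T - t₁))).trans (min_le_right _ _)
      linarith
  have hout : ∀ t ∈ Icc (t₁ - ε) (t₁ + ε), δ / 2 < |‖x t‖ ^ 2 - 1| := by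
    intro t ht
    have := hball (y := t) (by
      rw [Real.dist_eq, abs_lt]
      constructor <;> linarith [ht.1, ht.2])
    exact lt_of_lt_of_le (by linarith) (le_abs_self _)
  have haff := h.affine hΘ hε2 hε3 hout
  have hm := (haff t₁ ⟨by linarith, by linarith⟩).2
  have hb := (haff (t₁ + ε) ⟨by linarith, le_rfl⟩).2
  set a := t₁ - ε with ha
  have hm' : x t₁ = x a + ε • v a := by
    rw [hm, ha]
    congr 2
    ring
  have hb' : x (t₁ + ε) = x a + (2 * ε) • v a := by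
    rw [hb, ha]
    congr 2
    ring
  have haI : a ∈ Icc 0 T := ⟨hε2, by linarith⟩
  have hfa := hmax' a haI
  have hfb := hmax' (t₁ + ε) ⟨by linarith, hε3⟩
  have hpar : ‖x a‖ ^ 2 + ‖x (t₁ + ε)‖ ^ 2 = 2 * ‖x t₁‖ ^ 2 + 2 * ε ^ 2 * ‖v a‖ ^ 2 := by
    rw [hm', hb', norm_add_sq_real, norm_add_sq_real, inner_smul_right, inner_smul_right,
      norm_smul, norm_smul, mul_pow, mul_pow, Real.norm_eq_abs, Real.norm_eq_abs, sq_abs, sq_abs]
    ring
  have hv0 : v a = 0 := by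
    have h5 : ε ^ 2 * ‖v a‖ ^ 2 ≤ 0 := by nlinarith
    have h6 : 0 ≤ ε ^ 2 * ‖v a‖ ^ 2 := by positivity
    have h7 : ε ^ 2 * ‖v a‖ ^ 2 = 0 := le_antisymm h5 h6
    have h8 : ‖v a‖ ^ 2 = 0 := by
      rcases mul_eq_zero.1 h7 with h9 | h9
      · exact absurd h9 (by positivity)
      · exact h9
    exact norm_eq_zero.1 (pow_eq_zero_iff (by norm_num) |>.1 h8)
  have hxa : x t₁ = x a := by
    rw [hm', hv0, smul_zero, add_zero]
  have haS : a ∈ S := ⟨haI, by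
    change ‖x a‖ ^ 2 = ‖x t₀‖ ^ 2
    rw [← hxa, hft']⟩
  have : t₁ ≤ a := csInf_le hSk.bddBelow haS
  linarith

end Flow

end Pool.Agent.Lib_MP_a29272_q1
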