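import Mathlib

/-!
# Cauchy estimates for real restrictions of holomorphic maps
-/

namespace Pool.Agent.Lib_MP_a29272_q1

open Set Metric
open scoped ContDiff

section

variable {V W : Type*} [NormedAddCommGroup V] [NormedSpace ℂ V] [NormedAddCommGroup W]
  [NormedSpace ℂ W]

/-- Cauchy's estimate for the derivative of a holomorphic map between normed spaces -/
theorem cauchy_fderiv {F : V → W} (hF : Differentiable ℂ F) {X : V} {r C : ℝ} (hr : 0 < r)
    (hC : ∀ Y, ‖Y - X‖ ≤ r → ‖F Y‖ ≤ C) : ‖fderiv ℂ F X‖ ≤ C / r := by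
  have hC0 : 0 ≤ C := (norm_nonneg _).trans (hC X (by simpa using hr.le))
  refine ContinuousLinearMap.opNorm_le_bound _ (by positivity) fun u => ?_
  rcases eq_or_ne u 0 with rfl | hu
  · simp
  have hu' : 0 < ‖u‖ := norm_pos_iff.2 hu
  set f : ℂ → W := fun w => F (X + w • u) with hf
  have hfd : Differentiable ℂ f :=
    hF.comp ((differentiable_const X).add (differentiable_id.smul_const u))
  have h1 : HasDerivAt f (fderiv ℂ F X u) 0 := by
    have h2 : HasDerivAt (fun w : ℂ => X + w • u) u 0 := by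
      have := ((hasDerivAt_id (0 : ℂ)).smul_const u).const_add X
      simpa using this
    have h3 : HasFDerivAt F (fderiv ℂ F X) (X + (0 : ℂ) • u) := by
      rw [zero_smul, add_zero]
      exact (hF X).hasFDerivAt
    exact h3.comp_hasDerivAt 0 h2
  have h4 : ‖deriv f 0‖ ≤ C / (r / ‖u‖) := by
    refine Complex.norm_deriv_le_of_forall_mem_sphere_norm_le (by positivity) hfd.diffContOnCl
      fun z hz => ?_
    apply hC
    rw [mem_sphere_zero_iff_norm] at hz
    rw [add_sub_cancel_left, norm_smul, hz]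
    rw [div_mul_cancel₀ _ hu'.ne']
  rw [h1.deriv] at h4
  calc ‖fderiv ℂ F X u‖ ≤ C / (r / ‖u‖) := h4
    _ = C / r * ‖u‖ := by field_simp

end

/-! ### the real restriction -/

/-- `ℝ⁴` -/
abbrev E4 : Type := EuclideanSpace ℝ (Fin 4)

/-- `ℂ⁴` -/
abbrev C4 : Type := EuclideanSpace ℂ (Fin 4)

/-- the inclusion of `ℝ⁴` in `ℂ⁴` -/
noncomputable def iota : E4 →L[ℝ] C4 :=
  LinearMap.mkContinuous
    { toFun := fun x => WithLp.toLp 2 fun i => ((x i : ℝ) : ℂ)
      map_add' := fun x y => by ext i; simp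
      map_smul' := fun c x => by ext i; simp } 1 fun x => by
    rw [one_mul, EuclideanSpace.norm_eq, EuclideanSpace.norm_eq]
    simp

@[simp] theorem iota_apply (x : E4) (i : Fin 4) : iota x i = ((x i : ℝ) : ℂ) := rfl

theorem norm_iota (x : E4) : ‖iota x‖ = ‖x‖ := by
  rw [EuclideanSpace.norm_eq, EuclideanSpace.norm_eq]
  simp

theorem opNorm_iota_le : ‖iota‖ ≤ 1 :=
  LinearMap.mkContinuous_norm_le _ zero_le_one _

/-- the real part -/
noncomputable def rePart : C4 →L[ℝ] E4 :=
  LinearMap.mkContinuous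
    { toFun := fun x => WithLp.toLp 2 fun i => (x i).re
      map_add' := fun x y => by ext i; simp
      map_smul' := fun c x => by ext i; simp } 1 fun x => by
    rw [one_mul, EuclideanSpace.norm_eq, EuclideanSpace.norm_eq]
    apply Real.sqrt_le_sqrt
    refine Finset.sum_le_sum fun i _ => ?_
    show ‖(x i).re‖ ^ 2 ≤ ‖x i‖ ^ 2
    rw [Real.norm_eq_abs]
    have := Complex.abs_re_le_norm (x i)
    gcongr

@[simp] theorem rePart_apply (x : C4) (i : Fin 4) : rePart x i = (x i).re := rfl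

theorem opNorm_rePart_le : ‖rePart‖ ≤ 1 :=
  LinearMap.mkContinuous_norm_le _ zero_le_one _

theorem rePart_iota (x : E4) : rePart (iota x) = x := by
  ext i
  simp

theorem hasFDerivAt_real {F : C4 → C4} (hF : Differentiable ℂ F) (x : E4) :
    HasFDerivAt (fun y => rePart (F (iota y)))
      (rePart.comp (((fderiv ℂ F (iota x)).restrictScalars ℝ).comp iota)) x := by
  have h1 : HasFDerivAt F ((fderiv ℂ F (iota x)).restrictScalars ℝ) (iota x) :=
    ((hF (iota x)).hasFDerivAt).restrictScalars ℝ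
  exact rePart.hasFDerivAt.comp x (h1.comp x iota.hasFDerivAt)

/-- first derivative -/
theorem norm_fderiv_real_le {F : C4 → C4} (hF : Differentiable ℂ F) {x : E4} {r C : ℝ}
    (hr : 0 < r) (hC : ∀ Y, ‖Y - iota x‖ ≤ r → ‖F Y‖ ≤ C) :
    ‖fderiv ℝ (fun y => rePart (F (iota y))) x‖ ≤ C / r := by
  rw [(hasFDerivAt_real hF x).fderiv]
  have h1 := cauchy_fderiv hF hr hC
  have hC0 : 0 ≤ C / r := (norm_nonneg _).trans h1
  calc ‖rePart.comp (((fderiv ℂ F (iota x)).restrictScalars ℝ).comp iota)‖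
      ≤ ‖rePart‖ * (‖(fderiv ℂ F (iota x)).restrictScalars ℝ‖ * ‖iota‖) :=
        (ContinuousLinearMap.opNorm_comp_le _ _).trans
          (mul_le_mul_of_nonneg_left (ContinuousLinearMap.opNorm_comp_le _ _) (norm_nonneg _))
    _ ≤ 1 * ((C / r) * 1) := by
        have h2 : ‖(fderiv ℂ F (iota x)).restrictScalars ℝ‖ ≤ C / r := by
          rw [ContinuousLinearMap.norm_restrictScalars]
          exact h1
        exact mul_le_mul opNorm_rePart_le
          (mul_le_mul h2 opNorm_iota_le (norm_nonneg _) hC0)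
          (mul_nonneg (norm_nonneg _) (norm_nonneg _)) zero_le_one
    _ = C / r := by ring

/-- second derivative -/
theorem norm_fderiv2_real_le {F : C4 → C4} (hF : ContDiff ℂ 2 F) {x : E4} {r C : ℝ}
    (hr : 0 < r) (hC : ∀ Y, ‖Y - iota x‖ ≤ 2 * r → ‖F Y‖ ≤ C) :
    ‖fderiv ℝ (fderiv ℝ (fun y => rePart (F (iota y)))) x‖ ≤ C / r ^ 2 := by
  have hFd : Differentiable ℂ F := hF.differentiable (by norm_num)
  have hF1 : ContDiff ℂ 1 (fderiv ℂ F) := hF.fderiv_right (by norm_num)
  have hC0 : 0 ≤ C := (norm_nonneg _).trans (hC (iota x) (by simpa using hr.le))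
  have hG : ContDiff ℝ 2 (fun y => rePart (F (iota y))) :=
    rePart.contDiff.comp ((hF.restrict_scalars ℝ).comp iota.contDiff)
  have hG1 : Differentiable ℝ (fderiv ℝ (fun y => rePart (F (iota y)))) :=
    (hG.fderiv_right (m := 1) (by norm_num)).differentiable (by norm_num)
  refine ContinuousLinearMap.opNorm_le_bound₂ _ (by positivity) fun u v => ?_
  set H : C4 → C4 := fun Y => fderiv ℂ F Y (iota v) with hH
  have hHd : Differentiable ℂ H :=
    (hF1.differentiable (by norm_num)).clm_apply (differentiable_const _)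
  have e1 : (fun y => fderiv ℝ (fun y => rePart (F (iota y))) y v) =
      fun y => rePart (H (iota y)) := by
    funext y
    rw [(hasFDerivAt_real hFd y).fderiv]
    rfl
  have e2 : fderiv ℝ (fderiv ℝ (fun y => rePart (F (iota y)))) x u v =
      fderiv ℝ (fun y => rePart (H (iota y))) x u := by
    rw [← e1]
    have h3 : HasFDerivAt (fun y => fderiv ℝ (fun y => rePart (F (iota y))) y v) _ x :=
      (hG1 x).hasFDerivAt.clm_apply (hasFDerivAt_const v x)
    rw [h3.fderiv]
    simp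
  rw [e2]
  have h5 : ∀ Y, ‖Y - iota x‖ ≤ r → ‖H Y‖ ≤ C / r * ‖v‖ := by
    intro Y hY
    have h6 : ‖fderiv ℂ F Y‖ ≤ C / r := by
      refine cauchy_fderiv hFd hr fun Z hZ => hC Z ?_
      calc ‖Z - iota x‖ = ‖(Z - Y) + (Y - iota x)‖ := by congr 1; abel
        _ ≤ ‖Z - Y‖ + ‖Y - iota x‖ := norm_add_le _ _
        _ ≤ 2 * r := by linarith
    calc ‖H Y‖ ≤ ‖fderiv ℂ F Y‖ * ‖iota v‖ := ContinuousLinearMap.le_opNorm _ _
      _ ≤ C / r * ‖v‖ := by
        rw [norm_iota]
        gcongr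
  have h7 := norm_fderiv_real_le hHd hr h5
  calc ‖fderiv ℝ (fun y => rePart (H (iota y))) x u‖
      ≤ ‖fderiv ℝ (fun y => rePart (H (iota y))) x‖ * ‖u‖ := ContinuousLinearMap.le_opNorm _ _
    _ ≤ C / r * ‖v‖ / r * ‖u‖ := by gcongr
    _ = C / r ^ 2 * ‖u‖ * ‖v‖ := by field_simp

end Pool.Agent.Lib_MP_a29272_q1
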