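import Pool.Agent.Lib_MP_a29272_q1.DiffPoint

/-!
# Pointwise bounds for the differences (piece LIP)
-/

namespace Pool.Agent.Lib_MP_a29272_q1

open Set Metric
open scoped ContDiff RealInnerProductSpace

section

variable {E : Type} [NormedAddCommGroup E] [InnerProductSpace ℝ E]

theorem norm_mom_sub_le {A δ : ℝ} {Θ : E → E} (h : Shift A δ Θ) {y w : E} (hy : ‖y‖ ≤ 2)
    (hw : ‖w‖ ≤ 2) : ‖mom Θ y w - w‖ ≤ 8 * (A * δ) := by
  have h0 := h.bd0 y
  have e : mom Θ y w - w = ⟪y, w⟫ • Θ y + ⟪Θ y, w⟫ • y := by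
    simp only [mom]
    module
  rw [e]
  have n1 : ‖⟪y, w⟫ • Θ y‖ ≤ 2 * 2 * (A * δ) := by
    rw [norm_smul]
    have := norm_inner_le_norm (𝕜 := ℝ) y w
    gcongr
    exact this.trans (by gcongr)
  have n2 : ‖⟪Θ y, w⟫ • y‖ ≤ (A * δ) * 2 * 2 := by
    rw [norm_smul]
    have := norm_inner_le_norm (𝕜 := ℝ) (Θ y) w
    have hp : 0 ≤ A * δ := (norm_nonneg _).trans h0
    gcongr
    exact this.trans (by gcongr)
  have := norm_add_le (⟪y, w⟫ • Θ y) (⟪Θ y, w⟫ • y)
  linarith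

omit [InnerProductSpace ℝ E] in
/-- either `x` is off the shell, or it is in a small ball -/
theorem off_or_le {δ : ℝ} (hδ1 : δ ≤ 1 / 100) (x : E) :
    δ / 2 < |‖x‖ ^ 2 - 1| ∨ ‖x‖ ≤ 11 / 10 := by
  rcases lt_or_ge (δ / 2) |‖x‖ ^ 2 - 1| with h | h
  · exact Or.inl h
  · right
    have := (abs_le.1 h).2
    nlinarith [norm_nonneg x]

/-- PIECE LIP (pointwise bounds for the differences). `dp = mom Θ x v - mom Θ y w`. -/
theorem Shift.vel_diff_le {A δ : ℝ} {Θ : E → E} (h : Shift A δ Θ) (hA : 1 ≤ A) (hδ : 0 < δ)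
    (hδ1 : 100 * A * δ ≤ 1) {x v y w : E} (hv : ‖v‖ ≤ 2) (hw : ‖w‖ ≤ 2) :
    ‖(v - w) - (mom Θ x v - mom Θ y w)‖ ≤
      100 * A * (δ * ‖mom Θ x v - mom Θ y w‖ + ‖x - y‖) := by
  have hAδ : 0 < A * δ := by positivity
  have hδ2 : δ ≤ 1 / 100 := by nlinarith
  have e : (v - w) - (mom Θ x v - mom Θ y w) = (mom Θ y w - w) - (mom Θ x v - v) := by abel
  have hx2 := norm_nonneg (x - y)
  have hm := norm_nonneg (mom Θ x v - mom Θ y w)
  by_cases hx : ‖x‖ ≤ 2
  · by_cases hy : ‖y‖ ≤ 2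
    · refine (norm_dv_sub_dp_le' h hδ.le (by linarith) (by linarith) hx hy hw).trans ?_
      have h1 : 8 * (A * δ) * ‖mom Θ x v - mom Θ y w‖ ≤
        100 * (A * δ) * ‖mom Θ x v - mom Θ y w‖ := by gcongr; norm_num
      have h2 : 24 * A * ‖x - y‖ ≤ 100 * A * ‖x - y‖ := by gcongr; norm_num
      linarith
    · push Not at hy
      have hyo : δ / 2 < |‖y‖ ^ 2 - 1| := by
        rcases off_or_le hδ2 y with h | h
        · exact h
        · linarith
      rw [e, mom_eq_of_off h hyo, sub_self, zero_sub, norm_neg]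
      rcases off_or_le hδ2 x with h' | h'
      · rw [mom_eq_of_off h h', sub_self, norm_zero]
        positivity
      · have h3 := norm_mom_sub_le h hx hv
        have h4 : 9 / 10 ≤ ‖x - y‖ := by
          have := norm_sub_norm_le y x
          rw [norm_sub_rev y x] at this
          linarith
        have h5 : 0 ≤ δ * ‖v - w‖ := by positivity
        have h6 : 100 * A * (9 / 10) ≤ 100 * A * (δ * ‖mom Θ x v - w‖ + ‖x - y‖) := by
          gcongr
          have : 0 ≤ δ * ‖mom Θ x v - w‖ := by positivity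
          linarith
        nlinarith
  · push Not at hx
    have hxo : δ / 2 < |‖x‖ ^ 2 - 1| := by
      rcases off_or_le hδ2 x with h | h
      · exact h
      · linarith
    rw [e, mom_eq_of_off h hxo, sub_self, sub_zero]
    rcases off_or_le hδ2 y with h' | h'
    · rw [mom_eq_of_off h h', sub_self, norm_zero]
      positivity
    · have h3 := norm_mom_sub_le h (h'.trans (by norm_num)) hw
      have h4 : 9 / 10 ≤ ‖x - y‖ := by
        have := norm_sub_norm_le x y
        linarith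
      have h6 : 100 * A * (9 / 10) ≤ 100 * A * (δ * ‖v - mom Θ y w‖ + ‖x - y‖) := by
        gcongr
        have : 0 ≤ δ * ‖v - mom Θ y w‖ := by positivity
        linarith
      nlinarith

end

variable {E : Type} [NormedAddCommGroup E] [InnerProductSpace ℝ E] [FiniteDimensional ℝ E]

set_option linter.unusedVariables false in
/-- all the points are in a fixed ball if `Θ x` or `Θ y` is not zero; the second derivative of `Θ`
appears with the factor `|⟪ξ, v⟫| ≤ |⟪x, v⟫| + ‖x - y‖ ‖v‖` -/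
theorem Shift.force_diff_le {A δ K : ℝ} {Θ : E → E} (h : Shift A δ Θ) (hA : 1 ≤ A)
    (hδ : 0 < δ) (hδ1 : 100 * A * δ ≤ 1) (hK : 1 ≤ K) (hKδ : K * δ ≤ 1) {x v y w : E}
    (hv : ‖v‖ ≤ 2) (hw : ‖w‖ ≤ 2) (hxy : ‖x - y‖ ≤ K * δ) :
    ‖force Θ x v - force Θ y w‖ ≤
      100 * A * ((K + |⟪x, v⟫| / δ) * ‖x - y‖ + ‖v - w‖) := by
  have hδ2 : δ ≤ 1 / 100 := by nlinarith
  have hx2 := norm_nonneg (x - y)
  have hvw := norm_nonneg (v - w)
  have hu : 0 ≤ |⟪x, v⟫| / δ := by positivity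
  by_cases hy : ‖y‖ ≤ 2
  · refine (norm_force_sub_le h hδ (by linarith) hy hv hw).trans ?_
    have h1 : A * (8 + 2 * (|⟪x, v⟫| / δ)) * ‖x - y‖ ≤
        100 * A * (K + |⟪x, v⟫| / δ) * ‖x - y‖ := by
      apply mul_le_mul_of_nonneg_right _ hx2
      nlinarith
    have h2 : 12 * A * ‖v - w‖ ≤ 100 * A * ‖v - w‖ := by gcongr; norm_num
    linarith
  · push Not at hy
    have hyo : δ / 2 < |‖y‖ ^ 2 - 1| := by
      rcases off_or_le hδ2 y with h | h
      · exact h
      · linarith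
    rw [force_eq_zero_of_off h hyo, sub_zero]
    rcases off_or_le hδ2 x with h' | h'
    · rw [force_eq_zero_of_off h h', norm_zero]
      positivity
    · have h4 : 9 / 10 ≤ ‖x - y‖ := by
        have := norm_sub_norm_le y x
        rw [norm_sub_rev y x] at this
        linarith
      have n1 : ‖⟪Θ x, v⟫ • v‖ ≤ (A * δ) * 2 * 2 := by
        rw [norm_smul]
        have h1 := norm_inner_le_norm (𝕜 := ℝ) (Θ x) v
        have h0 := h.bd0 x
        gcongr
        exact h1.trans (by gcongr)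
      have n2 : ‖⟪x, v⟫ • (ContinuousLinearMap.adjoint (fderiv ℝ Θ x)) v‖ ≤
          |⟪x, v⟫| * (A * 2) := by
        rw [norm_smul, Real.norm_eq_abs]
        gcongr
        refine (ContinuousLinearMap.le_opNorm _ _).trans ?_
        have : ‖ContinuousLinearMap.adjoint (fderiv ℝ Θ x)‖ ≤ A := by
          simp only [LinearIsometryEquiv.norm_map]
          exact h.bd1 x
        gcongr
      have n3 : ‖force Θ x v‖ ≤ (A * δ) * 2 * 2 + |⟪x, v⟫| * (A * 2) :=
        (norm_add_le _ _).trans (add_le_add n1 n2)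
      have h5 : |⟪x, v⟫| ≤ |⟪x, v⟫| / δ := by
        rw [le_div_iff₀ hδ]
        have := abs_nonneg ⟪x, v⟫
        nlinarith
      have h6 : 100 * A * ((1 + |⟪x, v⟫| / δ) * (9 / 10) + 0) ≤
          100 * A * ((K + |⟪x, v⟫| / δ) * ‖x - y‖ + ‖v - w‖) := by
        gcongr
      have h7 : |⟪x, v⟫| * (A * 2) ≤ |⟪x, v⟫| / δ * (A * 2) := by gcongr
      nlinarith [mul_nonneg (by linarith : (0:ℝ) ≤ A) hu]

end Pool.Agent.Lib_MP_a29272_q1
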