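import Pool.Agent.Lib_MP_a29272_q1.DiffAbs
import Pool.Agent.Lib_MP_a29272_q1.Lip
import Pool.Agent.Lib_MP_a29272_q1.Bdry
import Pool.Agent.Lib_MP_a29272_q1.Apriori

/-! Differences of geodesics: step (5). -/

namespace Pool.Agent.Lib_MP_a29272_q1

open Set Metric MeasureTheory
open scoped ContDiff RealInnerProductSpace

variable {E : Type} [NormedAddCommGroup E] [InnerProductSpace ℝ E] [FiniteDimensional ℝ E]

omit [FiniteDimensional ℝ E] in
theorem mom_sub (Θ : E → E) (x v w : E) : mom Θ x v - mom Θ x w = mom Θ x (v - w) := by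
  simp only [mom, inner_sub_right]
  module

theorem diff_speed {A δ : ℝ} {Θ : E → E} (h : Shift A δ Θ) (hA : 1 ≤ A) (hδ : 0 < δ)
    (hδ1 : 8 * A * δ ≤ 1) {T : ℝ} {x v : ℝ → E} (hs : HamSol Θ T x v)
    (h1 : gT Θ (x 0) (v 0) (v 0) ≤ 1) : ∀ t ∈ Icc 0 T, ‖v t‖ ≤ 2 := by
  intro t ht
  have hδ2 : δ ≤ 1 := by nlinarith
  have hadm : Adm Θ := h.adm (by linarith) hδ.le hδ2 (by linarith)
  have e1 := hs.energy hadm t ht
  have e2 := (h.mom_sub_le hA hδ hδ2 (x t) (v t)).2.1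
  have e3 := (abs_le.1 e2).1
  have e4 : 4 * A * δ * ‖v t‖ ^ 2 ≤ 1 / 2 * ‖v t‖ ^ 2 := by
    apply mul_le_mul_of_nonneg_right _ (sq_nonneg _)
    linarith
  have e5 : ‖v t‖ ^ 2 ≤ 2 ^ 2 := by linarith
  exact (sq_le_sq₀ (norm_nonneg _) (by norm_num)).1 e5

/-- PIECE DIFF: step (5). -/
theorem diff_est (A K : ℝ) (hA : 1 ≤ A) (hK : 1 ≤ K) : ∃ C δ₀ : ℝ, 0 < C ∧ 0 < δ₀ ∧
    ∀ δ, 0 < δ → δ ≤ δ₀ → ∀ Θ : E → E, Shift A δ Θ → ∀ T, 0 ≤ T → T ≤ 4 →
      ∀ x v y w : ℝ → E, HamSol Θ T x v → HamSol Θ T y w → x 0 = y 0 →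
        gT Θ (x 0) (v 0) (v 0) = 1 → gT Θ (y 0) (w 0) (w 0) ≤ 1 → ‖x 0‖ ^ 2 ≤ 1 + δ →
        ‖x T‖ ^ 2 ≤ 1 + K * δ → (∀ t ∈ Icc 0 T, ‖x t - y t‖ ≤ K * δ) →
          ‖x T - y T - T • (v 0 - w 0)‖ ≤ C * √δ * (T * ‖v 0 - w 0‖) := by
  obtain ⟨C₁, δ₁, hC₁, hδ₁, hpl⟩ := planar (4 * A) (4 * K + 4) (by linarith) (by linarith)
  set C := 24 * A * (1 + C₁) with hCdef
  have hAC : 0 < A * C₁ := by positivity
  have hC24 : 24 * A ≤ C := by rw [hCdef]; nlinarith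
  have hC1 : 1 ≤ C := by linarith
  have hCC₁ : C₁ ≤ C := by rw [hCdef]; nlinarith
  have hAK : 0 < 8 * A * K := by positivity
  have hdc : 0 < DiffAbs.diffConst C := by
    unfold DiffAbs.diffConst
    positivity
  refine ⟨2 * DiffAbs.diffConst C + 4 * A, min δ₁ (1 / (8 * A * K)), by positivity,
    by positivity, ?_⟩
  intro δ hδ hδ0 Θ hΘ T hT0 hT4 x v y w hx hy hxy hg1 hg2 hx0 hxT hKd
  have hδ1' : δ ≤ δ₁ := hδ0.trans (min_le_left _ _)
  have h8 : 8 * A * K * δ ≤ 1 := by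
    have := hδ0.trans (min_le_right _ _)
    rw [le_div_iff₀ hAK] at this
    linarith
  have hKδ0 : 0 < K * δ := by positivity
  have h8A : 8 * A * δ ≤ 1 := by
    have e1 : 0 ≤ 8 * A * δ := by positivity
    nlinarith
  have hKδ : K * δ ≤ 1 / 8 := by nlinarith
  have hδ1 : δ ≤ 1 := by nlinarith
  have hδK : δ ≤ K * δ := by nlinarith
  -- speeds and positions
  have hv := diff_speed hΘ hA hδ h8A hx hg1.le
  have hw := diff_speed hΘ hA hδ h8A hy hg2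
  have hR : (√(1 + K * δ)) ^ 2 = 1 + K * δ := Real.sq_sqrt (by linarith)
  have hR32 : √(1 + K * δ) ≤ 3 / 2 := by
    refine (Real.sqrt_le_left (by norm_num)).2 ?_
    linarith
  have hxb : ∀ t ∈ Icc 0 T, ‖x t‖ ≤ 3 / 2 := fun t ht =>
    (hx.stays_in_ball hΘ hT0 (R := √(1 + K * δ)) (by rw [hR]; linarith)
      (Real.sqrt_nonneg _) (Real.le_sqrt_of_sq_le (by linarith))
      (Real.le_sqrt_of_sq_le hxT) t ht).trans hR32
  have hyb : ∀ t ∈ Icc 0 T, ‖y t‖ ≤ 2 := by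
    intro t ht
    have e1 : ‖y t‖ ≤ ‖x t - y t‖ + ‖x t‖ := by
      rw [norm_sub_rev]
      exact norm_le_norm_sub_add _ _
    linarith [hxb t ht, hKd t ht]
  -- planar system
  have hP := hx.planar hΘ hA hδ h8A hg1
  obtain ⟨a, b, ha, hab, hbT, haC, hbC, hout, hIa, hIb⟩ := hpl δ T hδ hδ1' hT0 _ _ _ hP
    (by linarith) (by linarith)
  have hout' : a < b → ∀ t ∈ Icc a b, (4 * K + 4) * δ ≤ |‖x t‖ ^ 2 - 1| := by
    intro hlt t ht
    rw [← closure_Ioo hlt.ne] at ht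
    have hc : ContinuousOn (fun t => |‖x t‖ ^ 2 - 1|) (closure (Ioo a b)) := by
      rw [closure_Ioo hlt.ne]
      exact (((hx.continuousOn_x.norm.pow 2).sub continuousOn_const).abs).mono
        (Icc_subset_Icc ha hbT)
    refine le_on_closure (f := fun _ => (4 * K + 4) * δ) (fun τ hτ => ?_) continuousOn_const hc ht
    have := hout τ hτ
    have e1 : 2 * (‖x τ‖ ^ 2 / 2) - 1 = ‖x τ‖ ^ 2 - 1 := by ring
    rw [e1] at this
    exact this.le
  have hxoff : a < b → ∀ t ∈ Icc a b, δ / 2 < |‖x t‖ ^ 2 - 1| := by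
    intro hlt t ht
    have := hout' hlt t ht
    nlinarith
  have hyoff : a < b → ∀ t ∈ Icc a b, δ / 2 < |‖y t‖ ^ 2 - 1| := by
    intro hlt t ht
    have ht' : t ∈ Icc 0 T := ⟨ha.trans ht.1, ht.2.trans hbT⟩
    have e1 := hout' hlt t ht
    have e2 : |‖x t‖ ^ 2 - ‖y t‖ ^ 2| ≤ 4 * (K * δ) := by
      have e3 : ‖x t‖ ^ 2 - ‖y t‖ ^ 2 = (‖x t‖ + ‖y t‖) * (‖x t‖ - ‖y t‖) := by ring
      rw [e3, abs_mul, abs_of_nonneg (by positivity : 0 ≤ ‖x t‖ + ‖y t‖)]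
      have e4 : |‖x t‖ - ‖y t‖| ≤ K * δ := (abs_norm_sub_norm_le _ _).trans (hKd t ht')
      have e5 : ‖x t‖ + ‖y t‖ ≤ 4 := by linarith [hxb t ht', hyb t ht']
      exact mul_le_mul e5 e4 (abs_nonneg _) (by norm_num)
    have e6 : |‖x t‖ ^ 2 - 1| ≤ |‖x t‖ ^ 2 - ‖y t‖ ^ 2| + |‖y t‖ ^ 2 - 1| := by
      have e7 : ‖x t‖ ^ 2 - 1 = (‖x t‖ ^ 2 - ‖y t‖ ^ 2) + (‖y t‖ ^ 2 - 1) := by ring
      rw [e7]
      exact abs_add_le _ _
    nlinarith
  -- the coefficient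
  have hcw : ContinuousOn (fun t => ⟪x t, v t⟫) (Icc 0 T) := hP.cw
  set c : ℝ → ℝ := fun t => |⟪x (projIcc 0 T hT0 t), v (projIcc 0 T hT0 t)⟫| with hc
  have hcc : Continuous c :=
    (hcw.comp_continuous (continuous_subtype_val.comp continuous_projIcc)
      (fun t => (projIcc 0 T hT0 t).2)).abs
  have hceq : ∀ t ∈ Icc 0 T, c t = |⟪x t, v t⟫| := by
    intro t ht
    simp only [hc, projIcc_of_mem hT0 ht]
  have hc0 : ∀ t, 0 ≤ c t := fun t => abs_nonneg _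
  have hcint : ∀ s e, 0 ≤ s → s ≤ e → e ≤ T →
      (∫ τ in s..e, c τ) = ∫ τ in s..e, |⟪x τ, v τ⟫| := by
    intro s e hs hse he
    refine intervalIntegral.integral_congr fun τ hτ => ?_
    rw [uIcc_of_le hse] at hτ
    exact hceq τ ⟨hs.trans hτ.1, hτ.2.trans he⟩
  set W : ℝ → ℝ := fun t => 8 * A + 2 * A / δ * c t with hWdef
  have hWc : Continuous W := by fun_prop
  have hW0 : ∀ t, 0 ≤ W t := by
    intro t
    have := hc0 t
    positivity
  have hsq1 : √δ ≤ 1 := Real.sqrt_le_one.2 hδ1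
  have hWint : ∀ s e, 0 ≤ s → s ≤ e → e ≤ T → e - s ≤ C₁ * √δ →
      (∫ τ in s..e, |⟪x τ, v τ⟫|) ≤ C₁ * δ → (∫ τ in s..e, W τ) ≤ C := by
    intro s e hs hse he h1 h2
    have e1 : (∫ τ in s..e, W τ) = 8 * A * (e - s) + 2 * A / δ * ∫ τ in s..e, c τ := by
      have i1 : IntervalIntegrable (fun _ : ℝ => 8 * A) volume s e :=
        continuous_const.intervalIntegrable _ _
      have i2 : IntervalIntegrable (fun τ : ℝ => 2 * A / δ * c τ) volume s e :=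
        Continuous.intervalIntegrable (by fun_prop) _ _
      have i3 : (∫ τ in s..e, W τ) =
          (∫ τ in s..e, (8 * A : ℝ)) + ∫ τ in s..e, 2 * A / δ * c τ :=
        intervalIntegral.integral_add i1 i2
      rw [i3, intervalIntegral.integral_const, intervalIntegral.integral_const_mul, smul_eq_mul]
      ring
    rw [e1, hcint s e hs hse he]
    have e2 : 2 * A / δ * (∫ τ in s..e, |⟪x τ, v τ⟫|) ≤ 2 * A / δ * (C₁ * δ) := by gcongr
    have e3 : 2 * A / δ * (C₁ * δ) = 2 * (A * C₁) := by field_simp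
    have e4 : 8 * A * (e - s) ≤ 8 * A * (C₁ * 1) := by
      gcongr
      exact h1.trans (by gcongr)
    rw [hCdef]
    nlinarith
  -- apply the abstract estimate
  have hmain := DiffAbs.diff_main (C := C) (δ := δ) (r := √δ) (T := T) (a := a) (b := b)
    (X := fun t => x t - y t) (V := fun t => v t - w t)
    (P := fun t => mom Θ (x t) (v t) - mom Θ (y t) (w t))
    (G := fun t => force Θ (x t) (v t) - force Θ (y t) (w t)) (w := W)
    hC1 (Real.sqrt_nonneg _) hsq1 (Real.sq_sqrt hδ.le).symm ha hab hbT hT4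
    (haC.trans (by gcongr)) (hbC.trans (by gcongr)) hWc hW0
    (hWint 0 a le_rfl ha (hab.trans hbT) (by linarith) hIa)
    (hWint b T (ha.trans hab) hbT le_rfl hbC hIb)
    (fun t ht => (hx.dx t ht).sub (hy.dx t ht))
    (fun t ht => (hx.dp t ht).sub (hy.dp t ht))
    (fun t ht => by
      have e1 := norm_dv_sub_dp_le' hΘ hδ.le hδ1 (by linarith) (v₁ := v t) (v₂ := w t)
        ((hxb t ht).trans (by norm_num)) (hyb t ht) (hw t ht)
      refine e1.trans ?_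
      have e2 : 0 ≤ δ * ‖mom Θ (x t) (v t) - mom Θ (y t) (w t)‖ := by positivity
      have e3 : 0 ≤ ‖x t - y t‖ := norm_nonneg _
      nlinarith [mul_le_mul_of_nonneg_right hC24 e2, mul_le_mul_of_nonneg_right hC24 e3,
        mul_nonneg (by linarith : (0:ℝ) ≤ A) e2])
    (fun t ht => by
      have e1 := norm_force_sub_le hΘ hδ hδ1 (x₁ := x t) (x₂ := y t) (hyb t ht) (hv t ht)
        (hw t ht)
      refine e1.trans ?_
      have e2 : A * (8 + 2 * (|⟪x t, v t⟫| / δ)) = W t := by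
        simp only [hWdef, hceq t ht]
        ring
      rw [e2]
      have e3 : 12 * A * ‖v t - w t‖ ≤ C * ‖v t - w t‖ := by
        gcongr
        linarith
      linarith)
    (fun hlt t ht => by
      have h1 := hxoff hlt t ht
      have h2 := hyoff hlt t ht
      refine ⟨?_, ?_⟩
      · simp only [mom_eq_of_off hΘ h1, mom_eq_of_off hΘ h2]
      · simp only [force_eq_zero_of_off hΘ h1, force_eq_zero_of_off hΘ h2, sub_self])
    (by simp [hxy])
  -- the momentum at time 0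
  simp only [← hxy, mom_sub] at hmain
  generalize v 0 - w 0 = d at hmain ⊢
  have hm := (hΘ.mom_sub_le hA hδ hδ1 (x 0) d).1
  have hm2 : ‖mom Θ (x 0) d‖ ≤ 2 * ‖d‖ := by
    have e1 : ‖mom Θ (x 0) d‖ ≤ ‖mom Θ (x 0) d - d‖ + ‖d‖ := norm_le_norm_sub_add _ _
    have e2 : 4 * A * δ * ‖d‖ ≤ 1 * ‖d‖ := by
      apply mul_le_mul_of_nonneg_right _ (norm_nonneg _)
      linarith
    linarith
  have hδs : δ ≤ √δ := by
    have e1 := Real.sq_sqrt hδ.le
    nlinarith [Real.sqrt_nonneg δ]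
  have e1 : x T - y T - T • d = (x T - y T - T • mom Θ (x 0) d) + T • (mom Θ (x 0) d - d) := by
    rw [smul_sub]
    abel
  have e2 : ‖T • (mom Θ (x 0) d - d)‖ ≤ T * (4 * A * √δ * ‖d‖) := by
    rw [norm_smul, Real.norm_eq_abs, abs_of_nonneg hT0]
    gcongr
    exact hm.trans (by gcongr)
  have e3 : DiffAbs.diffConst C * √δ * T * ‖mom Θ (x 0) d‖ ≤
      DiffAbs.diffConst C * √δ * T * (2 * ‖d‖) := by
    gcongr
  calc ‖x T - y T - T • d‖ ≤ ‖x T - y T - T • mom Θ (x 0) d‖ + ‖T • (mom Θ (x 0) d - d)‖ := by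
        rw [e1]; exact norm_add_le _ _
    _ ≤ DiffAbs.diffConst C * √δ * T * (2 * ‖d‖) + T * (4 * A * √δ * ‖d‖) :=
        add_le_add (hmain.trans e3) e2
    _ = (2 * DiffAbs.diffConst C + 4 * A) * √δ * (T * ‖d‖) := by ring

end Pool.Agent.Lib_MP_a29272_q1
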