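import Mathlib

/-!
# Differences of two geodesics, abstract form

`X = x₁ - x₂`, `V = v₁ - v₂`, `P = p₁ - p₂` for two solutions starting at the same point.
-/

namespace Pool.Agent.Lib_MP_a29272_q1.DiffAbs

open Set MeasureTheory
open scoped RealInnerProductSpace

/-- Gronwall's inequality with a continuous coefficient. -/
lemma gron {f f' k : ℝ → ℝ} {s e : ℝ} (hse : s ≤ e)
    (hf : ∀ t ∈ Icc s e, HasDerivWithinAt f (f' t) (Icc s e) t) (hk : Continuous k)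
    (h : ∀ t ∈ Icc s e, f' t ≤ k t * f t) :
    f e ≤ f s * Real.exp (∫ τ in s..e, k τ) := by
  have hK : ∀ t, HasDerivAt (fun t => ∫ τ in s..t, k τ) (k t) t := fun t =>
    intervalIntegral.integral_hasDerivAt_right (hk.intervalIntegrable _ _)
      (hk.stronglyMeasurableAtFilter _ _) hk.continuousAt
  have hg : ∀ t ∈ Icc s e, HasDerivWithinAt (fun t => f t * Real.exp (-∫ τ in s..t, k τ))
      (f' t * Real.exp (-∫ τ in s..t, k τ) +
        f t * (Real.exp (-∫ τ in s..t, k τ) * (-k t))) (Icc s e) t := fun t ht =>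
    (hf t ht).mul ((hK t).neg.exp).hasDerivWithinAt
  have hg' : ∀ t ∈ interior (Icc s e), HasDerivAt (fun t => f t * Real.exp (-∫ τ in s..t, k τ))
      (f' t * Real.exp (-∫ τ in s..t, k τ) +
        f t * (Real.exp (-∫ τ in s..t, k τ) * (-k t))) t := fun t ht =>
    (hg t (interior_subset ht)).hasDerivAt (mem_interior_iff_mem_nhds.1 ht)
  have hanti : AntitoneOn (fun t => f t * Real.exp (-∫ τ in s..t, k τ)) (Icc s e) := by
    refine antitoneOn_of_deriv_nonpos (convex_Icc s e)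
      (fun t ht => (hg t ht).continuousWithinAt)
      (fun t ht => (hg' t ht).differentiableAt.differentiableWithinAt) ?_
    intro t ht
    have ht' := interior_subset ht
    rw [(hg' t ht).deriv]
    have h1 := h t ht'
    have h2 := Real.exp_pos (-∫ τ in s..t, k τ)
    have h3 : f' t * Real.exp (-∫ τ in s..t, k τ) + f t * (Real.exp (-∫ τ in s..t, k τ) * (-k t))
        = (f' t - k t * f t) * Real.exp (-∫ τ in s..t, k τ) := by ring
    rw [h3]
    exact mul_nonpos_of_nonpos_of_nonneg (by linarith) h2.le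
  have h1 := hanti (left_mem_Icc.mpr hse) (right_mem_Icc.mpr hse) hse
  simp only [intervalIntegral.integral_same, neg_zero, Real.exp_zero, mul_one] at h1
  have h2 := Real.exp_pos (∫ τ in s..e, k τ)
  calc f e = (f e * Real.exp (-∫ τ in s..e, k τ)) * Real.exp (∫ τ in s..e, k τ) := by
        rw [mul_assoc, ← Real.exp_add, neg_add_cancel, Real.exp_zero, mul_one]
    _ ≤ f s * Real.exp (∫ τ in s..e, k τ) := by gcongr

variable {E : Type*} [NormedAddCommGroup E] [InnerProductSpace ℝ E]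

/-- Gronwall for the pair `(X, P)`. -/
lemma gron_pair {C δ : ℝ} (hC : 1 ≤ C) (hδ1 : δ ≤ 1) {X V P G : ℝ → E}
    {w : ℝ → ℝ} {s e : ℝ} (hse : s ≤ e) (hes : e - s ≤ 4) (hw : Continuous w)
    (hw0 : ∀ t, 0 ≤ w t) (hwC : ∫ τ in s..e, w τ ≤ C)
    (hX : ∀ t ∈ Icc s e, HasDerivWithinAt X (V t) (Icc s e) t)
    (hP : ∀ t ∈ Icc s e, HasDerivWithinAt P (G t) (Icc s e) t)
    (hVP : ∀ t ∈ Icc s e, ‖V t - P t‖ ≤ C * (δ * ‖P t‖ + ‖X t‖))
    (hG : ∀ t ∈ Icc s e, ‖G t‖ ≤ w t * ‖X t‖ + C * ‖V t‖) :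
    ‖X e‖ ^ 2 + ‖P e‖ ^ 2 ≤ (‖X s‖ ^ 2 + ‖P s‖ ^ 2) * Real.exp (38 * C ^ 2) := by
  have hf : ∀ t ∈ Icc s e, HasDerivWithinAt (fun t => ‖X t‖ ^ 2 + ‖P t‖ ^ 2)
      (2 * ⟪X t, V t⟫ + 2 * ⟪P t, G t⟫) (Icc s e) t := fun t ht =>
    ((hX t ht).norm_sq).add ((hP t ht).norm_sq)
  have hk : Continuous fun t => w t + 9 * C ^ 2 := hw.add continuous_const
  have h1 := gron hse hf hk ?_
  · refine h1.trans ?_
    have h2 : ∫ τ in s..e, (w τ + 9 * C ^ 2) = (∫ τ in s..e, w τ) + 9 * C ^ 2 * (e - s) := by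
      rw [intervalIntegral.integral_add (hw.intervalIntegrable _ _)
        (continuous_const.intervalIntegrable _ _), intervalIntegral.integral_const]
      simp only [smul_eq_mul]
      ring
    have h3 : ∫ τ in s..e, (w τ + 9 * C ^ 2) ≤ 38 * C ^ 2 := by
      rw [h2]
      nlinarith
    gcongr
  · intro t ht
    have hx := norm_nonneg (X t)
    have hp := norm_nonneg (P t)
    have i1 : ⟪X t, V t⟫ ≤ ‖X t‖ * ‖V t‖ := real_inner_le_norm _ _
    have i2 : ⟪P t, G t⟫ ≤ ‖P t‖ * ‖G t‖ := real_inner_le_norm _ _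
    have hv : ‖V t‖ ≤ (1 + C) * ‖P t‖ + C * ‖X t‖ := by
      have h2 : ‖V t‖ ≤ ‖V t - P t‖ + ‖P t‖ := by
        calc ‖V t‖ = ‖(V t - P t) + P t‖ := by rw [sub_add_cancel]
          _ ≤ _ := norm_add_le _ _
      have h3 : δ * ‖P t‖ ≤ ‖P t‖ := by nlinarith
      have h4 := hVP t ht
      nlinarith
    have hg : ‖G t‖ ≤ w t * ‖X t‖ + C * ((1 + C) * ‖P t‖ + C * ‖X t‖) := by
      have := hG t ht
      nlinarith
    have e1 : ‖X t‖ * ‖V t‖ ≤ ‖X t‖ * ((1 + C) * ‖P t‖ + C * ‖X t‖) :=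
      mul_le_mul_of_nonneg_left hv hx
    have e2 : ‖P t‖ * ‖G t‖ ≤ ‖P t‖ * (w t * ‖X t‖ + C * ((1 + C) * ‖P t‖ + C * ‖X t‖)) :=
      mul_le_mul_of_nonneg_left hg hp
    have e3 : 2 * (‖X t‖ * ‖P t‖) ≤ ‖X t‖ ^ 2 + ‖P t‖ ^ 2 := by
      nlinarith [sq_nonneg (‖X t‖ - ‖P t‖)]
    have e4 := mul_le_mul_of_nonneg_left e3 (hw0 t)
    have e5 : 2 * (‖X t‖ * ((1 + C) * ‖P t‖ + C * ‖X t‖)) ≤
        (1 + C) * (‖X t‖ ^ 2 + ‖P t‖ ^ 2) + 2 * C * ‖X t‖ ^ 2 := by nlinarith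
    have e6 : 2 * (‖P t‖ * (C * ((1 + C) * ‖P t‖ + C * ‖X t‖))) ≤
        2 * C * (1 + C) * ‖P t‖ ^ 2 + C ^ 2 * (‖X t‖ ^ 2 + ‖P t‖ ^ 2) := by
      nlinarith [mul_le_mul_of_nonneg_left e3 (sq_nonneg C)]
    have e7 : 2 * (‖P t‖ * (w t * ‖X t‖)) ≤ w t * (‖X t‖ ^ 2 + ‖P t‖ ^ 2) := by
      calc 2 * (‖P t‖ * (w t * ‖X t‖)) = w t * (2 * (‖X t‖ * ‖P t‖)) := by ring
        _ ≤ _ := e4
    have hx2 := sq_nonneg ‖X t‖
    have hp2 := sq_nonneg ‖P t‖
    have e8 : (1 + C) * (‖X t‖ ^ 2 + ‖P t‖ ^ 2) + 2 * C * ‖X t‖ ^ 2 +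
        (2 * C * (1 + C) * ‖P t‖ ^ 2 + C ^ 2 * (‖X t‖ ^ 2 + ‖P t‖ ^ 2)) ≤
        9 * C ^ 2 * (‖X t‖ ^ 2 + ‖P t‖ ^ 2) := by
      have c1 : C ≤ C ^ 2 := by nlinarith
      nlinarith [mul_nonneg (by linarith : (0:ℝ) ≤ C ^ 2 - C) hx2,
        mul_nonneg (by linarith : (0:ℝ) ≤ C ^ 2 - C) hp2,
        mul_nonneg (by linarith : (0:ℝ) ≤ C ^ 2 - 1) hx2,
        mul_nonneg (by linarith : (0:ℝ) ≤ C ^ 2 - 1) hp2]
    have e9 : ‖P t‖ * (w t * ‖X t‖ + C * ((1 + C) * ‖P t‖ + C * ‖X t‖)) =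
        ‖P t‖ * (w t * ‖X t‖) + ‖P t‖ * (C * ((1 + C) * ‖P t‖ + C * ‖X t‖)) := by ring
    rw [e9] at e2
    nlinarith

/-- Norm form of `gron_pair`. -/
lemma gron_norm {C δ : ℝ} (hC : 1 ≤ C) (hδ1 : δ ≤ 1) {X V P G : ℝ → E}
    {w : ℝ → ℝ} {s e : ℝ} (hes : e - s ≤ 4) (hw : Continuous w)
    (hw0 : ∀ t, 0 ≤ w t) (hwC : ∫ τ in s..e, w τ ≤ C)
    (hX : ∀ t ∈ Icc s e, HasDerivWithinAt X (V t) (Icc s e) t)
    (hP : ∀ t ∈ Icc s e, HasDerivWithinAt P (G t) (Icc s e) t)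
    (hVP : ∀ t ∈ Icc s e, ‖V t - P t‖ ≤ C * (δ * ‖P t‖ + ‖X t‖))
    (hG : ∀ t ∈ Icc s e, ‖G t‖ ≤ w t * ‖X t‖ + C * ‖V t‖) :
    ∀ t ∈ Icc s e, ‖X t‖ ≤ Real.exp (19 * C ^ 2) * (‖X s‖ + ‖P s‖) ∧
      ‖P t‖ ≤ Real.exp (19 * C ^ 2) * (‖X s‖ + ‖P s‖) := by
  intro t ht
  have hsub : Icc s t ⊆ Icc s e := Icc_subset_Icc_right ht.2
  have hwt : ∫ τ in s..t, w τ ≤ C := by
    refine le_trans ?_ hwC
    have h1 : (∫ τ in s..t, w τ) + ∫ τ in t..e, w τ = ∫ τ in s..e, w τ :=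
      intervalIntegral.integral_add_adjacent_intervals (hw.intervalIntegrable _ _)
        (hw.intervalIntegrable _ _)
    have h2 : 0 ≤ ∫ τ in t..e, w τ :=
      intervalIntegral.integral_nonneg ht.2 fun τ _ => hw0 τ
    linarith
  have h := gron_pair hC hδ1 ht.1 (by linarith [ht.2]) hw hw0 hwt
    (fun τ hτ => (hX τ (hsub hτ)).mono hsub) (fun τ hτ => (hP τ (hsub hτ)).mono hsub)
    (fun τ hτ => hVP τ (hsub hτ)) (fun τ hτ => hG τ (hsub hτ))
  have hM : Real.exp (38 * C ^ 2) = Real.exp (19 * C ^ 2) ^ 2 := by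
    rw [← Real.exp_nat_mul]; congr 1; ring
  rw [hM] at h
  set M := Real.exp (19 * C ^ 2)
  have hM0 : 0 < M := Real.exp_pos _
  have hx := norm_nonneg (X s)
  have hp := norm_nonneg (P s)
  have hsum : (‖X s‖ ^ 2 + ‖P s‖ ^ 2) * M ^ 2 ≤ (M * (‖X s‖ + ‖P s‖)) ^ 2 := by
    nlinarith [mul_nonneg (mul_nonneg hx hp) (sq_nonneg M)]
  have hr : 0 ≤ M * (‖X s‖ + ‖P s‖) := by positivity
  constructor
  · refine le_of_sq_le_sq ?_ hr
    nlinarith [sq_nonneg ‖P t‖]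
  · refine le_of_sq_le_sq ?_ hr
    nlinarith [sq_nonneg ‖X t‖]

/-- If `f' = φ` with `‖φ - c‖ ≤ B` then `f` moves by `(t - s) c` up to `B (t - s)`. -/
lemma move {f φ : ℝ → E} {c : E} {B s e : ℝ} (hse : s ≤ e)
    (hf : ∀ t ∈ Icc s e, HasDerivWithinAt f (φ t) (Icc s e) t)
    (hB : ∀ t ∈ Icc s e, ‖φ t - c‖ ≤ B) :
    ‖f e - f s - (e - s) • c‖ ≤ B * (e - s) := by
  have h1 : ∀ t ∈ Icc s e, HasDerivWithinAt (fun t => f t - t • c) (φ t - c) (Icc s e) t := by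
    intro t ht
    have h2 : HasDerivAt (fun t : ℝ => t • c) ((1 : ℝ) • c) t := (hasDerivAt_id t).smul_const c
    rw [one_smul] at h2
    exact (hf t ht).sub h2.hasDerivWithinAt
  have h2 := norm_image_sub_le_of_norm_deriv_le_segment' h1
    (fun t ht => hB t (Ico_subset_Icc_self ht)) e (right_mem_Icc.mpr hse)
  have h3 : f e - e • c - (f s - s • c) = f e - f s - (e - s) • c := by
    rw [sub_smul]; abel
  rwa [h3] at h2

/-- Integrated bound. -/
lemma move_int {f φ : ℝ → E} {w : ℝ → ℝ} {A B s e : ℝ} (hw : Continuous w)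
    (hf : ∀ t ∈ Icc s e, HasDerivWithinAt f (φ t) (Icc s e) t)
    (hB : ∀ t ∈ Icc s e, ‖φ t‖ ≤ A * w t + B) :
    ∀ t ∈ Icc s e, ‖f t - f s‖ ≤ A * (∫ τ in s..t, w τ) + B * (t - s) := by
  have hK : ∀ t, HasDerivAt (fun t => A * (∫ τ in s..t, w τ) + B * (t - s))
      (A * w t + B * (1 - 0)) t := fun t =>
    ((intervalIntegral.integral_hasDerivAt_right (hw.intervalIntegrable _ _)
      (hw.stronglyMeasurableAtFilter _ _) hw.continuousAt).const_mul A).add
      (((hasDerivAt_id t).sub (hasDerivAt_const t s)).const_mul B)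
  have h := image_norm_le_of_norm_deriv_right_le_deriv_boundary (f := fun t => f t - f s)
    (f' := φ) (a := s) (b := e) (B := fun t => A * (∫ τ in s..t, w τ) + B * (t - s))
    (B' := fun t => A * w t + B * (1 - 0))
    (fun t ht => ((hf t ht).sub_const _).continuousWithinAt)
    (fun t ht => ((hf t (Ico_subset_Icc_self ht)).sub_const _).mono_of_mem_nhdsWithin
      (Icc_mem_nhdsGE_of_mem ht))
    (by simp) hK (fun t ht => by
      have := hB t (Ico_subset_Icc_self ht)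
      simpa using this)
  intro t ht
  exact h ht

/-- The constant of the difference estimate. -/
noncomputable def diffConst (C : ℝ) : ℝ := 156 * C ^ 3 * Real.exp (19 * C ^ 2) ^ 2

/-- **The difference estimate.**  `X' = V`, `P' = G`; on the outer intervals `[0, a]`, `[b, T]` of
length at most `C r`, `r = √δ`, the field is perturbed, on the middle one the motion is free. -/
theorem diff_main {C δ r T a b : ℝ} (hC : 1 ≤ C) (hr : 0 ≤ r) (hr1 : r ≤ 1) (hδ : δ = r ^ 2)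
    (ha : 0 ≤ a) (hab : a ≤ b) (hbT : b ≤ T) (hT : T ≤ 4) (haC : a ≤ C * r) (hbC : T - b ≤ C * r)
    {X V P G : ℝ → E} {w : ℝ → ℝ} (hw : Continuous w) (hw0 : ∀ t, 0 ≤ w t)
    (hwa : ∫ τ in (0 : ℝ)..a, w τ ≤ C) (hwb : ∫ τ in b..T, w τ ≤ C)
    (hX : ∀ t ∈ Icc 0 T, HasDerivWithinAt X (V t) (Icc 0 T) t)
    (hP : ∀ t ∈ Icc 0 T, HasDerivWithinAt P (G t) (Icc 0 T) t)
    (hVP : ∀ t ∈ Icc 0 T, ‖V t - P t‖ ≤ C * (δ * ‖P t‖ + ‖X t‖))
    (hG : ∀ t ∈ Icc 0 T, ‖G t‖ ≤ w t * ‖X t‖ + C * ‖V t‖)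
    (hmid : a < b → ∀ t ∈ Icc a b, V t = P t ∧ G t = 0) (hX0 : X 0 = 0) :
    ‖X T - T • P 0‖ ≤ diffConst C * r * T * ‖P 0‖ := by
  have hM1 : 1 ≤ Real.exp (19 * C ^ 2) := Real.one_le_exp (by positivity)
  have hd0 : 0 ≤ ‖P 0‖ := norm_nonneg _
  have hδ1 : δ ≤ 1 := by rw [hδ]; nlinarith
  have hδ0 : 0 ≤ δ := by rw [hδ]; positivity
  have hδr : δ ≤ r := by rw [hδ]; nlinarith
  have hT0 : 0 ≤ T := by linarith
  have sa : Icc 0 a ⊆ Icc 0 T := Icc_subset_Icc_right (by linarith)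
  have sb : Icc b T ⊆ Icc 0 T := Icc_subset_Icc_left (by linarith)
  have sm : Icc a b ⊆ Icc 0 T := Icc_subset_Icc ha hbT
  have hXs : ∀ s e, 0 ≤ s → e ≤ T → ∀ t ∈ Icc s e, HasDerivWithinAt X (V t) (Icc s e) t :=
    fun s e hs he t ht => (hX t ⟨hs.trans ht.1, ht.2.trans he⟩).mono (Icc_subset_Icc hs he)
  have hPs : ∀ s e, 0 ≤ s → e ≤ T → ∀ t ∈ Icc s e, HasDerivWithinAt P (G t) (Icc s e) t :=
    fun s e hs he t ht => (hP t ⟨hs.trans ht.1, ht.2.trans he⟩).mono (Icc_subset_Icc hs he)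
  -- the free part: `P` is constant and `V = P` on `[a, b]`
  have hPmid : ∀ t ∈ Icc a b, P t = P a := by
    intro t ht
    rcases eq_or_lt_of_le hab with h | h
    · have : t = a := le_antisymm (by rw [h]; exact ht.2) ht.1
      rw [this]
    · refine constant_of_has_deriv_right_zero (f := P)
        (fun τ hτ => (hPs a b ha hbT τ hτ).continuousWithinAt) ?_ t ht
      intro τ hτ
      have h1 := hPs a b ha hbT τ (Ico_subset_Icc_self hτ)
      rw [(hmid h τ (Ico_subset_Icc_self hτ)).2] at h1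
      exact h1.mono_of_mem_nhdsWithin (Icc_mem_nhdsGE_of_mem hτ)
  have hPb : P b = P a := hPmid b (right_mem_Icc.mpr hab)
  set M := Real.exp (19 * C ^ 2) with hM
  set d := ‖P 0‖ with hd
  -- first outer interval
  have h1 := gron_norm hC hδ1 (s := 0) (e := a) (by linarith) hw hw0 hwa
    (hXs 0 a le_rfl (hab.trans hbT)) (hPs 0 a le_rfl (hab.trans hbT)) (fun t ht => hVP t (sa ht))
    (fun t ht => hG t (sa ht))
  rw [hX0, norm_zero, zero_add] at h1
  have hXa := (h1 a (right_mem_Icc.mpr ha)).1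
  have hPa := (h1 a (right_mem_Icc.mpr ha)).2
  -- middle interval
  have hXm : ∀ t ∈ Icc a b, ‖X t‖ ≤ 5 * (M * d) := by
    intro t ht
    rcases eq_or_lt_of_le hab with h | h
    · have : t = a := le_antisymm (by rw [h]; exact ht.2) ht.1
      rw [this]
      nlinarith [mul_nonneg (by linarith : (0:ℝ) ≤ M) hd0]
    · have h2 := move (f := X) (φ := V) (c := P a) (B := 0) (s := a) (e := t) ht.1
        (hXs a t ha (ht.2.trans hbT)) (fun τ hτ => by
          have hτ' : τ ∈ Icc a b := ⟨hτ.1, hτ.2.trans ht.2⟩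
          rw [(hmid h τ hτ').1, hPmid τ hτ', sub_self, norm_zero])
      have h3 : X t = (X t - X a - (t - a) • P a) + X a + (t - a) • P a := by abel
      have h4 : ‖(t - a) • P a‖ ≤ 4 * (M * d) := by
        rw [norm_smul, Real.norm_eq_abs, abs_of_nonneg (by linarith [ht.1])]
        have : t - a ≤ 4 := by linarith [ht.2]
        have h5 : 0 ≤ t - a := by linarith [ht.1]
        nlinarith [norm_nonneg (P a)]
      have h6 : ‖X t‖ ≤ ‖X t - X a - (t - a) • P a‖ + ‖X a‖ + ‖(t - a) • P a‖ := by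
        conv_lhs => rw [h3]
        exact (norm_add_le _ _).trans (by gcongr; exact norm_add_le _ _)
      linarith
  -- second outer interval
  have h3 := gron_norm hC hδ1 (s := b) (e := T) (by linarith) hw hw0 hwb
    (hXs b T (ha.trans hab) le_rfl) (hPs b T (ha.trans hab) le_rfl) (fun t ht => hVP t (sb ht))
    (fun t ht => hG t (sb ht))
  have hXb := hXm b (right_mem_Icc.mpr hab)
  have hMd : 0 ≤ M * d := mul_nonneg (by linarith) hd0
  have hMMd : M * d ≤ M ^ 2 * d := by nlinarith [mul_nonneg (by linarith : (0:ℝ) ≤ M - 1) hMd]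
  set m := 6 * (M ^ 2 * d) with hm
  have hm0 : 0 ≤ m := by positivity
  have hall : ∀ t ∈ Icc 0 T, ‖X t‖ ≤ m ∧ ‖P t‖ ≤ m := by
    intro t ht
    rcases le_total t a with h | h
    · have := h1 t ⟨ht.1, h⟩
      constructor <;> linarith [this.1, this.2]
    · rcases le_total t b with h' | h'
      · refine ⟨by linarith [hXm t ⟨h, h'⟩], ?_⟩
        rw [hPmid t ⟨h, h'⟩]
        linarith
      · have := h3 t ⟨h', ht.2⟩
        rw [hPb] at this
        have h5 : M * (‖X b‖ + ‖P a‖) ≤ M * (5 * (M * d) + M * d) := by gcongr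
        have h6 : M * (5 * (M * d) + M * d) = m := by rw [hm]; ring
        exact ⟨by linarith [this.1], by linarith [this.2]⟩
  have hV : ∀ t ∈ Icc 0 T, ‖V t‖ ≤ 3 * C * m := by
    intro t ht
    have h4 : ‖V t‖ ≤ ‖V t - P t‖ + ‖P t‖ := by
      calc ‖V t‖ = ‖(V t - P t) + P t‖ := by rw [sub_add_cancel]
        _ ≤ _ := norm_add_le _ _
    have h5 := hVP t ht
    have h6 := hall t ht
    have h7 : δ * ‖P t‖ ≤ m := by
      calc δ * ‖P t‖ ≤ 1 * m := by gcongr; exact h6.2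
        _ = m := one_mul _
    have h8 : C * (δ * ‖P t‖ + ‖X t‖) ≤ C * (m + m) := by gcongr; exact h6.1
    nlinarith [h6.2]
  have hXt : ∀ t ∈ Icc 0 T, ‖X t‖ ≤ 3 * C * m * t := by
    intro t ht
    have h2 := move (f := X) (φ := V) (c := 0) (B := 3 * C * m) (s := 0) (e := t) ht.1
      (hXs 0 t le_rfl ht.2) (fun τ hτ => by
        rw [sub_zero]; exact hV τ ⟨hτ.1, hτ.2.trans ht.2⟩)
    simpa [hX0] using h2
  have hCm : 0 ≤ C * m := by positivity
  -- `P` on `[0, a]`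
  have hPa0 : ∀ t ∈ Icc 0 a, ‖P t - P 0‖ ≤ 6 * C ^ 2 * m * a := by
    intro t ht
    have h2 := move_int (f := P) (φ := G) (w := w) (A := 3 * C * m * a) (B := C * (3 * C * m))
      (s := 0) (e := a) hw (hPs 0 a le_rfl (hab.trans hbT)) (fun τ hτ => by
        have h5 := hG τ (sa hτ)
        have h6 := hXt τ (sa hτ)
        have h7 := hV τ (sa hτ)
        have h8 : w τ * ‖X τ‖ ≤ w τ * (3 * C * m * a) := by
          refine mul_le_mul_of_nonneg_left (h6.trans ?_) (hw0 τ)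
          exact mul_le_mul_of_nonneg_left hτ.2 (by positivity)
        have h9 : C * ‖V τ‖ ≤ C * (3 * C * m) := by gcongr
        linarith) t ht
    have h5 : ∫ τ in (0 : ℝ)..t, w τ ≤ C := by
      have h6 : (∫ τ in (0 : ℝ)..t, w τ) + ∫ τ in t..a, w τ = ∫ τ in (0 : ℝ)..a, w τ :=
        intervalIntegral.integral_add_adjacent_intervals (hw.intervalIntegrable _ _)
          (hw.intervalIntegrable _ _)
      have h7 : 0 ≤ ∫ τ in t..a, w τ :=
        intervalIntegral.integral_nonneg ht.2 fun τ _ => hw0 τ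
      linarith
    have h6 : 3 * C * m * a * (∫ τ in (0 : ℝ)..t, w τ) ≤ 3 * C * m * a * C := by
      refine mul_le_mul_of_nonneg_left h5 (by positivity)
    have h7 : C * (3 * C * m) * (t - 0) ≤ C * (3 * C * m) * a := by
      refine mul_le_mul_of_nonneg_left (by linarith [ht.2]) (by positivity)
    linarith
  have hPar : ∀ t ∈ Icc 0 a, ‖P t - P 0‖ ≤ 6 * C ^ 3 * m * r := by
    intro t ht
    have h5 := hPa0 t ht
    have h6 : 6 * C ^ 2 * m * a ≤ 6 * C ^ 2 * m * (C * r) :=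
      mul_le_mul_of_nonneg_left haC (by positivity)
    linarith
  have hC3 : C ≤ C ^ 3 := by
    have h1 : 1 ≤ C ^ 2 := by nlinarith
    nlinarith
  have hmr : 0 ≤ m * r := by positivity
  have hC3mr : C * (m * r) ≤ C ^ 3 * (m * r) := mul_le_mul_of_nonneg_right hC3 hmr
  -- `V` on `[0, b]`
  have hVb : ∀ t ∈ Icc 0 b, ‖V t - P 0‖ ≤ 10 * C ^ 3 * m * r := by
    intro t ht
    rcases le_total t a with h | h
    · have ht' : t ∈ Icc 0 T := sa ⟨ht.1, h⟩
      have h5 := hVP t ht'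
      have h6 := hall t ht'
      have h7 := hXt t ht'
      have h8 := hPar t ⟨ht.1, h⟩
      have h9 : ‖V t - P 0‖ ≤ ‖V t - P t‖ + ‖P t - P 0‖ := by
        calc ‖V t - P 0‖ = ‖(V t - P t) + (P t - P 0)‖ := by rw [sub_add_sub_cancel]
          _ ≤ _ := norm_add_le _ _
      have h10 : δ * ‖P t‖ ≤ r * m := by gcongr; exact h6.2
      have h11 : ‖X t‖ ≤ 3 * C * m * (C * r) := by
        refine h7.trans (mul_le_mul_of_nonneg_left (h.trans haC) (by positivity))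
      have h12 : C * (δ * ‖P t‖ + ‖X t‖) ≤ C * (r * m + 3 * C * m * (C * r)) := by gcongr
      nlinarith
    · rcases eq_or_lt_of_le hab with h' | h'
      · have hta : t = a := le_antisymm (by rw [h']; exact ht.2) h
        subst hta
        have ht' : t ∈ Icc 0 T := sa ⟨ht.1, le_rfl⟩
        have h5 := hVP t ht'
        have h6 := hall t ht'
        have h7 := hXt t ht'
        have h8 := hPar t ⟨ht.1, le_rfl⟩
        have h9 : ‖V t - P 0‖ ≤ ‖V t - P t‖ + ‖P t - P 0‖ := by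
          calc ‖V t - P 0‖ = ‖(V t - P t) + (P t - P 0)‖ := by rw [sub_add_sub_cancel]
            _ ≤ _ := norm_add_le _ _
        have h10 : δ * ‖P t‖ ≤ r * m := by gcongr; exact h6.2
        have h11 : ‖X t‖ ≤ 3 * C * m * (C * r) := by
          refine h7.trans (mul_le_mul_of_nonneg_left haC (by positivity))
        have h12 : C * (δ * ‖P t‖ + ‖X t‖) ≤ C * (r * m + 3 * C * m * (C * r)) := by gcongr
        nlinarith
      · rw [(hmid h' t ⟨h, ht.2⟩).1, hPmid t ⟨h, ht.2⟩]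
        have h8 := hPar a (right_mem_Icc.mpr ha)
        nlinarith
  have hb0 : 0 ≤ b := ha.trans hab
  have g1 := move (f := X) (φ := V) (c := P 0) (B := 10 * C ^ 3 * m * r) (s := 0) (e := b) hb0
    (hXs 0 b le_rfl hbT) hVb
  rw [hX0, sub_zero, sub_zero] at g1
  -- `P` on `[b, T]`
  have hPb0 : ∀ t ∈ Icc b T, ‖P t - P b‖ ≤ 6 * C ^ 2 * m * T := by
    intro t ht
    have h2 := move_int (f := P) (φ := G) (w := w) (A := 3 * C * m * T) (B := C * (3 * C * m))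
      (s := b) (e := T) hw (hPs b T hb0 le_rfl) (fun τ hτ => by
        have h5 := hG τ (sb hτ)
        have h6 := hXt τ (sb hτ)
        have h7 := hV τ (sb hτ)
        have h8 : w τ * ‖X τ‖ ≤ w τ * (3 * C * m * T) := by
          refine mul_le_mul_of_nonneg_left (h6.trans ?_) (hw0 τ)
          exact mul_le_mul_of_nonneg_left hτ.2 (by positivity)
        have h9 : C * ‖V τ‖ ≤ C * (3 * C * m) := by gcongr
        linarith) t ht
    have h5 : ∫ τ in b..t, w τ ≤ C := by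
      have h6 : (∫ τ in b..t, w τ) + ∫ τ in t..T, w τ = ∫ τ in b..T, w τ :=
        intervalIntegral.integral_add_adjacent_intervals (hw.intervalIntegrable _ _)
          (hw.intervalIntegrable _ _)
      have h7 : 0 ≤ ∫ τ in t..T, w τ :=
        intervalIntegral.integral_nonneg ht.2 fun τ _ => hw0 τ
      linarith
    have h6 : 3 * C * m * T * (∫ τ in b..t, w τ) ≤ 3 * C * m * T * C := by
      refine mul_le_mul_of_nonneg_left h5 (by positivity)
    have h7 : C * (3 * C * m) * (t - b) ≤ C * (3 * C * m) * T := by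
      refine mul_le_mul_of_nonneg_left (by linarith [ht.2]) (by positivity)
    linarith
  have hVT : ∀ t ∈ Icc b T, ‖V t - P 0‖ ≤ 7 * C ^ 3 * m * r + 9 * C ^ 2 * m * T := by
    intro t ht
    have ht' : t ∈ Icc 0 T := sb ht
    have h5 := hVP t ht'
    have h6 := hall t ht'
    have h7 := hXt t ht'
    have h8 := hPb0 t ht
    have h8' := hPar a (right_mem_Icc.mpr ha)
    have h9 : ‖V t - P 0‖ ≤ ‖V t - P t‖ + ‖P t - P b‖ + ‖P a - P 0‖ := by
      calc ‖V t - P 0‖ = ‖(V t - P t) + (P t - P b) + (P a - P 0)‖ := by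
            rw [hPb]; congr 1; abel
        _ ≤ _ := (norm_add_le _ _).trans (by gcongr; exact norm_add_le _ _)
    have h10 : δ * ‖P t‖ ≤ r * m := by gcongr; exact h6.2
    have h11 : ‖X t‖ ≤ 3 * C * m * T := by
      refine h7.trans (mul_le_mul_of_nonneg_left ht.2 (by positivity))
    have h12 : C * (δ * ‖P t‖ + ‖X t‖) ≤ C * (r * m + 3 * C * m * T) := by gcongr
    nlinarith
  have g2 := move (f := X) (φ := V) (c := P 0) (B := 7 * C ^ 3 * m * r + 9 * C ^ 2 * m * T)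
    (s := b) (e := T) hbT (hXs b T hb0 le_rfl) hVT
  have g3 : X T - T • P 0 = (X T - X b - (T - b) • P 0) + (X b - b • P 0) := by
    rw [sub_smul]; abel
  have g4 : (7 * C ^ 3 * m * r + 9 * C ^ 2 * m * T) * (T - b) ≤ 16 * C ^ 3 * m * r * T := by
    have g5 : 7 * C ^ 3 * m * r * (T - b) ≤ 7 * C ^ 3 * m * r * T :=
      mul_le_mul_of_nonneg_left (by linarith) (by positivity)
    have g6 : 9 * C ^ 2 * m * T * (T - b) ≤ 9 * C ^ 2 * m * T * (C * r) :=
      mul_le_mul_of_nonneg_left hbC (by positivity)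
    nlinarith
  have g7 : 10 * C ^ 3 * m * r * b ≤ 10 * C ^ 3 * m * r * T :=
    mul_le_mul_of_nonneg_left hbT (by positivity)
  calc ‖X T - T • P 0‖ ≤ ‖X T - X b - (T - b) • P 0‖ + ‖X b - b • P 0‖ := by
        rw [g3]; exact norm_add_le _ _
    _ ≤ 16 * C ^ 3 * m * r * T + 10 * C ^ 3 * m * r * T := by linarith
    _ = diffConst C * r * T * d := by rw [diffConst, hm, hM]; ring

end Pool.Agent.Lib_MP_a29272_q1.DiffAbs
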