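import Pool.Agent.Lib_MP_a29272_q1.Apriori
import Pool.Agent.Lib_MP_a29272_q1.Lip

/-! Differences of geodesics: second version. -/

namespace Pool.Agent.Lib_MP_a29272_q1

namespace DiffB

open Set Metric MeasureTheory
open scoped ContDiff RealInnerProductSpace

/-- Gronwall with a continuous coefficient -/
theorem gronwall_var {a b : ℝ} (hab : a ≤ b) {z z' k : ℝ → ℝ}
    (hz : ∀ t ∈ Icc a b, HasDerivWithinAt z (z' t) (Icc a b) t) (hk : ContinuousOn k (Icc a b))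
    (h : ∀ t ∈ Icc a b, z' t ≤ k t * z t) : z b ≤ z a * Real.exp (∫ t in a..b, k t) := by
  have hkI : ∀ t ∈ Icc a b, IntervalIntegrable k volume a t := fun t ht => by
    apply ContinuousOn.intervalIntegrable
    rw [uIcc_of_le ht.1]
    exact hk.mono (Icc_subset_Icc_right ht.2)
  have hIc : ContinuousOn (fun t => ∫ s in a..t, k s) (Icc a b) := by
    have := intervalIntegral.continuousOn_primitive_interval (μ := volume) (f := k) (a := a) (b := b)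
      (by
        rw [uIcc_of_le hab]
        exact hk.integrableOn_Icc)
    rwa [uIcc_of_le hab] at this
  have hzc : ContinuousOn z (Icc a b) := fun t ht => (hz t ht).continuousWithinAt
  have hanti : AntitoneOn (fun t => z t * Real.exp (-∫ s in a..t, k s)) (Icc a b) := by
    have hd : ∀ t ∈ Ioo a b, HasDerivAt (fun t => z t * Real.exp (-∫ s in a..t, k s))
        (z' t * Real.exp (-∫ s in a..t, k s) +
          z t * (Real.exp (-∫ s in a..t, k s) * -k t)) t := by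
      intro t ht
      have hnh : Icc a b ∈ nhds t := Icc_mem_nhds ht.1 ht.2
      have e1 := (hz t ⟨ht.1.le, ht.2.le⟩).hasDerivAt hnh
      have e2 : HasDerivAt (fun t => ∫ s in a..t, k s) (k t) t := by
        refine intervalIntegral.integral_hasDerivAt_right (hkI t ⟨ht.1.le, ht.2.le⟩) ?_
          (hk.continuousAt hnh)
        exact ContinuousOn.stronglyMeasurableAtFilter isOpen_Ioo
          (hk.mono Ioo_subset_Icc_self) t ht
      exact e1.mul e2.neg.exp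
    refine antitoneOn_of_deriv_nonpos (convex_Icc _ _) (hzc.mul hIc.neg.rexp) ?_ ?_
    · intro t ht
      rw [interior_Icc] at ht
      exact (hd t ht).differentiableAt.differentiableWithinAt
    · intro t ht
      rw [interior_Icc] at ht
      rw [(hd t ht).deriv]
      have h1 := h t ⟨ht.1.le, ht.2.le⟩
      have h2 := Real.exp_pos (-∫ s in a..t, k s)
      nlinarith
  have h1 := hanti (left_mem_Icc.2 hab) (right_mem_Icc.2 hab) hab
  simp only [intervalIntegral.integral_same, neg_zero, Real.exp_zero, mul_one] at h1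
  rw [Real.exp_neg] at h1
  have h2 := Real.exp_pos (∫ s in a..b, k s)
  rwa [mul_inv_le_iff₀ h2] at h1

section Core

variable {E : Type} [NormedAddCommGroup E] [InnerProductSpace ℝ E]
variable {A K C₀ δ T : ℝ} {X V P F : ℝ → E} {W : ℝ → ℝ}

/-- the system of the differences -/
structure Sys (A K δ T : ℝ) (X V P F : ℝ → E) (W : ℝ → ℝ) : Prop where
  hX : ∀ t ∈ Icc 0 T, HasDerivWithinAt X (V t) (Icc 0 T) t
  hP : ∀ t ∈ Icc 0 T, HasDerivWithinAt P (F t) (Icc 0 T) t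
  hW : ContinuousOn W (Icc 0 T)
  hFc : ContinuousOn F (Icc 0 T)
  hV : ∀ t ∈ Icc 0 T, ‖V t - P t‖ ≤ 100 * A * (δ * ‖P t‖ + ‖X t‖)
  hF : ∀ t ∈ Icc 0 T, ‖F t‖ ≤ 100 * A * ((K + |W t| / δ) * ‖X t‖ + ‖V t‖)

theorem Sys.norm_V (h : Sys A K δ T X V P F W) (hA : 1 ≤ A) (hδ1 : 100 * A * δ ≤ 1) {t : ℝ}
    (ht : t ∈ Icc 0 T) : ‖V t‖ ≤ 2 * ‖P t‖ + 100 * A * ‖X t‖ := by
  have h1 := h.hV t ht
  have h2 : ‖V t‖ ≤ ‖V t - P t‖ + ‖P t‖ := by
    have := norm_add_le (V t - P t) (P t)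
    rwa [sub_add_cancel] at this
  have h3 : 100 * A * δ * ‖P t‖ ≤ 1 * ‖P t‖ := by gcongr
  nlinarith

/-- Gronwall on a short interval -/
theorem Sys.gron (h : Sys A K δ T X V P F W) (hA : 1 ≤ A) (hK : 1 ≤ K) (hδ : 0 < δ)
    (hδ1 : 100 * A * δ ≤ 1) (hT4 : T ≤ 4) {s₁ s₂ : ℝ} (h0 : 0 ≤ s₁) (h2 : s₂ ≤ T)
    (hI : (∫ t in s₁..s₂, |W t|) ≤ C₀ * δ) : ∀ t ∈ Icc s₁ s₂,
      ‖X t‖ ^ 2 + ‖P t‖ ^ 2 ≤ (‖X s₁‖ ^ 2 + ‖P s₁‖ ^ 2) *
        Real.exp (20000 * A ^ 2 * (4 * (1 + K) + C₀)) := by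
  intro t ht
  have hsub : Icc s₁ t ⊆ Icc 0 T := Icc_subset_Icc h0 (ht.2.trans h2)
  have hWt : ContinuousOn W (Icc s₁ t) := h.hW.mono hsub
  have hk : ContinuousOn (fun s => 20000 * A ^ 2 * (1 + K + |W s| / δ)) (Icc s₁ t) :=
    continuousOn_const.mul (continuousOn_const.add (hWt.abs.div_const δ))
  have key := gronwall_var ht.1 (z := fun s => ‖X s‖ ^ 2 + ‖P s‖ ^ 2)
    (z' := fun s => 2 * ⟪X s, V s⟫ + 2 * ⟪P s, F s⟫)
    (k := fun s => 20000 * A ^ 2 * (1 + K + |W s| / δ))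
    (fun s hs => ((h.hX s (hsub hs)).mono hsub).norm_sq.add
      ((h.hP s (hsub hs)).mono hsub).norm_sq) hk
    (fun s hs => by
      have hsT := hsub hs
      have hV := h.norm_V hA hδ1 hsT
      have hF := h.hF s hsT
      have i1 := real_inner_le_norm (X s) (V s)
      have i2 := real_inner_le_norm (P s) (F s)
      have hx := norm_nonneg (X s)
      have hp := norm_nonneg (P s)
      have hw : 0 ≤ |W s| / δ := by positivity
      have j1 : ‖X s‖ * ‖V s‖ ≤ ‖X s‖ * (2 * ‖P s‖ + 100 * A * ‖X s‖) := by gcongr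
      have j2 : ‖P s‖ * ‖F s‖ ≤ ‖P s‖ * (100 * A * ((K + |W s| / δ) * ‖X s‖ +
          (2 * ‖P s‖ + 100 * A * ‖X s‖))) := by
        gcongr
        exact hF.trans (by gcongr)
      have xp : 2 * (‖X s‖ * ‖P s‖) ≤ ‖X s‖ ^ 2 + ‖P s‖ ^ 2 := by nlinarith [sq_nonneg (‖X s‖ - ‖P s‖)]
      set x := ‖X s‖
      set p := ‖P s‖
      set r := K + |W s| / δ with hr
      have hr1 : 1 ≤ r := by rw [hr]; linarith
      have hxp0 : 0 ≤ x * p := mul_nonneg hx hp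
      have hz0 : 0 ≤ x ^ 2 + p ^ 2 := by positivity
      have e0 : (1 : ℝ) + K + |W s| / δ = 1 + r := by rw [hr]; ring
      simp only [e0]
      have hA2 : A ≤ A ^ 2 := by nlinarith
      have hA0 : 0 ≤ A := by linarith
      calc 2 * ⟪X s, V s⟫ + 2 * ⟪P s, F s⟫
          ≤ 2 * (x * (2 * p + 100 * A * x)) +
            2 * (p * (100 * A * (r * x + (2 * p + 100 * A * x)))) := by linarith
        _ = 4 * (x * p) + 200 * A * x ^ 2 + 200 * A * r * (x * p) + 400 * A * p ^ 2 +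
            20000 * A ^ 2 * (x * p) := by ring
        _ ≤ 2 * (x ^ 2 + p ^ 2) + 200 * A * (x ^ 2 + p ^ 2) + 100 * A * r * (x ^ 2 + p ^ 2) +
            400 * A * (x ^ 2 + p ^ 2) + 10000 * A ^ 2 * (x ^ 2 + p ^ 2) := by
              have k1 : 200 * A * x ^ 2 ≤ 200 * A * (x ^ 2 + p ^ 2) := by
                gcongr; nlinarith [sq_nonneg p]
              have k2 : 400 * A * p ^ 2 ≤ 400 * A * (x ^ 2 + p ^ 2) := by
                gcongr; nlinarith [sq_nonneg x]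
              have k3 : 100 * A * r * (2 * (x * p)) ≤ 100 * A * r * (x ^ 2 + p ^ 2) := by gcongr
              have k4 : 10000 * A ^ 2 * (2 * (x * p)) ≤ 10000 * A ^ 2 * (x ^ 2 + p ^ 2) := by gcongr
              linarith
        _ = (2 + 600 * A + 100 * A * r + 10000 * A ^ 2) * (x ^ 2 + p ^ 2) := by ring
        _ ≤ (20000 * A ^ 2 * (1 + r)) * (x ^ 2 + p ^ 2) := by
              gcongr
              have k5 : 100 * A * r ≤ 20000 * A ^ 2 * r := by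
                have : 100 * A ≤ 20000 * A ^ 2 := by nlinarith
                gcongr
              nlinarith)
  refine key.trans ?_
  gcongr
  -- the integral
  have hWI : ∀ s t : ℝ, s₁ ≤ s → s ≤ t → t ≤ s₂ → IntervalIntegrable (fun r => |W r|) volume s t := by
    intro s t h1 h3 h4
    apply ContinuousOn.intervalIntegrable
    rw [uIcc_of_le h3]
    exact (h.hW.mono (Icc_subset_Icc (h0.trans h1) (h4.trans h2))).abs
  rw [intervalIntegral.integral_const_mul]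
  have e1 : (∫ s in s₁..t, (1 + K + |W s| / δ)) = (t - s₁) * (1 + K) + (∫ s in s₁..t, |W s|) / δ := by
    rw [intervalIntegral.integral_add intervalIntegrable_const
      ((hWI s₁ t le_rfl ht.1 ht.2).div_const δ), intervalIntegral.integral_const,
      intervalIntegral.integral_div, smul_eq_mul]
  rw [e1]
  have e2 : (∫ s in s₁..t, |W s|) ≤ ∫ s in s₁..s₂, |W s| := by
    rw [← intervalIntegral.integral_add_adjacent_intervals (hWI s₁ t le_rfl ht.1 ht.2)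
      (hWI t s₂ ht.1 ht.2 le_rfl)]
    have : 0 ≤ ∫ s in t..s₂, |W s| :=
      intervalIntegral.integral_nonneg ht.2 (fun _ _ => abs_nonneg _)
    linarith
  have e3 : (∫ s in s₁..t, |W s|) / δ ≤ C₀ := by
    rw [div_le_iff₀ hδ]
    linarith
  have e4 : (t - s₁) * (1 + K) ≤ 4 * (1 + K) := by
    have : t - s₁ ≤ 4 := by linarith [ht.2]
    gcongr
  gcongr

/-- variation of `P` -/
theorem Sys.var (h : Sys A K δ T X V P F W) (hA : 1 ≤ A) (hK : 1 ≤ K) (hδ : 0 < δ)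
    [CompleteSpace E] {s₁ s₂ x₀ v₀ : ℝ} (h0 : 0 ≤ s₁) (h2 : s₂ ≤ T)
    (hI : (∫ t in s₁..s₂, |W t|) ≤ C₀ * δ) (hx0 : 0 ≤ x₀) (hv0 : 0 ≤ v₀)
    (hx : ∀ t ∈ Icc s₁ s₂, ‖X t‖ ≤ x₀) (hv : ∀ t ∈ Icc s₁ s₂, ‖V t‖ ≤ v₀) :
    ∀ t ∈ Icc s₁ s₂, ‖P t - P s₁‖ ≤
      100 * A * ((K * (s₂ - s₁) + C₀) * x₀ + (s₂ - s₁) * v₀) := by
  intro t ht
  have hsub : Icc s₁ t ⊆ Icc 0 T := Icc_subset_Icc h0 (ht.2.trans h2)
  have hWI : ∀ s t : ℝ, s₁ ≤ s → s ≤ t → t ≤ s₂ → IntervalIntegrable (fun r => |W r|) volume s t := by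
    intro s t h1 h3 h4
    apply ContinuousOn.intervalIntegrable
    rw [uIcc_of_le h3]
    exact (h.hW.mono (Icc_subset_Icc (h0.trans h1) (h4.trans h2))).abs
  have hFc : ContinuousOn F (Icc s₁ t) := h.hFc.mono hsub
  have hint : (∫ s in s₁..t, F s) = P t - P s₁ := by
    refine intervalIntegral.integral_eq_sub_of_hasDerivAt_of_le ht.1
      (fun s hs => ((h.hP s (hsub hs)).continuousWithinAt).mono hsub) ?_ ?_
    · intro s hs
      exact (h.hP s (hsub ⟨hs.1.le, hs.2.le⟩)).hasDerivAt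
        (Icc_mem_nhds (lt_of_le_of_lt h0 hs.1) (lt_of_lt_of_le hs.2 (ht.2.trans h2)))
    · apply ContinuousOn.intervalIntegrable
      rw [uIcc_of_le ht.1]
      exact hFc
  rw [← hint]
  refine (intervalIntegral.norm_integral_le_integral_norm ht.1).trans ?_
  have hb : (∫ s in s₁..t, ‖F s‖) ≤
      ∫ s in s₁..t, (100 * A * (K * x₀ + v₀) + 100 * A * x₀ / δ * |W s|) := by
    refine intervalIntegral.integral_mono_on ht.1 ?_ ?_ ?_
    · apply ContinuousOn.intervalIntegrable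
      rw [uIcc_of_le ht.1]
      exact hFc.norm
    · exact intervalIntegrable_const.add ((hWI s₁ t le_rfl ht.1 ht.2).const_mul _)
    · intro s hs
      have hs2 : s ∈ Icc s₁ s₂ := ⟨hs.1, hs.2.trans ht.2⟩
      refine (h.hF s (hsub hs)).trans ?_
      have hw : 0 ≤ |W s| / δ := by positivity
      have h1 : (K + |W s| / δ) * ‖X s‖ ≤ (K + |W s| / δ) * x₀ := by
        gcongr
        exact hx s hs2
      have h3 : 100 * A * ((K + |W s| / δ) * ‖X s‖ + ‖V s‖) ≤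
          100 * A * ((K + |W s| / δ) * x₀ + v₀) := by
        have := hv s hs2
        have : 0 ≤ 100 * A := by linarith
        gcongr
      refine h3.trans (le_of_eq ?_)
      ring
  refine hb.trans ?_
  rw [intervalIntegral.integral_add intervalIntegrable_const
    ((hWI s₁ t le_rfl ht.1 ht.2).const_mul _), intervalIntegral.integral_const,
    intervalIntegral.integral_const_mul, smul_eq_mul]
  have e2 : (∫ s in s₁..t, |W s|) ≤ C₀ * δ := by
    refine le_trans ?_ hI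
    rw [← intervalIntegral.integral_add_adjacent_intervals (hWI s₁ t le_rfl ht.1 ht.2)
      (hWI t s₂ ht.1 ht.2 le_rfl)]
    have : 0 ≤ ∫ s in t..s₂, |W s| :=
      intervalIntegral.integral_nonneg ht.2 (fun _ _ => abs_nonneg _)
    linarith
  have hc : 0 ≤ 100 * A * x₀ / δ := by positivity
  have e3 : 100 * A * x₀ / δ * (∫ s in s₁..t, |W s|) ≤ 100 * A * x₀ / δ * (C₀ * δ) := by gcongr
  have e4 : 100 * A * x₀ / δ * (C₀ * δ) = 100 * A * (C₀ * x₀) := by field_simp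
  have e5 : (t - s₁) * (100 * A * (K * x₀ + v₀)) ≤ (s₂ - s₁) * (100 * A * (K * x₀ + v₀)) := by
    have := ht.2
    have h6 : 0 ≤ 100 * A * (K * x₀ + v₀) := by positivity
    gcongr
  calc (t - s₁) * (100 * A * (K * x₀ + v₀)) + 100 * A * x₀ / δ * (∫ s in s₁..t, |W s|)
      ≤ (s₂ - s₁) * (100 * A * (K * x₀ + v₀)) + 100 * A * (C₀ * x₀) := by linarith
    _ = _ := by ring

theorem norm_le_of_sq {x y p G : ℝ} (hG : 0 ≤ G) (hp : 0 ≤ p) (h : x ^ 2 + y ^ 2 ≤ G * p ^ 2)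
    (hG1 : 1 ≤ G) : x ≤ G * p := by
  have h1 : x ^ 2 ≤ (G * p) ^ 2 := by
    have : G * p ^ 2 ≤ G ^ 2 * p ^ 2 := by
      have : G ≤ G ^ 2 := by nlinarith
      gcongr
    nlinarith [sq_nonneg y]
  exact le_of_sq_le_sq_of_nonneg h1 (by positivity)
where
  le_of_sq_le_sq_of_nonneg {a b : ℝ} (h : a ^ 2 ≤ b ^ 2) (hb : 0 ≤ b) : a ≤ b :=
    le_of_abs_le ((sq_le_sq₀ (abs_nonneg a) hb).1 (by rwa [sq_abs]))

/-- the core estimate -/
theorem core (A K C₀ : ℝ) (hA : 1 ≤ A) (hK : 1 ≤ K) (hC₀ : 0 < C₀) : ∃ C : ℝ, 0 < C ∧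
    ∀ (E : Type) [NormedAddCommGroup E] [InnerProductSpace ℝ E] [CompleteSpace E] (δ T : ℝ)
      (X V P F : ℝ → E) (W : ℝ → ℝ) (a b : ℝ), 0 < δ → 100 * A * δ ≤ 1 → T ≤ 4 →
      Sys A K δ T X V P F W → 0 ≤ a → a ≤ b → b ≤ T → a ≤ C₀ * √δ → T - b ≤ C₀ * √δ →
      (∫ t in (0 : ℝ)..a, |W t|) ≤ C₀ * δ → (∫ t in b..T, |W t|) ≤ C₀ * δ →
      (∀ t ∈ Ioo a b, F t = 0 ∧ V t = P t) → X 0 = 0 →
      ‖X T - T • P 0‖ ≤ C * √δ * (T * ‖P 0‖) := by
  set G : ℝ := Real.exp (20000 * A ^ 2 * (4 * (1 + K) + C₀)) with hG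
  have hG1 : 1 ≤ G := by
    rw [hG]
    exact Real.one_le_exp (by positivity)
  have hG0 : 0 ≤ G := by linarith
  have hA0 : 0 ≤ A := by linarith
  have hK0 : 0 ≤ K := by linarith
  -- `‖X‖, ‖P‖ ≤ G₂ d`, `‖V‖ ≤ G₃ d`
  set G₂ : ℝ := 17 * (2 + 100 * A) ^ 2 * G ^ 3 with hG₂
  have hG₂0 : 0 ≤ G₂ := by positivity
  set G₃ : ℝ := (2 + 100 * A) * G₂ with hG₃
  have hG₃0 : 0 ≤ G₃ := by positivity
  set G₄ : ℝ := 100 * A * ((K * 4 + C₀) * G₃ + G₃) * C₀ with hG₄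
  have hG₄0 : 0 ≤ G₄ := by positivity
  set G₅ : ℝ := G₄ + 100 * A * (G₂ + G₃ * C₀) with hG₅
  have hG₅0 : 0 ≤ G₅ := by positivity
  set G₆ : ℝ := 100 * A * ((K * 4 + C₀) * G₃ + C₀ * G₃) + G₄ + 100 * A * (G₂ + G₃) with hG₆
  have hG₆0 : 0 ≤ G₆ := by positivity
  refine ⟨G₅ + G₆ * (C₀ + 1) + 1, by positivity, ?_⟩
  intro E _ _ _ δ T X V P F W a b hδ hδ1 hT4 h ha hab hbT haC hbC hIa hIb hoff hX0
  have hT0 : 0 ≤ T := ha.trans (hab.trans hbT)
  have hδ2 : δ ≤ 1 := by nlinarith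
  set d := ‖P 0‖ with hd
  have hd0 : 0 ≤ d := norm_nonneg _
  have hs0 : 0 ≤ √δ := Real.sqrt_nonneg _
  have hs1 : √δ ≤ 1 := by
    have := Real.sqrt_le_sqrt hδ2
    rwa [Real.sqrt_one] at this
  have hss : √δ * √δ = δ := Real.mul_self_sqrt hδ.le
  have hδs : δ ≤ √δ := by nlinarith
  have hbT0 : 0 ≤ T - b := by linarith
  have hba0 : 0 ≤ b - a := by linarith
  have hb0 : 0 ≤ b := ha.trans hab
  -- first interval
  have g1 : ∀ t ∈ Icc 0 a, ‖X t‖ ^ 2 + ‖P t‖ ^ 2 ≤ G * d ^ 2 := by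
    intro t ht
    have := h.gron hA hK hδ hδ1 hT4 le_rfl (hab.trans hbT) hIa t ht
    rw [hX0, norm_zero] at this
    rw [hG, mul_comm]
    simpa using this
  have x1 : ∀ t ∈ Icc 0 a, ‖X t‖ ≤ G * d := fun t ht => norm_le_of_sq hG0 hd0 (g1 t ht) hG1
  have p1 : ∀ t ∈ Icc 0 a, ‖P t‖ ≤ G * d := fun t ht =>
    norm_le_of_sq hG0 hd0 (by rw [add_comm]; exact g1 t ht) hG1
  -- middle interval
  have hPc : ∀ t ∈ Icc a b, P t = P a := by
    intro t ht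
    exact Pool.Agent.MPa29272.S2D.eq_of_zero (T := T) (P := P) (F := F) ha (ht.2.trans hbT) h.hP
      (fun s hs => (hoff s ⟨hs.1, lt_of_lt_of_le hs.2 ht.2⟩).1) ht.1
  have haI : a ∈ Icc 0 a := ⟨ha, le_rfl⟩
  have hXcont : ContinuousOn X (Icc 0 T) := fun t ht => (h.hX t ht).continuousWithinAt
  -- mean value inequality on `Ico`
  have mv : ∀ (s₁ s₂ : ℝ) (q : E) (c : ℝ), 0 ≤ s₁ → s₂ ≤ T → (∀ t ∈ Ico s₁ s₂, ‖V t - q‖ ≤ c) →
      ∀ t ∈ Icc s₁ s₂, ‖X t - X s₁ - (t - s₁) • q‖ ≤ c * (t - s₁) := by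
    intro s₁ s₂ q c h0 h2 hc t ht
    have key := norm_image_sub_le_of_norm_deriv_right_le_segment
      (f := fun s => X s - s • q) (f' := fun s => V s - q) (C := c) (a := s₁) (b := s₂)
      ((hXcont.mono (Icc_subset_Icc h0 h2)).sub (by fun_prop))
      (fun s hs => by
        have hmem : Icc 0 T ∈ nhdsWithin s (Ici s) := by
          have : Icc s T ∈ nhdsWithin s (Ici s) := Icc_mem_nhdsGE (lt_of_lt_of_le hs.2 h2)
          exact Filter.mem_of_superset this (Icc_subset_Icc_left (h0.trans hs.1))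
        have e1 := (h.hX s ⟨h0.trans hs.1, hs.2.le.trans h2⟩).mono_of_mem_nhdsWithin hmem
        have e2 : HasDerivWithinAt (fun s : ℝ => s • q) ((1 : ℝ) • q) (Ici s) s :=
          (hasDerivWithinAt_id s (Ici s)).smul_const q
        rw [one_smul] at e2
        exact e1.sub e2)
      hc t ht
    have e : X t - t • q - (X s₁ - s₁ • q) = X t - X s₁ - (t - s₁) • q := by
      rw [sub_smul]; abel
    rw [e] at key
    exact key
  have hPa : ‖P a‖ ≤ G * d := p1 a haI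
  have hc1 : 1 ≤ 2 + 100 * A := by linarith
  have hGd : 0 ≤ G * d := by positivity
  have v1 : ∀ t ∈ Ico 0 b, ‖V t‖ ≤ (2 + 100 * A) * (G * d) := by
    intro t ht
    have htT : t ∈ Icc 0 T := ⟨ht.1, ht.2.le.trans hbT⟩
    rcases le_or_gt t a with h' | h'
    · have e1 := h.norm_V hA hδ1 htT
      have e2 := x1 t ⟨ht.1, h'⟩
      have e3 := p1 t ⟨ht.1, h'⟩
      calc ‖V t‖ ≤ 2 * ‖P t‖ + 100 * A * ‖X t‖ := e1
        _ ≤ 2 * (G * d) + 100 * A * (G * d) := by gcongr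
        _ = _ := by ring
    · rw [(hoff t ⟨h', ht.2⟩).2, hPc t ⟨h'.le, ht.2.le⟩]
      nlinarith
  have xb : ‖X b‖ ≤ 4 * ((2 + 100 * A) * (G * d)) := by
    have := mv 0 b 0 ((2 + 100 * A) * (G * d)) le_rfl hbT (fun t ht => by
      rw [sub_zero]
      exact v1 t ht) b ⟨hb0, le_rfl⟩
    rw [hX0, smul_zero, sub_zero, sub_zero, sub_zero] at this
    refine this.trans ?_
    rw [mul_comm]
    have : b ≤ 4 := hbT.trans hT4
    gcongr
  have hPb : P b = P a := hPc b ⟨hab, le_rfl⟩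
  have zb : ‖X b‖ ^ 2 + ‖P b‖ ^ 2 ≤ 17 * (2 + 100 * A) ^ 2 * G ^ 2 * d ^ 2 := by
    rw [hPb]
    have e1 : ‖X b‖ ^ 2 ≤ (4 * ((2 + 100 * A) * (G * d))) ^ 2 := by gcongr
    have e2 : ‖P a‖ ^ 2 ≤ (G * d) ^ 2 := by gcongr
    have e3 : 1 * (G * d) ^ 2 ≤ (2 + 100 * A) ^ 2 * (G * d) ^ 2 := by
      have : (1 : ℝ) ≤ (2 + 100 * A) ^ 2 := one_le_pow₀ hc1
      gcongr
    nlinarith
  have g3 : ∀ t ∈ Icc b T, ‖X t‖ ^ 2 + ‖P t‖ ^ 2 ≤ G₂ * d ^ 2 := by
    intro t ht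
    refine (h.gron hA hK hδ hδ1 hT4 hb0 le_rfl hIb t ht).trans ?_
    rw [← hG]
    calc (‖X b‖ ^ 2 + ‖P b‖ ^ 2) * G ≤ (17 * (2 + 100 * A) ^ 2 * G ^ 2 * d ^ 2) * G := by gcongr
      _ = G₂ * d ^ 2 := by rw [hG₂]; ring
  have hGG : G ≤ G₂ := by
    rw [hG₂]
    have e1 : (1 : ℝ) ≤ (2 + 100 * A) ^ 2 := one_le_pow₀ hc1
    have e2 : G ≤ G ^ 3 := by
      calc G = G * 1 := (mul_one G).symm
        _ ≤ G * G ^ 2 := by
            have : (1 : ℝ) ≤ G ^ 2 := one_le_pow₀ hG1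
            gcongr
        _ = G ^ 3 := by ring
    have e3 : 1 * G ^ 3 ≤ 17 * (2 + 100 * A) ^ 2 * G ^ 3 := by
      gcongr
      linarith
    linarith
  have hG₂1 : 1 ≤ G₂ := hG1.trans hGG
  have x3 : ∀ t ∈ Icc b T, ‖X t‖ ≤ G₂ * d := fun t ht => norm_le_of_sq hG₂0 hd0 (g3 t ht) hG₂1
  have p3 : ∀ t ∈ Icc b T, ‖P t‖ ≤ G₂ * d := fun t ht =>
    norm_le_of_sq hG₂0 hd0 (by rw [add_comm]; exact g3 t ht) hG₂1
  -- all times
  have hGGd : G * d ≤ G₂ * d := by gcongr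
  have pall : ∀ t ∈ Icc 0 T, ‖P t‖ ≤ G₂ * d := by
    intro t ht
    rcases le_total t a with h' | h'
    · exact (p1 t ⟨ht.1, h'⟩).trans hGGd
    · rcases le_total t b with h'' | h''
      · rw [hPc t ⟨h', h''⟩]; exact hPa.trans hGGd
      · exact p3 t ⟨h'', ht.2⟩
  have vall : ∀ t ∈ Icc 0 T, ‖V t‖ ≤ G₃ * d := by
    intro t ht
    rcases lt_or_ge t b with h' | h'
    · refine (v1 t ⟨ht.1, h'⟩).trans ?_
      rw [hG₃, mul_assoc]
      gcongr
    · have e1 := h.norm_V hA hδ1 ht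
      have e2 := x3 t ⟨h', ht.2⟩
      have e3 := p3 t ⟨h', ht.2⟩
      calc ‖V t‖ ≤ 2 * ‖P t‖ + 100 * A * ‖X t‖ := e1
        _ ≤ 2 * (G₂ * d) + 100 * A * (G₂ * d) := by gcongr
        _ = _ := by rw [hG₃]; ring
  have hG₃d : 0 ≤ G₃ * d := by positivity
  have xall : ∀ t ∈ Icc 0 T, ‖X t‖ ≤ G₃ * d * t := by
    intro t ht
    have := mv 0 T 0 (G₃ * d) le_rfl le_rfl (fun t ht => by
      rw [sub_zero]
      exact vall t ⟨ht.1, ht.2.le⟩) t ht
    rwa [hX0, smul_zero, sub_zero, sub_zero, sub_zero] at this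
  -- variation of `P` on the first interval
  have ha4 : a ≤ 4 := (hab.trans hbT).trans hT4
  have pv1 : ∀ t ∈ Icc 0 a, ‖P t - P 0‖ ≤ G₄ * d * √δ := by
    intro t ht
    have := h.var hA hK hδ (x₀ := G₃ * d * a) (v₀ := G₃ * d) le_rfl (hab.trans hbT) hIa
      (by positivity) hG₃d
      (fun s hs => (xall s ⟨hs.1, hs.2.trans (hab.trans hbT)⟩).trans (by
        have := hs.2
        gcongr))
      (fun s hs => vall s ⟨hs.1, hs.2.trans (hab.trans hbT)⟩) t ht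
    rw [sub_zero] at this
    refine this.trans ?_
    calc 100 * A * ((K * a + C₀) * (G₃ * d * a) + a * (G₃ * d))
        ≤ 100 * A * ((K * 4 + C₀) * (G₃ * d * a) + a * (G₃ * d)) := by gcongr
      _ = 100 * A * ((K * 4 + C₀) * G₃ + G₃) * d * a := by ring
      _ ≤ 100 * A * ((K * 4 + C₀) * G₃ + G₃) * d * (C₀ * √δ) := by gcongr
      _ = G₄ * d * √δ := by rw [hG₄]; ring
  have hpa : ‖P a - P 0‖ ≤ G₄ * d * √δ := pv1 a haI
  -- velocity on `[0, b)`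
  have vv1 : ∀ t ∈ Ico 0 b, ‖V t - P 0‖ ≤ G₅ * d * √δ := by
    intro t ht
    have htT : t ∈ Icc 0 T := ⟨ht.1, ht.2.le.trans hbT⟩
    rcases le_or_gt t a with h' | h'
    · have e1 := h.hV t htT
      have e2 := pv1 t ⟨ht.1, h'⟩
      have e3 := pall t htT
      have e4 : ‖X t‖ ≤ G₃ * d * (C₀ * √δ) := (xall t htT).trans (by
        have := h'.trans haC
        gcongr)
      have e5 : ‖V t - P 0‖ ≤ ‖V t - P t‖ + ‖P t - P 0‖ := by
        have := norm_add_le (V t - P t) (P t - P 0)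
        rwa [sub_add_sub_cancel] at this
      have e6 : δ * ‖P t‖ ≤ √δ * (G₂ * d) := by gcongr
      have e7 : 100 * A * (δ * ‖P t‖ + ‖X t‖) ≤
          100 * A * (√δ * (G₂ * d) + G₃ * d * (C₀ * √δ)) := by gcongr
      calc ‖V t - P 0‖ ≤ 100 * A * (√δ * (G₂ * d) + G₃ * d * (C₀ * √δ)) + G₄ * d * √δ := by
            linarith
        _ = G₅ * d * √δ := by rw [hG₅]; ring
    · rw [(hoff t ⟨h', ht.2⟩).2, hPc t ⟨h'.le, ht.2.le⟩]
      refine hpa.trans ?_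
      have : G₄ ≤ G₅ := by
        rw [hG₅]
        have : 0 ≤ 100 * A * (G₂ + G₃ * C₀) := by positivity
        linarith
      gcongr
  have xb' : ‖X b - b • P 0‖ ≤ G₅ * d * √δ * b := by
    have := mv 0 b (P 0) (G₅ * d * √δ) le_rfl hbT vv1 b ⟨hb0, le_rfl⟩
    rwa [hX0, sub_zero, sub_zero] at this
  -- velocity on `[b, T]`
  have vv3 : ∀ t ∈ Ico b T, ‖V t - P 0‖ ≤ G₆ * d * (T + √δ) := by
    intro t ht
    have htT : t ∈ Icc 0 T := ⟨hb0.trans ht.1, ht.2.le⟩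
    have e1 := h.hV t htT
    have e2 := h.var hA hK hδ (x₀ := G₃ * d * T) (v₀ := G₃ * d) hb0 le_rfl hIb
      (by positivity) hG₃d
      (fun s hs => (xall s ⟨hb0.trans hs.1, hs.2⟩).trans (by
        have := hs.2
        gcongr))
      (fun s hs => vall s ⟨hb0.trans hs.1, hs.2⟩) t ⟨ht.1, ht.2.le⟩
    have e3 := pall t htT
    have e4 : ‖X t‖ ≤ G₃ * d * T := (xall t htT).trans (by
      have := htT.2
      gcongr)
    have e5 : ‖V t - P 0‖ ≤ ‖V t - P t‖ + ‖P t - P b‖ + ‖P a - P 0‖ := by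
      have : V t - P 0 = (V t - P t) + (P t - P b) + (P a - P 0) := by
        rw [hPb]; abel
      rw [this]
      exact (norm_add_le _ _).trans (by gcongr; exact norm_add_le _ _)
    have e6 : δ * ‖P t‖ ≤ √δ * (G₂ * d) := by gcongr
    have e7 : 100 * A * (δ * ‖P t‖ + ‖X t‖) ≤
        100 * A * ((T + √δ) * (G₂ * d) + G₃ * d * (T + √δ)) := by
      have k1 : √δ * (G₂ * d) ≤ (T + √δ) * (G₂ * d) := by
        have : √δ ≤ T + √δ := by linarith
        gcongr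
      have k2 : G₃ * d * T ≤ G₃ * d * (T + √δ) := by
        have : T ≤ T + √δ := by linarith
        gcongr
      have k3 : δ * ‖P t‖ + ‖X t‖ ≤ (T + √δ) * (G₂ * d) + G₃ * d * (T + √δ) := by linarith
      gcongr
    have e8 : 100 * A * ((K * (T - b) + C₀) * (G₃ * d * T) + (T - b) * (G₃ * d)) ≤
        100 * A * ((K * 4 + C₀) * (G₃ * d * (T + √δ)) + (C₀ * (T + √δ)) * (G₃ * d)) := by
      have k1 : T - b ≤ 4 := by linarith
      have k2 : T ≤ T + √δ := by linarith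
      have k3 : T - b ≤ C₀ * (T + √δ) := by nlinarith
      gcongr
    have e9 : G₄ * d * √δ ≤ G₄ * d * (T + √δ) := by
      have : √δ ≤ T + √δ := by linarith
      gcongr
    calc ‖V t - P 0‖ ≤ 100 * A * ((T + √δ) * (G₂ * d) + G₃ * d * (T + √δ)) +
          100 * A * ((K * 4 + C₀) * (G₃ * d * (T + √δ)) + (C₀ * (T + √δ)) * (G₃ * d)) +
          G₄ * d * (T + √δ) := by linarith
      _ = G₆ * d * (T + √δ) := by rw [hG₆]; ring
  have xT := mv b T (P 0) (G₆ * d * (T + √δ)) hb0 le_rfl vv3 T ⟨hbT, le_rfl⟩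
  -- total
  have e : X T - T • P 0 = (X T - X b - (T - b) • P 0) + (X b - b • P 0) := by
    rw [sub_smul]; abel
  rw [e]
  refine (norm_add_le _ _).trans ?_
  have f1 : G₅ * d * √δ * b ≤ G₅ * d * √δ * T := by gcongr
  have f2 : (T + √δ) * (T - b) ≤ (C₀ + 1) * (√δ * T) := by
    have k1 : T * (T - b) ≤ T * (C₀ * √δ) := by gcongr
    have k2 : √δ * (T - b) ≤ √δ * T := by
      have : T - b ≤ T := by linarith
      gcongr
    nlinarith
  have f3 : G₆ * d * ((T + √δ) * (T - b)) ≤ G₆ * d * ((C₀ + 1) * (√δ * T)) := by gcongr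
  have f4 : 0 ≤ √δ * T * d := by positivity
  calc ‖X T - X b - (T - b) • P 0‖ + ‖X b - b • P 0‖
      ≤ G₆ * d * (T + √δ) * (T - b) + G₅ * d * √δ * b := by linarith
    _ ≤ G₆ * d * ((C₀ + 1) * (√δ * T)) + G₅ * d * √δ * T := by linarith
    _ = (G₅ + G₆ * (C₀ + 1)) * √δ * (T * d) := by ring
    _ ≤ (G₅ + G₆ * (C₀ + 1) + 1) * √δ * (T * d) := by
        have : G₅ + G₆ * (C₀ + 1) ≤ G₅ + G₆ * (C₀ + 1) + 1 := by linarith
        gcongr

end Core

section Final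

variable {E : Type} [NormedAddCommGroup E] [InnerProductSpace ℝ E]

/-- off the large shell of `x`, both points are off the small shell -/
theorem off_shell {K δ : ℝ} (hK : 1 ≤ K) (hδ : 0 < δ) (hKδ : (4 * K + 4) * δ ≤ 1) {x y : E}
    (hxy : ‖x - y‖ ≤ K * δ) (hx : (4 * K + 4) * δ < |‖x‖ ^ 2 - 1|) :
    δ < |‖x‖ ^ 2 - 1| ∧ δ < |‖y‖ ^ 2 - 1| := by
  have hKδ0 : 0 < K * δ := by positivity
  have hKd : K * δ ≤ 1 / 4 := by nlinarith
  have h1 : δ ≤ K * δ := by nlinarith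
  refine ⟨by nlinarith, ?_⟩
  have hyx := norm_sub_norm_le x y
  have hyx' := norm_sub_norm_le y x
  rw [norm_sub_rev] at hyx'
  have hy0 := norm_nonneg y
  have hx0 := norm_nonneg x
  rcases lt_abs.1 hx with h | h
  · -- outside
    refine lt_of_lt_of_le ?_ (le_abs_self _)
    have hx1 : 1 < ‖x‖ := by nlinarith
    have h2 : ‖x‖ - K * δ ≤ ‖y‖ := by linarith
    have h3 : (‖x‖ - K * δ) ^ 2 ≤ ‖y‖ ^ 2 := by
      have : 0 ≤ ‖x‖ - K * δ := by linarith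
      gcongr
    rcases le_or_gt ‖x‖ 2 with h4 | h4
    · nlinarith
    · nlinarith
  · -- inside
    refine lt_of_lt_of_le ?_ (neg_le_abs _)
    have hx1 : ‖x‖ < 1 := by nlinarith
    have h2 : ‖y‖ ≤ ‖x‖ + K * δ := by linarith
    have h3 : ‖y‖ ^ 2 ≤ (‖x‖ + K * δ) ^ 2 := by gcongr
    nlinarith

theorem mom_sub (Θ : E → E) (x v w : E) : mom Θ x v - mom Θ x w = mom Θ x (v - w) := by
  simp only [mom, inner_sub_right, sub_smul]
  abel

variable [FiniteDimensional ℝ E]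

/-- the speed bound, energy at most `1` -/
theorem speed_le' {A δ T : ℝ} {Θ : E → E} (hΘ : Shift A δ Θ) (hA : 1 ≤ A) (hδ : 0 < δ)
    (hδ1 : 8 * A * δ ≤ 1) {x v : ℝ → E} (h : HamSol Θ T x v)
    (h1 : gT Θ (x 0) (v 0) (v 0) ≤ 1) : ∀ t ∈ Icc 0 T, ‖v t‖ ≤ 2 := by
  intro t ht
  have hδ2 : δ ≤ 1 := by nlinarith
  have hadm : Adm Θ := hΘ.adm (by linarith) hδ.le hδ2 (by linarith)
  have he := h.energy hadm t ht
  have hm := (hΘ.mom_sub_le hA hδ hδ2 (x t) (v t)).2.1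
  rw [he] at hm
  have h2 := (abs_le.1 hm).1
  have h3 : 4 * A * δ * ‖v t‖ ^ 2 ≤ 1 / 2 * ‖v t‖ ^ 2 := by
    have : 4 * A * δ ≤ 1 / 2 := by linarith
    gcongr
  nlinarith [norm_nonneg (v t)]

/-- PIECE DIFF: step (5). Off the times with `|‖x t‖² - 1| ≤ K' δ`, `K' = 4 K + 4`, both `Θ (x t)`
and `Θ (y t)` vanish, with their derivatives; `planar` for `x` with `K'`. -/
theorem diff_est (A K : ℝ) (hA : 1 ≤ A) (hK : 1 ≤ K) : ∃ C δ₀ : ℝ, 0 < C ∧ 0 < δ₀ ∧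
    ∀ δ, 0 < δ → δ ≤ δ₀ → ∀ Θ : E → E, Shift A δ Θ → ∀ T, 0 ≤ T → T ≤ 4 →
      ∀ x v y w : ℝ → E, HamSol Θ T x v → HamSol Θ T y w → x 0 = y 0 →
        gT Θ (x 0) (v 0) (v 0) = 1 → gT Θ (y 0) (w 0) (w 0) ≤ 1 → ‖x 0‖ ^ 2 ≤ 1 + δ →
        ‖x T‖ ^ 2 ≤ 1 + K * δ → (∀ t ∈ Icc 0 T, ‖x t - y t‖ ≤ K * δ) →
          ‖x T - y T - T • (v 0 - w 0)‖ ≤ C * √δ * (T * ‖v 0 - w 0‖) := by
  obtain ⟨C₀, δ₁, hC₀, hδ₁, hpl⟩ := planar (4 * A) (4 * K + 4) (by linarith) (by linarith)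
  obtain ⟨C, hC, hcore⟩ := core A K C₀ hA hK hC₀
  have hA0 : 0 < A := by linarith
  have hK0 : 0 < K := by linarith
  refine ⟨2 * C + 4 * A, min δ₁ (1 / (100 * A * (4 * K + 4))), by positivity,
    lt_min hδ₁ (by positivity), ?_⟩
  intro δ hδ hδm Θ hΘ T hT0 hT4 x v y w hx hy hxy0 h1 h1' hx0 hxT hxy
  have hδm2 : δ * (100 * A * (4 * K + 4)) ≤ 1 := by
    have := hδm.trans (min_le_right _ _)
    rwa [le_div_iff₀ (by positivity)] at this
  have hAδ0 : 0 < A * δ := by positivity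
  have hδA : 100 * A * δ ≤ 1 := by nlinarith [mul_pos hAδ0 hK0]
  have hδK : (4 * K + 4) * δ ≤ 1 := by nlinarith [mul_pos hK0 hδ]
  have hδ2 : δ ≤ 1 := by nlinarith [mul_pos hK0 hδ]
  have hδ8 : 8 * A * δ ≤ 1 := by nlinarith
  have hvx := speed_le' hΘ hA hδ hδ8 hx h1.le
  have hvy := speed_le' hΘ hA hδ hδ8 hy h1'
  have hP := hx.planar hΘ hA hδ hδ8 h1
  have hKδ0 : 0 < K * δ := by positivity
  obtain ⟨a, b, ha, hab, hbT, haC, hbC, hoff, hIa, hIb⟩ :=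
    hpl δ T hδ (hδm.trans (min_le_left _ _)) hT0 _ _ _ hP (by nlinarith) (by nlinarith)
  have hsys : Sys A K δ T (fun t => x t - y t) (fun t => v t - w t)
      (fun t => mom Θ (x t) (v t) - mom Θ (y t) (w t))
      (fun t => force Θ (x t) (v t) - force Θ (y t) (w t)) (fun t => ⟪x t, v t⟫) :=
    { hX := fun t ht => (hx.dx t ht).sub (hy.dx t ht)
      hP := fun t ht => (hx.dp t ht).sub (hy.dp t ht)
      hW := hP.cw
      hFc := (Apr.contOn_force hΘ.smooth hx).sub (Apr.contOn_force hΘ.smooth hy)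
      hV := fun t ht => hΘ.vel_diff_le hA hδ hδA (hvx t ht) (hvy t ht)
      hF := fun t ht => hΘ.force_diff_le hA hδ hδA hK (by nlinarith) (hvx t ht) (hvy t ht)
        (hxy t ht) }
  have hres := hcore E δ T _ _ _ _ _ a b hδ hδA hT4 hsys ha hab hbT haC hbC hIa hIb
    (fun t ht => by
      have htT : t ∈ Icc 0 T := ⟨ha.trans ht.1.le, ht.2.le.trans hbT⟩
      have h2 : (4 * K + 4) * δ < |‖x t‖ ^ 2 - 1| := by
        have := hoff t ht
        convert this using 2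
        ring
      obtain ⟨h3, h4⟩ := off_shell hK hδ hδK (hxy t htT) h2
      refine ⟨?_, ?_⟩
      · simp only [(hΘ.force_le hA hδ hδ2 (x t) (v t)).2 h3,
          (hΘ.force_le hA hδ hδ2 (y t) (w t)).2 h4, sub_self]
      · simp only [(hΘ.mom_sub_le hA hδ hδ2 (x t) (v t)).2.2 h3,
          (hΘ.mom_sub_le hA hδ hδ2 (y t) (w t)).2.2 h4])
    (by rw [hxy0, sub_self])
  simp only [← hxy0, mom_sub] at hres
  -- from the momentum to the velocity
  have hm := (hΘ.mom_sub_le hA hδ hδ2 (x 0) (v 0 - w 0)).1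
  have hs0 : 0 ≤ √δ := Real.sqrt_nonneg _
  have hs1 : √δ ≤ 1 := by
    have := Real.sqrt_le_sqrt hδ2
    rwa [Real.sqrt_one] at this
  have hss : √δ * √δ = δ := Real.mul_self_sqrt hδ.le
  have hδs : δ ≤ √δ := by nlinarith
  set N := ‖v 0 - w 0‖ with hN
  have hN0 : 0 ≤ N := norm_nonneg _
  have hp : ‖mom Θ (x 0) (v 0 - w 0)‖ ≤ 2 * N := by
    have e1 : ‖mom Θ (x 0) (v 0 - w 0)‖ ≤ ‖mom Θ (x 0) (v 0 - w 0) - (v 0 - w 0)‖ + N := by
      have := norm_add_le (mom Θ (x 0) (v 0 - w 0) - (v 0 - w 0)) (v 0 - w 0)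
      rwa [sub_add_cancel] at this
    have e2 : 4 * A * δ * N ≤ 1 * N := by
      have : 4 * A * δ ≤ 1 := by linarith
      gcongr
    linarith
  have e : x T - y T - T • (v 0 - w 0) = (x T - y T - T • mom Θ (x 0) (v 0 - w 0)) +
      T • (mom Θ (x 0) (v 0 - w 0) - (v 0 - w 0)) := by
    rw [smul_sub T (mom Θ (x 0) (v 0 - w 0)) (v 0 - w 0)]; abel
  rw [e]
  refine (norm_add_le _ _).trans ?_
  rw [norm_smul, Real.norm_of_nonneg hT0]
  have f1 : C * √δ * (T * ‖mom Θ (x 0) (v 0 - w 0)‖) ≤ C * √δ * (T * (2 * N)) := by gcongr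
  have f2 : T * ‖mom Θ (x 0) (v 0 - w 0) - (v 0 - w 0)‖ ≤ T * (4 * A * √δ * N) := by
    have : 4 * A * δ * N ≤ 4 * A * √δ * N := by gcongr
    gcongr
    exact hm.trans this
  calc ‖x T - y T - T • mom Θ (x 0) (v 0 - w 0)‖ +
        T * ‖mom Θ (x 0) (v 0 - w 0) - (v 0 - w 0)‖
      ≤ C * √δ * (T * (2 * N)) + T * (4 * A * √δ * N) := by linarith
    _ = (2 * C + 4 * A) * √δ * (T * N) := by ring

end Final

end DiffB

end Pool.Agent.Lib_MP_a29272_q1
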