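import Mathlib

/-!
# The abstract difference estimate (core of piece DIFF)
-/

namespace Pool.Agent.Lib_MP_a29272_q1.DB

open Set Metric
open scoped RealInnerProductSpace

/-- a primitive of a continuous function on `[0, T]` -/
theorem exists_primitive {T : ℝ} (hT : 0 ≤ T) {m : ℝ → ℝ} (hm : ContinuousOn m (Icc 0 T)) :
    ∃ G : ℝ → ℝ, (∀ t ∈ Icc 0 T, HasDerivWithinAt G (m t) (Icc 0 T) t) ∧
      ∀ a b, 0 ≤ a → a ≤ b → b ≤ T → G b - G a = ∫ t in a..b, m t := by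
  set n : ℝ → ℝ := IccExtend hT ((Icc 0 T).domRestrict m) with hn
  have hc : Continuous n := by
    rw [hn]
    exact (continuousOn_iff_continuous_domRestrict.1 hm).Icc_extend'
  have he : ∀ t ∈ Icc 0 T, n t = m t := by
    intro t ht
    rw [hn, IccExtend_of_mem hT _ ht]
    rfl
  refine ⟨fun t => ∫ s in (0 : ℝ)..t, n s, ?_, ?_⟩
  · intro t ht
    rw [← he t ht]
    exact (hc.integral_hasStrictDerivAt 0 t).hasDerivAt.hasDerivWithinAt
  · intro a b h0 hab hb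
    simp only
    rw [intervalIntegral.integral_interval_sub_left (hc.intervalIntegrable _ _)
      (hc.intervalIntegrable _ _)]
    refine intervalIntegral.integral_congr fun t ht => ?_
    rw [uIcc_of_le hab] at ht
    exact he t ⟨h0.trans ht.1, ht.2.trans hb⟩

/-- Gronwall's inequality with a primitive of the coefficient -/
theorem gron {a b : ℝ} (hab : a ≤ b) {z z' k G : ℝ → ℝ}
    (hz : ∀ t ∈ Icc a b, HasDerivWithinAt z (z' t) (Icc a b) t)
    (hG : ∀ t ∈ Icc a b, HasDerivWithinAt G (k t) (Icc a b) t)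
    (h : ∀ t ∈ Icc a b, z' t ≤ k t * z t) : z b ≤ z a * Real.exp (G b - G a) := by
  have hψ : ∀ t ∈ Icc a b, HasDerivWithinAt (fun t => z t * Real.exp (-(G t - G a)))
      (z' t * Real.exp (-(G t - G a)) + z t * (Real.exp (-(G t - G a)) * -(k t))) (Icc a b) t := by
    intro t ht
    exact (hz t ht).mul (((hG t ht).sub_const (G a)).neg.exp)
  have hanti : AntitoneOn (fun t => z t * Real.exp (-(G t - G a))) (Icc a b) := by
    refine antitoneOn_of_hasDerivWithinAt_nonpos (convex_Icc a b)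
      (fun t ht => (hψ t ht).continuousWithinAt)
      (fun t ht => (hψ t (interior_subset ht)).mono interior_subset) ?_
    intro t ht
    have h1 := h t (interior_subset ht)
    have h2 := Real.exp_pos (-(G t - G a))
    have h3 : z' t * Real.exp (-(G t - G a)) + z t * (Real.exp (-(G t - G a)) * -(k t)) =
        (z' t - k t * z t) * Real.exp (-(G t - G a)) := by ring
    rw [h3]
    exact mul_nonpos_of_nonpos_of_nonneg (by linarith) h2.le
  have h4 := hanti (left_mem_Icc.2 hab) (right_mem_Icc.2 hab) hab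
  simp only [sub_self, neg_zero, Real.exp_zero, mul_one] at h4
  have h5 : z b = z b * Real.exp (-(G b - G a)) * Real.exp (G b - G a) := by
    rw [mul_assoc, ← Real.exp_add]
    simp
  rw [h5]
  exact mul_le_mul_of_nonneg_right h4 (Real.exp_pos _).le

variable {E : Type} [NormedAddCommGroup E] [InnerProductSpace ℝ E]

/-- mean value inequality with a primitive of the bound -/
theorem seg {a b : ℝ} (hab : a ≤ b) {P F : ℝ → E} {k G : ℝ → ℝ}
    (hP : ∀ t ∈ Icc a b, HasDerivWithinAt P (F t) (Icc a b) t)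
    (hG : ∀ t ∈ Icc a b, HasDerivWithinAt G (k t) (Icc a b) t)
    (h : ∀ t ∈ Icc a b, ‖F t‖ ≤ k t) : ‖P b - P a‖ ≤ G b - G a := by
  have hmem : ∀ x ∈ Ico a b, Icc a b ∈ nhdsWithin x (Ici x) := by
    intro x hx
    rw [← Ici_inter_Iic]
    refine Filter.inter_mem ?_ ?_
    · exact Filter.mem_of_superset self_mem_nhdsWithin (Ici_subset_Ici.2 hx.1)
    · exact mem_nhdsWithin_of_mem_nhds (Iic_mem_nhds hx.2)
  have := image_norm_le_of_norm_deriv_right_le_deriv_boundary' (f := fun t => P t - P a)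
    (f' := F) (a := a) (b := b) (B := fun t => G t - G a) (B' := k)
    (fun t ht => ((hP t ht).sub_const (P a)).continuousWithinAt)
    (fun x hx => ((hP x (Ico_subset_Icc_self hx)).sub_const (P a)).mono_of_mem_nhdsWithin
      (hmem x hx))
    (by simp)
    (fun t ht => ((hG t ht).sub_const (G a)).continuousWithinAt)
    (fun x hx => ((hG x (Ico_subset_Icc_self hx)).sub_const (G a)).mono_of_mem_nhdsWithin
      (hmem x hx))
    (fun x hx => h x (Ico_subset_Icc_self hx))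
  exact this (right_mem_Icc.2 hab)

/-- the same with a constant bound -/
theorem seg_const {a b c : ℝ} (hab : a ≤ b) {P F : ℝ → E}
    (hP : ∀ t ∈ Icc a b, HasDerivWithinAt P (F t) (Icc a b) t)
    (h : ∀ t ∈ Icc a b, ‖F t‖ ≤ c) : ‖P b - P a‖ ≤ c * (b - a) := by
  have := seg hab hP (k := fun _ => c) (G := fun t => c * t)
    (fun t _ => by simpa using ((hasDerivAt_id t).const_mul c).hasDerivWithinAt) h
  linarith

/-- Gronwall for the pair `(X, P)` on one interval -/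
theorem gron_pair {a b α K δ : ℝ} (hab : a ≤ b) (hα : 1 ≤ α) (hK : 1 ≤ K) (hδ : 0 < δ)
    (hαδ : α * δ ≤ 1) {X P V F : ℝ → E} {m G : ℝ → ℝ}
    (hX : ∀ t ∈ Icc a b, HasDerivWithinAt X (V t) (Icc a b) t)
    (hP : ∀ t ∈ Icc a b, HasDerivWithinAt P (F t) (Icc a b) t)
    (hG : ∀ t ∈ Icc a b, HasDerivWithinAt G (m t) (Icc a b) t)
    (hm : ∀ t ∈ Icc a b, 0 ≤ m t)
    (hV : ∀ t ∈ Icc a b, ‖V t - P t‖ ≤ α * (δ * ‖P t‖ + ‖X t‖))
    (hF : ∀ t ∈ Icc a b, ‖F t‖ ≤ α * ((K + m t / δ) * ‖X t‖ + ‖V t‖)) :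
    ‖X b‖ ^ 2 + ‖P b‖ ^ 2 ≤ (‖X a‖ ^ 2 + ‖P a‖ ^ 2) *
      Real.exp ((2 + 6 * α + α * K + α ^ 2) * (b - a) + α * ((G b - G a) / δ)) := by
  have hz : ∀ t ∈ Icc a b, HasDerivWithinAt (fun t => ‖X t‖ ^ 2 + ‖P t‖ ^ 2)
      (2 * ⟪X t, V t⟫ + 2 * ⟪P t, F t⟫) (Icc a b) t := fun t ht =>
    (hX t ht).norm_sq.add (hP t ht).norm_sq
  have hG2 : ∀ t ∈ Icc a b, HasDerivWithinAt
      (fun t => (2 + 6 * α + α * K + α ^ 2) * t + α * (G t / δ))
      ((2 + 6 * α + α * K + α ^ 2) + α * (m t / δ)) (Icc a b) t := by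
    intro t ht
    have h1 := ((hasDerivAt_id t).const_mul (2 + 6 * α + α * K + α ^ 2)).hasDerivWithinAt
      (s := Icc a b)
    have h2 := ((hG t ht).div_const δ).const_mul α
    refine (h1.add h2).congr_deriv ?_
    simp
  have key := gron hab hz hG2 ?_
  · refine key.trans (le_of_eq ?_)
    congr 2
    ring
  · intro t ht
    have hv := hV t ht
    have hf := hF t ht
    have hmt := hm t ht
    have a1 : ⟪X t, V t⟫ ≤ ‖X t‖ * ‖V t‖ := real_inner_le_norm _ _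
    have a2 : ⟪P t, F t⟫ ≤ ‖P t‖ * ‖F t‖ := real_inner_le_norm _ _
    have nX := norm_nonneg (X t)
    have nP := norm_nonneg (P t)
    have nV : ‖V t‖ ≤ 2 * ‖P t‖ + α * ‖X t‖ := by
      have h1 : ‖V t‖ ≤ ‖V t - P t‖ + ‖P t‖ := norm_le_norm_sub_add _ _
      have h2 : α * δ * ‖P t‖ ≤ 1 * ‖P t‖ := by gcongr
      nlinarith
    set r := m t / δ with hr
    have hr0 : 0 ≤ r := by positivity
    have b1 : ‖X t‖ * ‖V t‖ ≤ ‖X t‖ * (2 * ‖P t‖ + α * ‖X t‖) := by gcongr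
    have b2 : ‖P t‖ * ‖F t‖ ≤ ‖P t‖ * (α * ((K + r) * ‖X t‖ + (2 * ‖P t‖ + α * ‖X t‖))) := by
      gcongr
      exact hf.trans (by gcongr)
    have c1 : 2 * (‖X t‖ * ‖P t‖) ≤ ‖X t‖ ^ 2 + ‖P t‖ ^ 2 := by
      nlinarith [sq_nonneg (‖X t‖ - ‖P t‖)]
    have c2 : (2 + α * (K + r) + α ^ 2) * (2 * (‖X t‖ * ‖P t‖)) ≤
        (2 + α * (K + r) + α ^ 2) * (‖X t‖ ^ 2 + ‖P t‖ ^ 2) := by gcongr
    have c3 : 2 * α * ‖X t‖ ^ 2 + 4 * α * ‖P t‖ ^ 2 ≤ 6 * α * (‖X t‖ ^ 2 + ‖P t‖ ^ 2) := by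
      nlinarith [mul_nonneg (by linarith : 0 ≤ α) (sq_nonneg ‖X t‖),
        mul_nonneg (by linarith : 0 ≤ α) (sq_nonneg ‖P t‖)]
    nlinarith

/-- bounds for the pair `(X, P)` at the end of an interval with `∫ m ≤ C₁ δ` -/
theorem gron_pair' {a b α K δ C₁ D : ℝ} (hab : a ≤ b) (hb4 : b - a ≤ 4) (hα : 1 ≤ α) (hK : 1 ≤ K)
    (hδ : 0 < δ) (hαδ : α * δ ≤ 1) (hC₁ : 0 ≤ C₁) (hD : 0 ≤ D) {X P V F : ℝ → E} {m G : ℝ → ℝ}
    (hX : ∀ t ∈ Icc a b, HasDerivWithinAt X (V t) (Icc a b) t)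
    (hP : ∀ t ∈ Icc a b, HasDerivWithinAt P (F t) (Icc a b) t)
    (hG : ∀ t ∈ Icc a b, HasDerivWithinAt G (m t) (Icc a b) t)
    (hm : ∀ t ∈ Icc a b, 0 ≤ m t)
    (hV : ∀ t ∈ Icc a b, ‖V t - P t‖ ≤ α * (δ * ‖P t‖ + ‖X t‖))
    (hF : ∀ t ∈ Icc a b, ‖F t‖ ≤ α * ((K + m t / δ) * ‖X t‖ + ‖V t‖))
    (hGb : G b - G a ≤ C₁ * δ) (h0 : ‖X a‖ ^ 2 + ‖P a‖ ^ 2 ≤ D ^ 2) :
    ∀ t ∈ Icc a b, ‖X t‖ ≤ D * Real.exp (4 * (2 + 6 * α + α * K + α ^ 2) + α * C₁) ∧
      ‖P t‖ ≤ D * Real.exp (4 * (2 + 6 * α + α * K + α ^ 2) + α * C₁) := by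
  intro t ht
  have hsub : Icc a t ⊆ Icc a b := Icc_subset_Icc le_rfl ht.2
  have hmono : G t ≤ G b := by
    have hanti : MonotoneOn G (Icc a b) := by
      refine monotoneOn_of_hasDerivWithinAt_nonneg (convex_Icc a b)
        (fun t ht => (hG t ht).continuousWithinAt)
        (fun t ht => (hG t (interior_subset ht)).mono interior_subset) ?_
      intro t ht
      exact hm t (interior_subset ht)
    exact hanti ht (right_mem_Icc.2 hab) ht.2
  have h1 := gron_pair ht.1 hα hK hδ hαδ (fun s hs => (hX s (hsub hs)).mono hsub)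
    (fun s hs => (hP s (hsub hs)).mono hsub) (fun s hs => (hG s (hsub hs)).mono hsub)
    (fun s hs => hm s (hsub hs)) (fun s hs => hV s (hsub hs)) (fun s hs => hF s (hsub hs))
  set L := 4 * (2 + 6 * α + α * K + α ^ 2) + α * C₁ with hL
  have hk0 : 0 ≤ 2 + 6 * α + α * K + α ^ 2 := by positivity
  have h2 : (2 + 6 * α + α * K + α ^ 2) * (t - a) + α * ((G t - G a) / δ) ≤ L := by
    have e1 : (G t - G a) / δ ≤ C₁ := by
      rw [div_le_iff₀ hδ]
      linarith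
    have e2 : (2 + 6 * α + α * K + α ^ 2) * (t - a) ≤ (2 + 6 * α + α * K + α ^ 2) * 4 := by
      apply mul_le_mul_of_nonneg_left _ hk0
      linarith [ht.2]
    have e3 : α * ((G t - G a) / δ) ≤ α * C₁ := mul_le_mul_of_nonneg_left e1 (by linarith)
    rw [hL]
    linarith
  have hL0 : 0 ≤ L := by positivity
  have h3 : ‖X t‖ ^ 2 + ‖P t‖ ^ 2 ≤ (D * Real.exp L) ^ 2 := by
    calc ‖X t‖ ^ 2 + ‖P t‖ ^ 2 ≤ _ := h1
      _ ≤ D ^ 2 * Real.exp L := by gcongr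
      _ ≤ D ^ 2 * (Real.exp L * Real.exp L) := by
          gcongr
          nlinarith [Real.one_le_exp hL0, Real.exp_pos L]
      _ = (D * Real.exp L) ^ 2 := by ring
  have hE : 0 ≤ D * Real.exp L := by positivity
  constructor
  · exact abs_le_of_sq_le_sq' (by nlinarith [sq_nonneg ‖P t‖]) hE |>.2
  · exact abs_le_of_sq_le_sq' (by nlinarith [sq_nonneg ‖X t‖]) hE |>.2

end Pool.Agent.Lib_MP_a29272_q1.DB
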