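import Pool.Agent.Lib_MP_a29272_q1.DiffCore

/-!
# The abstract difference estimate (core of piece DIFF), continued
-/

namespace Pool.Agent.Lib_MP_a29272_q1.DB

open Set Metric
open scoped RealInnerProductSpace

variable {E : Type} [NormedAddCommGroup E] [InnerProductSpace ℝ E]

/-- `‖P t - P s‖` when `‖X‖ ≤ c d τ`, `‖V‖ ≤ c d` -/
theorem P_var {s t τ α K δ C₁ c d : ℝ} (hst : s ≤ t) (hts : t - s ≤ τ) (hτ : τ ≤ 4)
    (hα : 1 ≤ α) (hK : 1 ≤ K) (hδ : 0 < δ) (hc : 0 ≤ c) (hd : 0 ≤ d)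
    {X P V F : ℝ → E} {m G : ℝ → ℝ}
    (hP : ∀ r ∈ Icc s t, HasDerivWithinAt P (F r) (Icc s t) r)
    (hG : ∀ r ∈ Icc s t, HasDerivWithinAt G (m r) (Icc s t) r)
    (hm : ∀ r ∈ Icc s t, 0 ≤ m r)
    (hF : ∀ r ∈ Icc s t, ‖F r‖ ≤ α * ((K + m r / δ) * ‖X r‖ + ‖V r‖))
    (hX : ∀ r ∈ Icc s t, ‖X r‖ ≤ c * d * τ) (hV : ∀ r ∈ Icc s t, ‖V r‖ ≤ c * d)
    (hGb : G t - G s ≤ C₁ * δ) :
    ‖P t - P s‖ ≤ α * c * (4 * K + 1 + C₁) * (τ * d) := by
  have hτ0 : 0 ≤ τ := by linarith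
  have h1 := seg hst hP (k := fun r => α * ((K + m r / δ) * (c * d * τ) + c * d))
    (G := fun r => α * (K * (c * d * τ) + c * d) * r + α * (c * d * τ) * (G r / δ))
    (by
      intro r hr
      have h1 := ((hasDerivAt_id r).const_mul (α * (K * (c * d * τ) + c * d))).hasDerivWithinAt
        (s := Icc s t)
      have h2 := ((hG r hr).div_const δ).const_mul (α * (c * d * τ))
      refine (h1.add h2).congr_deriv ?_
      ring)
    (by
      intro r hr
      refine (hF r hr).trans ?_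
      have h3 := hm r hr
      have h4 := hX r hr
      have h5 := hV r hr
      gcongr)
  refine h1.trans ?_
  have e1 : (G t - G s) / δ ≤ C₁ := by
    rw [div_le_iff₀ hδ]
    linarith
  have hcd : 0 ≤ c * d := by positivity
  have e2 : α * (K * (c * d * τ) + c * d) * (t - s) ≤ α * (K * (c * d * 4) + c * d) * τ := by
    gcongr
  have e3 : α * (c * d * τ) * ((G t - G s) / δ) ≤ α * (c * d * τ) * C₁ := by
    gcongr
  calc _ = α * (K * (c * d * τ) + c * d) * (t - s) + α * (c * d * τ) * ((G t - G s) / δ) := by ring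
    _ ≤ α * (K * (c * d * 4) + c * d) * τ + α * (c * d * τ) * C₁ := add_le_add e2 e3
    _ = _ := by ring

theorem core (α K C₁ : ℝ) (hα : 1 ≤ α) (hK : 1 ≤ K) (hC₁ : 1 ≤ C₁) : ∃ C : ℝ, 0 < C ∧
    ∀ (δ T a b : ℝ), 0 < δ → δ ≤ 1 → α * δ ≤ 1 → 0 ≤ a → a ≤ b → b ≤ T → T ≤ 4 →
      a ≤ C₁ * √δ → T - b ≤ C₁ * √δ → ∀ (m G : ℝ → ℝ) (X P V F : ℝ → E),
      (∀ t ∈ Icc 0 T, HasDerivWithinAt G (m t) (Icc 0 T) t) → (∀ t ∈ Icc 0 T, 0 ≤ m t) →
      G a - G 0 ≤ C₁ * δ → G T - G b ≤ C₁ * δ →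
      (∀ t ∈ Icc 0 T, HasDerivWithinAt X (V t) (Icc 0 T) t) →
      (∀ t ∈ Icc 0 T, HasDerivWithinAt P (F t) (Icc 0 T) t) →
      X 0 = 0 →
      (∀ t ∈ Icc 0 T, ‖V t - P t‖ ≤ α * (δ * ‖P t‖ + ‖X t‖)) →
      (∀ t ∈ Icc 0 T, ‖F t‖ ≤ α * ((K + m t / δ) * ‖X t‖ + ‖V t‖)) →
      (a < b → ∀ t ∈ Icc a b, V t = P t ∧ F t = 0) →
      ‖X T - T • P 0‖ ≤ C * √δ * (T * ‖P 0‖) := by
  set L := 4 * (2 + 6 * α + α * K + α ^ 2) + α * C₁ with hL
  have hL0 : 0 ≤ L := by positivity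
  set c₁ := Real.exp L with hc₁
  have hc₁1 : 1 ≤ c₁ := Real.one_le_exp hL0
  set c₃ := 6 * c₁ * c₁ with hc₃
  have hc₃1 : 1 ≤ c₃ := by nlinarith
  set c₄ := (2 + α) * c₃ with hc₄
  have hc₄0 : 0 < c₄ := by positivity
  set c₅ := α * c₄ * (4 * K + 1 + C₁) with hc₅
  have hc₅0 : 0 < c₅ := by positivity
  refine ⟨α * c₃ + (α * c₄ + c₅) * C₁ + c₅ * C₁ + (α * c₃ + C₁ * (α * c₄ + 2 * c₅)),
    by positivity, ?_⟩
  intro δ T a b hδ hδ1 hαδ ha hab hbT hT haδ hbδ m G X P V F hG hm hGa hGb hX hP hX0 hV hF hoff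
  set d := ‖P 0‖ with hd
  have hd0 : 0 ≤ d := norm_nonneg _
  have hT0 : 0 ≤ T := ha.trans (hab.trans hbT)
  have haT : a ≤ T := hab.trans hbT
  have hmono : MonotoneOn G (Icc 0 T) := by
    refine monotoneOn_of_hasDerivWithinAt_nonneg (convex_Icc 0 T)
      (fun t ht => (hG t ht).continuousWithinAt)
      (fun t ht => (hG t (interior_subset ht)).mono interior_subset) ?_
    intro t ht
    exact hm t (interior_subset ht)
  have hs : √δ * √δ = δ := Real.mul_self_sqrt hδ.le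
  have hs0 : 0 < √δ := Real.sqrt_pos.2 hδ
  have hs1 : √δ ≤ 1 := Real.sqrt_le_one.2 hδ1
  have hδs : δ ≤ √δ := by nlinarith
  -- phase 1
  have s1 : Icc 0 a ⊆ Icc 0 T := Icc_subset_Icc le_rfl haT
  have s2 : Icc a b ⊆ Icc 0 T := Icc_subset_Icc ha hbT
  have s3 : Icc b T ⊆ Icc 0 T := Icc_subset_Icc (ha.trans hab) le_rfl
  have ph1 : ∀ t ∈ Icc 0 a, ‖X t‖ ≤ d * c₁ ∧ ‖P t‖ ≤ d * c₁ :=
    gron_pair' ha (by linarith) hα hK hδ hαδ (by linarith) hd0
      (fun s hs => (hX s (s1 hs)).mono s1) (fun s hs => (hP s (s1 hs)).mono s1)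
      (fun s hs => (hG s (s1 hs)).mono s1) (fun s hs => hm s (s1 hs)) (fun s hs => hV s (s1 hs))
      (fun s hs => hF s (s1 hs)) hGa (by rw [hX0, norm_zero]; nlinarith)
  -- phase 2
  have hPab : ∀ t ∈ Icc a b, P t = P a := by
    intro t ht
    rcases eq_or_lt_of_le hab with h | h
    · have : t = a := le_antisymm (ht.2.trans h.ge) ht.1
      rw [this]
    · have hsub : Icc a t ⊆ Icc a b := Icc_subset_Icc le_rfl ht.2
      have := seg_const (P := P) (F := F) (c := 0) ht.1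
        (fun s hs => (hP s (s2 (hsub hs))).mono (hsub.trans s2))
        (fun s hs => by rw [(hoff h s (hsub hs)).2, norm_zero])
      rw [zero_mul] at this
      exact sub_eq_zero.1 (norm_le_zero_iff.1 this)
  have haa : a ∈ Icc 0 a := ⟨ha, le_rfl⟩
  have hXab : ∀ t ∈ Icc a b, ‖X t‖ ≤ 5 * (d * c₁) := by
    intro t ht
    have hXa := (ph1 a haa).1
    have hPa := (ph1 a haa).2
    have hdc : 0 ≤ d * c₁ := by positivity
    rcases eq_or_lt_of_le hab with h | h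
    · have : t = a := le_antisymm (ht.2.trans h.ge) ht.1
      rw [this]
      linarith
    · have hsub : Icc a t ⊆ Icc a b := Icc_subset_Icc le_rfl ht.2
      have h1 := seg_const (P := X) (F := V) (c := d * c₁) ht.1
        (fun s hs => (hX s (s2 (hsub hs))).mono (hsub.trans s2))
        (fun s hs => by rw [(hoff h s (hsub hs)).1, hPab s (hsub hs)]; exact hPa)
      have h2 : ‖X t‖ ≤ ‖X t - X a‖ + ‖X a‖ := norm_le_norm_sub_add _ _
      have h3 : d * c₁ * (t - a) ≤ d * c₁ * 4 := by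
        gcongr
        linarith [ht.2]
      linarith
  -- phase 3
  have hbb : b ∈ Icc a b := ⟨hab, le_rfl⟩
  have ph3 : ∀ t ∈ Icc b T, ‖X t‖ ≤ (6 * (d * c₁)) * c₁ ∧ ‖P t‖ ≤ (6 * (d * c₁)) * c₁ := by
    refine gron_pair' hbT (by linarith) hα hK hδ hαδ (by linarith) (by positivity)
      (fun s hs => (hX s (s3 hs)).mono s3) (fun s hs => (hP s (s3 hs)).mono s3)
      (fun s hs => (hG s (s3 hs)).mono s3) (fun s hs => hm s (s3 hs)) (fun s hs => hV s (s3 hs))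
      (fun s hs => hF s (s3 hs)) hGb ?_
    have h1 := hXab b hbb
    have h2 : ‖P b‖ ≤ d * c₁ := by
      rw [hPab b hbb]
      exact (ph1 a haa).2
    have h3 : ‖X b‖ ^ 2 ≤ (5 * (d * c₁)) ^ 2 := by gcongr
    have h4 : ‖P b‖ ^ 2 ≤ (d * c₁) ^ 2 := by gcongr
    nlinarith [sq_nonneg (d * c₁)]
  -- global bounds
  have hall : ∀ t ∈ Icc 0 T, ‖X t‖ ≤ c₃ * d ∧ ‖P t‖ ≤ c₃ * d := by
    intro t ht
    have hdc : 0 ≤ d * c₁ := by positivity
    have k1 : d * c₁ ≤ c₃ * d := by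
      rw [hc₃]
      nlinarith
    have k2 : 5 * (d * c₁) ≤ c₃ * d := by
      rw [hc₃]
      nlinarith
    rcases le_total t a with h | h
    · have := ph1 t ⟨ht.1, h⟩
      exact ⟨this.1.trans k1, this.2.trans k1⟩
    · rcases le_total t b with h' | h'
      · refine ⟨(hXab t ⟨h, h'⟩).trans k2, ?_⟩
        rw [hPab t ⟨h, h'⟩]
        exact (ph1 a haa).2.trans k1
      · have := ph3 t ⟨h', ht.2⟩
        have e : (6 * (d * c₁)) * c₁ = c₃ * d := by rw [hc₃]; ring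
        rw [e] at this
        exact this
  have hVb : ∀ t ∈ Icc 0 T, ‖V t‖ ≤ c₄ * d := by
    intro t ht
    have h1 : ‖V t‖ ≤ ‖V t - P t‖ + ‖P t‖ := norm_le_norm_sub_add _ _
    have h2 := hV t ht
    obtain ⟨h3, h4⟩ := hall t ht
    have h5 : α * δ * ‖P t‖ ≤ 1 * ‖P t‖ := by gcongr
    have h6 : α * ‖X t‖ ≤ α * (c₃ * d) := by gcongr
    rw [hc₄]
    linarith
  have hXt : ∀ t ∈ Icc 0 T, ‖X t‖ ≤ c₄ * d * t := by
    intro t ht
    have hsub : Icc 0 t ⊆ Icc 0 T := Icc_subset_Icc le_rfl ht.2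
    have h1 := seg_const (P := X) (F := V) (c := c₄ * d) ht.1
      (fun s hs => (hX s (hsub hs)).mono hsub) (fun s hs => hVb s (hsub hs))
    rwa [hX0, sub_zero, sub_zero] at h1
  have hcd : 0 ≤ c₄ * d := by positivity
  have hP1 : ∀ t ∈ Icc 0 a, ‖P t - P 0‖ ≤ c₅ * (a * d) := by
    intro t ht
    have hsub : Icc 0 t ⊆ Icc 0 T := Icc_subset_Icc le_rfl (ht.2.trans haT)
    refine P_var (X := X) (V := V) (F := F) (m := m) (G := G) (δ := δ) ht.1
      (by linarith [ht.2]) (by linarith) hα hK hδ hc₄0.le hd0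
      (fun s hs => (hP s (hsub hs)).mono hsub) (fun s hs => (hG s (hsub hs)).mono hsub)
      (fun s hs => hm s (hsub hs)) (fun s hs => hF s (hsub hs)) ?_
      (fun s hs => hVb s (hsub hs)) ?_
    · intro s hs
      refine (hXt s (hsub hs)).trans ?_
      gcongr
      exact hs.2.trans ht.2
    · have := hmono (s1 ht) (s1 haa) ht.2
      linarith
  have hP2 : ∀ t ∈ Icc a b, ‖P t - P 0‖ ≤ c₅ * (a * d) := by
    intro t ht
    rw [hPab t ht]
    exact hP1 a haa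
  have hP3 : ∀ t ∈ Icc b T, ‖P t - P 0‖ ≤ 2 * c₅ * (T * d) := by
    intro t ht
    have hsub : Icc b t ⊆ Icc 0 T := Icc_subset_Icc (ha.trans hab) ht.2
    have h1 : ‖P t - P b‖ ≤ c₅ * (T * d) := by
      refine P_var (X := X) (V := V) (F := F) (m := m) (G := G) (δ := δ) ht.1
        (by linarith [ht.2]) hT hα hK hδ hc₄0.le hd0
        (fun s hs => (hP s (hsub hs)).mono hsub) (fun s hs => (hG s (hsub hs)).mono hsub)
        (fun s hs => hm s (hsub hs)) (fun s hs => hF s (hsub hs)) ?_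
        (fun s hs => hVb s (hsub hs)) ?_
      · intro s hs
        refine (hXt s (hsub hs)).trans ?_
        gcongr
        exact (hsub hs).2
      · have := hmono (s3 ht) ⟨hT0, le_rfl⟩ ht.2
        linarith
    have h2 := hP2 b hbb
    have h3 : c₅ * (a * d) ≤ c₅ * (T * d) := by gcongr
    have h4 : ‖P t - P 0‖ ≤ ‖P t - P b‖ + ‖P b - P 0‖ := norm_sub_le_norm_sub_add_norm_sub _ _ _
    linarith
  -- the function `W t = X t - t • P 0`
  have hW : ∀ t ∈ Icc 0 T, HasDerivWithinAt (fun t => X t - t • P 0) (V t - P 0) (Icc 0 T) t := by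
    intro t ht
    have h1 := ((hasDerivAt_id t).smul_const (P 0)).hasDerivWithinAt (s := Icc 0 T)
    refine ((hX t ht).sub h1).congr_deriv ?_
    simp
  have hVP : ∀ t, ‖V t - P 0‖ ≤ ‖V t - P t‖ + ‖P t - P 0‖ := fun t =>
    norm_sub_le_norm_sub_add_norm_sub _ _ _
  have w1 : ‖(X a - a • P 0) - (X 0 - (0 : ℝ) • P 0)‖ ≤
      (α * c₃ + (α * c₄ + c₅) * C₁) * √δ * d * (a - 0) := by
    refine seg_const (P := fun t => X t - t • P 0) (F := fun t => V t - P 0) ha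
      (fun s hs => (hW s (s1 hs)).mono s1) ?_
    intro t ht
    obtain ⟨h3, h4⟩ := hall t (s1 ht)
    have h1 := hV t (s1 ht)
    have h2 := hP1 t ht
    have h5 : ‖X t‖ ≤ c₄ * d * a := (hXt t (s1 ht)).trans (by gcongr; exact ht.2)
    have h6 : α * (δ * ‖P t‖ + ‖X t‖) ≤ α * (√δ * (c₃ * d) + c₄ * d * (C₁ * √δ)) := by
      gcongr
      exact h5.trans (by gcongr)
    have h7 : c₅ * (a * d) ≤ c₅ * ((C₁ * √δ) * d) := by gcongr
    have h8 := hVP t
    calc ‖V t - P 0‖ ≤ α * (√δ * (c₃ * d) + c₄ * d * (C₁ * √δ)) + c₅ * ((C₁ * √δ) * d) := by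
          linarith
      _ = _ := by ring
  have w2 : ‖(X b - b • P 0) - (X a - a • P 0)‖ ≤ c₅ * C₁ * √δ * d * (b - a) := by
    rcases eq_or_lt_of_le hab with h | h
    · rw [← h]
      simp
    · refine seg_const (P := fun t => X t - t • P 0) (F := fun t => V t - P 0) hab
        (fun s hs => (hW s (s2 hs)).mono s2) ?_
      intro t ht
      rw [(hoff h t ht).1]
      refine (hP2 t ht).trans ?_
      have h7 : c₅ * (a * d) ≤ c₅ * ((C₁ * √δ) * d) := by gcongr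
      linarith
  have w3 : ‖(X T - T • P 0) - (X b - b • P 0)‖ ≤
      (α * c₃ * δ + (α * c₄ + 2 * c₅) * T) * d * (T - b) := by
    refine seg_const (P := fun t => X t - t • P 0) (F := fun t => V t - P 0) hbT
      (fun s hs => (hW s (s3 hs)).mono s3) ?_
    intro t ht
    obtain ⟨h3, h4⟩ := hall t (s3 ht)
    have h1 := hV t (s3 ht)
    have h2 := hP3 t ht
    have h5 : ‖X t‖ ≤ c₄ * d * T := (hXt t (s3 ht)).trans (by gcongr; exact ht.2)
    have h6 : α * (δ * ‖P t‖ + ‖X t‖) ≤ α * (δ * (c₃ * d) + c₄ * d * T) := by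
      gcongr
    have h8 := hVP t
    calc ‖V t - P 0‖ ≤ α * (δ * (c₃ * d) + c₄ * d * T) + 2 * c₅ * (T * d) := by
          linarith
      _ = _ := by ring
  have w1' : (α * c₃ + (α * c₄ + c₅) * C₁) * √δ * d * (a - 0) ≤
      (α * c₃ + (α * c₄ + c₅) * C₁) * √δ * d * T := by
    gcongr
    linarith
  have w2' : c₅ * C₁ * √δ * d * (b - a) ≤ c₅ * C₁ * √δ * d * T := by
    gcongr
    linarith
  have w3' : (α * c₃ * δ + (α * c₄ + 2 * c₅) * T) * d * (T - b) ≤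
      (α * c₃ + C₁ * (α * c₄ + 2 * c₅)) * √δ * d * T := by
    have hTb : 0 ≤ T - b := by linarith
    have e1 : α * c₃ * δ * d * (T - b) ≤ α * c₃ * √δ * d * T := by
      gcongr
      linarith
    have e2 : (α * c₄ + 2 * c₅) * T * d * (T - b) ≤ (α * c₄ + 2 * c₅) * T * d * (C₁ * √δ) := by
      gcongr
    linarith
  have hfin : X T - T • P 0 = ((X a - a • P 0) - (X 0 - (0 : ℝ) • P 0)) +
      ((X b - b • P 0) - (X a - a • P 0)) + ((X T - T • P 0) - (X b - b • P 0)) := by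
    rw [hX0]
    module
  rw [hfin]
  have t1 := norm_add_le (((X a - a • P 0) - (X 0 - (0 : ℝ) • P 0)) +
      ((X b - b • P 0) - (X a - a • P 0))) ((X T - T • P 0) - (X b - b • P 0))
  have t2 := norm_add_le ((X a - a • P 0) - (X 0 - (0 : ℝ) • P 0))
      ((X b - b • P 0) - (X a - a • P 0))
  linarith

end Pool.Agent.Lib_MP_a29272_q1.DB
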