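import Pool.Agent.Lib_MP_a29272_q1.Apriori
import Pool.Agent.Lib_MP_a29272_q1.Lip
import Pool.Agent.Lib_MP_a29272_q1.DiffCoreB

/-! Piece DIFF: the difference estimate for two geodesics from the same point. -/

namespace Pool.Agent.Lib_MP_a29272_q1

open Set Metric
open scoped ContDiff RealInnerProductSpace

section

variable {E : Type} [NormedAddCommGroup E] [InnerProductSpace ℝ E]

theorem Shift.norm_le_two {A δ : ℝ} {Θ : E → E} (h : Shift A δ Θ) (hA : 1 ≤ A) (hδ : 0 < δ)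
    (hδ1 : 100 * A * δ ≤ 1) {x v : E} (hv : gT Θ x v v ≤ 1) : ‖v‖ ≤ 2 := by
  have hδ2 : δ ≤ 1 := by nlinarith
  have h1 := (abs_le.1 (h.mom_sub_le hA hδ hδ2 x v).2.1).1
  have h2 : 4 * A * δ * ‖v‖ ^ 2 ≤ 1 / 2 * ‖v‖ ^ 2 := by
    gcongr
    linarith
  nlinarith [norm_nonneg v]

omit [InnerProductSpace ℝ E] in
/-- if `x` is far from the shell and `y` close to `x`, then `y` is off the shell -/
theorem off_of_close {K δ : ℝ} (hK : 1 ≤ K) (hδ : 0 < δ) (hKδ : K * δ ≤ 1 / 1000) {x y : E}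
    (hx : (4 * K + 4) * δ ≤ |‖x‖ ^ 2 - 1|) (hxy : ‖x - y‖ ≤ K * δ) :
    δ / 2 < |‖y‖ ^ 2 - 1| := by
  have hδ1 : δ ≤ 1 / 1000 := by nlinarith
  have h1 : |‖x‖ - ‖y‖| ≤ K * δ := (abs_norm_sub_norm_le x y).trans hxy
  obtain ⟨h2, h3⟩ := abs_le.1 h1
  have hx0 := norm_nonneg x
  have hy0 := norm_nonneg y
  rcases le_total ‖x‖ (3 / 2) with h | h
  · have h4 : |‖x‖ ^ 2 - ‖y‖ ^ 2| ≤ 4 * (K * δ) := by
      have e : ‖x‖ ^ 2 - ‖y‖ ^ 2 = (‖x‖ - ‖y‖) * (‖x‖ + ‖y‖) := by ring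
      rw [e, abs_mul, abs_of_nonneg (by positivity : 0 ≤ ‖x‖ + ‖y‖)]
      have : ‖x‖ + ‖y‖ ≤ 4 := by linarith
      calc |‖x‖ - ‖y‖| * (‖x‖ + ‖y‖) ≤ (K * δ) * 4 := by gcongr
        _ = _ := by ring
    have h5 : |‖x‖ ^ 2 - 1| ≤ |‖y‖ ^ 2 - 1| + |‖x‖ ^ 2 - ‖y‖ ^ 2| := by
      have e : ‖x‖ ^ 2 - 1 = (‖y‖ ^ 2 - 1) + (‖x‖ ^ 2 - ‖y‖ ^ 2) := by ring
      rw [e]
      exact abs_add_le _ _
    linarith
  · have h4 : 7 / 5 ≤ ‖y‖ := by linarith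
    have h5 : 1 / 2 ≤ ‖y‖ ^ 2 - 1 := by nlinarith
    have h6 := le_abs_self (‖y‖ ^ 2 - 1)
    linarith

end

variable {E : Type} [NormedAddCommGroup E] [InnerProductSpace ℝ E] [FiniteDimensional ℝ E]

/-- PIECE DIFF: step (5). Off the times with `|‖x t‖² - 1| ≤ K' δ`, `K' = 4 K + 4`, both `Θ (x t)`
and `Θ (y t)` vanish, with their derivatives; `planar` for `x` with `K'`. -/
theorem diff_est' (A K : ℝ) (hA : 1 ≤ A) (hK : 1 ≤ K) : ∃ C δ₀ : ℝ, 0 < C ∧ 0 < δ₀ ∧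
    ∀ δ, 0 < δ → δ ≤ δ₀ → ∀ Θ : E → E, Shift A δ Θ → ∀ T, 0 ≤ T → T ≤ 4 →
      ∀ x v y w : ℝ → E, HamSol Θ T x v → HamSol Θ T y w → x 0 = y 0 →
        gT Θ (x 0) (v 0) (v 0) = 1 → gT Θ (y 0) (w 0) (w 0) ≤ 1 → ‖x 0‖ ^ 2 ≤ 1 + δ →
        ‖x T‖ ^ 2 ≤ 1 + K * δ → (∀ t ∈ Icc 0 T, ‖x t - y t‖ ≤ K * δ) →
          ‖x T - y T - T • (v 0 - w 0)‖ ≤ C * √δ * (T * ‖v 0 - w 0‖) := by
  obtain ⟨C₁, δ₁, hC₁, hδ₁, hpl⟩ := planar (4 * A) (4 * K + 4) (by linarith) (by linarith)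
  obtain ⟨C₂, hC₂, hcore⟩ := DB.core (E := E) (100 * A) K (C₁ + 1) (by linarith) hK (by linarith)
  have hAK : 0 < 1000 * A * K := by positivity
  refine ⟨2 * C₂ + 200 * A, min δ₁ (1 / (1000 * A * K)), by positivity,
    lt_min hδ₁ (by positivity), ?_⟩
  intro δ hδ hδ₀ Θ hΘ T hT hT4 x v y w hx hy hxy0 hgv hgw hx0 hxT hclose
  have hδδ₁ : δ ≤ δ₁ := hδ₀.trans (min_le_left _ _)
  have hAKδ : δ * (1000 * A * K) ≤ 1 := by
    have := hδ₀.trans (min_le_right _ _)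
    rwa [le_div_iff₀ hAK] at this
  have hAδ : 1000 * (A * δ) ≤ 1 := by
    have h1 : A * δ ≤ A * δ * K := le_mul_of_one_le_right (by positivity) hK
    linarith
  have hKδ : K * δ ≤ 1 / 1000 := by
    have h1 : K * δ ≤ K * δ * A := le_mul_of_one_le_right (by positivity) hA
    linarith
  have hδ1 : δ ≤ 1 / 1000 := by
    have h1 : δ ≤ δ * K := le_mul_of_one_le_right hδ.le hK
    linarith
  have h100 : 100 * A * δ ≤ 1 := by linarith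
  have hadm : Adm Θ := hΘ.adm (by linarith) hδ.le (by linarith) (by linarith)
  have hv : ∀ t ∈ Icc 0 T, ‖v t‖ ≤ 2 := fun t ht =>
    hΘ.norm_le_two hA hδ h100 (x := x t) (by rw [hx.energy hadm t ht, hgv])
  have hw : ∀ t ∈ Icc 0 T, ‖w t‖ ≤ 2 := fun t ht =>
    hΘ.norm_le_two hA hδ h100 (x := y t) (by rw [hy.energy hadm t ht]; exact hgw)
  have hP := hx.planar hΘ hA hδ (by linarith) hgv
  obtain ⟨a, b, ha, hab, hbT, haδ, hbδ, hoff, hIa, hIb⟩ := hpl δ T hδ hδδ₁ hT _ _ _ hP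
    (by
      have : δ * 1 ≤ (4 * K + 4) * δ := by nlinarith
      linarith)
    (by
      have : K * δ ≤ (4 * K + 4) * δ := by nlinarith
      linarith)
  have hcm : ContinuousOn (fun t => |⟪x t, v t⟫|) (Icc 0 T) := hP.cw.abs
  obtain ⟨G, hG, hGi⟩ := DB.exists_primitive hT hcm
  have hs0 : 0 ≤ √δ := Real.sqrt_nonneg _
  have hcl : a < b → ∀ t ∈ Icc a b, (4 * K + 4) * δ ≤ |‖x t‖ ^ 2 - 1| := by
    intro hlt t ht
    have hsub : Ioo a b ⊆ Icc 0 T := fun s hs => ⟨ha.trans hs.1.le, hs.2.le.trans hbT⟩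
    have htT : t ∈ Icc 0 T := ⟨ha.trans ht.1, ht.2.trans hbT⟩
    have htc : t ∈ closure (Ioo a b) := by
      rw [closure_Ioo hlt.ne]
      exact ht
    have hcx : ContinuousWithinAt x (Ioo a b) t :=
      (hx.dx t htT).continuousWithinAt.mono hsub
    refine ContinuousWithinAt.closure_le htc continuousWithinAt_const
      ((hcx.norm.pow 2).sub continuousWithinAt_const).abs ?_
    intro s hs
    have := hoff s hs
    rw [mul_div_cancel₀ _ (two_ne_zero' ℝ)] at this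
    exact this.le
  have hfin := hcore δ T a b hδ (by linarith) h100 ha hab hbT hT4
    (haδ.trans (by nlinarith)) (hbδ.trans (by nlinarith))
    (fun t => |⟪x t, v t⟫|) G (fun t => x t - y t)
    (fun t => mom Θ (x t) (v t) - mom Θ (y t) (w t)) (fun t => v t - w t)
    (fun t => force Θ (x t) (v t) - force Θ (y t) (w t)) hG (fun t _ => abs_nonneg _)
    (by rw [hGi 0 a le_rfl ha (hab.trans hbT)]; nlinarith)
    (by rw [hGi b T (ha.trans hab) hbT le_rfl]; nlinarith)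
    (fun t ht => (hx.dx t ht).sub (hy.dx t ht)) (fun t ht => (hx.dp t ht).sub (hy.dp t ht))
    (by simp [hxy0])
    (fun t ht => hΘ.vel_diff_le hA hδ h100 (hv t ht) (hw t ht))
    (fun t ht => hΘ.force_diff_le hA hδ h100 hK (by linarith) (hv t ht) (hw t ht)
      (hclose t ht))
    (by
      intro hlt t ht
      have htT : t ∈ Icc 0 T := ⟨ha.trans ht.1, ht.2.trans hbT⟩
      have h1 := hcl hlt t ht
      have h2 : δ / 2 < |‖x t‖ ^ 2 - 1| := by nlinarith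
      have h3 : δ / 2 < |‖y t‖ ^ 2 - 1| := off_of_close hK hδ hKδ h1 (hclose t htT)
      rw [mom_eq_of_off hΘ h2, mom_eq_of_off hΘ h3, force_eq_zero_of_off hΘ h2,
        force_eq_zero_of_off hΘ h3]
      simp)
  have h0T : (0 : ℝ) ∈ Icc 0 T := ⟨le_rfl, hT⟩
  set V₀ := v 0 - w 0 with hV₀
  set P₀ := mom Θ (x 0) (v 0) - mom Θ (y 0) (w 0) with hP₀
  have hd : ‖V₀ - P₀‖ ≤ 100 * A * δ * ‖P₀‖ := by
    have := hΘ.vel_diff_le hA hδ h100 (x := x 0) (y := y 0) (hv 0 h0T) (hw 0 h0T)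
    have hz : ‖x 0 - y 0‖ = 0 := by rw [hxy0, sub_self, norm_zero]
    rw [hz, add_zero] at this
    have e2 : 100 * A * (δ * ‖P₀‖) = 100 * A * δ * ‖P₀‖ := by ring
    rw [← e2]
    exact this
  have hPV : ‖P₀‖ ≤ 2 * ‖V₀‖ := by
    have h1 : ‖P₀‖ ≤ ‖P₀ - V₀‖ + ‖V₀‖ := norm_le_norm_sub_add _ _
    rw [norm_sub_rev P₀ V₀] at h1
    have h2 : 100 * A * δ * ‖P₀‖ ≤ 1 / 2 * ‖P₀‖ := by
      gcongr
      linarith
    linarith
  have hδs : δ ≤ √δ := by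
    have h1 : √δ * √δ = δ := Real.mul_self_sqrt hδ.le
    have h2 : √δ ≤ 1 := Real.sqrt_le_one.2 (by linarith)
    nlinarith
  have e : x T - y T - T • V₀ = (x T - y T - T • P₀) - T • (V₀ - P₀) := by module
  rw [e]
  refine (norm_sub_le _ _).trans ?_
  rw [norm_smul, Real.norm_of_nonneg hT]
  have h5 : C₂ * √δ * (T * ‖P₀‖) ≤ C₂ * √δ * (T * (2 * ‖V₀‖)) := by gcongr
  have h6 : T * ‖V₀ - P₀‖ ≤ T * (100 * A * √δ * (2 * ‖V₀‖)) := by
    gcongr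
    refine hd.trans ?_
    gcongr
  linarith

end Pool.Agent.Lib_MP_a29272_q1
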