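import Pool.Agent.Lib_MP_a29272_q1.Defs

/-!
# Pointwise comparison of two phase points

For two points `(x₁, v₁)`, `(x₂, v₂)` of the tangent bundle, the difference `Δv` of the velocities
is compared with the difference `Δp` of the momenta, and the difference of the forces is bounded.
-/

namespace Pool.Agent.Lib_MP_a29272_q1

open Set Metric
open scoped ContDiff RealInnerProductSpace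

section

variable {E : Type} [NormedAddCommGroup E] [InnerProductSpace ℝ E]

theorem Shift.dist_le {A δ : ℝ} {Θ : E → E} (h : Shift A δ Θ) (x y : E) :
    ‖Θ x - Θ y‖ ≤ A * ‖x - y‖ := by
  refine convex_univ.norm_image_sub_le_of_norm_fderiv_le (𝕜 := ℝ) (f := Θ) (C := A)
    (fun z _ => (h.smooth.differentiable (by simp)) z) (fun z _ => h.bd1 z) (mem_univ y)
    (mem_univ x)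

theorem Shift.fderiv_dist_le {A δ : ℝ} {Θ : E → E} (h : Shift A δ Θ) (x y : E) :
    ‖fderiv ℝ Θ x - fderiv ℝ Θ y‖ ≤ A / δ * ‖x - y‖ := by
  have h1 : ContDiff ℝ 1 (fderiv ℝ Θ) := h.smooth.fderiv_right (WithTop.coe_le_coe.2 le_top)
  refine convex_univ.norm_image_sub_le_of_norm_fderiv_le (𝕜 := ℝ) (f := fderiv ℝ Θ) (C := A / δ)
    (fun z _ => (h1.differentiable (by simp)) z) (fun z _ => h.bd2 z) (mem_univ y)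
    (mem_univ x)

theorem Shift.A_nonneg {A δ : ℝ} {Θ : E → E} (h : Shift A δ Θ) : 0 ≤ A :=
  (norm_nonneg _).trans (h.bd1 0)

/-- velocity difference against momentum difference -/
theorem norm_dv_sub_dp_le {A δ : ℝ} {Θ : E → E} (h : Shift A δ Θ) (hδ : 0 ≤ δ) (hδ1 : δ ≤ 1)
    {x₁ x₂ v₁ v₂ : E} (hx₁ : ‖x₁‖ ≤ 2) (hx₂ : ‖x₂‖ ≤ 2) (hv₂ : ‖v₂‖ ≤ 2) :
    ‖(v₁ - v₂) - (mom Θ x₁ v₁ - mom Θ x₂ v₂)‖ ≤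
      4 * (A * δ) * ‖v₁ - v₂‖ + 12 * A * ‖x₁ - x₂‖ := by
  have hA := h.A_nonneg
  have e : (v₁ - v₂) - (mom Θ x₁ v₁ - mom Θ x₂ v₂) =
      -(⟪x₁, v₁ - v₂⟫ • Θ x₁ + ⟪Θ x₁, v₁ - v₂⟫ • x₁ + ⟪x₁ - x₂, v₂⟫ • Θ x₁
        + ⟪x₂, v₂⟫ • (Θ x₁ - Θ x₂) + ⟪Θ x₁ - Θ x₂, v₂⟫ • x₁ + ⟪Θ x₂, v₂⟫ • (x₁ - x₂)) := by
    simp only [mom, inner_sub_left, inner_sub_right]
    module
  rw [e, norm_neg]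
  have hb : ∀ a b c : E, ‖⟪a, b⟫ • c‖ ≤ ‖a‖ * ‖b‖ * ‖c‖ := by
    intro a b c
    rw [norm_smul]
    gcongr
    exact norm_inner_le_norm a b
  have hΘ₁ := h.bd0 x₁
  have hΘ₂ := h.bd0 x₂
  have hd := h.dist_le x₁ x₂
  have n1 : ‖⟪x₁, v₁ - v₂⟫ • Θ x₁‖ ≤ 2 * ‖v₁ - v₂‖ * (A * δ) :=
    (hb _ _ _).trans (by gcongr)
  have n2 : ‖⟪Θ x₁, v₁ - v₂⟫ • x₁‖ ≤ (A * δ) * ‖v₁ - v₂‖ * 2 :=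
    (hb _ _ _).trans (by gcongr)
  have n3 : ‖⟪x₁ - x₂, v₂⟫ • Θ x₁‖ ≤ ‖x₁ - x₂‖ * 2 * (A * 1) :=
    (hb _ _ _).trans (by gcongr; exact hΘ₁.trans (by gcongr))
  have n4 : ‖⟪x₂, v₂⟫ • (Θ x₁ - Θ x₂)‖ ≤ 2 * 2 * (A * ‖x₁ - x₂‖) :=
    (hb _ _ _).trans (by gcongr)
  have n5 : ‖⟪Θ x₁ - Θ x₂, v₂⟫ • x₁‖ ≤ (A * ‖x₁ - x₂‖) * 2 * 2 :=
    (hb _ _ _).trans (by gcongr)
  have n6 : ‖⟪Θ x₂, v₂⟫ • (x₁ - x₂)‖ ≤ (A * 1) * 2 * ‖x₁ - x₂‖ :=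
    (hb _ _ _).trans (by gcongr; exact hΘ₂.trans (by gcongr))
  have t1 := norm_add_le (⟪x₁, v₁ - v₂⟫ • Θ x₁ + ⟪Θ x₁, v₁ - v₂⟫ • x₁ + ⟪x₁ - x₂, v₂⟫ • Θ x₁
        + ⟪x₂, v₂⟫ • (Θ x₁ - Θ x₂) + ⟪Θ x₁ - Θ x₂, v₂⟫ • x₁) (⟪Θ x₂, v₂⟫ • (x₁ - x₂))
  have t2 := norm_add_le (⟪x₁, v₁ - v₂⟫ • Θ x₁ + ⟪Θ x₁, v₁ - v₂⟫ • x₁ + ⟪x₁ - x₂, v₂⟫ • Θ x₁
        + ⟪x₂, v₂⟫ • (Θ x₁ - Θ x₂)) (⟪Θ x₁ - Θ x₂, v₂⟫ • x₁)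
  have t3 := norm_add_le (⟪x₁, v₁ - v₂⟫ • Θ x₁ + ⟪Θ x₁, v₁ - v₂⟫ • x₁ + ⟪x₁ - x₂, v₂⟫ • Θ x₁)
        (⟪x₂, v₂⟫ • (Θ x₁ - Θ x₂))
  have t4 := norm_add_le (⟪x₁, v₁ - v₂⟫ • Θ x₁ + ⟪Θ x₁, v₁ - v₂⟫ • x₁) (⟪x₁ - x₂, v₂⟫ • Θ x₁)
  have t5 := norm_add_le (⟪x₁, v₁ - v₂⟫ • Θ x₁) (⟪Θ x₁, v₁ - v₂⟫ • x₁)
  linarith

/-- the same bound with the momentum difference on the right-hand side -/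
theorem norm_dv_sub_dp_le' {A δ : ℝ} {Θ : E → E} (h : Shift A δ Θ) (hδ : 0 ≤ δ) (hδ1 : δ ≤ 1)
    (hAδ : 8 * (A * δ) ≤ 1) {x₁ x₂ v₁ v₂ : E} (hx₁ : ‖x₁‖ ≤ 2) (hx₂ : ‖x₂‖ ≤ 2)
    (hv₂ : ‖v₂‖ ≤ 2) :
    ‖(v₁ - v₂) - (mom Θ x₁ v₁ - mom Θ x₂ v₂)‖ ≤
      8 * (A * δ) * ‖mom Θ x₁ v₁ - mom Θ x₂ v₂‖ + 24 * A * ‖x₁ - x₂‖ := by
  have hA := h.A_nonneg
  have h1 := norm_dv_sub_dp_le h hδ hδ1 (v₁ := v₁) hx₁ hx₂ hv₂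
  have h2 : ‖v₁ - v₂‖ ≤ ‖(v₁ - v₂) - (mom Θ x₁ v₁ - mom Θ x₂ v₂)‖
      + ‖mom Θ x₁ v₁ - mom Θ x₂ v₂‖ := norm_le_norm_sub_add _ _
  have h3 : 4 * (A * δ) * ‖v₁ - v₂‖ ≤ 4 * (A * δ) * (‖(v₁ - v₂) - (mom Θ x₁ v₁ - mom Θ x₂ v₂)‖
      + ‖mom Θ x₁ v₁ - mom Θ x₂ v₂‖) := by gcongr
  have h4 : 4 * (A * δ) * ‖(v₁ - v₂) - (mom Θ x₁ v₁ - mom Θ x₂ v₂)‖ ≤
      1 / 2 * ‖(v₁ - v₂) - (mom Θ x₁ v₁ - mom Θ x₂ v₂)‖ := by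
    apply mul_le_mul_of_nonneg_right _ (norm_nonneg _)
    linarith
  have h5 := norm_nonneg (x₁ - x₂)
  linarith

/-- off the shell the momentum is the velocity -/
theorem mom_eq_of_off {A δ : ℝ} {Θ : E → E} (h : Shift A δ Θ) {x v : E}
    (hx : δ / 2 < |‖x‖ ^ 2 - 1|) : mom Θ x v = v := by
  simp [mom, h.supp x hx]

end

section Complete

variable {E : Type} [NormedAddCommGroup E] [InnerProductSpace ℝ E] [FiniteDimensional ℝ E]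

/-- off the shell there is no force -/
theorem force_eq_zero_of_off {A δ : ℝ} {Θ : E → E} (h : Shift A δ Θ) {x v : E}
    (hx : δ / 2 < |‖x‖ ^ 2 - 1|) : force Θ x v = 0 := by
  have h1 : Θ x = 0 := h.supp x hx
  have h2 : fderiv ℝ Θ x = 0 := by
    have hopen : IsOpen {y : E | δ / 2 < |‖y‖ ^ 2 - 1|} :=
      isOpen_lt continuous_const (by fun_prop)
    have hev : Θ =ᶠ[nhds x] fun _ => (0 : E) := by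
      filter_upwards [hopen.mem_nhds hx] with y hy
      exact h.supp y hy
    rw [hev.fderiv_eq]
    simp
  simp [force, h1, h2]

/-- the difference of the forces -/
theorem norm_force_sub_le {A δ : ℝ} {Θ : E → E} (h : Shift A δ Θ) (hδ : 0 < δ) (hδ1 : δ ≤ 1)
    {x₁ x₂ v₁ v₂ : E} (hx₂ : ‖x₂‖ ≤ 2) (hv₁ : ‖v₁‖ ≤ 2) (hv₂ : ‖v₂‖ ≤ 2) :
    ‖force Θ x₁ v₁ - force Θ x₂ v₂‖ ≤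
      A * (8 + 2 * (|⟪x₁, v₁⟫| / δ)) * ‖x₁ - x₂‖ + 12 * A * ‖v₁ - v₂‖ := by
  have hA := h.A_nonneg
  set D : E → E →L[ℝ] E := fun x => ContinuousLinearMap.adjoint (fderiv ℝ Θ x) with hD
  have hDn : ∀ x v, ‖D x v‖ ≤ A * ‖v‖ := by
    intro x v
    refine (ContinuousLinearMap.le_opNorm _ _).trans ?_
    gcongr
    rw [hD]
    simp only [LinearIsometryEquiv.norm_map]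
    exact h.bd1 x
  have hDs : ∀ x y v, ‖D x v - D y v‖ ≤ A / δ * ‖x - y‖ * ‖v‖ := by
    intro x y v
    rw [← sub_apply]
    refine (ContinuousLinearMap.le_opNorm _ _).trans ?_
    gcongr
    rw [hD]
    simp only [← map_sub, LinearIsometryEquiv.norm_map]
    exact h.fderiv_dist_le x y
  have e : force Θ x₁ v₁ - force Θ x₂ v₂ =
      ⟪Θ x₁ - Θ x₂, v₁⟫ • v₁ + ⟪x₁, v₁⟫ • (D x₁ v₁ - D x₂ v₁) + ⟪x₁ - x₂, v₁⟫ • D x₂ v₁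
        + ⟪Θ x₂, v₁ - v₂⟫ • v₁ + ⟪Θ x₂, v₂⟫ • (v₁ - v₂) + ⟪x₂, v₁ - v₂⟫ • D x₂ v₁
        + ⟪x₂, v₂⟫ • D x₂ (v₁ - v₂) := by
    simp only [force, hD, inner_sub_left, inner_sub_right, map_sub]
    module
  rw [e]
  have hb : ∀ a b c : E, ‖⟪a, b⟫ • c‖ ≤ ‖a‖ * ‖b‖ * ‖c‖ := by
    intro a b c
    rw [norm_smul]
    gcongr
    exact norm_inner_le_norm a b
  have hΘ₂ : ‖Θ x₂‖ ≤ A * 1 := (h.bd0 x₂).trans (by gcongr)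
  have hd := h.dist_le x₁ x₂
  have hDv₁ : ‖D x₂ v₁‖ ≤ A * 2 := (hDn _ _).trans (by gcongr)
  have n1 : ‖⟪Θ x₁ - Θ x₂, v₁⟫ • v₁‖ ≤ (A * ‖x₁ - x₂‖) * 2 * 2 :=
    (hb _ _ _).trans (by gcongr)
  have n2 : ‖⟪x₁, v₁⟫ • (D x₁ v₁ - D x₂ v₁)‖ ≤ |⟪x₁, v₁⟫| * (A / δ * ‖x₁ - x₂‖ * 2) := by
    rw [norm_smul, Real.norm_eq_abs]
    gcongr
    exact (hDs _ _ _).trans (by gcongr)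
  have n3 : ‖⟪x₁ - x₂, v₁⟫ • D x₂ v₁‖ ≤ ‖x₁ - x₂‖ * 2 * (A * 2) :=
    (hb _ _ _).trans (by gcongr)
  have n4 : ‖⟪Θ x₂, v₁ - v₂⟫ • v₁‖ ≤ (A * 1) * ‖v₁ - v₂‖ * 2 :=
    (hb _ _ _).trans (by gcongr)
  have n5 : ‖⟪Θ x₂, v₂⟫ • (v₁ - v₂)‖ ≤ (A * 1) * 2 * ‖v₁ - v₂‖ :=
    (hb _ _ _).trans (by gcongr)
  have n6 : ‖⟪x₂, v₁ - v₂⟫ • D x₂ v₁‖ ≤ 2 * ‖v₁ - v₂‖ * (A * 2) :=
    (hb _ _ _).trans (by gcongr)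
  have n7 : ‖⟪x₂, v₂⟫ • D x₂ (v₁ - v₂)‖ ≤ 2 * 2 * (A * ‖v₁ - v₂‖) :=
    (hb _ _ _).trans (by gcongr; exact hDn _ _)
  have e2 : |⟪x₁, v₁⟫| * (A / δ * ‖x₁ - x₂‖ * 2) = A * (2 * (|⟪x₁, v₁⟫| / δ)) * ‖x₁ - x₂‖ := by
    ring
  rw [e2] at n2
  have t1 := norm_add_le (⟪Θ x₁ - Θ x₂, v₁⟫ • v₁ + ⟪x₁, v₁⟫ • (D x₁ v₁ - D x₂ v₁)
    + ⟪x₁ - x₂, v₁⟫ • D x₂ v₁ + ⟪Θ x₂, v₁ - v₂⟫ • v₁ + ⟪Θ x₂, v₂⟫ • (v₁ - v₂)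
    + ⟪x₂, v₁ - v₂⟫ • D x₂ v₁) (⟪x₂, v₂⟫ • D x₂ (v₁ - v₂))
  have t2 := norm_add_le (⟪Θ x₁ - Θ x₂, v₁⟫ • v₁ + ⟪x₁, v₁⟫ • (D x₁ v₁ - D x₂ v₁)
    + ⟪x₁ - x₂, v₁⟫ • D x₂ v₁ + ⟪Θ x₂, v₁ - v₂⟫ • v₁ + ⟪Θ x₂, v₂⟫ • (v₁ - v₂))
    (⟪x₂, v₁ - v₂⟫ • D x₂ v₁)
  have t3 := norm_add_le (⟪Θ x₁ - Θ x₂, v₁⟫ • v₁ + ⟪x₁, v₁⟫ • (D x₁ v₁ - D x₂ v₁)
    + ⟪x₁ - x₂, v₁⟫ • D x₂ v₁ + ⟪Θ x₂, v₁ - v₂⟫ • v₁) (⟪Θ x₂, v₂⟫ • (v₁ - v₂))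
  have t4 := norm_add_le (⟪Θ x₁ - Θ x₂, v₁⟫ • v₁ + ⟪x₁, v₁⟫ • (D x₁ v₁ - D x₂ v₁)
    + ⟪x₁ - x₂, v₁⟫ • D x₂ v₁) (⟪Θ x₂, v₁ - v₂⟫ • v₁)
  have t5 := norm_add_le (⟪Θ x₁ - Θ x₂, v₁⟫ • v₁ + ⟪x₁, v₁⟫ • (D x₁ v₁ - D x₂ v₁))
    (⟪x₁ - x₂, v₁⟫ • D x₂ v₁)
  have t6 := norm_add_le (⟪Θ x₁ - Θ x₂, v₁⟫ • v₁) (⟪x₁, v₁⟫ • (D x₁ v₁ - D x₂ v₁))
  linarith

end Complete

end Pool.Agent.Lib_MP_a29272_q1
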