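import Mathlib

/-!
# Smooth dependence on initial conditions

The time `T` map of a smooth compactly supported vector field is smooth; cut off version for
arbitrary smooth vector fields.
-/

open Set Filter Topology Metric
open scoped NNReal ContDiff

namespace Pool.Agent.Lib_MP_a29272_q1

namespace SF

set_option linter.unusedSectionVars false

section Basic

variable {E : Type} [NormedAddCommGroup E] [NormedSpace ℝ E] [FiniteDimensional ℝ E]

/-- A bounded Lipschitz field has a solution on every bounded open interval around `0`. -/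
theorem exists_sol_Ioo {v : E → E} {L B : ℝ≥0} (hL : LipschitzWith L v)
    (hB : ∀ x, ‖v x‖ ≤ B) (p : E) (n : ℕ) :
    ∃ y : ℝ → E, y 0 = p ∧
      ∀ t ∈ Ioo (-((n : ℝ) + 1)) ((n : ℝ) + 1), HasDerivAt y (v (y t)) t := by
  have hn : (0 : ℝ) ≤ (n : ℝ) + 1 := by positivity
  have h : IsPicardLindelof (fun _ => v)
      (⟨0, by linarith, hn⟩ : Icc (-((n : ℝ) + 1)) ((n : ℝ) + 1)) p
      (B * ⟨(n : ℝ) + 1, hn⟩) 0 B L := by
    refine ⟨fun t _ => hL.lipschitzOnWith, fun x _ => continuousOn_const,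
      fun t _ x _ => hB x, ?_⟩
    simp only [sub_zero, NNReal.coe_zero, zero_sub, neg_neg, max_self]
    exact le_rfl
  obtain ⟨y, hy0, hy⟩ := h.exists_eq_forall_mem_Icc_hasDerivWithinAt₀
  refine ⟨y, hy0, fun t ht => ?_⟩
  exact (hy t (Ioo_subset_Icc_self ht)).hasDerivAt (Icc_mem_nhds ht.1 ht.2)

/-- A bounded Lipschitz field has a global solution through every point. -/
theorem exists_sol_global {v : E → E} {L B : ℝ≥0} (hL : LipschitzWith L v)
    (hB : ∀ x, ‖v x‖ ≤ B) (p : E) :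
    ∃ y : ℝ → E, y 0 = p ∧ ∀ t, HasDerivAt y (v (y t)) t := by
  choose α hα0 hα using fun n : ℕ => exists_sol_Ioo hL hB p n
  have huniq : ∀ n m : ℕ, n ≤ m → EqOn (α n) (α m) (Ioo (-((n : ℝ) + 1)) ((n : ℝ) + 1)) := by
    intro n m hnm
    have hnm' : (n : ℝ) ≤ m := by exact_mod_cast hnm
    have hn : (0 : ℝ) < (n : ℝ) + 1 := by positivity
    refine ODE_solution_unique_of_mem_Ioo (v := fun _ => v) (s := fun _ => univ) (K := L)
      (t₀ := 0) (fun t _ => hL.lipschitzOnWith) ⟨by linarith, hn⟩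
      (fun t ht => ⟨hα n t ht, mem_univ _⟩) (fun t ht => ⟨hα m t ?_, mem_univ _⟩) ?_
    · exact ⟨by linarith [ht.1], by linarith [ht.2]⟩
    · rw [hα0, hα0]
  have hmem : ∀ s : ℝ, s ∈ Ioo (-((⌈|s|⌉₊ : ℝ) + 1)) ((⌈|s|⌉₊ : ℝ) + 1) := by
    intro s
    have h1 : |s| ≤ (⌈|s|⌉₊ : ℝ) := Nat.le_ceil _
    exact ⟨by linarith [neg_abs_le s], by linarith [le_abs_self s]⟩
  refine ⟨fun t => α ⌈|t|⌉₊ t, by simp [hα0], fun t => ?_⟩
  have hM : ∀ s, |s - t| < 1 → α ⌈|s|⌉₊ s = α (⌈|t|⌉₊ + 1) s := by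
    intro s hs
    refine huniq _ _ ?_ (hmem s)
    rw [Nat.ceil_le]
    have h1 : |t| ≤ (⌈|t|⌉₊ : ℝ) := Nat.le_ceil _
    have h2 : |s| ≤ |s - t| + |t| := by
      have := abs_add_le (s - t) t
      simpa using this
    push_cast
    linarith
  have hev : (fun t => α ⌈|t|⌉₊ t) =ᶠ[𝓝 t] α (⌈|t|⌉₊ + 1) := by
    filter_upwards [Metric.ball_mem_nhds t one_pos] with s hs
    exact hM s (by simpa [Real.dist_eq] using hs)
  have ht : t ∈ Ioo (-(((⌈|t|⌉₊ + 1 : ℕ) : ℝ) + 1)) (((⌈|t|⌉₊ + 1 : ℕ) : ℝ) + 1) := by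
    have h1 := hmem t
    push_cast
    exact ⟨by linarith [h1.1], by linarith [h1.2]⟩
  have hd := hα (⌈|t|⌉₊ + 1) t ht
  have h0 : α ⌈|t|⌉₊ t = α (⌈|t|⌉₊ + 1) t := hM t (by simp)
  have h3 := hd.congr_of_eventuallyEq hev
  rw [← h0] at h3
  exact h3

/-- `Φ` is the flow of `G`. -/
structure FlowOf (G : E → E) (Φ : ℝ → E → E) : Prop where
  zero : ∀ x, Φ 0 x = x
  deriv : ∀ t x, HasDerivAt (fun s => Φ s x) (G (Φ t x)) t

theorem exists_flowOf {G : E → E} (hG : ContDiff ℝ 1 G) (hc : HasCompactSupport G) :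
    ∃ Φ, FlowOf G Φ := by
  obtain ⟨L, hL⟩ := hG.lipschitzWith_of_hasCompactSupport hc (by norm_num)
  obtain ⟨B, hB⟩ := hc.exists_bound_of_continuous hG.continuous
  have hB' : ∀ x, ‖G x‖ ≤ ((⟨max B 0, le_max_right _ _⟩ : ℝ≥0) : ℝ) :=
    fun x => (hB x).trans (le_max_left _ _)
  choose Φ hΦ0 hΦ using fun x : E => exists_sol_global hL hB' x
  exact ⟨fun t x => Φ x t, ⟨hΦ0, fun t x => hΦ x t⟩⟩

theorem hasDerivWithinAt_Ici_of_Icc {x : ℝ → E} {v : E} {a b t : ℝ} (ht : t ∈ Ico a b)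
    (h : HasDerivWithinAt x v (Icc a b) t) : HasDerivWithinAt x v (Ici t) t := by
  have h1 : HasDerivWithinAt x v (Icc t b) t := h.mono (Icc_subset_Icc_left ht.1)
  exact h1.mono_of_mem_nhdsWithin (Icc_mem_nhdsGE ht.2)

/-- A solution on `[0, T]` agrees with the flow. -/
theorem FlowOf.eq_of_sol {G : E → E} {L : ℝ≥0} (hL : LipschitzWith L G) {Φ : ℝ → E → E}
    (hΦ : FlowOf G Φ) {y : ℝ → E} {T : ℝ}
    (hy : ∀ t ∈ Icc 0 T, HasDerivWithinAt y (G (y t)) (Icc 0 T) t) :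
    ∀ t ∈ Icc 0 T, y t = Φ t (y 0) := by
  have h := ODE_solution_unique_of_mem_Icc_right (v := fun _ => G) (s := fun _ => univ) (K := L)
    (f := y) (g := fun t => Φ t (y 0)) (a := 0) (b := T) (fun t _ => hL.lipschitzOnWith)
    (fun t ht => (hy t ht).continuousWithinAt)
    (fun t ht => hasDerivWithinAt_Ici_of_Icc ht (hy t (Ico_subset_Icc_self ht)))
    (fun t _ => mem_univ _)
    (fun t _ => (hΦ.deriv t (y 0)).continuousAt.continuousWithinAt)
    (fun t _ => (hΦ.deriv t (y 0)).hasDerivWithinAt)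
    (fun t _ => mem_univ _) (by simp [hΦ.zero])
  exact h

theorem FlowOf.dist_le {G : E → E} {L : ℝ≥0} (hL : LipschitzWith L G) {Φ : ℝ → E → E}
    (hΦ : FlowOf G Φ) (x y : E) {t : ℝ} (ht : 0 ≤ t) :
    dist (Φ t x) (Φ t y) ≤ dist x y * Real.exp (L * t) := by
  have h1 := dist_le_of_trajectories_ODE (v := fun _ => G) (a := 0) (b := t) (K := L)
    (f := fun s => Φ s x) (g := fun s => Φ s y) (δ := dist x y) (fun _ => hL)
    (fun s _ => (hΦ.deriv s x).continuousAt.continuousWithinAt)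
    (fun s _ => (hΦ.deriv s x).hasDerivWithinAt)
    (fun s _ => (hΦ.deriv s y).continuousAt.continuousWithinAt)
    (fun s _ => (hΦ.deriv s y).hasDerivWithinAt)
    (by simp [hΦ.zero]) t ⟨ht, le_rfl⟩
  simpa using h1

theorem unif_strict {G : E → E} (hG : ContDiff ℝ 2 G) (hGc : HasCompactSupport G) {ε : ℝ}
    (hε : 0 < ε) : ∃ r > 0, ∀ c p q, p ∈ ball c r → q ∈ ball c r →
      ‖G p - G q - fderiv ℝ G c (p - q)‖ ≤ ε * ‖p - q‖ := by
  have h1 : ContDiff ℝ 1 (fderiv ℝ G) := hG.fderiv_right (by norm_num)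
  obtain ⟨C, hC⟩ := h1.lipschitzWith_of_hasCompactSupport (hGc.fderiv ℝ) (by norm_num)
  refine ⟨ε / (C + 1), by positivity, fun c p q hp hq => ?_⟩
  refine (convex_ball c (ε / (C + 1))).norm_image_sub_le_of_norm_fderiv_le' (𝕜 := ℝ)
    (fun z _ => (hG.differentiable (by norm_num)) z) (fun z hz => ?_) hq hp
  have h2 := hC.dist_le_mul z c
  rw [dist_eq_norm] at h2
  have h3 : dist z c < ε / (C + 1) := hz
  have h4 : (C : ℝ) * dist z c ≤ C * (ε / (C + 1)) := mul_le_mul_of_nonneg_left h3.le C.2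
  have h5 : (C : ℝ) * (ε / (C + 1)) ≤ ε := by
    rw [mul_div_assoc', div_le_iff₀ (by positivity)]
    nlinarith
  linarith

end Basic

section Prolong

variable {E : Type} [NormedAddCommGroup E] [NormedSpace ℝ E] [FiniteDimensional ℝ E]

/-- The prolonged field, cut off in the linear variable. -/
theorem exists_prolong {G : E → E} (hG : ContDiff ℝ ∞ G) (hc : HasCompactSupport G) (R : ℝ) :
    ∃ Gh : E × (E →L[ℝ] E) → E × (E →L[ℝ] E), ContDiff ℝ ∞ Gh ∧ HasCompactSupport Gh ∧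
      (∀ x A, ‖A‖ ≤ R → Gh (x, A) = (G x, (fderiv ℝ G x).comp A)) ∧
      ∀ x A, ‖(Gh (x, A)).2‖ ≤ ‖fderiv ℝ G x‖ * ‖A‖ := by
  let f : ContDiffBump (0 : E →L[ℝ] E) :=
    ⟨max R 1, max R 1 + 1, lt_of_lt_of_le one_pos (le_max_right _ _), by linarith⟩
  have hf : ContDiff ℝ ∞ (f : (E →L[ℝ] E) → ℝ) := f.contDiff
  have hfd : ContDiff ℝ ∞ (fderiv ℝ G) := hG.fderiv_right (by simp)
  refine ⟨fun z => f z.2 • (G z.1, (fderiv ℝ G z.1).comp z.2), ?_, ?_, ?_, ?_⟩
  · exact (hf.comp contDiff_snd).smul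
      ((hG.comp contDiff_fst).prodMk ((hfd.comp contDiff_fst).clm_comp contDiff_snd))
  · refine HasCompactSupport.intro (K := tsupport G ×ˢ closedBall (0 : E →L[ℝ] E) f.rOut)
      (hc.isCompact.prod (isCompact_closedBall _ _)) ?_
    rintro ⟨x, A⟩ hxA
    rw [mem_prod, not_and_or] at hxA
    rcases hxA with h | h
    · have h1 : G x = 0 := image_eq_zero_of_notMem_tsupport h
      have h2 : fderiv ℝ G x = 0 := by
        have : x ∉ tsupport (fderiv ℝ G) := fun hh => h (tsupport_fderiv_subset ℝ hh)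
        exact image_eq_zero_of_notMem_tsupport this
      simp [h1, h2]
    · have h1 : f A = 0 := by
        apply f.zero_of_le_dist
        have : ¬ dist A 0 ≤ f.rOut := h
        exact (not_le.1 this).le
      simp [h1]
  · intro x A hA
    have h1 : f A = 1 := by
      apply f.one_of_mem_closedBall
      rw [mem_closedBall, dist_zero_right]
      exact hA.trans (le_max_left _ _)
    simp [h1]
  · intro x A
    simp only [Prod.smul_mk, norm_smul, Real.norm_eq_abs]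
    rw [abs_of_nonneg f.nonneg]
    calc f A * ‖(fderiv ℝ G x).comp A‖ ≤ 1 * ‖(fderiv ℝ G x).comp A‖ :=
          mul_le_mul_of_nonneg_right f.le_one (norm_nonneg _)
      _ = ‖(fderiv ℝ G x).comp A‖ := one_mul _
      _ ≤ _ := ContinuousLinearMap.opNorm_comp_le _ _

/-- The prolonged flow solves the variational equation. -/
theorem prolong_flow {G : E → E}
    {Φ : ℝ → E → E} (hΦ : FlowOf G Φ) {L : ℝ≥0} (hL : LipschitzWith L G) {T : ℝ}
    {Gh : E × (E →L[ℝ] E) → E × (E →L[ℝ] E)}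
    (hGh1 : ∀ x A, ‖A‖ ≤ Real.exp (L * T) → Gh (x, A) = (G x, (fderiv ℝ G x).comp A))
    (hGh2 : ∀ x A, ‖(Gh (x, A)).2‖ ≤ ‖fderiv ℝ G x‖ * ‖A‖)
    {Ψ : ℝ → E × (E →L[ℝ] E) → E × (E →L[ℝ] E)} (hΨ : FlowOf Gh Ψ) (x : E) :
    ∀ t ∈ Icc 0 T, (Ψ t (x, ContinuousLinearMap.id ℝ E)).1 = Φ t x ∧
      HasDerivWithinAt (fun s => (Ψ s (x, ContinuousLinearMap.id ℝ E)).2)
        ((fderiv ℝ G (Φ t x)).comp (Ψ t (x, ContinuousLinearMap.id ℝ E)).2) (Icc 0 T) t := by
  set z : ℝ → E × (E →L[ℝ] E) := fun t => Ψ t (x, ContinuousLinearMap.id ℝ E) with hz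
  have hzd : ∀ t, HasDerivAt z (Gh (z t)) t := fun t => hΨ.deriv t _
  have hz0 : z 0 = (x, ContinuousLinearMap.id ℝ E) := hΨ.zero _
  have hz2 : ∀ t, HasDerivAt (fun s => (z s).2) (Gh (z t)).2 t := fun t =>
    (hasFDerivAt_snd (𝕜 := ℝ) (p := z t)).comp_hasDerivAt t (hzd t)
  have hz1 : ∀ t, HasDerivAt (fun s => (z s).1) (Gh (z t)).1 t := fun t =>
    (hasFDerivAt_fst (𝕜 := ℝ) (p := z t)).comp_hasDerivAt t (hzd t)
  have hDG : ∀ w, ‖fderiv ℝ G w‖ ≤ L := fun w => norm_fderiv_le_of_lipschitz ℝ hL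
  have hA : ∀ t ∈ Icc 0 T, ‖(z t).2‖ ≤ Real.exp (L * T) := by
    intro t ht
    have h1 := norm_le_gronwallBound_of_norm_deriv_right_le (f := fun s => (z s).2)
      (f' := fun s => (Gh (z s)).2) (δ := 1) (K := L) (ε := 0) (a := 0) (b := T)
      (fun s _ => (hz2 s).continuousAt.continuousWithinAt)
      (fun s _ => (hz2 s).hasDerivWithinAt)
      (by simp only [hz0]; exact ContinuousLinearMap.norm_id_le)
      (fun s _ => by
        have h2 := hGh2 (z s).1 (z s).2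
        have h3 := mul_le_mul_of_nonneg_right (hDG (z s).1) (norm_nonneg (z s).2)
        simp only [Prod.mk.eta] at h2
        linarith) t ht
    rw [gronwallBound_ε0] at h1
    simp only [sub_zero, one_mul] at h1
    refine h1.trans ?_
    apply Real.exp_le_exp.mpr
    exact mul_le_mul_of_nonneg_left ht.2 L.2
  have hG1 : ∀ t ∈ Icc 0 T, Gh (z t) = (G (z t).1, (fderiv ℝ G (z t).1).comp (z t).2) :=
    fun t ht => hGh1 (z t).1 (z t).2 (hA t ht)
  have hsol : ∀ t ∈ Icc 0 T, (z t).1 = Φ t x := by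
    intro t ht
    have h := hΦ.eq_of_sol hL (y := fun s => (z s).1) (T := T) (fun s hs => by
      have := (hz1 s).hasDerivWithinAt (s := Icc 0 T)
      rw [hG1 s hs] at this
      exact this) t ht
    simpa [hz0] using h
  intro t ht
  refine ⟨hsol t ht, ?_⟩
  have := (hz2 t).hasDerivWithinAt (s := Icc 0 T)
  rw [hG1 t ht, hsol t ht] at this
  exact this

/-- The derivative of the time `T` map is the second component of the flow of the prolonged
field. -/
theorem hasFDerivAt_flow {G : E → E} (hG : ContDiff ℝ ∞ G) (hGc : HasCompactSupport G)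
    {Φ : ℝ → E → E} (hΦ : FlowOf G Φ) {L : ℝ≥0} (hL : LipschitzWith L G) {T : ℝ} (hT : 0 ≤ T)
    {Gh : E × (E →L[ℝ] E) → E × (E →L[ℝ] E)}
    (hGh1 : ∀ x A, ‖A‖ ≤ Real.exp (L * T) → Gh (x, A) = (G x, (fderiv ℝ G x).comp A))
    (hGh2 : ∀ x A, ‖(Gh (x, A)).2‖ ≤ ‖fderiv ℝ G x‖ * ‖A‖)
    {Ψ : ℝ → E × (E →L[ℝ] E) → E × (E →L[ℝ] E)} (hΨ : FlowOf Gh Ψ) (x : E) :
    HasFDerivAt (Φ T) (Ψ T (x, ContinuousLinearMap.id ℝ E)).2 x := by
  have hvar := prolong_flow hΦ hL hGh1 hGh2 hΨ x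
  set A : ℝ → E →L[ℝ] E := fun t => (Ψ t (x, ContinuousLinearMap.id ℝ E)).2 with hAdef
  have hA0 : A 0 = ContinuousLinearMap.id ℝ E := by simp [hAdef, hΨ.zero]
  have hA : ∀ t ∈ Icc 0 T, HasDerivWithinAt A ((fderiv ℝ G (Φ t x)).comp (A t)) (Icc 0 T) t :=
    fun t ht => (hvar t ht).2
  have hDG : ∀ w, ‖fderiv ℝ G w‖ ≤ L := fun w => norm_fderiv_le_of_lipschitz ℝ hL
  set C := T * Real.exp (L * T) * Real.exp (L * T) with hC
  have hC0 : 0 ≤ C := by positivity
  rw [hasFDerivAt_iff_isLittleO, Asymptotics.isLittleO_iff]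
  intro ε hε
  obtain ⟨r, hr, hstrict⟩ := unif_strict (hG.of_le (by norm_cast)) hGc
    (show 0 < ε / (C + 1) by positivity)
  have hexp := Real.exp_pos (L * T)
  filter_upwards [ball_mem_nhds x (show 0 < r * Real.exp (-(L * T)) by positivity)] with y hy
  have hclose : ∀ t ∈ Icc 0 T, dist (Φ t y) (Φ t x) ≤ dist y x * Real.exp (L * T) := by
    intro t ht
    refine (hΦ.dist_le hL y x ht.1).trans (mul_le_mul_of_nonneg_left ?_ dist_nonneg)
    apply Real.exp_le_exp.mpr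
    exact mul_le_mul_of_nonneg_left ht.2 L.2
  have hin : ∀ t ∈ Icc 0 T, Φ t y ∈ ball (Φ t x) r := by
    intro t ht
    rw [mem_ball]
    refine (hclose t ht).trans_lt ?_
    calc dist y x * Real.exp (L * T) <
        (r * Real.exp (-(L * T))) * Real.exp (L * T) :=
          mul_lt_mul_of_pos_right hy (Real.exp_pos _)
      _ = r := by
          rw [mul_assoc, ← Real.exp_add]
          simp
  set e := y - x with he
  have hder : ∀ t ∈ Icc 0 T, HasDerivWithinAt (fun t => Φ t y - Φ t x - A t e)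
      (G (Φ t y) - G (Φ t x) - fderiv ℝ G (Φ t x) (A t e)) (Icc 0 T) t := by
    intro t ht
    have h1 : HasDerivWithinAt (fun t => A t e) (fderiv ℝ G (Φ t x) (A t e)) (Icc 0 T) t := by
      have := (hA t ht).clm_apply (hasDerivWithinAt_const t (Icc 0 T) e)
      simpa using this
    exact ((hΦ.deriv t y).hasDerivWithinAt.sub (hΦ.deriv t x).hasDerivWithinAt).sub h1
  have hbound := norm_le_gronwallBound_of_norm_deriv_right_le
    (f := fun t => Φ t y - Φ t x - A t e) (δ := 0) (K := L)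
    (ε := ε / (C + 1) * (‖e‖ * Real.exp (L * T)))
    (fun t ht => (hder t ht).continuousWithinAt)
    (fun t ht => hasDerivWithinAt_Ici_of_Icc ht (hder t (Ico_subset_Icc_self ht)))
    (by simp [hA0, he, hΦ.zero]) (fun t ht => by
      have ht' := Ico_subset_Icc_self ht
      have h1 := hstrict (Φ t x) (Φ t y) (Φ t x) (hin t ht') (mem_ball_self hr)
      have h2 := hclose t ht'
      rw [dist_eq_norm, dist_eq_norm, ← he] at h2
      have h3 : G (Φ t y) - G (Φ t x) - fderiv ℝ G (Φ t x) (A t e) =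
          (G (Φ t y) - G (Φ t x) - fderiv ℝ G (Φ t x) (Φ t y - Φ t x)) +
            fderiv ℝ G (Φ t x) (Φ t y - Φ t x - A t e) := by
        rw [map_sub (fderiv ℝ G (Φ t x)) (Φ t y - Φ t x)]
        abel
      rw [h3]
      have h4 : ‖fderiv ℝ G (Φ t x) (Φ t y - Φ t x - A t e)‖ ≤ L * ‖Φ t y - Φ t x - A t e‖ :=
        ((fderiv ℝ G (Φ t x)).le_opNorm _).trans
          (mul_le_mul_of_nonneg_right (hDG _) (norm_nonneg _))
      have h5 : ε / (C + 1) * ‖Φ t y - Φ t x‖ ≤ ε / (C + 1) * (‖e‖ * Real.exp (L * T)) :=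
        mul_le_mul_of_nonneg_left h2 (by positivity)
      calc _ ≤ ‖G (Φ t y) - G (Φ t x) - fderiv ℝ G (Φ t x) (Φ t y - Φ t x)‖ +
            ‖fderiv ℝ G (Φ t x) (Φ t y - Φ t x - A t e)‖ := norm_add_le _ _
        _ ≤ _ := by linarith) T ⟨hT, le_rfl⟩
  refine hbound.trans ?_
  have hgr : ∀ ε' : ℝ, 0 ≤ ε' → gronwallBound 0 L ε' (T - 0) ≤ ε' * T * Real.exp (L * T) := by
    intro ε' hε'
    rcases eq_or_ne (L : ℝ) 0 with h0 | h0
    · rw [h0, gronwallBound_K0]
      simp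
    · rw [gronwallBound_of_K_ne_0 h0]
      have hLpos : (0 : ℝ) < L := lt_of_le_of_ne L.2 (Ne.symm h0)
      simp only [zero_mul, zero_add, sub_zero]
      have h6 : Real.exp (L * T) - 1 ≤ L * T * Real.exp (L * T) := by
        have h7 : 1 - L * T ≤ Real.exp (-(L * T)) := by
          have := Real.add_one_le_exp (-(L * T : ℝ))
          linarith
        have h8 : Real.exp (-(L * T)) * Real.exp (L * T) = 1 := by
          rw [← Real.exp_add]; simp
        nlinarith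
      calc ε' / L * (Real.exp (L * T) - 1) ≤ ε' / L * (L * T * Real.exp (L * T)) :=
            mul_le_mul_of_nonneg_left h6 (by positivity)
        _ = ε' * T * Real.exp (L * T) := by field_simp
  refine (hgr _ (by positivity)).trans ?_
  have h9 : ε / (C + 1) * (‖e‖ * Real.exp (L * T)) * T * Real.exp (L * T) =
      ε / (C + 1) * C * ‖e‖ := by
    rw [hC]
    ring
  rw [h9]
  apply mul_le_mul_of_nonneg_right _ (norm_nonneg _)
  rw [div_mul_eq_mul_div, div_le_iff₀ (by positivity)]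
  nlinarith

end Prolong

section Smooth

theorem contDiff_flow_nat (k : ℕ) : ∀ {E : Type} [NormedAddCommGroup E] [NormedSpace ℝ E]
    [FiniteDimensional ℝ E] {G : E → E} (_ : ContDiff ℝ ∞ G) (_ : HasCompactSupport G)
    {Φ : ℝ → E → E} (_ : FlowOf G Φ) {T : ℝ} (_ : 0 ≤ T), ContDiff ℝ k (Φ T) := by
  induction k with
  | zero =>
    intro E _ _ _ G hG hGc Φ hΦ T hT
    obtain ⟨L, hL⟩ := hG.lipschitzWith_of_hasCompactSupport hGc (by simp)
    have : LipschitzWith ⟨Real.exp (L * T), (Real.exp_pos _).le⟩ (Φ T) := by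
      refine LipschitzWith.of_dist_le_mul fun x y => ?_
      have := hΦ.dist_le hL x y hT
      rw [mul_comm] at this
      exact this
    exact contDiff_zero.2 this.continuous
  | succ k ih =>
    intro E _ _ _ G hG hGc Φ hΦ T hT
    obtain ⟨L, hL⟩ := hG.lipschitzWith_of_hasCompactSupport hGc (by simp)
    obtain ⟨Gh, hGh, hGhc, hGh1, hGh2⟩ := exists_prolong hG hGc (Real.exp (L * T))
    obtain ⟨Ψ, hΨ⟩ := exists_flowOf (hGh.of_le (by norm_cast)) hGhc
    have hd := hasFDerivAt_flow hG hGc hΦ hL hT hGh1 hGh2 hΨ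
    have hfd : fderiv ℝ (Φ T) = fun x => (Ψ T (x, ContinuousLinearMap.id ℝ E)).2 :=
      funext fun x => (hd x).fderiv
    have h1 := ih hGh hGhc hΨ hT
    push_cast
    rw [contDiff_succ_iff_fderiv]
    refine ⟨fun x => (hd x).differentiableAt, ?_, ?_⟩
    · intro h
      exact absurd h (by simp)
    · rw [hfd]
      exact contDiff_snd.comp (h1.comp (contDiff_id.prodMk contDiff_const))

variable {E : Type} [NormedAddCommGroup E] [NormedSpace ℝ E] [FiniteDimensional ℝ E]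

/-- **Smooth dependence on initial conditions.** -/
theorem contDiff_flow {G : E → E} (hG : ContDiff ℝ ∞ G) (hGc : HasCompactSupport G)
    {Φ : ℝ → E → E} (hΦ : FlowOf G Φ) {T : ℝ} (hT : 0 ≤ T) : ContDiff ℝ ∞ (Φ T) :=
  contDiff_infty.2 fun k => contDiff_flow_nat k hG hGc hΦ hT

end Smooth

end SF

section Cut

open SF

variable {E : Type} [NormedAddCommGroup E] [NormedSpace ℝ E] [FiniteDimensional ℝ E]

/-- The cut off flow of a smooth vector field `X`: it is the flow of `χ • X`, with `χ` equal to `1`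
on the given compact set `K`; its time `t` maps are smooth, and it agrees with the solutions
of `y' = X y` which stay in `K`. -/
theorem exists_cutoff_flow {X : E → E} (hX : ContDiff ℝ ∞ X) {K : Set E} (hK : IsCompact K) :
    ∃ (χ : E → ℝ) (Φ : ℝ → E → E), ContDiff ℝ ∞ χ ∧ (∀ z, 0 ≤ χ z ∧ χ z ≤ 1) ∧
      (∀ z ∈ K, χ z = 1) ∧ (∀ z, Φ 0 z = z) ∧
      (∀ t z, HasDerivAt (fun s => Φ s z) (χ (Φ t z) • X (Φ t z)) t) ∧
      (∀ t, 0 ≤ t → ContDiff ℝ ∞ (Φ t)) ∧
      ∀ (T : ℝ) (y : ℝ → E), (∀ t ∈ Icc 0 T, y t ∈ K ∧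
        HasDerivWithinAt y (X (y t)) (Icc 0 T) t) → ∀ t ∈ Icc 0 T, y t = Φ t (y 0) := by
  obtain ⟨R, hR⟩ := hK.isBounded.subset_closedBall (0 : E)
  let f : ContDiffBump (0 : E) :=
    ⟨max R 1, max R 1 + 1, lt_of_lt_of_le one_pos (le_max_right _ _), by linarith⟩
  have hf : ContDiff ℝ ∞ (f : E → ℝ) := f.contDiff
  have hG : ContDiff ℝ ∞ (fun z => f z • X z) := hf.smul hX
  have hGc : HasCompactSupport (fun z => f z • X z) := f.hasCompactSupport.smul_right
  obtain ⟨Φ, hΦ⟩ := exists_flowOf (hG.of_le (by norm_cast)) hGc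
  have h1 : ∀ z ∈ K, f z = 1 := by
    intro z hz
    apply f.one_of_mem_closedBall
    exact closedBall_subset_closedBall (le_max_left _ _) (hR hz)
  refine ⟨f, Φ, hf, fun z => ⟨f.nonneg, f.le_one⟩, h1, hΦ.zero, hΦ.deriv,
    fun t ht => contDiff_flow hG hGc hΦ ht, ?_⟩
  intro T y hy
  obtain ⟨L, hL⟩ := hG.lipschitzWith_of_hasCompactSupport hGc (by simp)
  refine hΦ.eq_of_sol hL fun t ht => ?_
  have := (hy t ht).2
  rw [h1 _ (hy t ht).1, one_smul]
  exact this

end Cut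

end Pool.Agent.Lib_MP_a29272_q1
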