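import Mathlib
import Pool.Agent.Lib_MP_a29272_q1.SmoothFlow

/-! Flows of smooth vector fields with compact support are smooth. -/

namespace Pool.Agent.Lib_MP_a29272_q1

open Set Metric
open scoped ContDiff

/-- Flows of smooth vector fields with compact support are smooth. -/
theorem exists_smooth_flow {E : Type} [NormedAddCommGroup E] [NormedSpace ℝ E]
    [FiniteDimensional ℝ E] {Y : E → E} (hY : ContDiff ℝ ∞ Y) (hc : HasCompactSupport Y) :
    ∃ Φ : ℝ → E → E, (∀ x, Φ 0 x = x) ∧ (∀ x t, HasDerivAt (fun s => Φ s x) (Y (Φ t x)) t) ∧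
      ∀ t, 0 ≤ t → ContDiff ℝ ∞ (Φ t) := by
  obtain ⟨Φ, hΦ⟩ := SF.exists_flowOf (hY.of_le (by norm_cast)) hc
  exact ⟨Φ, hΦ.zero, fun x t => hΦ.deriv t x, fun t ht => SF.contDiff_flow hY hc hΦ ht⟩

end Pool.Agent.Lib_MP_a29272_q1
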