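import Pool.Agent.Lib_MP_a29272_q1.Ham
import Pool.Agent.Lib_MP_a29272_q1.Flow

/-! The exponential map: existence and smoothness. -/

namespace Pool.Agent.Lib_MP_a29272_q1

open Set Metric
open scoped ContDiff RealInnerProductSpace

variable {E : Type} [NormedAddCommGroup E] [InnerProductSpace ℝ E]

theorem gT_self_sub_le {Θ : E → E} {x : E} {ε : ℝ} (hs : ‖x‖ * ‖Θ x‖ ≤ ε) (v : E) :
    |gT Θ x v v - ‖v‖ ^ 2| ≤ 2 * ε * ‖v‖ ^ 2 := by
  have h1 : gT Θ x v v - ‖v‖ ^ 2 = 2 * (⟪x, v⟫ * ⟪Θ x, v⟫) := by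
    rw [gT_apply, real_inner_self_eq_norm_sq]
    ring
  rw [h1, abs_mul, abs_mul, abs_two]
  have h2 := abs_real_inner_le_norm x v
  have h3 := abs_real_inner_le_norm (Θ x) v
  have h4 : |⟪x, v⟫| * |⟪Θ x, v⟫| ≤ (‖x‖ * ‖v‖) * (‖Θ x‖ * ‖v‖) :=
    mul_le_mul h2 h3 (abs_nonneg _) (by positivity)
  have h5 : (‖x‖ * ‖Θ x‖) * ‖v‖ ^ 2 ≤ ε * ‖v‖ ^ 2 :=
    mul_le_mul_of_nonneg_right hs (by positivity)
  nlinarith

theorem norm_mom_le' {Θ : E → E} {x : E} {ε : ℝ} (hs : ‖x‖ * ‖Θ x‖ ≤ ε) (v : E) :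
    ‖mom Θ x v‖ ≤ (1 + 2 * ε) * ‖v‖ := by
  have h2 := abs_real_inner_le_norm x v
  have h3 := abs_real_inner_le_norm (Θ x) v
  have h4 : ‖⟪x, v⟫ • Θ x‖ ≤ ε * ‖v‖ := by
    rw [norm_smul, Real.norm_eq_abs]
    calc |⟪x, v⟫| * ‖Θ x‖ ≤ (‖x‖ * ‖v‖) * ‖Θ x‖ := mul_le_mul_of_nonneg_right h2 (norm_nonneg _)
      _ = (‖x‖ * ‖Θ x‖) * ‖v‖ := by ring
      _ ≤ ε * ‖v‖ := mul_le_mul_of_nonneg_right hs (norm_nonneg _)
  have h5 : ‖⟪Θ x, v⟫ • x‖ ≤ ε * ‖v‖ := by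
    rw [norm_smul, Real.norm_eq_abs]
    calc |⟪Θ x, v⟫| * ‖x‖ ≤ (‖Θ x‖ * ‖v‖) * ‖x‖ := mul_le_mul_of_nonneg_right h3 (norm_nonneg _)
      _ = (‖x‖ * ‖Θ x‖) * ‖v‖ := by ring
      _ ≤ ε * ‖v‖ := mul_le_mul_of_nonneg_right hs (norm_nonneg _)
  have h6 := norm_add_le (v + ⟪x, v⟫ • Θ x) (⟪Θ x, v⟫ • x)
  have h7 := norm_add_le v (⟪x, v⟫ • Θ x)
  rw [mom]
  nlinarith

theorem contDiff_mom_right (Θ : E → E) (x : E) : ContDiff ℝ ∞ (mom Θ x) := by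
  have h1 : ContDiff ℝ ∞ fun v : E => ⟪x, v⟫ := contDiff_const.inner ℝ contDiff_id
  have h2 : ContDiff ℝ ∞ fun v : E => ⟪Θ x, v⟫ := contDiff_const.inner ℝ contDiff_id
  exact (contDiff_id.add (h1.smul contDiff_const)).add (h2.smul contDiff_const)

variable [FiniteDimensional ℝ E]

/-- PIECE EXP. -/
theorem exists_exp {Θ : E → E} (h : Adm Θ) (hs : ∀ x, ‖x‖ * ‖Θ x‖ ≤ 1 / 8) {x : E}
    (hx : ‖x‖ ≤ 2) : ∃ e : E → E, ContDiff ℝ ∞ e ∧ ∀ v, ‖v‖ ≤ 3 → ∃ y w : ℝ → E,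
      HamSol Θ 1 y w ∧ y 0 = x ∧ w 0 = v ∧ y 1 = e v := by
  set X : E × E → E × E := fun z => (vel Θ z.1 z.2, force Θ z.1 (vel Θ z.1 z.2)) with hXdef
  have hvel := contDiff_vel h
  have hX : ContDiff ℝ ∞ X :=
    hvel.prodMk ((contDiff_force h.smooth).comp (contDiff_fst.prodMk hvel))
  obtain ⟨χ, Φ, hχ, hχ01, hχ1, hΦ0, hΦd, hΦs, -⟩ :=
    exists_cutoff_flow hX (isCompact_closedBall (0 : E × E) 20)
  refine ⟨fun v => (Φ 1 (x, mom Θ x v)).1, ?_, fun v hv => ?_⟩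
  · exact contDiff_fst.comp ((hΦs 1 zero_le_one).comp
      (contDiff_const.prodMk (contDiff_mom_right Θ x)))
  set z : ℝ → E × E := fun t => Φ t (x, mom Θ x v) with hz
  have hzd : ∀ t, HasDerivAt z (χ (z t) • X (z t)) t := fun t => hΦd t _
  have hz0 : z 0 = (x, mom Θ x v) := hΦ0 _
  set w : ℝ → E := fun t => vel Θ (z t).1 (z t).2 with hw
  have hmom : ∀ t, mom Θ (z t).1 (w t) = (z t).2 := fun t => mom_vel h _ _
  have hw0 : w 0 = v := by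
    simp only [hw, hz0]
    exact vel_mom h x v
  have hz1 : ∀ t, HasDerivAt (fun s => (z s).1) (χ (z t) • w t) t := fun t =>
    (hasFDerivAt_fst (𝕜 := ℝ) (p := z t)).comp_hasDerivAt t (hzd t)
  have hz2 : ∀ t, HasDerivAt (fun s => (z s).2) (χ (z t) • force Θ (z t).1 (w t)) t := fun t =>
    (hasFDerivAt_snd (𝕜 := ℝ) (p := z t)).comp_hasDerivAt t (hzd t)
  have hz2' : ∀ t, HasDerivAt (fun s => mom Θ (z s).1 (w s))
      (χ (z t) • force Θ (z t).1 (w t)) t := by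
    intro t
    have : (fun s => mom Θ (z s).1 (w s)) = fun s => (z s).2 := funext hmom
    rw [this]
    exact hz2 t
  have hwd : ∀ t, DifferentiableAt ℝ w t := fun t =>
    DifferentiableAt.comp t ((hvel.differentiable (by simp)) (z t)) (hzd t).differentiableAt
  have hen : ∀ t, HasDerivAt (fun τ => gT Θ (z τ).1 (w τ) (w τ)) 0 t := by
    intro t
    have := energy_deriv (s := univ) (t := t) (c := χ (z t)) h uniqueDiffWithinAt_univ
      (mem_univ t) (hz1 t).hasDerivWithinAt (hz2' t).hasDerivWithinAt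
      (hwd t).differentiableWithinAt
    exact this.hasDerivAt Filter.univ_mem
  have hen' : ∀ t, gT Θ (z t).1 (w t) (w t) = gT Θ x v v := by
    intro t
    have h1 := is_const_of_deriv_eq_zero (f := fun τ => gT Θ (z τ).1 (w τ) (w τ))
      (fun t => (hen t).differentiableAt) (fun t => (hen t).deriv) t 0
    rw [h1, hz0, hw0]
  have hwn : ∀ t, ‖w t‖ ≤ 4 := by
    intro t
    have h1 := abs_le.1 (gT_self_sub_le (hs (z t).1) (w t))
    have h2 := abs_le.1 (gT_self_sub_le (hs x) v)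
    rw [hen' t] at h1
    have h3 : ‖w t‖ ^ 2 ≤ 4 ^ 2 := by nlinarith [h1.1, h2.2, norm_nonneg v]
    exact (sq_le_sq₀ (norm_nonneg _) (by norm_num)).1 h3
  have hy : ∀ t ∈ Icc (0 : ℝ) 1, ‖(z t).1‖ ≤ 6 := by
    intro t ht
    have h1 : ‖(z t).1 - (z 0).1‖ ≤ 4 * ‖t - 0‖ := by
      refine Convex.norm_image_sub_le_of_norm_hasDerivWithin_le (f := fun s => (z s).1)
        (s := univ) (fun s _ => (hz1 s).hasDerivWithinAt) (fun s _ => ?_) convex_univ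
        (mem_univ _) (mem_univ _)
      rw [norm_smul, Real.norm_eq_abs, abs_of_nonneg (hχ01 _).1]
      have := hwn s
      have h2 := hχ01 (z s)
      nlinarith [norm_nonneg (w s)]
    rw [hz0, sub_zero, Real.norm_eq_abs, abs_of_nonneg ht.1] at h1
    have h2 : ‖(z t).1‖ ≤ ‖(z t).1 - x‖ + ‖x‖ := by
      have := norm_add_le ((z t).1 - x) x
      simpa using this
    simp only at h1
    linarith [ht.2]
  have hzK : ∀ t ∈ Icc (0 : ℝ) 1, z t ∈ closedBall (0 : E × E) 20 := by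
    intro t ht
    rw [mem_closedBall_zero_iff, Prod.norm_def]
    refine max_le ((hy t ht).trans (by norm_num)) ?_
    rw [← hmom t]
    refine (norm_mom_le' (hs _) _).trans ?_
    nlinarith [hwn t]
  refine ⟨fun t => (z t).1, w, ⟨fun t ht => ?_, fun t ht => ?_, fun t _ =>
    (hwd t).differentiableWithinAt⟩, by simp [hz0], hw0, rfl⟩
  · have := (hz1 t).hasDerivWithinAt (s := Icc 0 1)
    rw [hχ1 _ (hzK t ht), one_smul] at this
    exact this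
  · have := (hz2' t).hasDerivWithinAt (s := Icc 0 1)
    rw [hχ1 _ (hzK t ht), one_smul] at this
    exact this

end Pool.Agent.Lib_MP_a29272_q1
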