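import Pool.Agent.Lib_MP_a29272_q1.Ham
import Pool.Agent.Lib_MP_5027f4_mp.Flow

/-! Uniqueness of the geodesics of `gT Θ` (piece UNIQ of `ExpMap.lean`). -/

namespace Pool.Agent.Lib_MP_a29272_q1

open Set Metric
open scoped ContDiff RealInnerProductSpace
open Pool.Agent.MP_5027f4_mp

variable {E : Type} [NormedAddCommGroup E] [InnerProductSpace ℝ E] [FiniteDimensional ℝ E]

/-- the Hamiltonian field `(x, p) ↦ (vel x p, force x (vel x p))` -/
noncomputable def hamField (Θ : E → E) (z : E × E) : E × E :=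
  (vel Θ z.1 z.2, force Θ z.1 (vel Θ z.1 z.2))

theorem contDiff_hamField {Θ : E → E} (h : Adm Θ) : ContDiff ℝ ∞ (hamField Θ) := by
  have h1 := contDiff_vel h
  exact h1.prodMk ((contDiff_force h.smooth).comp (contDiff_fst.prodMk h1))

theorem HamSol.solves {Θ : E → E} (h : Adm Θ) {T : ℝ} {x v : ℝ → E} (h1 : HamSol Θ T x v) :
    Solves (hamField Θ) univ (Icc 0 T) (fun t => (x t, mom Θ (x t) (v t))) := by
  intro t ht
  refine ⟨mem_univ _, ?_⟩
  have h2 := (h1.dx t ht).prodMk (h1.dp t ht)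
  have h3 : hamField Θ (x t, mom Θ (x t) (v t)) = (v t, force Θ (x t) (v t)) := by
    simp only [hamField, vel_mom h]
  rw [h3]
  exact h2

/-- PIECE UNIQ: uniqueness for the field `(x, p) ↦ (vel x p, force x (vel x p))`
(`Solves.eqOn_of_eq` of `Lib_MP_5027f4_mp/Flow.lean`) -/
theorem HamSol.unique' {Θ : E → E} (h : Adm Θ) {T : ℝ} {x v y w : ℝ → E}
    (h1 : HamSol Θ T x v) (h2 : HamSol Θ T y w) (h0 : x 0 = y 0) (h0' : v 0 = w 0) :
    ∀ t ∈ Icc 0 T, x t = y t ∧ v t = w t := by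
  intro t ht
  have h3 := (h1.solves h).eqOn_of_eq isOpen_univ
    ((contDiff_hamField h).of_le (by norm_cast)).contDiffOn (h2.solves h)
    (by simp only [h0, h0']) ht
  have h4 : x t = y t := congrArg Prod.fst h3
  have h5 : mom Θ (x t) (v t) = mom Θ (y t) (w t) := congrArg Prod.snd h3
  refine ⟨h4, ?_⟩
  rw [← vel_mom h (x t) (v t), h5, h4, vel_mom h]

end Pool.Agent.Lib_MP_a29272_q1
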