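import Pool.Agent.Lib_MP_a29272_q1.Ham
import Pool.Agent.Lib_MP_a29272_q1.Flow
import Pool.Agent.Lib_MP_a29272_q1.ExpExist
import Pool.Agent.Lib_MP_a29272_q1.ExpUniq

/-! The exponential map. `exists_exp` is proved in `ExpExist.lean`, uniqueness in
`ExpUniq.lean`. -/

namespace Pool.Agent.Lib_MP_a29272_q1

open Set Metric
open scoped ContDiff RealInnerProductSpace

variable {E : Type} [NormedAddCommGroup E] [InnerProductSpace ℝ E] [FiniteDimensional ℝ E]

/-- Uniqueness for the field `(x, p) ↦ (vel x p, force x (vel x p))`. -/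
theorem HamSol.unique {Θ : E → E} (h : Adm Θ) {T : ℝ} {x v y w : ℝ → E}
    (h1 : HamSol Θ T x v) (h2 : HamSol Θ T y w) (h0 : x 0 = y 0) (h0' : v 0 = w 0) :
    ∀ t ∈ Icc 0 T, x t = y t ∧ v t = w t :=
  HamSol.unique' h h1 h2 h0 h0'

end Pool.Agent.Lib_MP_a29272_q1
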