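import Pool.Agent.Lib_MP_a29272_q1.Adm

/-!
# The Hamiltonian form of the geodesic equation of `gT Θ`
-/

namespace Pool.Agent.Lib_MP_a29272_q1

set_option linter.unusedSectionVars false

open Set Metric
open scoped ContDiff RealInnerProductSpace

section Christoffel

variable {E : Type} [NormedAddCommGroup E] [InnerProductSpace ℝ E] [FiniteDimensional ℝ E]

theorem inverse_spec (B : E →L[ℝ] E →L[ℝ] ℝ) (hB : ∀ v, v ≠ 0 → 0 < B v v) (ℓ : E →L[ℝ] ℝ) :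
    B (B.inverse ℓ) = ℓ := by
  have hinj : Function.Injective B := by
    rw [injective_iff_map_eq_zero]
    intro v hv
    by_contra hne
    have := hB v hne
    rw [hv] at this
    simp at this
  have hfin : Module.finrank ℝ E = Module.finrank ℝ (E →L[ℝ] ℝ) := by
    have h1 : Module.finrank ℝ (E →ₗ[ℝ] ℝ) = Module.finrank ℝ (E →L[ℝ] ℝ) :=
      LinearEquiv.finrank_eq LinearMap.toContinuousLinearMap
    rw [← h1]
    exact (Subspace.dual_finrank_eq (K := ℝ) (V := E)).symm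
  let L : E ≃ₗ[ℝ] (E →L[ℝ] ℝ) :=
    LinearEquiv.ofBijective (B : E →ₗ[ℝ] (E →L[ℝ] ℝ))
      ⟨hinj, (LinearMap.injective_iff_surjective_of_finrank_eq_finrank hfin).1 hinj⟩
  let e : E ≃L[ℝ] (E →L[ℝ] ℝ) := L.toContinuousLinearEquiv
  have he : (e : E →L[ℝ] (E →L[ℝ] ℝ)) = B := by
    ext v
    rfl
  have : B.inverse = e.symm := by
    rw [← he]
    exact ContinuousLinearMap.inverse_equiv e
  rw [this]
  have h2 : B (e.symm ℓ) = e (e.symm ℓ) := by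
    rw [← he]
    rfl
  exact h2.trans (e.apply_symm_apply ℓ)

theorem christoffel_spec (g : E → E →L[ℝ] E →L[ℝ] ℝ) (x : E) (hx : ∀ v, v ≠ 0 → 0 < g x v v)
    (v w z : E) :
    g x (christoffel g x v w) z =
      (1 / 2) * (fderiv ℝ g x v w z + fderiv ℝ g x w v z - fderiv ℝ g x z v w) := by
  rw [christoffel, inverse_spec (g x) hx]
  simp

/-- A vector is the Christoffel symbol as soon as it satisfies its defining equation. -/
theorem christoffel_unique (g : E → E →L[ℝ] E →L[ℝ] ℝ) (x : E) (hx : ∀ v, v ≠ 0 → 0 < g x v v)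
    {v w y : E}
    (hy : ∀ z, g x y z =
      (1 / 2) * (fderiv ℝ g x v w z + fderiv ℝ g x w v z - fderiv ℝ g x z v w)) :
    christoffel g x v w = y := by
  by_contra hne
  have h0 : christoffel g x v w - y ≠ 0 := sub_ne_zero.2 hne
  have h1 := hx _ h0
  have h2 : g x (christoffel g x v w - y) (christoffel g x v w - y) = 0 := by
    rw [map_sub (g x), sub_apply, christoffel_spec g x hx, hy, sub_self]
  linarith

end Christoffel

section Metric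

variable {E : Type} [NormedAddCommGroup E] [InnerProductSpace ℝ E]

theorem inner_mom (Θ : E → E) (x v w : E) : ⟪mom Θ x v, w⟫ = gT Θ x v w := by
  rw [gT_apply, mom]
  simp only [inner_add_left, real_inner_smul_left]
  ring

theorem gT_eq_inner (Θ : E → E) (x u v : E) : gT Θ x u v = ⟪mom Θ x u, v⟫ :=
  (inner_mom Θ x u v).symm

theorem gT_symm (Θ : E → E) (x u v : E) : gT Θ x u v = gT Θ x v u := by
  rw [gT_apply, gT_apply, real_inner_comm]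
  ring

theorem gT_contDiff {Θ : E → E} {n : ℕ∞ω} (hΘ : ContDiff ℝ n Θ) : ContDiff ℝ n (gT Θ) := by
  unfold gT
  have h1 : ContDiff ℝ n fun x : E => inn x := (inn (E := E)).contDiff
  have h2 : ContDiff ℝ n fun x : E => inn (Θ x) := (inn (E := E)).contDiff.comp hΘ
  exact (contDiff_const.add (h1.smulRight h2)).add (h2.smulRight h1)

theorem abs_cross_le (Θ : E → E) (x v : E) :
    |⟪x, v⟫ * ⟪Θ x, v⟫| ≤ ‖x‖ * ‖Θ x‖ * ‖v‖ ^ 2 := by
  rw [abs_mul]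
  calc |⟪x, v⟫| * |⟪Θ x, v⟫| ≤ (‖x‖ * ‖v‖) * (‖Θ x‖ * ‖v‖) := by
        gcongr
        · exact abs_real_inner_le_norm _ _
        · exact abs_real_inner_le_norm _ _
    _ = _ := by ring

theorem gT_self_lower (Θ : E → E) (x v : E) :
    (1 - 2 * (‖x‖ * ‖Θ x‖)) * ‖v‖ ^ 2 ≤ gT Θ x v v := by
  have := (abs_le.1 (abs_cross_le Θ x v)).1
  rw [gT_apply, real_inner_self_eq_norm_sq]
  nlinarith

theorem gT_self_upper (Θ : E → E) (x v : E) :
    gT Θ x v v ≤ (1 + 2 * (‖x‖ * ‖Θ x‖)) * ‖v‖ ^ 2 := by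
  have := (abs_le.1 (abs_cross_le Θ x v)).2
  rw [gT_apply, real_inner_self_eq_norm_sq]
  nlinarith

/-- for orthogonal vectors `a`, `b`: `2 |⟪a, v⟫ ⟪b, v⟫| ≤ ‖a‖ ‖b‖ ‖v‖²` -/
theorem two_mul_inner_le {a b : E} (hab : ⟪a, b⟫ = 0) (v : E) :
    |2 * (⟪a, v⟫ * ⟪b, v⟫)| ≤ ‖a‖ * ‖b‖ * ‖v‖ ^ 2 := by
  have key : ∀ b : E, ⟪a, b⟫ = 0 → 2 * (⟪a, v⟫ * ⟪b, v⟫) ≤ ‖a‖ * ‖b‖ * ‖v‖ ^ 2 := by
    intro b hab
    rcases eq_or_ne a 0 with rfl | ha
    · simp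
    rcases eq_or_ne b 0 with rfl | hb
    · simp
    have hpos : 0 < ‖a‖ * ‖b‖ := mul_pos (norm_pos_iff.2 ha) (norm_pos_iff.2 hb)
    have h1 : ⟪‖b‖ • a + ‖a‖ • b, v⟫ = ‖b‖ * ⟪a, v⟫ + ‖a‖ * ⟪b, v⟫ := by
      rw [inner_add_left, real_inner_smul_left, real_inner_smul_left]
    have h2 : ‖‖b‖ • a + ‖a‖ • b‖ ^ 2 = 2 * (‖a‖ * ‖b‖) ^ 2 := by
      rw [← real_inner_self_eq_norm_sq, inner_add_left, inner_add_right, inner_add_right]
      simp only [real_inner_smul_left, real_inner_smul_right, hab, real_inner_comm a b,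
        real_inner_self_eq_norm_sq, norm_smul, norm_norm]
      ring
    have h3 : (‖b‖ * ⟪a, v⟫ + ‖a‖ * ⟪b, v⟫) ^ 2 ≤ 2 * (‖a‖ * ‖b‖) ^ 2 * ‖v‖ ^ 2 := by
      rw [← h1, ← h2, ← mul_pow, ← sq_abs]
      exact pow_le_pow_left₀ (abs_nonneg _) (abs_real_inner_le_norm _ _) 2
    have h4 : (‖a‖ * ‖b‖) * (2 * (⟪a, v⟫ * ⟪b, v⟫)) ≤ (‖a‖ * ‖b‖) * (‖a‖ * ‖b‖ * ‖v‖ ^ 2) := by
      nlinarith [sq_nonneg (‖b‖ * ⟪a, v⟫ - ‖a‖ * ⟪b, v⟫)]
    exact le_of_mul_le_mul_left h4 hpos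
  rw [abs_le]
  constructor
  · have := key (-b) (by rw [inner_neg_right, hab, neg_zero])
    rw [inner_neg_left, norm_neg] at this
    linarith
  · exact key b hab

theorem gT_lower {Θ : E → E} {x : E} (ho : ⟪x, Θ x⟫ = 0) (v : E) :
    (1 - ‖x‖ * ‖Θ x‖) * ‖v‖ ^ 2 ≤ gT Θ x v v := by
  have := (abs_le.1 (two_mul_inner_le ho v)).1
  rw [gT_apply, real_inner_self_eq_norm_sq]
  linarith

theorem gT_upper {Θ : E → E} {x : E} (ho : ⟪x, Θ x⟫ = 0) (v : E) :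
    gT Θ x v v ≤ (1 + ‖x‖ * ‖Θ x‖) * ‖v‖ ^ 2 := by
  have := (abs_le.1 (two_mul_inner_le ho v)).2
  rw [gT_apply, real_inner_self_eq_norm_sq]
  linarith

theorem gT_pos {Θ : E → E} (h : Adm Θ) (x : E) {v : E} (hv : v ≠ 0) : 0 < gT Θ x v v := by
  refine lt_of_lt_of_le ?_ (gT_lower (h.orth x) v)
  have h1 : 0 < ‖v‖ := norm_pos_iff.2 hv
  have h2 : 0 < 1 - ‖x‖ * ‖Θ x‖ := by linarith [h.small x]
  positivity

theorem Adm.contDiff_one {Θ : E → E} (h : Adm Θ) : ContDiff ℝ 1 Θ := h.smooth.of_le (by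
  exact_mod_cast le_top)

theorem Adm.denom_pos {Θ : E → E} (h : Adm Θ) (x : E) : 0 < 1 - ‖x‖ ^ 2 * ‖Θ x‖ ^ 2 := by
  have h1 := h.small x
  have h2 : 0 ≤ ‖x‖ * ‖Θ x‖ := by positivity
  nlinarith

/-- the directional derivatives of the metric -/
theorem fderiv_gT {Θ : E → E} (hΘ : ContDiff ℝ 1 Θ) (x u v w : E) :
    fderiv ℝ (gT Θ) x u v w =
      ⟪u, v⟫ * ⟪Θ x, w⟫ + ⟪x, v⟫ * ⟪fderiv ℝ Θ x u, w⟫ + ⟪u, w⟫ * ⟪Θ x, v⟫ +
        ⟪x, w⟫ * ⟪fderiv ℝ Θ x u, v⟫ := by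
  have hc : HasDerivAt (fun t : ℝ => x + t • u) u 0 := by
    simpa using ((hasDerivAt_id (0 : ℝ)).smul_const u).const_add x
  have hx0 : x + (0 : ℝ) • u = x := by simp
  have hΘ' : HasDerivAt (fun t : ℝ => Θ (x + t • u)) (fderiv ℝ Θ x u) 0 := by
    have h1 : HasFDerivAt Θ (fderiv ℝ Θ x) (x + (0 : ℝ) • u) := by
      rw [hx0]; exact (hΘ.differentiable (by simp) x).hasFDerivAt
    exact HasFDerivAt.comp_hasDerivAt (f := fun t : ℝ => x + t • u) (l := Θ) 0 h1 hc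
  have hg : DifferentiableAt ℝ (gT Θ) x := (gT_contDiff hΘ).differentiable (by simp) x
  have h1 : HasDerivAt (fun t : ℝ => gT Θ (x + t • u)) (fderiv ℝ (gT Θ) x u) 0 := by
    have h1 : HasFDerivAt (gT Θ) (fderiv ℝ (gT Θ) x) (x + (0 : ℝ) • u) := by
      rw [hx0]; exact hg.hasFDerivAt
    exact HasFDerivAt.comp_hasDerivAt (f := fun t : ℝ => x + t • u) (l := gT Θ) 0 h1 hc
  have h2 : HasDerivAt (fun t : ℝ => gT Θ (x + t • u) v w) (fderiv ℝ (gT Θ) x u v w) 0 := by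
    have := (h1.clm_apply (hasDerivAt_const (0 : ℝ) v)).clm_apply (hasDerivAt_const (0 : ℝ) w)
    simpa using this
  have h3 : HasDerivAt (fun t : ℝ => gT Θ (x + t • u) v w)
      (⟪u, v⟫ * ⟪Θ x, w⟫ + ⟪x, v⟫ * ⟪fderiv ℝ Θ x u, w⟫ + ⟪u, w⟫ * ⟪Θ x, v⟫ +
        ⟪x, w⟫ * ⟪fderiv ℝ Θ x u, v⟫) 0 := by
    have hf : (fun t : ℝ => gT Θ (x + t • u) v w) = fun t : ℝ =>
        ⟪v, w⟫ + ⟪x + t • u, v⟫ * ⟪Θ (x + t • u), w⟫ + ⟪x + t • u, w⟫ * ⟪Θ (x + t • u), v⟫ := by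
      funext t
      exact gT_apply _ _ _ _
    rw [hf]
    have a1 : ∀ z : E, HasDerivAt (fun t : ℝ => ⟪x + t • u, z⟫) ⟪u, z⟫ 0 := fun z => by
      simpa using hc.inner ℝ (hasDerivAt_const (0 : ℝ) z)
    have a2 : ∀ z : E, HasDerivAt (fun t : ℝ => ⟪Θ (x + t • u), z⟫) ⟪fderiv ℝ Θ x u, z⟫ 0 :=
      fun z => by
        simpa using hΘ'.inner ℝ (hasDerivAt_const (0 : ℝ) z)
    have := ((hasDerivAt_const (0 : ℝ) ⟪v, w⟫).add ((a1 v).mul (a2 w))).add ((a1 w).mul (a2 v))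
    refine this.congr_deriv ?_
    simp only [hx0]
    ring
  exact h2.unique h3

/-- `⟪x, mom⟫` -/
theorem inner_self_mom {Θ : E → E} {x : E} (ho : ⟪x, Θ x⟫ = 0) (v : E) :
    ⟪x, mom Θ x v⟫ = ⟪x, v⟫ + ‖x‖ ^ 2 * ⟪Θ x, v⟫ := by
  rw [mom, inner_add_right, inner_add_right, real_inner_smul_right, real_inner_smul_right, ho,
    real_inner_self_eq_norm_sq]
  ring

theorem inner_shift_mom {Θ : E → E} {x : E} (ho : ⟪x, Θ x⟫ = 0) (v : E) :
    ⟪Θ x, mom Θ x v⟫ = ⟪Θ x, v⟫ + ‖Θ x‖ ^ 2 * ⟪x, v⟫ := by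
  rw [mom, inner_add_right, inner_add_right, real_inner_smul_right, real_inner_smul_right,
    real_inner_comm x (Θ x), ho, real_inner_self_eq_norm_sq]
  ring

theorem vel_mom {Θ : E → E} (hΘ : Adm Θ) (x v : E) : vel Θ x (mom Θ x v) = v := by
  have ho := hΘ.orth x
  have h := (hΘ.denom_pos x).ne'
  rw [vel, inner_self_mom ho, inner_shift_mom ho]
  have h1 : (⟪x, v⟫ + ‖x‖ ^ 2 * ⟪Θ x, v⟫ - ‖x‖ ^ 2 * (⟪Θ x, v⟫ + ‖Θ x‖ ^ 2 * ⟪x, v⟫)) /
      (1 - ‖x‖ ^ 2 * ‖Θ x‖ ^ 2) = ⟪x, v⟫ := by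
    rw [div_eq_iff h]; ring
  have h2 : (⟪Θ x, v⟫ + ‖Θ x‖ ^ 2 * ⟪x, v⟫ - ‖Θ x‖ ^ 2 * (⟪x, v⟫ + ‖x‖ ^ 2 * ⟪Θ x, v⟫)) /
      (1 - ‖x‖ ^ 2 * ‖Θ x‖ ^ 2) = ⟪Θ x, v⟫ := by
    rw [div_eq_iff h]; ring
  rw [h1, h2, mom]
  module

theorem mom_vel {Θ : E → E} (hΘ : Adm Θ) (x p : E) : mom Θ x (vel Θ x p) = p := by
  have ho := hΘ.orth x
  have h := (hΘ.denom_pos x).ne'
  set a := (⟪x, p⟫ - ‖x‖ ^ 2 * ⟪Θ x, p⟫) / (1 - ‖x‖ ^ 2 * ‖Θ x‖ ^ 2) with ha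
  set b := (⟪Θ x, p⟫ - ‖Θ x‖ ^ 2 * ⟪x, p⟫) / (1 - ‖x‖ ^ 2 * ‖Θ x‖ ^ 2) with hb
  have ha' : a * (1 - ‖x‖ ^ 2 * ‖Θ x‖ ^ 2) = ⟪x, p⟫ - ‖x‖ ^ 2 * ⟪Θ x, p⟫ := by
    rw [ha]; exact div_mul_cancel₀ _ h
  have hb' : b * (1 - ‖x‖ ^ 2 * ‖Θ x‖ ^ 2) = ⟪Θ x, p⟫ - ‖Θ x‖ ^ 2 * ⟪x, p⟫ := by
    rw [hb]; exact div_mul_cancel₀ _ h
  have hv : vel Θ x p = p - a • Θ x - b • x := rfl
  have h1 : ⟪x, vel Θ x p⟫ = a := by
    rw [hv, inner_sub_right, inner_sub_right, real_inner_smul_right, real_inner_smul_right, ho,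
      real_inner_self_eq_norm_sq]
    apply mul_right_cancel₀ h
    linear_combination (-‖x‖ ^ 2) * hb' - ha'
  have h2 : ⟪Θ x, vel Θ x p⟫ = b := by
    rw [hv, inner_sub_right, inner_sub_right, real_inner_smul_right, real_inner_smul_right,
      real_inner_comm x (Θ x), ho, real_inner_self_eq_norm_sq]
    apply mul_right_cancel₀ h
    linear_combination (-‖Θ x‖ ^ 2) * ha' - hb'
  rw [mom, h1, h2, hv]
  module

theorem contDiff_vel {Θ : E → E} (h : Adm Θ) :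
    ContDiff ℝ ∞ (fun z : E × E => vel Θ z.1 z.2) := by
  unfold vel
  have hT : ContDiff ℝ ∞ (fun z : E × E => Θ z.1) := h.smooth.comp contDiff_fst
  have h1 : ContDiff ℝ ∞ (fun z : E × E => ⟪z.1, z.2⟫) := contDiff_fst.inner ℝ contDiff_snd
  have h2 : ContDiff ℝ ∞ (fun z : E × E => ⟪Θ z.1, z.2⟫) := hT.inner ℝ contDiff_snd
  have h3 : ContDiff ℝ ∞ (fun z : E × E => ‖z.1‖ ^ 2) := contDiff_fst.norm_sq ℝ
  have h4 : ContDiff ℝ ∞ (fun z : E × E => ‖Θ z.1‖ ^ 2) := hT.norm_sq ℝ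
  have h5 : ContDiff ℝ ∞ (fun z : E × E => 1 - ‖z.1‖ ^ 2 * ‖Θ z.1‖ ^ 2) :=
    contDiff_const.sub (h3.mul h4)
  have h6 : ∀ z : E × E, 1 - ‖z.1‖ ^ 2 * ‖Θ z.1‖ ^ 2 ≠ 0 := fun z => (h.denom_pos z.1).ne'
  exact (contDiff_snd.sub (((h1.sub (h3.mul h2)).div h5 h6).smul hT)).sub
    (((h2.sub (h4.mul h1)).div h5 h6).smul contDiff_fst)

end Metric

section Geodesic

variable {E : Type} [NormedAddCommGroup E] [InnerProductSpace ℝ E] [FiniteDimensional ℝ E]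

theorem inner_force (Θ : E → E) (x v z : E) :
    ⟪force Θ x v, z⟫ = ⟪Θ x, v⟫ * ⟪v, z⟫ + ⟪x, v⟫ * ⟪v, fderiv ℝ Θ x z⟫ := by
  rw [force, inner_add_left, real_inner_smul_left, real_inner_smul_left,
    ContinuousLinearMap.adjoint_inner_left]

theorem inner_force_eq {Θ : E → E} (hΘ : ContDiff ℝ 1 Θ) (x v z : E) :
    ⟪force Θ x v, z⟫ = (1 / 2) * fderiv ℝ (gT Θ) x z v v := by
  rw [fderiv_gT hΘ, inner_force, real_inner_comm v z, real_inner_comm (fderiv ℝ Θ x z) v]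
  ring

/-- the derivative of `mom Θ (x t) (v t)` -/
noncomputable def dmom (Θ : E → E) (x v u : E) : E :=
  (⟪u, v⟫) • Θ x + ⟪x, v⟫ • fderiv ℝ Θ x u + ⟪fderiv ℝ Θ x u, v⟫ • x + ⟪Θ x, v⟫ • u

theorem inner_dmom {Θ : E → E} (hΘ : ContDiff ℝ 1 Θ) (x v u z : E) :
    ⟪dmom Θ x v u, z⟫ = fderiv ℝ (gT Θ) x u v z := by
  rw [fderiv_gT hΘ, dmom]
  simp only [inner_add_left, real_inner_smul_left]
  ring

theorem hasDerivWithinAt_mom {Θ : E → E} (hΘ : ContDiff ℝ 1 Θ) {x v : ℝ → E} {u w : E}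
    {s : Set ℝ} {t : ℝ} (hx : HasDerivWithinAt x u s t) (hv : HasDerivWithinAt v w s t) :
    HasDerivWithinAt (fun r => mom Θ (x r) (v r)) (dmom Θ (x t) (v t) u + mom Θ (x t) w) s t := by
  have hΘ' : HasDerivWithinAt (fun r => Θ (x r)) (fderiv ℝ Θ (x t) u) s t :=
    (hΘ.differentiable (by simp) (x t)).hasFDerivAt.comp_hasDerivWithinAt t hx
  have h1 : HasDerivWithinAt (fun r => ⟪x r, v r⟫) (⟪x t, w⟫ + ⟪u, v t⟫) s t := hx.inner ℝ hv
  have h2 : HasDerivWithinAt (fun r => ⟪Θ (x r), v r⟫)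
      (⟪Θ (x t), w⟫ + ⟪fderiv ℝ Θ (x t) u, v t⟫) s t := hΘ'.inner ℝ hv
  have h3 := (hv.add (h1.smul hΘ')).add (h2.smul hx)
  refine h3.congr_deriv ?_
  rw [dmom, mom]
  module

theorem contDiff_force {Θ : E → E} (h : ContDiff ℝ ∞ Θ) :
    ContDiff ℝ ∞ (fun z : E × E => force Θ z.1 z.2) := by
  have hf : (fun z : E × E => force Θ z.1 z.2) = fun z : E × E => ⟪Θ z.1, z.2⟫ • z.2 +
      ⟪z.1, z.2⟫ • ∑ i, ⟪fderiv ℝ Θ z.1 (stdOrthonormalBasis ℝ E i), z.2⟫ •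
        stdOrthonormalBasis ℝ E i := by
    funext z
    rw [force, ← (stdOrthonormalBasis ℝ E).sum_repr'
      ((ContinuousLinearMap.adjoint (fderiv ℝ Θ z.1)) z.2)]
    simp only [ContinuousLinearMap.adjoint_inner_right]
  rw [hf]
  have hT : ContDiff ℝ ∞ (fun z : E × E => Θ z.1) := h.comp contDiff_fst
  have h1 : ContDiff ℝ ∞ (fun z : E × E => ⟪z.1, z.2⟫) := contDiff_fst.inner ℝ contDiff_snd
  have h2 : ContDiff ℝ ∞ (fun z : E × E => ⟪Θ z.1, z.2⟫) := hT.inner ℝ contDiff_snd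
  have h3 : ContDiff ℝ ∞ (fderiv ℝ Θ) := h.fderiv_right (by simp)
  have h4 : ContDiff ℝ ∞ (fun z : E × E => fderiv ℝ Θ z.1) := h3.comp contDiff_fst
  refine (h2.smul contDiff_snd).add (h1.smul (ContDiff.sum fun i _ => ?_))
  exact ((h4.clm_apply contDiff_const).inner ℝ contDiff_snd).smul contDiff_const

theorem mom_injective {Θ : E → E} (h : Adm Θ) (x : E) : Function.Injective (mom Θ x) :=
  Function.LeftInverse.injective (vel_mom h x)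

theorem force_eq {Θ : E → E} (h : Adm Θ) (x v : E) :
    dmom Θ x v v + mom Θ x (-(christoffel (gT Θ) x v v)) = force Θ x v := by
  refine ext_inner_right ℝ fun z => ?_
  rw [inner_add_left, inner_dmom h.contDiff_one, inner_force_eq h.contDiff_one, ← gT_eq_inner,
    map_neg, neg_apply, christoffel_spec (gT Θ) x (fun v hv => gT_pos h x hv)]
  ring

/-- geodesics are Hamiltonian solutions -/
theorem IsGeodesicOn.hamSol {Θ : E → E} (h : Adm Θ) {T : ℝ} (_hT : 0 < T) {x v : ℝ → E}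
    (hs : IsGeodesicOn (gT Θ) x v (Icc 0 T)) : HamSol Θ T x v where
  dx := fun t ht => (hs t ht).1
  dp := fun t ht => (hasDerivWithinAt_mom h.contDiff_one (hs t ht).1 (hs t ht).2).congr_deriv
    (force_eq h (x t) (v t))
  dv := fun t ht => (hs t ht).2.differentiableWithinAt

/-- Hamiltonian solutions are geodesics -/
theorem HamSol.isGeodesicOn {Θ : E → E} (h : Adm Θ) {T : ℝ} (hT : 0 < T) {x v : ℝ → E}
    (hs : HamSol Θ T x v) : IsGeodesicOn (gT Θ) x v (Icc 0 T) := by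
  intro t ht
  refine ⟨hs.dx t ht, ?_⟩
  obtain ⟨w, hw⟩ : ∃ w, HasDerivWithinAt v w (Icc 0 T) t := ⟨_, (hs.dv t ht).hasDerivWithinAt⟩
  have h1 := hasDerivWithinAt_mom h.contDiff_one (hs.dx t ht) hw
  have h2 := (uniqueDiffOn_Icc hT t ht).eq_deriv _ h1 (hs.dp t ht)
  have h4 : mom Θ (x t) w = mom Θ (x t) (-(christoffel (gT Θ) (x t) (v t) (v t))) := by
    rw [← force_eq h (x t) (v t)] at h2
    exact add_left_cancel h2
  rwa [mom_injective h _ h4] at hw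

/-- conservation of energy, also for a rescaled field -/
theorem energy_deriv {Θ : E → E} (h : Adm Θ) {x v : ℝ → E} {c : ℝ} {s : Set ℝ} {t : ℝ}
    (hs : UniqueDiffWithinAt ℝ s t) (_ht : t ∈ s)
    (hx : HasDerivWithinAt x (c • v t) s t)
    (hp : HasDerivWithinAt (fun τ => mom Θ (x τ) (v τ)) (c • force Θ (x t) (v t)) s t)
    (hv : DifferentiableWithinAt ℝ v s t) :
    HasDerivWithinAt (fun τ => gT Θ (x τ) (v τ) (v τ)) 0 s t := by
  obtain ⟨w, hw⟩ : ∃ w, HasDerivWithinAt v w s t := ⟨_, hv.hasDerivWithinAt⟩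
  have h1 := hs.eq_deriv _ (hasDerivWithinAt_mom h.contDiff_one hx hw) hp
  have h2 : HasDerivWithinAt (fun τ => gT Θ (x τ) (v τ) (v τ))
      (⟪mom Θ (x t) (v t), w⟫ + ⟪c • force Θ (x t) (v t), v t⟫) s t := by
    simp only [gT_eq_inner]
    exact hp.inner ℝ hw
  refine h2.congr_deriv ?_
  have h3 : ⟪mom Θ (x t) w, v t⟫ =
      ⟪c • force Θ (x t) (v t), v t⟫ - ⟪dmom Θ (x t) (v t) (c • v t), v t⟫ := by
    rw [← h1, inner_add_left]
    ring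
  rw [inner_mom, gT_symm, ← inner_mom, h3, inner_dmom h.contDiff_one, real_inner_smul_left,
    inner_force_eq h.contDiff_one, map_smul, smul_apply, smul_apply, smul_eq_mul]
  ring

theorem HamSol.energy {Θ : E → E} (h : Adm Θ) {T : ℝ} {x v : ℝ → E} (hs : HamSol Θ T x v) :
    ∀ t ∈ Icc 0 T, gT Θ (x t) (v t) (v t) = gT Θ (x 0) (v 0) (v 0) := by
  intro t ht
  rcases (ht.1.trans ht.2).eq_or_lt with hT | hT
  · have : t = 0 := le_antisymm (hT ▸ ht.2) ht.1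
    rw [this]
  have hd : ∀ r ∈ Icc 0 T, HasDerivWithinAt (fun τ => gT Θ (x τ) (v τ) (v τ)) 0 (Icc 0 T) r := by
    intro r hr
    refine energy_deriv (c := 1) h (uniqueDiffOn_Icc hT r hr) hr ?_ ?_ (hs.dv r hr)
    · rw [one_smul]; exact hs.dx r hr
    · rw [one_smul]; exact hs.dp r hr
  exact constant_of_has_deriv_right_zero (fun r hr => (hd r hr).continuousWithinAt)
    (fun r hr => (hd r (Ico_subset_Icc_self hr)).mono_of_mem_nhdsWithin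
      (Icc_mem_nhdsGE_of_mem hr)) t ht

theorem mom_smul (Θ : E → E) (x v : E) (c : ℝ) : mom Θ x (c • v) = c • mom Θ x v := by
  rw [mom, mom, real_inner_smul_right, real_inner_smul_right]
  module

theorem force_smul (Θ : E → E) (x v : E) (c : ℝ) :
    force Θ x (c • v) = c ^ 2 • force Θ x v := by
  rw [force, force, real_inner_smul_right, real_inner_smul_right, map_smul]
  module

/-- time scaling -/
theorem HamSol.scale {Θ : E → E} {T c : ℝ} (hc : 0 < c) {x v : ℝ → E} (hs : HamSol Θ T x v) :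
    HamSol Θ (T / c) (fun t => x (c * t)) (fun t => c • v (c * t)) := by
  have hm : MapsTo (fun t : ℝ => c * t) (Icc 0 (T / c)) (Icc 0 T) := by
    intro t ht
    refine ⟨mul_nonneg hc.le ht.1, ?_⟩
    have := mul_le_mul_of_nonneg_left ht.2 hc.le
    rwa [mul_div_cancel₀ _ hc.ne'] at this
  have hd : ∀ t, HasDerivWithinAt (fun t : ℝ => c * t) c (Icc 0 (T / c)) t := fun t => by
    simpa using (hasDerivWithinAt_id t (Icc 0 (T / c))).const_mul c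
  refine ⟨fun t ht => ?_, fun t ht => ?_, fun t ht => ?_⟩
  · exact (hs.dx (c * t) (hm ht)).scomp t (hd t) hm
  · have h1 := ((hs.dp (c * t) (hm ht)).scomp t (hd t) hm).const_smul c
    simp only [mom_smul, force_smul]
    refine h1.congr_deriv ?_
    module
  · exact ((hs.dv (c * t) (hm ht)).comp t (hd t).differentiableWithinAt hm).const_smul c

theorem HamSol.restrict {Θ : E → E} {T T' : ℝ} (hT : T' ≤ T) {x v : ℝ → E}
    (hs : HamSol Θ T x v) : HamSol Θ T' x v := by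
  have hm : Icc 0 T' ⊆ Icc 0 T := Icc_subset_Icc_right hT
  exact ⟨fun t ht => (hs.dx t (hm ht)).mono hm, fun t ht => (hs.dp t (hm ht)).mono hm,
    fun t ht => (hs.dv t (hm ht)).mono hm⟩

end Geodesic

end Pool.Agent.Lib_MP_a29272_q1
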