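import Pool.Agent.Lib_MP_a29272_q1.Ham
import Pool.Agent.Lib_MP_a29272_sp.SPart

/-! A nowhere definite sphere excludes strictly convex functions. -/

namespace Pool.Agent.Lib_MP_a29272_q1

open Set Metric
open scoped ContDiff RealInnerProductSpace

variable {E : Type} [NormedAddCommGroup E] [InnerProductSpace ℝ E] [FiniteDimensional ℝ E]

/-- `⟪x, Γ(e, e)⟫ (1 - ‖Θ‖²) = ⟪D_e Θ, e⟫ - ‖Θ‖² ‖e‖²` on the unit sphere, `e` tangential (step (2)
of note 2801; insert `z = x` and `z = Θ x` in `christoffel_spec`) -/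
theorem inner_christoffel {Θ : E → E} (h : Adm Θ) {x e : E} (hx : ‖x‖ = 1)
    (he : ⟪x, e⟫ = 0) : ⟪x, christoffel (gT Θ) x e e⟫ * (1 - ‖Θ x‖ ^ 2) =
      ⟪fderiv ℝ Θ x e, e⟫ - ‖Θ x‖ ^ 2 * ‖e‖ ^ 2 := by
  have hgd : DifferentiableAt ℝ (gT Θ) x :=
    (gT_contDiff h.smooth).differentiable (by simp) x
  have hΘd : DifferentiableAt ℝ Θ x := h.smooth.differentiable (by simp) x
  rw [Lib_MP_a29272_sp.radial_christoffel (gT_apply Θ) hgd hΘd hx (h.orth x) he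
    (fun z => christoffel_spec (gT Θ) x (fun v hv => gT_pos h x hv) e e z)]
  ring

/-- PIECE NOCONV. Let `p` be a maximum of `f` on the unit sphere, `Df_p = μ ⟪p, ·⟫`, and
`c(t) = cos(|e| t) p + sin(|e| t) e / |e|`. -/
theorem no_convex [Nontrivial E] {Θ : E → E} (h : Adm Θ) (hs : Saddle Θ) {R : ℝ} (hR : 1 < R)
    {f : E → ℝ} (hf : ContDiffOn ℝ 2 f (ball 0 R)) :
    ∃ x ∈ ball (0 : E) R, ∃ v ≠ 0, hessian (gT Θ) f x v v ≤ 0 := by
  have hgd : ∀ p : E, DifferentiableAt ℝ (gT Θ) p := fun p =>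
    (gT_contDiff h.smooth).differentiable (by simp) p
  have hΘd : ∀ p : E, DifferentiableAt ℝ Θ p := fun p => h.smooth.differentiable (by simp) p
  have hsm : ∀ p : E, ‖p‖ = 1 → ‖Θ p‖ < 1 := fun p hp => by
    have := h.small p
    rwa [hp, one_mul] at this
  obtain ⟨x, hx, v, hv, hle⟩ := Lib_MP_a29272_sp.no_convex_of_two_signs (gT_apply Θ)
    (fun p _ => hgd p) (fun p _ => hΘd p) (Γ := christoffel (gT Θ))
    (fun p _ v w z => christoffel_spec (gT Θ) p (fun u hu => gT_pos h p hu) v w z) h.orth hsm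
    (fun p hp => by
      obtain ⟨⟨e1, ha, hb, hc⟩, e2, ha', hb', hc'⟩ := hs p hp
      exact ⟨⟨e1, hb, ha, hc⟩, e2, hb', ha', hc'⟩) hR hf
  exact ⟨x, hx, v, hv, hle⟩

end Pool.Agent.Lib_MP_a29272_q1
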