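import Pool.Agent.Lib_MP_a29272_q1.Defs
import Pool.Agent.Lib_MP_a29272_sp.SPart
import Pool.Agent.Lib_MP_a29272_th.Theta2

/-!
# The shift field: assembly of the bounds and of the saddle property
-/

namespace Pool.Agent.Lib_MP_a29272_q1

open Set Metric
open scoped ContDiff RealInnerProductSpace
open MP_a29272_th (Theta Theta_bounds Theta_contDiff Theta_eq_zero inner_Theta PF Th chi_zero)

theorem PF_par (M : ℕ) (s a b : ℝ) :
    PF M (Pool.Agent.Lib_MP_a29272_sp.par s a b) = Real.cos (2 * M * s) := by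
  have h := Pool.Agent.LibMPa29272s.P_trig M 1 s a b (Pool.Agent.Lib_MP_a29272_sp.par s a b)
    (by simp [Pool.Agent.Lib_MP_a29272_sp.par])
    (by simp [Pool.Agent.Lib_MP_a29272_sp.par])
    (by simp [Pool.Agent.Lib_MP_a29272_sp.par])
    (by simp [Pool.Agent.Lib_MP_a29272_sp.par])
  rw [one_pow, one_mul] at h
  exact h

theorem inner_J_eq (x w : EuclideanSpace ℝ (Fin 4)) :
    ⟪MP_a29272_th.J x, w⟫ = Pool.Agent.Lib_MP_a29272_sp.jf x w := by
  simp only [PiLp.inner_apply, Fin.sum_univ_four, MP_a29272_th.J_zero, MP_a29272_th.J_one,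
    MP_a29272_th.J_two, MP_a29272_th.J_three, Pool.Agent.Lib_MP_a29272_sp.jf]
  simp
  ring

theorem inner_Theta_sphere {M : ℕ} (x : EuclideanSpace ℝ (Fin 4)) (hx : ‖x‖ = 1)
    (w : EuclideanSpace ℝ (Fin 4)) : ⟪Theta M x, w⟫ =
      -(3 / (M : ℝ)) * PF M x * (Pool.Agent.Lib_MP_a29272_sp.jf x w +
        1 / (2 * M) * fderiv ℝ (PF M) x w - PF M x * ⟪x, w⟫) := by
  have hg : ⟪gradient (PF M) x, w⟫ = fderiv ℝ (PF M) x w := by
    rw [gradient, InnerProductSpace.toDual_symm_apply]
  rw [Theta, Th, hx, one_pow, sub_self, mul_zero, chi_zero, real_inner_smul_left,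
    inner_sub_left, inner_add_left, real_inner_smul_left, real_inner_smul_left,
    real_inner_smul_left, hg, inner_J_eq]
  ring

/-- the shift fields of the counterexample -/
theorem exists_theta : ∃ A : ℝ, 1 ≤ A ∧ ∀ M : ℕ, 1 ≤ M →
    ∃ Θ : EuclideanSpace ℝ (Fin 4) → EuclideanSpace ℝ (Fin 4),
      Shift A (1 / (M : ℝ)) Θ ∧ Saddle Θ := by
  obtain ⟨A, hA, h⟩ := Theta_bounds
  refine ⟨A + 1, by linarith, fun M hM => ⟨Theta M, ?_, ?_⟩⟩
  · have hM0 : (0 : ℝ) < M := by exact_mod_cast hM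
    refine ⟨Theta_contDiff hM, fun x => inner_Theta hM x, fun x hx => ?_, fun x => ?_,
      fun x => ?_, fun x => ?_⟩
    · refine Theta_eq_zero hM ?_
      refine le_trans ?_ hx.le
      rw [div_div, div_le_div_iff₀ (by positivity) (by positivity)]
      linarith
    · refine (h M hM x).1.trans ?_
      rw [mul_one_div]
      gcongr
      linarith
    · exact (h M hM x).2.1.trans (by linarith)
    · refine (h M hM x).2.2.trans ?_
      rw [div_div_eq_mul_div, div_one]
      gcongr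
      linarith
  · intro x hx
    have hPd : Differentiable ℝ (PF M) := by
      exact (Pool.Agent.LibMPa29272s.P_contDiff M).differentiable (by simp)
    have h2 := Pool.Agent.Lib_MP_a29272_sp.two_signs M hM (PF M) hPd (PF_par M)
      (fun x y h1 h2 => by
        simp only [PF, Pool.Agent.LibMPa29272s.P]
        rw [h1, h2]) (Theta M) (fun x => inner_Theta hM x)
      (fun x hx w => inner_Theta_sphere x hx w) x hx
      ((Theta_contDiff hM).differentiable (by simp) x)
    obtain ⟨⟨e, he, he0, he1⟩, ⟨f, hf, hf0, hf1⟩⟩ := h2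
    exact ⟨⟨e, he0, he, he1⟩, ⟨f, hf0, hf, hf1⟩⟩

end Pool.Agent.Lib_MP_a29272_q1
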