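import Pool.Agent.Lib_MP_a29272_q1.MainOf
import Pool.Agent.Lib_MP_a29272_q1.NoConv
import Pool.Agent.Lib_MP_a29272_q1.ThetaAll

/-! The main theorem in dimension four. -/

namespace Pool.Agent.Lib_MP_a29272_q1

open Set Metric
open scoped ContDiff RealInnerProductSpace

theorem main (ε : ℝ) (hε : 0 < ε) :
    ∃ (R : ℝ) (g : EuclideanSpace ℝ (Fin 4) →
        EuclideanSpace ℝ (Fin 4) →L[ℝ] EuclideanSpace ℝ (Fin 4) →L[ℝ] ℝ),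
      1 < R ∧ R < 1 + ε ∧ (∀ x v, |g x v v - ‖v‖ ^ 2| ≤ ε * ‖v‖ ^ 2) ∧
      IsRiemannianMetric R g ∧ IsSimple R g ∧
      (∀ (τ : ℝ) (γ γ' : ℝ → EuclideanSpace ℝ (Fin 4)), IsGeodesicOn g γ γ' (Icc 0 τ) →
        (∀ t ∈ Icc 0 τ, γ t ∈ closedBall (0 : EuclideanSpace ℝ (Fin 4)) R) →
          (∀ t ∈ Icc 0 τ, g (γ t) (γ' t) (γ' t) = 1) → τ ≤ 5) ∧
      ∀ f : EuclideanSpace ℝ (Fin 4) → ℝ, ContDiffOn ℝ 2 f (ball 0 R) →
        ∃ x ∈ ball (0 : EuclideanSpace ℝ (Fin 4)) R, ∃ v, v ≠ 0 ∧ hessian g f x v v ≤ 0 := by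
  obtain ⟨A, hA, hth⟩ := exists_theta
  refine main_of A hA Saddle (fun Θ hadm hs R hR f hf => no_convex hadm hs hR hf) ?_ ε hε
  intro κ hκ
  obtain ⟨M, hM⟩ := exists_nat_gt (1 / κ)
  have hM0 : (0 : ℝ) < M := lt_trans (by positivity) hM
  have hM1 : 1 ≤ M := by exact_mod_cast hM0
  refine ⟨1 / (M : ℝ), by positivity, ?_, hth M hM1⟩
  rw [one_div, inv_lt_comm₀ hM0 hκ, ← one_div]
  exact hM

end Pool.Agent.Lib_MP_a29272_q1
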