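import Pool.Agent.Lib_MP_a29272_q1.Simple
import Pool.Agent.Lib_MP_a29272_q1.Nontrap

/-! The main theorem for an abstract family of shift fields. -/

namespace Pool.Agent.Lib_MP_a29272_q1

open Set Metric
open scoped ContDiff RealInnerProductSpace

variable {E : Type} [NormedAddCommGroup E] [InnerProductSpace ℝ E] [FiniteDimensional ℝ E]

/-- Admissible shift fields at arbitrarily small scales `δ`, with one constant `A`, and with a
property `Good` which excludes strictly convex functions, give simple metrics without strictly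
convex functions, arbitrarily `C⁰`-close to the flat one. -/
theorem main_of (A : ℝ) (hA : 1 ≤ A) (Good : (E → E) → Prop)
    (hgood : ∀ Θ : E → E, Adm Θ → Good Θ → ∀ R : ℝ, 1 < R → ∀ f : E → ℝ,
      ContDiffOn ℝ 2 f (ball 0 R) →
        ∃ x ∈ ball (0 : E) R, ∃ v, v ≠ 0 ∧ hessian (gT Θ) f x v v ≤ 0)
    (hth : ∀ κ : ℝ, 0 < κ → ∃ δ : ℝ, 0 < δ ∧ δ < κ ∧ ∃ Θ : E → E, Shift A δ Θ ∧ Good Θ)
    (ε : ℝ) (hε : 0 < ε) :
    ∃ (R : ℝ) (g : E → E →L[ℝ] E →L[ℝ] ℝ),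
      1 < R ∧ R < 1 + ε ∧ (∀ x v, |g x v v - ‖v‖ ^ 2| ≤ ε * ‖v‖ ^ 2) ∧
      IsRiemannianMetric R g ∧ IsSimple R g ∧
      (∀ (τ : ℝ) (γ γ' : ℝ → E), IsGeodesicOn g γ γ' (Icc 0 τ) →
        (∀ t ∈ Icc 0 τ, γ t ∈ closedBall (0 : E) R) →
          (∀ t ∈ Icc 0 τ, g (γ t) (γ' t) (γ' t) = 1) → τ ≤ 5) ∧
      ∀ f : E → ℝ, ContDiffOn ℝ 2 f (ball 0 R) →
        ∃ x ∈ ball (0 : E) R, ∃ v, v ≠ 0 ∧ hessian g f x v v ≤ 0 := by
  obtain ⟨δ₁, hδ₁, hsimple⟩ := simple_of_shift (E := E) A hA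
  obtain ⟨δ₂, hδ₂, hnt⟩ := nontrap (E := E) A hA
  obtain ⟨δ, hδ0, hδ, Θ, hΘ, hg⟩ :=
    hth (min (min δ₁ δ₂) (min 1 (ε / (4 * A)))) (by positivity)
  have h1 : δ ≤ δ₁ := hδ.le.trans ((min_le_left _ _).trans (min_le_left _ _))
  have h2 : δ ≤ δ₂ := hδ.le.trans ((min_le_left _ _).trans (min_le_right _ _))
  have h3 : δ < 1 := hδ.trans_le ((min_le_right _ _).trans (min_le_left _ _))
  have h4 : δ < ε / (4 * A) := hδ.trans_le ((min_le_right _ _).trans (min_le_right _ _))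
  have h5 : 4 * A * δ < ε := by
    rw [lt_div_iff₀ (by positivity)] at h4
    linarith
  have hδε : δ < ε := by nlinarith
  obtain ⟨hadm, hsim⟩ := hsimple δ hδ0 h1 Θ hΘ
  have hR1 : 1 < √(1 + δ) := by
    rw [Real.lt_sqrt (by norm_num)]
    linarith
  refine ⟨√(1 + δ), gT Θ, hR1, lt_of_le_of_lt (sqrt_one_add_le hδ0) (by linarith), ?_,
    ⟨gT_contDiff hadm.smooth, gT_symm Θ, fun x _ v hv => gT_pos hadm x hv⟩, hsim,
    hnt δ hδ0 h2 Θ hΘ, fun f hf => hgood Θ hadm hg _ hR1 f hf⟩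
  intro x v
  refine (hΘ.mom_sub_le hA hδ0 h3.le x v).2.1.trans ?_
  gcongr

end Pool.Agent.Lib_MP_a29272_q1
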