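import Pool.Agent.Lib_MP_a29272_s.PBound

/-! The polynomial `P = Re (|z₁| + i |z₂|)^(2M)` on `ℝ⁴ = ℂ²`. -/

namespace Pool.Agent.Lib_MP_a29272_q1

open Finset
open scoped ContDiff RealInnerProductSpace

/-- `ℝ⁴` -/
abbrev E4 : Type := EuclideanSpace ℝ (Fin 4)

/-- `P = Re (|z₁| + i |z₂|)^(2M)`, given by the three term recursion of
`Q M a b = Re (√a + i √b)^(2M)` -/
noncomputable def P (M : ℕ) (x : E4) : ℝ :=
  LibMPa29272s.Q M (x 0 ^ 2 + x 1 ^ 2) (x 2 ^ 2 + x 3 ^ 2)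

theorem contDiff_P (M : ℕ) : ContDiff ℝ ∞ (P M) := LibMPa29272s.P_contDiff M

/-- PIECE POLYBD: step (1) of note 2801. Complex extension, Cauchy estimates. -/
theorem P_bounds : ∃ C : ℝ, 1 ≤ C ∧ ∀ M : ℕ, 1 ≤ M → ∀ x : E4, ‖x‖ ^ 2 ≤ 1 + 1 / (M : ℝ) →
    ∀ k ≤ 3, ‖iteratedFDeriv ℝ k (P M) x‖ ≤ C * (M : ℝ) ^ k := by
  have h9 : 1 ≤ Real.exp 9 := Real.one_le_exp (by norm_num)
  refine ⟨27 * Real.exp 9, by linarith, ?_⟩
  intro M hM x hx k hk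
  have h := LibMPa29272s.P_bound (n := M) (k := k) hM hk x hx
  refine h.trans ?_
  rw [mul_pow]
  have h3 : (3 : ℝ) ^ k ≤ 27 := by
    calc (3 : ℝ) ^ k ≤ 3 ^ 3 := pow_le_pow_right₀ (by norm_num) hk
      _ = 27 := by norm_num
  have hMk : 0 ≤ (M : ℝ) ^ k := by positivity
  calc Real.exp 9 * ((3 : ℝ) ^ k * (M : ℝ) ^ k) ≤ Real.exp 9 * (27 * (M : ℝ) ^ k) := by
        gcongr
    _ = 27 * Real.exp 9 * (M : ℝ) ^ k := by ring

/-- Euler's identity -/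
theorem P_euler' (M : ℕ) (x : E4) : fderiv ℝ (P M) x x = 2 * M * P M x :=
  LibMPa29272s.P_euler M x

theorem P_smul (M : ℕ) (t : ℝ) (x : E4) : P M (t • x) = t ^ (2 * M) * P M x :=
  LibMPa29272s.P_smul M t x

/-- values of `P` in polar coordinates -/
theorem P_polar (M : ℕ) (r θ a b : ℝ) (x : E4) (h0 : x 0 = r * Real.cos θ * Real.cos a)
    (h1 : x 1 = r * Real.cos θ * Real.sin a) (h2 : x 2 = r * Real.sin θ * Real.cos b)
    (h3 : x 3 = r * Real.sin θ * Real.sin b) :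
    P M x = r ^ (2 * M) * Real.cos (2 * M * θ) :=
  LibMPa29272s.P_trig M r θ a b x h0 h1 h2 h3

end Pool.Agent.Lib_MP_a29272_q1
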