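import Pool.Agent.Lib_MP_a29272_q1.Ham
import Pool.Agent.Lib_MP_a29272_q1.Bdry

/-! Convexity near the boundary. -/

namespace Pool.Agent.Lib_MP_a29272_q1

open Set Metric
open scoped ContDiff RealInnerProductSpace

variable {E : Type} [NormedAddCommGroup E] [InnerProductSpace ℝ E] [FiniteDimensional ℝ E]

/-- PIECE STAY: a geodesic with both ends in the ball stays there. If `‖x t‖² > 1 + δ`, let
`(t₁, t₂)` be the component of `{‖x‖² > 1 + δ}`: there the momentum equals the velocity and is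
constant, so `x t` is on the segment between `x t₁` and `x t₂`, which are in the ball. -/
theorem stay {A δ : ℝ} (hδ : 0 < δ) {Θ : E → E} (hΘ : Shift A δ Θ) {x v : ℝ → E}
    (h : HamSol Θ 1 x v) (h0 : ‖x 0‖ ^ 2 ≤ 1 + δ) (h1 : ‖x 1‖ ^ 2 ≤ 1 + δ) :
    ∀ t ∈ Icc (0 : ℝ) 1, ‖x t‖ ^ 2 ≤ 1 + δ := by
  have hR : (√(1 + δ)) ^ 2 = 1 + δ := Real.sq_sqrt (by linarith)
  intro t ht
  have h2 := h.stays_in_ball hΘ zero_le_one (R := √(1 + δ)) (by rw [hR]; linarith)
    (Real.sqrt_nonneg _) (Real.le_sqrt_of_sq_le h0) (Real.le_sqrt_of_sq_le h1) t ht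
  rw [← hR]
  exact pow_le_pow_left₀ (norm_nonneg _) h2 2

/-- PIECE BDRY: near the boundary sphere `gT Θ` is the Euclidean metric -/
theorem boundary {A δ : ℝ} (hδ : 0 < δ) {Θ : E → E} (hΘ : Shift A δ Θ) :
    StrictlyConvexBoundary (√(1 + δ)) (gT Θ) := by
  refine strictlyConvexBoundary hΘ ?_ (Real.sqrt_pos.2 (by linarith))
  rw [Real.sq_sqrt (by linarith)]
  linarith

end Pool.Agent.Lib_MP_a29272_q1
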