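import Pool.Agent.Lib_MP_a29272_q1.Approx
import Pool.Agent.Lib_MP_a29272_q1.ExpMap
import Pool.Agent.Lib_MP_a29272_q1.Stay
import Pool.Agent.Lib_MP_a29272_s.NearId

/-! Simplicity of the metric. -/

namespace Pool.Agent.Lib_MP_a29272_q1

open Set Metric
open scoped ContDiff RealInnerProductSpace NNReal

variable {E : Type} [NormedAddCommGroup E] [InnerProductSpace ℝ E] [FiniteDimensional ℝ E]

theorem sqrt_one_add_le {δ : ℝ} (hδ : 0 < δ) : √(1 + δ) ≤ 1 + δ := by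
  have h := Real.sq_sqrt (show (0 : ℝ) ≤ 1 + δ by linarith)
  have h0 := Real.sqrt_nonneg (1 + δ)
  nlinarith

theorem simple_of_shift (A : ℝ) (hA : 1 ≤ A) : ∃ δ₀ : ℝ, 0 < δ₀ ∧ ∀ δ, 0 < δ → δ ≤ δ₀ →
    ∀ Θ : E → E, Shift A δ Θ → Adm Θ ∧ IsSimple (√(1 + δ)) (gT Θ) := by
  obtain ⟨C, δ₁, hC, hδ₁, hap⟩ := apriori A hA (E := E)
  obtain ⟨δ₂, hδ₂, happ⟩ := exp_approx A (10 * C) hA (by linarith) (E := E)
  refine ⟨min (min δ₁ δ₂) (1 / (100 * A * C)), by positivity, ?_⟩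
  intro δ hδ hle Θ hΘ
  have hδ1 : δ ≤ δ₁ := hle.trans ((min_le_left _ _).trans (min_le_left _ _))
  have hδ2 : δ ≤ δ₂ := hle.trans ((min_le_left _ _).trans (min_le_right _ _))
  have hδ3 : δ * (100 * A * C) ≤ 1 := by
    have h := hle.trans (min_le_right _ _)
    rwa [le_div_iff₀ (by positivity)] at h
  have hAC : 1 ≤ A * C := one_le_mul_of_one_le_of_one_le hA hC
  have hδC : δ * C ≤ 1 / 100 := by
    have : δ * C * 1 ≤ δ * C * A := by gcongr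
    nlinarith
  have hδA : δ * A ≤ 1 / 100 := by
    have : δ * A * 1 ≤ δ * A * C := by gcongr
    nlinarith
  have hδs : δ ≤ 1 / 100 := by
    have : δ * 1 ≤ δ * A := by gcongr
    linarith
  have hadm : Adm Θ := hΘ.adm (by linarith) hδ.le (by linarith) (by linarith)
  have hsm : ∀ x, ‖x‖ * ‖Θ x‖ ≤ 1 / 8 := fun x =>
    (hΘ.norm_mul_le (by linarith) hδ.le (by linarith) x).trans (by linarith)
  set R := √(1 + δ) with hR
  have hR2 : R ^ 2 = 1 + δ := Real.sq_sqrt (by linarith)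
  have hR0 : 0 ≤ R := Real.sqrt_nonneg _
  have hR1 : R ≤ 1 + δ := sqrt_one_add_le hδ
  have hball : ∀ y : E, y ∈ closedBall (0 : E) R ↔ ‖y‖ ^ 2 ≤ 1 + δ := by
    intro y
    rw [mem_closedBall_zero_iff, ← hR2]
    exact (sq_le_sq₀ (norm_nonneg _) hR0).symm
  refine ⟨hadm, boundary hδ hΘ, ?_⟩
  intro x hx
  have hx2 : ‖x‖ ^ 2 ≤ 1 + δ := (hball x).1 hx
  have hxR : ‖x‖ ≤ R := mem_closedBall_zero_iff.1 hx
  have hx3 : ‖x‖ ≤ 2 := by linarith
  obtain ⟨e, he, hev⟩ := exists_exp hadm hsm hx3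
  set U : Set E := ball (-x) (1 + 10 * C * δ) with hU
  have hUopen : IsOpen U := isOpen_ball
  have hmemU : ∀ v : E, v ∈ U ↔ ‖v + x‖ < 1 + 10 * C * δ := by
    intro v
    rw [hU, mem_ball, dist_eq_norm, sub_neg_eq_add]
  have hU3 : ∀ v ∈ U, ‖v‖ ≤ 3 := by
    intro v hv
    have h1 : ‖v‖ ≤ ‖v + x‖ + ‖x‖ := by
      calc ‖v‖ = ‖v + x - x‖ := by rw [add_sub_cancel_right]
        _ ≤ _ := norm_sub_le _ _
    have h2 := (hmemU v).1 hv
    linarith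
  have hnear : A29272S.NearId e U := by
    intro v hv w hw
    have h := happ δ hδ hδ2 Θ hΘ x hx2 e hev v hv w hw
    simpa using h
  -- the estimate for a solution with `‖v‖ ≤ 3` at time `1`
  have hap1 : ∀ (y w : ℝ → E), HamSol Θ 1 y w → y 0 = x →
      ‖y 1 - x - w 0‖ ≤ C * δ * ‖w 0‖ := by
    intro y w hs h0
    have h := (hap δ hδ hδ1 Θ hΘ 1 y w hs (by rw [h0]; exact hx2) 1 ⟨zero_le_one, le_rfl⟩).2
    rw [one_smul, one_mul, h0] at h
    exact h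
  -- uniqueness
  have huniq : ∀ v : E, ‖v‖ ≤ 3 → ∀ (y w : ℝ → E), HamSol Θ 1 y w → y 0 = x → w 0 = v →
      y 1 = e v := by
    intro v hv y w hs h0 h0'
    obtain ⟨y', w', hs', h1, h1', h2⟩ := hev v hv
    rw [← h2]
    exact (HamSol.unique hadm hs hs' (h0.trans h1.symm) (h0'.trans h1'.symm) 1
      ⟨zero_le_one, le_rfl⟩).1
  -- the maximal domain of definition
  have hdom : ∀ v γ, IsGeodesicFrom R (gT Θ) x v γ → v ∈ U ∧ γ 1 = e v := by
    rintro v γ ⟨γ', hg, h0, h0', hin⟩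
    have hs : HamSol Θ 1 γ γ' := IsGeodesicOn.hamSol hadm one_pos hg
    have h1 := hap1 γ γ' hs h0
    rw [h0'] at h1
    have hγ1 : ‖γ 1‖ ≤ R := mem_closedBall_zero_iff.1 (hin 1 ⟨zero_le_one, le_rfl⟩)
    have hv3 : ‖v‖ ≤ 3 := by
      have h2 : ‖v‖ ≤ ‖γ 1 - x - v‖ + ‖γ 1‖ + ‖x‖ := by
        calc ‖v‖ = ‖-(γ 1 - x - v) + γ 1 - x‖ := by congr 1; abel
          _ ≤ ‖-(γ 1 - x - v) + γ 1‖ + ‖x‖ := norm_sub_le _ _
          _ ≤ ‖-(γ 1 - x - v)‖ + ‖γ 1‖ + ‖x‖ := by gcongr; exact norm_add_le _ _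
          _ = _ := by rw [norm_neg]
      have h3 : C * δ * ‖v‖ ≤ 1 / 100 * ‖v‖ := by
        rw [mul_comm C δ]; gcongr
      linarith
    refine ⟨?_, huniq v hv3 γ γ' hs h0 h0'⟩
    rw [hmemU]
    have h2 : ‖v + x‖ ≤ ‖γ 1 - x - v‖ + ‖γ 1‖ := by
      calc ‖v + x‖ = ‖-(γ 1 - x - v) + γ 1‖ := by congr 1; abel
        _ ≤ ‖-(γ 1 - x - v)‖ + ‖γ 1‖ := norm_add_le _ _
        _ = _ := by rw [norm_neg]
    have h3 : C * δ * ‖v‖ ≤ C * δ * 3 := by gcongr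
    have h4 : δ ≤ C * δ := le_mul_of_one_le_left hδ.le hC
    linarith
  obtain ⟨Φ, hsrc, hΦ, hsymm⟩ := hnear.exists_homeo hUopen he.contDiffOn
  refine ⟨Φ, ?_, hsymm, ?_, ?_, ?_⟩
  · exact he.contDiffOn.congr fun v _ => hΦ v
  · rintro v ⟨γ, hγ⟩
    rw [hsrc]
    exact (hdom v γ hγ).1
  · intro v γ hγ
    rw [hΦ, (hdom v γ hγ).2]
  · apply Subset.antisymm
    · rintro _ ⟨v, ⟨γ, hγ⟩, rfl⟩
      rw [hΦ, ← (hdom v γ hγ).2]
      obtain ⟨γ', -, -, -, hin⟩ := hγ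
      exact hin 1 ⟨zero_le_one, le_rfl⟩
    · intro y hy
      have hyR : ‖y‖ ≤ R := mem_closedBall_zero_iff.1 hy
      have hyx : ‖y - x‖ ≤ 3 := (norm_sub_le _ _).trans (by linarith)
      have hsub : closedBall (y - x) (2 * (3 * (C * δ))) ⊆ U := by
        intro v hv
        rw [hmemU]
        rw [mem_closedBall, dist_eq_norm] at hv
        have h2 : ‖v + x‖ ≤ ‖v - (y - x)‖ + ‖y‖ := by
          calc ‖v + x‖ = ‖v - (y - x) + y‖ := by congr 1; abel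
            _ ≤ _ := norm_add_le _ _
        have h4 : δ ≤ C * δ := le_mul_of_one_le_left hδ.le hC
        nlinarith
      have hey : ‖e (y - x) - y‖ ≤ 3 * (C * δ) := by
        obtain ⟨z, w, hs, h0, h0', h1⟩ := hev (y - x) hyx
        have h := hap1 z w hs h0
        rw [h0', h1] at h
        have h5 : e (y - x) - x - (y - x) = e (y - x) - y := by abel
        rw [h5] at h
        refine h.trans ?_
        have : C * δ * ‖y - x‖ ≤ C * δ * 3 := by gcongr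
        linarith
      obtain ⟨v, hv, hvy⟩ := hnear.surj (by positivity) hsub hey
      have hvU := hsub hv
      obtain ⟨z, w, hs, h0, h0', h1⟩ := hev v (hU3 v hvU)
      have hz1 : z 1 = y := h1.trans hvy
      have hst := stay hδ hΘ hs (by rw [h0]; exact hx2) (by rw [hz1]; exact (hball y).1 hy)
      refine ⟨v, ⟨z, w, hs.isGeodesicOn hadm one_pos, h0, h0', fun t ht =>
        (hball _).2 (hst t ht)⟩, ?_⟩
      rw [hΦ, hvy]

end Pool.Agent.Lib_MP_a29272_q1
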