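import Pool.Agent.Lib_MP_a29272_q1.Defs
import Pool.Agent.Lib_MP_a29272_q1.Poly

/-! The shift field. -/

namespace Pool.Agent.Lib_MP_a29272_q1

open Finset
open scoped ContDiff RealInnerProductSpace

/-- multiplication by `i` -/
noncomputable def J (x : E4) : E4 := !₂[-x 1, x 0, -x 3, x 2]

/-- the shift field -/
noncomputable def theta (χ : ℝ → ℝ) (M : ℕ) (x : E4) : E4 :=
  (-(3 / (M : ℝ)) * χ ((M : ℝ) * (‖x‖ ^ 2 - 1)) * P M x) •
    (‖x‖ ^ 2 • J x + (1 / (2 * (M : ℝ))) •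
      (‖x‖ ^ 2 • gradient (P M) x - (2 * (M : ℝ) * P M x) • x))

/-- a cut off function -/
structure Cut (χ : ℝ → ℝ) : Prop where
  smooth : ContDiff ℝ ∞ χ
  one : χ 0 = 1
  supp : ∀ t, 1 / 2 < |t| → χ t = 0

theorem exists_cut : ∃ χ, Cut χ := by
  sorry

end Pool.Agent.Lib_MP_a29272_q1
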