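import Pool.Agent.Lib_MP_a29272_q1.Theta

/-! Bounds for the shift field. -/

namespace Pool.Agent.Lib_MP_a29272_q1

open Finset
open scoped ContDiff RealInnerProductSpace

theorem theta_contDiff {χ : ℝ → ℝ} (hχ : Cut χ) (M : ℕ) : ContDiff ℝ ∞ (theta χ M) := by
  sorry

/-- Euler's identity for the homogeneous polynomial `P` of degree `2M` -/
theorem P_euler (M : ℕ) (x : E4) : fderiv ℝ (P M) x x = 2 * M * P M x := by
  sorry

theorem theta_orth (χ : ℝ → ℝ) (M : ℕ) (hM : 1 ≤ M) (x : E4) : ⟪x, theta χ M x⟫ = 0 := by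
  sorry

/-- PIECE THETABD: Leibniz rule (`ContinuousLinearMap.norm_iteratedFDeriv_le_of_bilinear`,
`norm_iteratedFDeriv_mul_le`, `norm_iteratedFDeriv_fderiv`) for functions `f` with
`‖iteratedFDeriv ℝ k f x‖ ≤ C M^k`, `k ≤ 2`, at all `x` in the shell
`|‖x‖² - 1| ≤ 1 / M`; off the smaller shell everything is `0`. -/
theorem theta_shift {χ : ℝ → ℝ} (hχ : Cut χ) : ∃ A : ℝ, 1 ≤ A ∧ ∀ M : ℕ, 1 ≤ M →
    Shift A (1 / (M : ℝ)) (theta χ M) := by
  sorry

end Pool.Agent.Lib_MP_a29272_q1
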