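import Pool.Agent.Lib_MP_a29272_q1.Theta
import Pool.Agent.Lib_MP_a29272_sp.SPart

/-! The unit sphere is nowhere definite. -/

namespace Pool.Agent.Lib_MP_a29272_q1

open Finset
open scoped ContDiff RealInnerProductSpace

namespace ThetaSad

theorem J_contDiff : ContDiff ℝ ∞ J := by
  rw [contDiff_euclidean]
  intro i
  fin_cases i
  · have : (fun x : E4 => J x 0) = fun x => -(x 1) := by ext x; simp [J]
    simp only [Fin.zero_eta]
    rw [this]; fun_prop
  · have : (fun x : E4 => J x 1) = fun x => x 0 := by ext x; simp [J]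
    simp only [Fin.mk_one]
    rw [this]; fun_prop
  · have : (fun x : E4 => J x 2) = fun x => -(x 3) := by ext x; simp [J]
    simp only [Fin.reduceFinMk]
    rw [this]; fun_prop
  · have : (fun x : E4 => J x 3) = fun x => x 2 := by ext x; simp [J]
    simp only [Fin.reduceFinMk]
    rw [this]; fun_prop

theorem grad_contDiff (M : ℕ) : ContDiff ℝ ∞ (gradient (P M)) := by
  have h : ContDiff ℝ ∞ (fderiv ℝ (P M)) := (contDiff_P M).fderiv_right (by norm_cast)
  have h2 : gradient (P M) = fun x => (InnerProductSpace.toDual ℝ E4).symm (fderiv ℝ (P M) x) := by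
    ext x
    rfl
  rw [h2]
  exact (InnerProductSpace.toDual ℝ E4).symm.toContinuousLinearEquiv.contDiff.comp h

theorem theta_smooth {χ : ℝ → ℝ} (hχ : Cut χ) (M : ℕ) : ContDiff ℝ ∞ (theta χ M) := by
  have hn : ContDiff ℝ ∞ (fun x : E4 => ‖x‖ ^ 2) := contDiff_norm_sq ℝ
  have hc : ContDiff ℝ ∞ (fun x : E4 => χ ((M : ℝ) * (‖x‖ ^ 2 - 1))) :=
    hχ.smooth.comp (contDiff_const.mul (hn.sub contDiff_const))
  have hP := contDiff_P M
  have hJ := J_contDiff
  have hg := grad_contDiff M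
  have h1 : ContDiff ℝ ∞ (fun x : E4 => ‖x‖ ^ 2 • J x) := hn.smul hJ
  have h2 : ContDiff ℝ ∞ (fun x : E4 => ‖x‖ ^ 2 • gradient (P M) x) := hn.smul hg
  have h3 : ContDiff ℝ ∞ (fun x : E4 => (2 * (M : ℝ) * P M x) • x) :=
    (contDiff_const.mul hP).smul contDiff_id
  have h4 : ContDiff ℝ ∞ (fun x : E4 => (1 / (2 * (M : ℝ))) •
      (‖x‖ ^ 2 • gradient (P M) x - (2 * (M : ℝ) * P M x) • x)) :=
    (h2.sub h3).const_smul _
  have h5 : ContDiff ℝ ∞ (fun x : E4 =>
      -(3 / (M : ℝ)) * χ ((M : ℝ) * (‖x‖ ^ 2 - 1)) * P M x) :=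
    (contDiff_const.mul hc).mul hP
  exact h5.smul (h1.add h4)

theorem inner_J (x w : E4) : ⟪J x, w⟫ = x 0 * w 1 - x 1 * w 0 + x 2 * w 3 - x 3 * w 2 := by
  rw [PiLp.inner_apply, Fin.sum_univ_four]
  simp [J]
  ring

theorem inner_grad (M : ℕ) (x w : E4) : ⟪gradient (P M) x, w⟫ = fderiv ℝ (P M) x w := by
  have := InnerProductSpace.toDual_symm_apply (𝕜 := ℝ) (E := E4) (x := w)
    (y := fderiv ℝ (P M) x)
  exact this

theorem inner_theta (χ : ℝ → ℝ) (M : ℕ) (x w : E4) : ⟪theta χ M x, w⟫ =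
    (-(3 / (M : ℝ)) * χ ((M : ℝ) * (‖x‖ ^ 2 - 1)) * P M x) *
      (‖x‖ ^ 2 * (x 0 * w 1 - x 1 * w 0 + x 2 * w 3 - x 3 * w 2) + (1 / (2 * (M : ℝ))) *
        (‖x‖ ^ 2 * fderiv ℝ (P M) x w - (2 * (M : ℝ) * P M x) * ⟪x, w⟫)) := by
  rw [theta, real_inner_smul_left, inner_add_left, real_inner_smul_left, inner_J,
    real_inner_smul_left, inner_sub_left, real_inner_smul_left, inner_grad,
    real_inner_smul_left]

theorem theta_tangent (χ : ℝ → ℝ) (M : ℕ) (x : E4) : ⟪x, theta χ M x⟫ = 0 := by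
  rw [real_inner_comm, inner_theta, P_euler', real_inner_self_eq_norm_sq]
  ring

end ThetaSad

open ThetaSad

/-- step (2) of note 2801 -/
theorem theta_saddle {χ : ℝ → ℝ} (hχ : Cut χ) (M : ℕ) (hM : 1 ≤ M) : Saddle (theta χ M) := by
  intro p hp
  have hM' : (M : ℝ) ≠ 0 := by
    have : 0 < M := hM
    exact_mod_cast this.ne'
  have h := Pool.Agent.Lib_MP_a29272_sp.two_signs M hM (P M)
    ((contDiff_P M).differentiable (by simp))
    (by
      intro s a b
      have := P_polar M 1 s a b (Pool.Agent.Lib_MP_a29272_sp.par s a b)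
        (by simp [Pool.Agent.Lib_MP_a29272_sp.par]) (by simp [Pool.Agent.Lib_MP_a29272_sp.par])
        (by simp [Pool.Agent.Lib_MP_a29272_sp.par]) (by simp [Pool.Agent.Lib_MP_a29272_sp.par])
      simpa using this)
    (by
      intro x y h1 h2
      rw [P, P, h1, h2])
    (theta χ M) (theta_tangent χ M)
    (by
      intro x hx w
      rw [inner_theta, hx, Pool.Agent.Lib_MP_a29272_sp.jf]
      simp only [one_pow, sub_self, mul_zero, hχ.one, mul_one, one_mul]
      field_simp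
      ring)
    p hp (((theta_smooth hχ M).differentiable (by simp)) p)
  obtain ⟨⟨e, he0, hpe, he⟩, e', he0', hpe', he'⟩ := h
  exact ⟨⟨e, hpe, he0, he⟩, e', hpe', he0', he'⟩

end Pool.Agent.Lib_MP_a29272_q1
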